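import Pool.Agent.Lib.MP_bf61d2_nt.Artin.H38
import Pool.Agent.Lib.MP_bf61d2_nt.Artin.E38

set_option autoImplicit false

/-!
ARTIN EDGE (MP_bf61d2_nt), module C: the theorem of Chebotarev with the twists `n ^ (-i u)`.
-/

namespace Pool.Agent.Lib.MP_bf61d2_nt.Artin

open NumberField IsDedekindDomain Filter Topology Polynomial Module
open Pool.Agent.Lib.MP_bf61d2_nt.Perm
open scoped Classical nonZeroDivisors

namespace X38

/-- Functions that agree outside a finite set of places. -/
lemma SC_congr_fin {K : Type*} [Field K] [NumberField K] {a b : HeightOneSpectrum (𝓞 K) → ℂ}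
    {A : ℝ} (ha : ∀ v, ‖a v‖ ≤ A) (hb : ∀ v, ‖b v‖ ≤ A) (h : {v | a v ≠ b v}.Finite) :
    ∃ C : ℝ, 0 ≤ C ∧ ∀ σ : ℝ, 1 < σ → ‖SC σ a - SC σ b‖ ≤ C := by
  set S := h.toFinset with hS
  refine ⟨∑ v ∈ S, ‖a v - b v‖, Finset.sum_nonneg fun _ _ => norm_nonneg _, fun σ hσ => ?_⟩
  unfold SC
  rw [← (summable_SC hσ ha).tsum_sub (summable_SC hσ hb)]
  have hg : HasSum (fun v => if v ∈ S then ‖a v - b v‖ else 0) (∑ v ∈ S, ‖a v - b v‖) := by
    have h3 : HasSum (fun v => if v ∈ S then ‖a v - b v‖ else 0)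
        (∑ v ∈ S, if v ∈ S then ‖a v - b v‖ else 0) :=
      hasSum_sum_of_ne_finset_zero fun v hv => if_neg hv
    rwa [Finset.sum_congr rfl fun v hv => if_pos hv] at h3
  refine tsum_of_norm_bounded hg fun v => ?_
  rw [← mul_sub, norm_mul, Complex.norm_real, Real.norm_eq_abs, abs_of_pos (wp_pos σ v)]
  split_ifs with hv
  · calc wp σ v * ‖a v - b v‖ ≤ 1 * ‖a v - b v‖ :=
          mul_le_mul_of_nonneg_right ((wp_le_half hσ.le v).trans (by norm_num)) (norm_nonneg _)
      _ = _ := one_mul _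
  · have : a v = b v := by
      by_contra hcon
      exact hv (h.mem_toFinset.mpr hcon)
    rw [this, sub_self, norm_zero, mul_zero]

lemma star_conj {G A : Type*} [Group G] [CommRing A] {c : G →* Aˣ} {g g' : G} (h : IsConj g g')
    (hg : Star c g) : Star c g' := by
  obtain ⟨a, rfl⟩ := isConj_iff.1 h
  intro y hy hc
  have hca : ∀ z : G, c (a⁻¹ * z * a) = c z := fun z => by
    rw [map_mul, map_mul, map_inv, mul_comm, ← mul_assoc, mul_inv_cancel, one_mul]
  have hca' : c (a * g * a⁻¹) = c g := by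
    rw [map_mul, map_mul, map_inv, mul_comm (c a), mul_assoc, mul_inv_cancel, mul_one]
  have h1 : a⁻¹ * y * a ∈ Subgroup.zpowers g := by
    obtain ⟨k, rfl⟩ := Subgroup.mem_zpowers_iff.1 hy
    rw [Subgroup.mem_zpowers_iff]
    refine ⟨k, ?_⟩
    rw [conj_zpow]
    group
  have h2 := hg _ h1 (by rw [hca, ← hca']; exact hc)
  rw [← h2]
  group

lemma isConj_class {G : Type*} [Group G] {f : G → ℂ} (hf : IsClassFn f) {g h : G}
    (hgh : IsConj g h) : f g = f h := by
  obtain ⟨a, rfl⟩ := isConj_iff.1 hgh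
  exact (hf g a).symm

section

variable {K L : Type*} [Field K] [NumberField K] [Field L] [NumberField L] [Algebra K L]
  [IsGalois K L] [Fintype Gal(L/K)]

/-- Class functions supported on the separated elements. -/
lemma ceq_star {Fr : HeightOneSpectrum (𝓞 K) → Gal(L/K)} (hFr : ∀ v, IsFr v (Fr v))
    {m : ℕ} [NeZero m] (hm : 2 < m) {ζ : L} (hζ : IsPrimitiveRoot ζ m) {F : Gal(L/K) → ℂ}
    (hF : IsClassFn F) : CEq Fr (fun g => if Star (hζ.autToPow K) g then F g else 0) := by
  set c := hζ.autToPow K with hc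
  set N : Gal(L/K) → ℕ := fun g => (Finset.univ.filter fun x : Gal(L/K) => IsConj g x).card with hN
  have hN0 : ∀ g, N g ≠ 0 := fun g => by
    have : g ∈ Finset.univ.filter fun x : Gal(L/K) => IsConj g x :=
      Finset.mem_filter.2 ⟨Finset.mem_univ _, IsConj.refl g⟩
    exact Finset.card_ne_zero_of_mem this
  have hNc : ∀ g h, IsConj g h → N g = N h := by
    intro g h hgh
    rw [hN]
    simp only
    congr 1
    ext x
    simp only [Finset.mem_filter, Finset.mem_univ, true_and]
    exact ⟨fun hx => hgh.symm.trans hx, fun hx => hgh.trans hx⟩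
  have e : (fun g : Gal(L/K) => if Star c g then F g else 0) =
      ∑ g₀ ∈ Finset.univ.filter (fun g₀ : Gal(L/K) => Star c g₀), (F g₀ / N g₀) •
        (fun g : Gal(L/K) => if IsConj g₀ g then (1 : ℂ) else 0) := by
    funext g
    rw [Finset.sum_apply]
    simp only [Pi.smul_apply, smul_eq_mul, mul_ite, mul_one, mul_zero]
    by_cases hg : Star c g
    · rw [if_pos hg, ← Finset.sum_filter]
      have h1 : (Finset.univ.filter (fun g₀ : Gal(L/K) => Star c g₀)).filter
          (fun g₀ => IsConj g₀ g) = Finset.univ.filter fun x : Gal(L/K) => IsConj g x := by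
        ext x
        simp only [Finset.mem_filter, Finset.mem_univ, true_and]
        exact ⟨fun hx => hx.2.symm, fun hx => ⟨star_conj hx hg, hx.symm⟩⟩
      rw [h1]
      have h2 : ∀ x ∈ Finset.univ.filter (fun x : Gal(L/K) => IsConj g x),
          F x / N x = F g / N g := by
        intro x hx
        rw [Finset.mem_filter] at hx
        rw [isConj_class hF hx.2, hNc _ _ hx.2]
      rw [Finset.sum_congr rfl h2, Finset.sum_const, nsmul_eq_mul]
      have h3 : ((Finset.univ.filter (fun x : Gal(L/K) => IsConj g x)).card : ℂ) = N g := rfl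
      rw [h3]
      have h4 : (N g : ℂ) ≠ 0 := Nat.cast_ne_zero.mpr (hN0 g)
      field_simp
    · rw [if_neg hg]
      symm
      refine Finset.sum_eq_zero fun g₀ hg₀ => ?_
      rw [Finset.mem_filter] at hg₀
      rw [if_neg]
      intro h
      exact hg (star_conj h hg₀.2)
  rw [e]
  refine CEq.sum _ _ fun g₀ hg₀ => ?_
  rw [Finset.mem_filter] at hg₀
  exact (ceq_class hFr hm hζ hg₀.2).smul _

end

lemma sum_comp_surj {G G' : Type*} [Group G] [Group G'] [Fintype G] [Fintype G'] (φ : G' →* G)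
    (hφ : Function.Surjective φ) (f : G → ℂ) :
    (∑ x, f (φ x)) / (Fintype.card G' : ℂ) = (∑ g, f g) / (Fintype.card G : ℂ) := by
  set k : ℕ := (Finset.univ.filter fun x : G' => φ x = 1).card with hk
  have hfib : ∀ g : G, (Finset.univ.filter fun x : G' => φ x = g).card = k := fun g => by
    rw [hk]
    exact MonoidHom.card_fiber_eq_of_mem_range φ (hφ g) (hφ 1)
  have h1 : ∀ h : G → ℂ, ∑ x, h (φ x) = k * ∑ g, h g := by
    intro h
    rw [← Finset.sum_fiberwise Finset.univ φ (fun x => h (φ x)), Finset.mul_sum]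
    refine Finset.sum_congr rfl fun g _ => ?_
    have h2 : ∀ x ∈ Finset.univ.filter (fun x : G' => φ x = g), h (φ x) = h g := by
      intro x hx
      rw [Finset.mem_filter] at hx
      rw [hx.2]
    rw [Finset.sum_congr rfl h2, Finset.sum_const, hfib, nsmul_eq_mul]
  have h2 := h1 (fun _ => 1)
  simp only [Finset.sum_const, Finset.card_univ, nsmul_eq_mul, mul_one] at h2
  have h3 : (Fintype.card G : ℂ) ≠ 0 := Nat.cast_ne_zero.mpr Fintype.card_ne_zero
  have h4 : (Fintype.card G' : ℂ) ≠ 0 := Nat.cast_ne_zero.mpr Fintype.card_ne_zero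
  have h5 : (k : ℂ) ≠ 0 := by
    intro h
    rw [h, zero_mul] at h2
    exact h4 h2
  rw [h1 f, h2]
  field_simp

lemma tendsto_log_atTop : Tendsto (fun σ : ℝ => Real.log (1 / (σ - 1))) (𝓝[>] 1) atTop := by
  have h1 : Tendsto (fun σ : ℝ => σ - 1) (𝓝[>] 1) (𝓝[>] 0) := by
    refine tendsto_nhdsWithin_iff.2 ⟨?_, ?_⟩
    · have : Tendsto (fun σ : ℝ => σ - 1) (𝓝 1) (𝓝 (1 - 1)) := tendsto_id.sub_const 1
      rw [sub_self] at this
      exact this.mono_left nhdsWithin_le_nhds
    · filter_upwards [self_mem_nhdsWithin] with σ hσ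
      have : (1 : ℝ) < σ := hσ
      exact sub_pos.2 this
  have h2 := Real.tendsto_log_nhdsGT_zero.comp h1
  have h3 : (fun σ : ℝ => Real.log (1 / (σ - 1))) = fun σ => -(Real.log ∘ fun σ : ℝ => σ - 1) σ := by
    funext σ
    rw [one_div, Real.log_inv]
    rfl
  rw [h3]
  exact tendsto_neg_atBot_atTop.comp h2

section

variable {K M : Type*} [Field K] [NumberField K] [Field M] [NumberField M] [Algebra K M]
  [IsGalois K M] [Fintype Gal(M/K)]

/-- The step from an extension with a large cyclotomic part. -/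
lemma cheb_step {L : Type*} [Field L] [NumberField L] [Algebra K L] [Algebra M L]
    [IsScalarTower K M L] [IsGalois K L] [Fintype Gal(L/K)]
    {Fr : HeightOneSpectrum (𝓞 K) → Gal(M/K)} (hFr : ∀ v, IsFr v (Fr v))
    {FrL : HeightOneSpectrum (𝓞 K) → Gal(L/K)} (hFrL : ∀ v, IsFr v (FrL v))
    {m : ℕ} [NeZero m] (hm : 2 < m) {ζ : L} (hζ : IsPrimitiveRoot ζ m)
    {f : Gal(M/K) → ℂ} (hf : IsClassFn f) {A η : ℝ} (hA : 0 < A) (hfA : ∀ g, ‖f g‖ ≤ A)
    (hη : 0 ≤ η) (hcard : (Nat.card {g : Gal(L/K) // ¬ Star (hζ.autToPow K) g} : ℝ) ≤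
      η * Nat.card Gal(L/K)) (u : ℝ) :
    ∃ C : ℝ, 0 ≤ C ∧ ∀ᶠ σ : ℝ in 𝓝[>] 1,
      ‖SC σ (fun v => f (Fr v) * ph u (nm v)) -
        (if u = 0 then (∑ g, f g) / Fintype.card Gal(M/K) else 0) * (Real.log (1 / (σ - 1)) : ℝ)‖ ≤
      2 * A * η * Real.log (1 / (σ - 1)) + C := by
  have hfd : FiniteDimensional K M := Module.Finite.of_restrictScalars_finite ℚ K M
  have hfd2 : FiniteDimensional K L := Module.Finite.of_restrictScalars_finite ℚ K L
  set c := hζ.autToPow K with hc
  set res : Gal(L/K) →* Gal(M/K) := AlgEquiv.restrictNormalHom M with hres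
  have hsurj : Function.Surjective res := AlgEquiv.restrictNormalHom_surjective L
  set F : Gal(L/K) → ℂ := fun g => f (res g) with hFdef
  have hF : IsClassFn F := fun g h => by
    rw [hFdef]
    simp only [map_mul, map_inv]
    exact hf _ _
  have hFA : ∀ g, ‖F g‖ ≤ A := fun g => hfA _
  -- finitely many exceptions
  obtain ⟨C₀, hC₀0, hC₀⟩ := SC_congr_fin (K := K) (a := fun v => f (Fr v) * ph u (nm v))
    (b := fun v => F (FrL v) * ph u (nm v)) (A := A)
    (fun v => by rw [norm_mul, ph_norm, mul_one]; exact hfA _)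
    (fun v => by rw [norm_mul, ph_norm, mul_one]; exact hFA _)
    (by
      refine (finite_not_conj K M).subset fun v hv => ?_
      refine ⟨Fr v, res (FrL v), hFr v, isFr_restrict (hFrL v), fun hcon => hv ?_⟩
      show f (Fr v) * ph u (nm v) = f (res (FrL v)) * ph u (nm v)
      rw [isConj_class hf hcon])
  -- the separated part
  set F1 : Gal(L/K) → ℂ := fun g => if Star c g then F g else 0 with hF1
  set F2 : Gal(L/K) → ℂ := fun g => if Star c g then 0 else F g with hF2
  set I1 : Gal(L/K) → ℂ := fun g => if Star c g then 1 else 0 with hI1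
  obtain ⟨C₁, hC₁0, hC₁⟩ := ceq_star hFrL hm hζ hF u
  obtain ⟨C₂, hC₂0, hC₂⟩ := ceq_star hFrL hm hζ (F := fun _ => 1) (fun _ _ => rfl) 0
  obtain ⟨C₃, hC₃0, hC₃⟩ := PS_bound K
  refine ⟨C₀ + C₁ + A * (C₂ + C₃), by positivity, ?_⟩
  have hlog := (tendsto_log_atTop.eventually_ge_atTop 0)
  filter_upwards [hC₁, hC₂, hC₃, hlog, self_mem_nhdsWithin] with σ h1 h2 h3 hlog hσ
  have hσ' : 1 < σ := hσ
  set Lg : ℝ := Real.log (1 / (σ - 1)) with hLg
  set n : ℝ := (Fintype.card Gal(L/K) : ℝ) with hn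
  have hn0 : 0 < n := by rw [hn]; exact_mod_cast Fintype.card_pos
  -- densities
  set k : ℝ := (Nat.card {g : Gal(L/K) // ¬ Star c g} : ℝ) with hk
  have hkn : k / n ≤ η := by
    rw [div_le_iff₀ hn0, hn, ← Nat.card_eq_fintype_card]
    exact hcard
  have hk2 : k = ∑ g : Gal(L/K), if Star c g then (0 : ℝ) else 1 := by
    have h4 : Nat.card {g : Gal(L/K) // ¬ Star c g} =
        (Finset.univ.filter fun g : Gal(L/K) => ¬ Star c g).card := by
      rw [Nat.card_eq_fintype_card, Fintype.card_subtype]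
    rw [hk, h4, Finset.card_filter]
    push_cast
    refine Finset.sum_congr rfl fun g _ => ?_
    by_cases hg : Star c g <;> simp [hg]
  have hk3 : ∑ g : Gal(L/K), (if Star c g then (1 : ℝ) else 0) = n - k := by
    rw [hk2, hn, ← Finset.card_univ, eq_sub_iff_add_eq, ← Finset.sum_add_distrib]
    have : ∀ g ∈ (Finset.univ : Finset Gal(L/K)),
        ((if Star c g then (1 : ℝ) else 0) + if Star c g then 0 else 1) = 1 := by
      intro g _
      split_ifs <;> norm_num
    rw [Finset.sum_congr rfl this]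
    simp
  -- the sums
  set X : ℂ := SC σ (fun v => f (Fr v) * ph u (nm v)) with hX
  set Y : ℂ := SC σ (fun v => F (FrL v) * ph u (nm v)) with hY
  set Y1 : ℂ := SC σ (fun v => F1 (FrL v) * ph u (nm v)) with hY1
  set Y2 : ℂ := SC σ (fun v => F2 (FrL v) * ph u (nm v)) with hY2
  have hYY : Y = Y1 + Y2 := by
    rw [hY, hY1, hY2]
    unfold SC
    rw [← (summable_SC hσ' (bdd_fr FrL F1 u)).tsum_add (summable_SC hσ' (bdd_fr FrL F2 u))]
    refine tsum_congr fun v => ?_
    have h4 : F (FrL v) = F1 (FrL v) + F2 (FrL v) := by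
      rw [hF1, hF2]
      simp only
      split_ifs <;> simp
    show (wp σ v : ℂ) * (F (FrL v) * ph u (nm v)) = _
    rw [h4]
    ring
  have hd0 : ‖X - Y‖ ≤ C₀ := hC₀ σ hσ'
  -- the rest
  have hY2b : ‖Y2‖ ≤ A * (η * Lg + C₂ + C₃) := by
    set Z : ℂ := SC σ (fun v => (if Star c (FrL v) then (1 : ℂ) else 0) * ph 0 (nm v)) with hZ
    have hph0 : ∀ n : ℕ, ph 0 n = 1 := fun n => by simp [ph]
    have hsZ : Summable fun v : HeightOneSpectrum (𝓞 K) =>
        wp σ v * (if Star c (FrL v) then (1 : ℝ) else 0) :=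
      summable_mul_bdd (summable_wp (K := K) hσ') (fun v => (wp_pos σ v).le) (B := 1) fun v => by
        split_ifs <;> norm_num
    have hsZ2 : Summable fun v : HeightOneSpectrum (𝓞 K) =>
        wp σ v * (if Star c (FrL v) then (0 : ℝ) else 1) :=
      summable_mul_bdd (summable_wp (K := K) hσ') (fun v => (wp_pos σ v).le) (B := 1) fun v => by
        split_ifs <;> norm_num
    have hZr : Z = ((∑' v : HeightOneSpectrum (𝓞 K),
        wp σ v * (if Star c (FrL v) then (1 : ℝ) else 0) : ℝ) : ℂ) := by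
      rw [hZ, SC, Complex.ofReal_tsum]
      refine tsum_congr fun v => ?_
      rw [hph0]
      push_cast
      split_ifs <;> simp
    have hsplit : PS K σ = ∑' v : HeightOneSpectrum (𝓞 K),
        wp σ v * (if Star c (FrL v) then (1 : ℝ) else 0) +
        ∑' v : HeightOneSpectrum (𝓞 K), wp σ v * (if Star c (FrL v) then (0 : ℝ) else 1) := by
      rw [← hsZ.tsum_add hsZ2, PS]
      refine tsum_congr fun v => ?_
      split_ifs <;> ring
    have hmean : (∑ g : Gal(L/K), (if Star c g then (fun _ => (1 : ℂ)) g else 0)) /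
        (Fintype.card Gal(L/K) : ℂ) = ((1 - k / n : ℝ) : ℂ) := by
      have h4 : (∑ g : Gal(L/K), (if Star c g then (fun _ => (1 : ℂ)) g else 0)) =
          ((n - k : ℝ) : ℂ) := by
        rw [← hk3]
        push_cast
        refine Finset.sum_congr rfl fun g _ => ?_
        split_ifs <;> simp
      rw [h4]
      have h5 : (Fintype.card Gal(L/K) : ℂ) = ((n : ℝ) : ℂ) := by rw [hn]; push_cast; rfl
      rw [h5, ← Complex.ofReal_div, sub_div, div_self hn0.ne']
    have h4 : |(∑' v : HeightOneSpectrum (𝓞 K),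
        wp σ v * (if Star c (FrL v) then (1 : ℝ) else 0)) - (1 - k / n) * Lg| ≤ C₂ := by
      have h5 := h2
      rw [if_pos rfl, hmean] at h5
      rw [hZr, ← Complex.ofReal_mul, ← Complex.ofReal_sub, Complex.norm_real,
        Real.norm_eq_abs] at h5
      exact h5
    have h5 : ‖Y2‖ ≤ A * ∑' v : HeightOneSpectrum (𝓞 K),
        wp σ v * (if Star c (FrL v) then (0 : ℝ) else 1) := by
      rw [hY2, SC]
      refine tsum_of_norm_bounded (hsZ2.hasSum.mul_left A) fun v => ?_
      rw [norm_mul, norm_mul, ph_norm, mul_one, Complex.norm_real, Real.norm_eq_abs,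
        abs_of_pos (wp_pos σ v), hF2]
      simp only
      split_ifs
      · simp
      · rw [mul_one, mul_comm A]
        exact mul_le_mul_of_nonneg_left (hFA _) (wp_pos σ v).le
    refine h5.trans (mul_le_mul_of_nonneg_left ?_ hA.le)
    have h6 := abs_le.1 h4
    have h7 := abs_le.1 h3
    have h8 : k / n * Lg ≤ η * Lg := mul_le_mul_of_nonneg_right hkn hlog
    nlinarith [h6.1, h6.2, h7.1, h7.2]
  -- the mean values
  have hmd : ‖(if u = 0 then (∑ g, F1 g) / (Fintype.card Gal(L/K) : ℂ) else 0) * (Lg : ℂ) -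
      (if u = 0 then (∑ g, f g) / (Fintype.card Gal(M/K) : ℂ) else 0) * (Lg : ℂ)‖ ≤
      A * η * Lg := by
    rw [← sub_mul, norm_mul, Complex.norm_real, Real.norm_eq_abs, abs_of_nonneg hlog]
    refine mul_le_mul_of_nonneg_right ?_ hlog
    split_ifs with hu
    · rw [← sum_comp_surj res hsurj f, ← sub_div, norm_div]
      have h4 : ‖(Fintype.card Gal(L/K) : ℂ)‖ = n := by
        rw [Complex.norm_natCast]
      rw [h4, div_le_iff₀ hn0]
      have h5 : ‖∑ g, F1 g - ∑ g, f (res g)‖ ≤ A * k := by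
        rw [← Finset.sum_sub_distrib]
        refine (norm_sum_le _ _).trans ?_
        rw [hk2, Finset.mul_sum]
        refine Finset.sum_le_sum fun g _ => ?_
        rw [hF1]
        simp only
        split_ifs
        · rw [hFdef]; simp
        · rw [zero_sub, norm_neg, mul_one]
          exact hfA _
      refine h5.trans ?_
      have h6 : k ≤ η * n := by rwa [div_le_iff₀ hn0] at hkn
      nlinarith
    · rw [sub_self, norm_zero]
      positivity
  calc ‖X - (if u = 0 then (∑ g, f g) / (Fintype.card Gal(M/K) : ℂ) else 0) * (Lg : ℂ)‖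
      = ‖(X - Y) + (Y1 - (if u = 0 then (∑ g, F1 g) / (Fintype.card Gal(L/K) : ℂ) else 0) *
          (Lg : ℂ)) + Y2 + ((if u = 0 then (∑ g, F1 g) / (Fintype.card Gal(L/K) : ℂ) else 0) *
          (Lg : ℂ) - (if u = 0 then (∑ g, f g) / (Fintype.card Gal(M/K) : ℂ) else 0) *
          (Lg : ℂ))‖ := by
        congr 1
        rw [hYY]
        ring
    _ ≤ ‖X - Y‖ + ‖Y1 - (if u = 0 then (∑ g, F1 g) / (Fintype.card Gal(L/K) : ℂ) else 0) *
          (Lg : ℂ)‖ + ‖Y2‖ + ‖(if u = 0 then (∑ g, F1 g) / (Fintype.card Gal(L/K) : ℂ) else 0) *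
          (Lg : ℂ) - (if u = 0 then (∑ g, f g) / (Fintype.card Gal(M/K) : ℂ) else 0) *
          (Lg : ℂ)‖ := by
        refine (norm_add_le _ _).trans (add_le_add ?_ le_rfl)
        refine (norm_add_le _ _).trans (add_le_add ?_ le_rfl)
        exact norm_add_le _ _
    _ ≤ C₀ + C₁ + A * (η * Lg + C₂ + C₃) + A * η * Lg := by
        refine add_le_add (add_le_add (add_le_add hd0 ?_) hY2b) hmd
        exact h1
    _ = 2 * A * η * Lg + (C₀ + C₁ + A * (C₂ + C₃)) := by ring

end

end X38

section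

variable {K M : Type*} [Field K] [NumberField K] [Field M] [NumberField M] [Algebra K M]
  [IsGalois K M] [Fintype Gal(M/K)]

/-- C: the theorem of Chebotarev with the twists `n ^ (-i u)`. -/
theorem cheb {Fr : HeightOneSpectrum (𝓞 K) → Gal(M/K)} (hFr : ∀ v, IsFr v (Fr v))
    {f : Gal(M/K) → ℂ} (hf : IsClassFn f) : WEq Fr f := by
  intro u ε hε
  set A : ℝ := ∑ g, ‖f g‖ + 1 with hA
  have hA0 : 0 < A := by
    have : 0 ≤ ∑ g, ‖f g‖ := Finset.sum_nonneg fun _ _ => norm_nonneg _
    linarith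
  have hfA : ∀ g, ‖f g‖ ≤ A := fun g => by
    have := Finset.single_le_sum (f := fun g => ‖f g‖) (fun g _ => norm_nonneg _)
      (Finset.mem_univ g)
    linarith
  obtain ⟨m, hm, hstar⟩ := exists_star K M (ε := ε / (4 * A)) (by positivity)
  have hm0 : NeZero m := ⟨by omega⟩
  have hgal : IsGalois K (CyclotomicField m M) := isGalois_cyc K M m
  have hζ : IsPrimitiveRoot (IsCyclotomicExtension.zeta m M (CyclotomicField m M)) m :=
    IsCyclotomicExtension.zeta_spec m M (CyclotomicField m M)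
  have hcard := hstar hm0 (CyclotomicField m M) _ hζ fun g h1 h2 => ext_cyc K M m hζ g h1 h2
  have hfd2 : FiniteDimensional K (CyclotomicField m M) :=
    Module.Finite.of_restrictScalars_finite ℚ K _
  have : Fintype Gal((CyclotomicField m M)/K) := Fintype.ofFinite _
  choose FrL hFrL using fun v : HeightOneSpectrum (𝓞 K) =>
    exists_isFr (K := K) (M := CyclotomicField m M) v
  obtain ⟨C, hC0, hC⟩ := X38.cheb_step hFr hFrL hm hζ hf hA0 hfA (by positivity) hcard u
  have hlog := X38.tendsto_log_atTop.eventually_ge_atTop (2 * C / ε)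
  filter_upwards [hC, hlog] with σ h1 h2
  refine h1.trans ?_
  rw [div_le_iff₀ hε] at h2
  have h3 : 2 * A * (ε / (4 * A)) = ε / 2 := by field_simp; ring
  rw [h3]
  linarith

end

end Pool.Agent.Lib.MP_bf61d2_nt.Artin
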