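import Pool.Agent.Lib.MP_bf61d2_nt.Artin.S1x29

set_option autoImplicit false

/-!
The L-series over a quadratic extension, uniformly on the line.
-/

namespace Pool.Agent.Lib.MP_bf61d2_nt.Artin

open NumberField IsDedekindDomain Filter Topology Polynomial Module WeierstrassCurve
open Pool.Agent.Lib.MP_bf61d2_nt.Perm

/-- The logarithm of the L-series of the base change, uniformly on the line. -/
theorem log_baseChange_unif {K : Type*} [Field K] [NumberField K] (E : WeierstrassCurve K)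
    [E.IsElliptic] (F : Type*) [Field F] [NumberField F] [Algebra K F] :
    ∃ R : ℝ, ∀ t δ : ℝ, 0 < δ →
      |Real.log ‖(E.baseChange F).LSeries ((3 / 2 + δ : ℝ) + t * Complex.I)‖ -
        ∑' v : HeightOneSpectrum (𝓞 K), wp (1 + δ) v *
          (r1 F v * (cc E v * Real.cos (t * Real.log (nm v))))| ≤ R := by
  obtain ⟨S, hS⟩ := exists_cc_baseChange E F
  obtain ⟨C, hC0, hC⟩ := regroup (a := fun w => cc (E.baseChange F) w) (b := fun v => cc E v)
    (fun w => abs_cc_le _ w) (fun v => abs_cc_le _ v) S hS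
  refine ⟨RB F + C, fun t δ hδ => ?_⟩
  have h1 := log_norm_LSeries' (E.baseChange F) hδ t
  have h2 := hC (fun n => Real.cos (t * Real.log n)) (fun n => Real.abs_cos_le_one _) (1 + δ)
    (by linarith)
  have h3 := abs_le.mp h1
  have h4 := abs_le.mp h2
  rw [abs_le]
  constructor <;> linarith [h3.1, h3.2, h4.1, h4.2]

/-- The L-series over a quadratic extension, uniformly on the line (after helper29). -/
theorem log_quadratic_unif {F : Type*} [Field F] [NumberField F] (E : WeierstrassCurve F) [E.IsElliptic]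
    {d : F} (hd : ¬ IsSquare d) (L : Type*) [Field L] [NumberField L] [Algebra F L]
    (hL : finrank F L = 2) {θ : L} (hθ : θ ^ 2 = algebraMap F L d) :
    ∃ C : ℝ, 0 ≤ C ∧ ∀ t δ : ℝ, 0 < δ →
      |Real.log ‖(qt E d).LSeries ((3 / 2 + δ : ℝ) + t * Complex.I)‖ -
        (Real.log ‖(E.baseChange L).LSeries ((3 / 2 + δ : ℝ) + t * Complex.I)‖ -
          Real.log ‖E.LSeries ((3 / 2 + δ : ℝ) + t * Complex.I)‖)| ≤ C := by
  classical
  have hd0 : d ≠ 0 := by
    rintro rfl
    exact hd ⟨0, by simp⟩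
  obtain ⟨e, m, he0, hm0, hem⟩ := exists_sqrep hd0
  have hm : (m : F) ≠ 0 := by simpa using hm0
  obtain ⟨S, hS⟩ := exists_cc_qt E he0 hm0 hem
  have hfd : FiniteDimensional F L := Module.Finite.of_restrictScalars_finite ℚ F L
  have hquad : Algebra.IsQuadraticExtension F L := ⟨hL⟩
  have hn : Module.finrank (𝓞 F) (𝓞 L) = 2 :=
    (IsFractionRing.finrank_eq (𝓞 F) F (𝓞 L) L).symm.trans hL
  have hθ₀sq : (θ * algebraMap F L (m : F)) ^ 2 = algebraMap F L (e : F) := by
    rw [mul_pow, hθ, ← map_pow, ← map_mul, hem]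
  have hint : IsIntegral ℤ (θ * algebraMap F L (m : F)) := by
    refine IsIntegral.of_pow (n := 2) (by norm_num) ?_
    rw [hθ₀sq]
    exact (RingOfIntegers.isIntegral_coe e).algebraMap
  set θ' : 𝓞 L := ⟨θ * algebraMap F L (m : F), hint⟩ with hθ'
  have hcoe : (θ' : L) = θ * algebraMap F L (m : F) := rfl
  have hθ'sq : θ' ^ 2 = algebraMap (𝓞 F) (𝓞 L) e := by
    apply RingOfIntegers.coe_injective
    rw [map_pow]
    exact hθ₀sq
  have hθK : (θ' : L) ∉ (⊥ : IntermediateField F L) := by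
    rw [hcoe, IntermediateField.mem_bot]
    rintro ⟨y, hy⟩
    apply hd
    refine ⟨y / m, (algebraMap F L).injective ?_⟩
    have hmL : algebraMap F L (m : F) ≠ 0 := by simpa using hm
    rw [← hθ, map_mul, map_div₀, hy]
    field_simp
  have hr1 : ∀ v, v ∉ S → ((r1 L v : ℕ) : ℝ) = 1 + chi v e := fun v hv =>
    r1_quad hn hθ'sq hθK v (hS v hv).1 (hS v hv).2.1
  obtain ⟨R, hR⟩ := log_baseChange_unif E L
  refine ⟨|R| + 2 * RB F + 4 * S.card, add_nonneg (add_nonneg (abs_nonneg _)
    (mul_nonneg (by norm_num) (RB_nonneg (K := F)))) (by positivity), fun t δ hδ => ?_⟩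
  have h1 := hR t δ hδ
  have h2 := log_norm_LSeries' (qt E d) hδ t
  have h3 := log_norm_LSeries' E hδ t
  have hσ1 : 1 < 1 + δ := by linarith
  have hws := summable_wp (K := F) hσ1
  have hb : ∀ (V : WeierstrassCurve F) (v : HeightOneSpectrum (𝓞 F)),
      |cc V v * Real.cos (t * Real.log (nm v))| ≤ 2 := by
    intro V v
    rw [abs_mul]
    calc _ ≤ 2 * 1 := mul_le_mul (abs_cc_le _ v) (Real.abs_cos_le_one _) (abs_nonneg _)
          (by norm_num)
      _ = 2 := by norm_num
  have hr2 : ∀ v : HeightOneSpectrum (𝓞 F), ((r1 L v : ℕ) : ℝ) ≤ 2 := by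
    intro v
    have := r1_le (L := L) v
    rw [hn] at this
    exact_mod_cast this
  have hb2 : ∀ v : HeightOneSpectrum (𝓞 F),
      |((r1 L v : ℕ) : ℝ) * (cc E v * Real.cos (t * Real.log (nm v)))| ≤ 4 := by
    intro v
    rw [abs_mul, Nat.abs_cast]
    calc _ ≤ 2 * 2 := mul_le_mul (hr2 v) (hb E v) (abs_nonneg _) (by norm_num)
      _ = 4 := by norm_num
  have hs1 : Summable fun v : HeightOneSpectrum (𝓞 F) => wp (1 + δ) v *
      (cc (qt E d) v * Real.cos (t * Real.log (nm v))) :=
    summable_mul_bdd hws (fun v => (wp_pos _ v).le) (hb _)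
  have hs2 : Summable fun v : HeightOneSpectrum (𝓞 F) => wp (1 + δ) v *
      (((r1 L v : ℕ) : ℝ) * (cc E v * Real.cos (t * Real.log (nm v)))) :=
    summable_mul_bdd hws (fun v => (wp_pos _ v).le) hb2
  have hs3 : Summable fun v : HeightOneSpectrum (𝓞 F) => wp (1 + δ) v *
      (cc E v * Real.cos (t * Real.log (nm v))) :=
    summable_mul_bdd hws (fun v => (wp_pos _ v).le) (hb _)
  have h7 : |∑' v : HeightOneSpectrum (𝓞 F), wp (1 + δ) v *
      (cc (qt E d) v * Real.cos (t * Real.log (nm v))) -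
      (∑' v : HeightOneSpectrum (𝓞 F), wp (1 + δ) v *
        (((r1 L v : ℕ) : ℝ) * (cc E v * Real.cos (t * Real.log (nm v)))) -
      ∑' v : HeightOneSpectrum (𝓞 F), wp (1 + δ) v *
        (cc E v * Real.cos (t * Real.log (nm v))))| ≤ 4 * S.card := by
    rw [← hs2.tsum_sub hs3, ← hs1.tsum_sub (hs2.sub hs3), ← Real.norm_eq_abs]
    have hg : HasSum (fun v : HeightOneSpectrum (𝓞 F) => if v ∈ S then (4 : ℝ) else 0)
        (4 * S.card) := by
      have h8 : HasSum (fun v : HeightOneSpectrum (𝓞 F) => if v ∈ S then (4 : ℝ) else 0)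
        (∑ v ∈ S, if v ∈ S then (4 : ℝ) else 0) :=
        hasSum_sum_of_ne_finset_zero fun v hv => if_neg hv
      have h9 : ∑ v ∈ S, (if v ∈ S then (4 : ℝ) else 0) = 4 * S.card := by
        rw [Finset.sum_congr rfl fun v hv => if_pos hv, Finset.sum_const, nsmul_eq_mul,
          mul_comm]
      rwa [h9] at h8
    refine tsum_of_norm_bounded hg fun v => ?_
    rw [Real.norm_eq_abs]
    by_cases hv : v ∈ S
    · rw [if_pos hv]
      have h10 := wp_le_half hσ1.le v
      have h11 := wp_pos (1 + δ) v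
      have h12 : |cc (qt E d) v * Real.cos (t * Real.log (nm v)) -
          (((r1 L v : ℕ) : ℝ) * (cc E v * Real.cos (t * Real.log (nm v))) -
            cc E v * Real.cos (t * Real.log (nm v)))| ≤ 8 := by
        refine (abs_sub _ _).trans ?_
        have h13 := (abs_sub (((r1 L v : ℕ) : ℝ) * (cc E v * Real.cos (t * Real.log (nm v))))
          (cc E v * Real.cos (t * Real.log (nm v))))
        linarith [hb (qt E d) v, hb E v, hb2 v]
      rw [← mul_sub, ← mul_sub, abs_mul, abs_of_pos h11]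
      calc _ ≤ 1 / 2 * 8 := mul_le_mul h10 h12 (abs_nonneg _) (by norm_num)
        _ = 4 := by norm_num
    · rw [if_neg hv, (hS v hv).2.2, hr1 v hv]
      have : wp (1 + δ) v * ((chi v e : ℝ) * cc E v * Real.cos (t * Real.log (nm v))) -
          (wp (1 + δ) v * ((1 + (chi v e : ℝ)) * (cc E v * Real.cos (t * Real.log (nm v)))) -
          wp (1 + δ) v * (cc E v * Real.cos (t * Real.log (nm v)))) = 0 := by ring
      rw [this, abs_zero]
  have hRR := le_abs_self R
  have h1' := abs_le.mp h1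
  have h2' := abs_le.mp h2
  have h3' := abs_le.mp h3
  have h7' := abs_le.mp h7
  rw [abs_le]
  constructor <;> linarith [h1'.1, h1'.2, h2'.1, h2'.2, h3'.1, h3'.2, h7'.1, h7'.2]

end Pool.Agent.Lib.MP_bf61d2_nt.Artin
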