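import Pool.Agent.Lib.MP_bf61d2_nt.Artin.S2x40

set_option autoImplicit false

/-!
ARTIN EDGE (MP_bf61d2_nt), module S2, general form (after helper40's module S2x40): the mean of the
absolute value of the character induced from a quadratic character, some of whose conjugates may be
equal.
-/

namespace Pool.Agent.Lib.MP_bf61d2_nt.Artin

open NumberField IsDedekindDomain Filter Topology Polynomial Module
open Pool.Agent.Lib.MP_bf61d2_nt.Perm

namespace S63

open scoped Classical

theorem group_bound_gen {G : Type*} [Group G] [Fintype G] (N H : Subgroup G) [hN : N.Normal]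
    (hHN : H ≤ N) (χ : G → ℝ) (hχH : ∀ g ∈ H, χ g = 1) (hχN : ∀ g ∈ N, g ∉ H → χ g = -1)
    (hχ0 : ∀ g, g ∉ N → χ g = 0) (hmul : ∀ a ∈ N, ∀ b ∈ N, χ (a * b) = χ a * χ b)
    (h0 : ∃ a ∈ N, a ∉ H) (T : Set G) (hz : ∀ z, z ∉ T → ∃ h ∈ N, χ (z⁻¹ * h * z) ≠ χ h)
    {s : ℝ} (hs : ∑ g : G, (if g ∈ T then (1 : ℝ) else 0) = s * Nat.card N) :
    ∑ g : G, |(fp (G ⧸ H) g : ℝ) - fp (G ⧸ N) g| ≤
      Real.sqrt (Nat.card N * (Fintype.card G * s)) := by
  have hNpos : (0 : ℝ) < Nat.card N := by exact_mod_cast Nat.card_pos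
  have hHpos : (0 : ℝ) < Nat.card H := by exact_mod_cast Nat.card_pos
  have hmul' : ∀ a ∈ N, ∀ b, χ (a * b) = χ a * χ b := by
    intro a ha b
    by_cases hb : b ∈ N
    · exact hmul a ha b hb
    · rw [hχ0 b hb, mul_zero, hχ0]
      rwa [N.mul_mem_cancel_left ha]
  have hsq : ∀ a ∈ N, χ a * χ a = 1 := by
    intro a ha
    by_cases h : a ∈ H
    · rw [hχH a h, one_mul]
    · rw [hχN a ha h]; norm_num
  have hval : ∀ g, χ g = 2 * (if g ∈ H then 1 else 0) - (if g ∈ N then 1 else 0) := by
    intro g
    by_cases hgN : g ∈ N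
    · by_cases hgH : g ∈ H
      · rw [if_pos hgH, if_pos hgN, hχH g hgH]; norm_num
      · rw [if_neg hgH, if_pos hgN, hχN g hgN hgH]; norm_num
    · rw [if_neg hgN, if_neg (fun h => hgN (hHN h)), hχ0 g hgN]; norm_num
  -- the sum of the character
  have hsum0 : ∑ g, χ g = 0 := by
    obtain ⟨a, haN, haH⟩ := h0
    have h1 : ∑ g, χ g = ∑ g, χ (a * g) := by
      rw [← Equiv.sum_comp (Equiv.mulLeft a)]
      rfl
    have h2 : ∑ g, χ (a * g) = -∑ g, χ g := by
      rw [← Finset.sum_neg_distrib]
      refine Finset.sum_congr rfl fun g _ => ?_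
      rw [hmul' a haN, hχN a haN haH]
      ring
    linarith
  have hcard : ∀ P : Subgroup G, ∑ g : G, (if g ∈ P then (1 : ℝ) else 0) = Nat.card P := by
    intro P
    rw [Finset.sum_boole, Nat.card_eq_fintype_card, Fintype.card_subtype]
  have hNH : (Nat.card N : ℝ) = 2 * Nat.card H := by
    have h1 : ∑ g, χ g = 2 * Nat.card H - Nat.card N := by
      simp_rw [hval]
      rw [Finset.sum_sub_distrib, ← Finset.mul_sum, hcard, hcard]
    linarith
  -- the difference of the permutation characters
  set c : G → ℝ := fun g => (fp (G ⧸ H) g : ℝ) - fp (G ⧸ N) g with hc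
  have hcχ : ∀ g, c g * Nat.card N = ∑ x : G, χ (x⁻¹ * g * x) := by
    intro g
    have h1 := S40.fp_mul_card H g
    have h2 := S40.fp_mul_card N g
    simp_rw [hval]
    rw [Finset.sum_sub_distrib, ← Finset.mul_sum, ← h1, ← h2, hc]
    simp only
    rw [sub_mul, hNH]
    ring
  have hconj : ∀ x g : G, x⁻¹ * g * x ∈ N ↔ g ∈ N := by
    intro x g
    constructor
    · intro h
      have := hN.conj_mem _ h x
      convert this using 1
      group
    · intro h
      have := hN.conj_mem _ h x⁻¹
      rwa [inv_inv] at this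
  have hc0 : ∀ g, g ∉ N → c g = 0 := by
    intro g hg
    have h1 := hcχ g
    rw [Finset.sum_eq_zero (fun x _ => hχ0 _ (fun h => hg ((hconj x g).mp h)))] at h1
    exact (mul_eq_zero.mp h1).resolve_right hNpos.ne'
  have hval2 : ∀ b ∈ N, χ b = 1 ∨ χ b = -1 := by
    intro b hb
    by_cases hbH : b ∈ H
    · exact Or.inl (hχH b hbH)
    · exact Or.inr (hχN b hb hbH)
  -- inner products of conjugates
  have hS : ∀ z : G, ∑ h : G, χ h * χ (z⁻¹ * h * z) ≤ if z ∈ T then (Nat.card N : ℝ) else 0 := by
    intro z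
    split_ifs with h
    · rw [← hcard N]
      refine Finset.sum_le_sum fun g _ => ?_
      split_ifs with hg
      · have h5 := hval2 g hg
        have h6 := hval2 _ ((hconj z g).mpr hg)
        rcases h5 with h5 | h5 <;> rcases h6 with h6 | h6 <;> rw [h5, h6] <;> norm_num
      · rw [hχ0 g hg, zero_mul]
    · obtain ⟨a, haN, ha⟩ := hz z h
      have haz : z⁻¹ * a * z ∈ N := (hconj z a).mpr haN
      have hprod : χ a * χ (z⁻¹ * a * z) = -1 := by
        rcases hval2 a haN with h1 | h1 <;> rcases hval2 _ haz with h2 | h2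
        · exact absurd (h2.trans h1.symm) ha
        · rw [h1, h2]; norm_num
        · rw [h1, h2]; norm_num
        · exact absurd (h2.trans h1.symm) ha
      have h1 : ∑ h : G, χ h * χ (z⁻¹ * h * z) =
          ∑ h : G, χ (a * h) * χ (z⁻¹ * (a * h) * z) := by
        rw [← Equiv.sum_comp (Equiv.mulLeft a)]
        rfl
      have h2 : ∑ h : G, χ (a * h) * χ (z⁻¹ * (a * h) * z) =
          -∑ h : G, χ h * χ (z⁻¹ * h * z) := by
        rw [← Finset.sum_neg_distrib]
        refine Finset.sum_congr rfl fun g _ => ?_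
        have e : z⁻¹ * (a * g) * z = (z⁻¹ * a * z) * (z⁻¹ * g * z) := by group
        rw [e, hmul' a haN, hmul' _ haz]
        calc χ a * χ g * (χ (z⁻¹ * a * z) * χ (z⁻¹ * g * z)) =
              (χ a * χ (z⁻¹ * a * z)) * (χ g * χ (z⁻¹ * g * z)) := by ring
          _ = _ := by rw [hprod]; ring
      linarith
  have hsqsum : ∑ g, c g ^ 2 ≤ Fintype.card G * s := by
    have h1 : (∑ g, c g ^ 2) * (Nat.card N : ℝ) ^ 2 =
        ∑ g : G, ∑ x : G, ∑ y : G, χ (x⁻¹ * g * x) * χ (y⁻¹ * g * y) := by
      rw [Finset.sum_mul]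
      refine Finset.sum_congr rfl fun g _ => ?_
      rw [← mul_pow, hcχ g, sq, Finset.sum_mul_sum]
    have h2 : ∑ g : G, ∑ x : G, ∑ y : G, χ (x⁻¹ * g * x) * χ (y⁻¹ * g * y) =
        ∑ x : G, ∑ y : G, ∑ g : G, χ (x⁻¹ * g * x) * χ (y⁻¹ * g * y) := by
      rw [Finset.sum_comm]
      refine Finset.sum_congr rfl fun x _ => ?_
      rw [Finset.sum_comm]
    have h3 : ∀ x y : G, ∑ g : G, χ (x⁻¹ * g * x) * χ (y⁻¹ * g * y) ≤
        if x⁻¹ * y ∈ T then (Nat.card N : ℝ) else 0 := by
      intro x y
      refine le_trans (le_of_eq ?_) (hS (x⁻¹ * y))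
      rw [← Equiv.sum_comp (MulAut.conj x).toEquiv]
      refine Finset.sum_congr rfl fun g _ => ?_
      have e1 : (MulAut.conj x).toEquiv g = x * g * x⁻¹ := rfl
      rw [e1]
      congr 2
      · group
      · group
    have h4 : ∑ x : G, ∑ y : G, (if x⁻¹ * y ∈ T then (Nat.card N : ℝ) else 0) =
        (Fintype.card G * s) * (Nat.card N : ℝ) ^ 2 := by
      have h5 : ∀ x : G, ∑ y : G, (if x⁻¹ * y ∈ T then (Nat.card N : ℝ) else 0) =
          s * (Nat.card N : ℝ) ^ 2 := by
        intro x
        rw [← Equiv.sum_comp (Equiv.mulLeft x)]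
        have h6 : ∀ y : G, (if x⁻¹ * (Equiv.mulLeft x) y ∈ T then (Nat.card N : ℝ) else 0) =
            Nat.card N * (if y ∈ T then 1 else 0) := by
          intro y
          have : x⁻¹ * (Equiv.mulLeft x) y = y := by
            show x⁻¹ * (x * y) = y
            group
          rw [this]
          split_ifs <;> simp
        rw [Finset.sum_congr rfl fun y _ => h6 y, ← Finset.mul_sum, hs]
        ring
      rw [Finset.sum_congr rfl fun x _ => h5 x, Finset.sum_const, nsmul_eq_mul, Finset.card_univ]
      ring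
    have h7 : (∑ g, c g ^ 2) * (Nat.card N : ℝ) ^ 2 ≤
        (Fintype.card G * s) * (Nat.card N : ℝ) ^ 2 := by
      rw [h1, h2, ← h4]
      exact Finset.sum_le_sum fun x _ => Finset.sum_le_sum fun y _ => h3 x y
    exact le_of_mul_le_mul_right h7 (by positivity)
  -- Cauchy-Schwarz
  have hfin : (∑ g, |c g|) ^ 2 ≤ Nat.card N * (Fintype.card G * s) := by
    have h1 : ∑ g, |c g| = ∑ g, (if g ∈ N then (1 : ℝ) else 0) * |c g| := by
      refine Finset.sum_congr rfl fun g _ => ?_
      split_ifs with hg
      · rw [one_mul]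
      · rw [hc0 g hg, abs_zero, mul_zero]
    rw [h1]
    refine (Finset.sum_mul_sq_le_sq_mul_sq _ _ _).trans ?_
    have h2 : ∑ g : G, (if g ∈ N then (1 : ℝ) else 0) ^ 2 = Nat.card N := by
      rw [← hcard N]
      refine Finset.sum_congr rfl fun g _ => ?_
      split_ifs <;> norm_num
    have h3 : ∑ g : G, |c g| ^ 2 ≤ Fintype.card G * s := by
      refine le_trans (le_of_eq ?_) hsqsum
      exact Finset.sum_congr rfl fun g _ => sq_abs _
    rw [h2]
    exact mul_le_mul_of_nonneg_left h3 (Nat.cast_nonneg _)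
  exact Real.le_sqrt_of_sq_le hfin

lemma card_preimage {G H : Type*} [Group G] [Fintype G] [Group H] (f : G →* H)
    (hf : Function.Surjective f) (A : Set H) [Finite H] :
    ∑ g : G, (if f g ∈ A then (1 : ℝ) else 0) = Nat.card A * Nat.card f.ker := by
  have := Fintype.ofFinite H
  rw [Finset.sum_boole]
  have h1 : (Finset.univ.filter fun g : G => f g ∈ A).card =
      ∑ a ∈ Finset.univ.filter (fun a : H => a ∈ A),
        ((Finset.univ.filter fun g : G => f g ∈ A).filter fun g => f g = a).card :=
    Finset.card_eq_sum_card_fiberwise fun g hg => by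
      simpa using hg
  have h2 : ∀ a ∈ Finset.univ.filter (fun a : H => a ∈ A),
      ((Finset.univ.filter fun g : G => f g ∈ A).filter fun g => f g = a).card =
        Nat.card f.ker := by
    intro a ha
    have haA : a ∈ A := by simpa using ha
    have e1 : ((Finset.univ.filter fun g : G => f g ∈ A).filter fun g => f g = a) =
        Finset.univ.filter fun g : G => f g = a := by
      ext g
      simp only [Finset.mem_filter, Finset.mem_univ, true_and, and_iff_right_iff_imp]
      rintro rfl
      exact haA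
    rw [e1, MonoidHom.card_fiber_eq_of_mem_range f (hf a) (hf 1), Nat.card_eq_fintype_card,
      Fintype.card_subtype]
    refine congrArg Finset.card (Finset.ext fun g => ?_)
    simp only [Finset.mem_filter, Finset.mem_univ, true_and, MonoidHom.mem_ker]
  rw [h1, Finset.sum_congr rfl h2, Finset.sum_const, smul_eq_mul, Nat.cast_mul]
  congr 2
  rw [Nat.card_eq_fintype_card, Fintype.card_subtype]

end S63

open scoped Classical in
/-- S2: the mean of the absolute value of the character induced from a quadratic character. -/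
theorem sum_abs_conj_gen {K M : Type*} [Field K] [NumberField K] [Field M] [NumberField M] [Algebra K M]
    [IsGalois K M] [Fintype Gal(M/K)] (F : IntermediateField K M) [IsGalois K F] {d : F} {θ : M}
    (hθ : θ ^ 2 = d) (hd : ¬ IsSquare d) :
    (∑ g : Gal(M/K), |(fx ((IntermediateField.adjoin F {θ}).restrictScalars K) g : ℝ) - fx F g|) /
      Fintype.card Gal(M/K) ≤
        Real.sqrt (Nat.card {σ : Gal(F/K) // IsSquare (d * σ d)} / finrank K F) := by
  have hfd : FiniteDimensional K M := Module.Finite.of_restrictScalars_finite ℚ K M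
  have hfdF : FiniteDimensional F M := Module.Finite.of_restrictScalars_finite K F M
  have hfdK : FiniteDimensional K F := FiniteDimensional.left K F M
  set N := F.fixingSubgroup with hNdef
  set H := ((IntermediateField.adjoin F {θ}).restrictScalars K).fixingSubgroup with hHdef
  have hNmem : ∀ g : Gal(M/K), g ∈ N ↔ ∀ x ∈ F, g x = x := fun g =>
    IntermediateField.mem_fixingSubgroup_iff F g
  have hHmem : ∀ g : Gal(M/K), g ∈ H ↔ g ∈ N ∧ g θ = θ := fun g => S40.mem_H_iff F θ g
  have hθ0 : θ ≠ 0 := by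
    rintro rfl
    apply hd
    refine ⟨0, ?_⟩
    apply Subtype.ext
    rw [← hθ]
    simp
  have hθn : θ ≠ -θ := by
    intro h
    apply hθ0
    have h1 : (2 : M) * θ = 0 := by linear_combination h
    exact (mul_eq_zero.mp h1).resolve_left two_ne_zero
  have hpm : ∀ g ∈ N, g θ = θ ∨ g θ = -θ := by
    intro g hg
    apply sq_eq_sq_iff_eq_or_eq_neg.mp
    rw [← map_pow, hθ]
    exact (hNmem g).mp hg d d.2
  have hfix : ∀ x : M, (∀ g ∈ N, g x = x) → x ∈ F := by
    intro x hx
    rw [← IsGalois.fixedField_fixingSubgroup F, IntermediateField.mem_fixedField_iff]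
    exact hx
  set χ : Gal(M/K) → ℝ := fun g => if g ∈ N then (if g θ = θ then 1 else -1) else 0 with hχ
  set s : ℝ := (Nat.card {σ : Gal(F/K) // IsSquare (d * σ d)} : ℝ) with hs
  have hfinG : Finite Gal(F/K) := inferInstance
  have hker : (AlgEquiv.restrictNormalHom (K₁ := M) (F := K) F).ker = N := by
    rw [IntermediateField.restrictNormalHom_ker]
  have hcnt := S63.card_preimage (AlgEquiv.restrictNormalHom (K₁ := M) (F := K) F)
    (AlgEquiv.restrictNormalHom_surjective M) {σ : Gal(F/K) | IsSquare (d * σ d)}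
  rw [hker] at hcnt
  have hB := S63.group_bound_gen N H (fun g hg => ((hHmem g).mp hg).1) χ
    (fun g hg => by
      obtain ⟨h1, h2⟩ := (hHmem g).mp hg
      simp only [hχ]
      rw [if_pos h1, if_pos h2])
    (fun g hgN hgH => by
      simp only [hχ]
      rw [if_pos hgN, if_neg (fun h => hgH ((hHmem g).mpr ⟨hgN, h⟩))])
    (fun g hg => by
      simp only [hχ]
      rw [if_neg hg])
    (fun a ha b hb => by
      simp only [hχ]
      rw [if_pos ha, if_pos hb, if_pos (N.mul_mem ha hb)]
      have e : (a * b) θ = a (b θ) := rfl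
      rw [e]
      rcases hpm a ha with h1 | h1 <;> rcases hpm b hb with h2 | h2
      · rw [h2, h1]; simp
      · rw [h2, map_neg, h1]; simp [hθn.symm]
      · rw [h2, h1]; simp [hθn.symm]
      · rw [h2, map_neg, h1]; simp [hθn.symm])
    (by
      by_contra hcon
      push Not at hcon
      apply hd
      have h1 : θ ∈ F := hfix θ fun g hg => ((hHmem g).mp (hcon g hg)).2
      refine ⟨⟨θ, h1⟩, ?_⟩
      apply Subtype.ext
      rw [← hθ, sq]
      rfl)
    {z | IsSquare (d * (AlgEquiv.restrictNormalHom (K₁ := M) (F := K) F z) d)}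
    (fun z hz => by
      by_contra hcon
      push Not at hcon
      have hNn : N.Normal := inferInstance
      have h1 : ∀ g ∈ N, g (θ * z θ) = θ * z θ := by
        intro g hg
        have h2 := hcon g hg
        have h3 : z⁻¹ * g * z ∈ N := by
          have := hNn.conj_mem _ hg z⁻¹
          rwa [inv_inv] at this
        simp only [hχ] at h2
        rw [if_pos hg, if_pos h3] at h2
        have h4 : ∀ y : M, (z⁻¹ * g * z) θ = y → g (z θ) = z y := by
          intro y hy
          rw [← hy]
          have e : (z⁻¹ * g * z) θ = z⁻¹ (g (z θ)) := rfl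
          rw [e]
          exact (AlgEquiv.apply_symm_apply z (g (z θ))).symm
        rcases hpm g hg with h5 | h5 <;> rcases hpm _ h3 with h6 | h6
        · rw [map_mul, h5, h4 _ h6]
        · rw [h5, h6] at h2
          simp [hθn.symm] at h2
          norm_num at h2
        · rw [h5, h6] at h2
          simp [hθn.symm] at h2
          norm_num at h2
        · rw [map_mul, h5, h4 _ h6, map_neg]
          ring
      have h2 := hfix _ h1
      refine hz ⟨⟨θ * z θ, h2⟩, ?_⟩
      apply Subtype.ext
      have h4 := AlgEquiv.restrictNormal_commutes z F d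
      have h5 : ((AlgEquiv.restrictNormalHom (K₁ := M) (F := K) F z d : F) : M) = z (d : M) := h4
      show (d : M) * ((AlgEquiv.restrictNormalHom (K₁ := M) (F := K) F z d : F) : M) =
        (θ * z θ) * (θ * z θ)
      rw [h5, ← hθ, map_pow]
      ring) (s := s) hcnt
  have hfx1 : ∀ g, fx ((IntermediateField.adjoin F {θ}).restrictScalars K) g =
      fp (Gal(M/K) ⧸ H) g := fun g => FixField.fx_eq _ g
  have hfx2 : ∀ g, fx F g = fp (Gal(M/K) ⧸ N) g := fun g => FixField.fx_eq _ g
  simp_rw [hfx1, hfx2]
  have hcN : Nat.card N = finrank F M := IsGalois.card_fixingSubgroup_eq_finrank F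
  have hcG : Fintype.card Gal(M/K) = finrank K F * finrank F M := by
    rw [finrank_mul_finrank, ← IsGalois.card_aut_eq_finrank, Nat.card_eq_fintype_card]
  have hn : (0 : ℝ) < finrank K F := by exact_mod_cast finrank_pos
  have hm : (0 : ℝ) < finrank F M := by exact_mod_cast finrank_pos
  have hs0 : 0 ≤ s := Nat.cast_nonneg _
  rw [hcN, hcG] at hB
  rw [hcG, div_le_iff₀ (by push_cast; positivity)]
  refine hB.trans (le_of_eq ?_)
  push_cast
  have e : (finrank F M : ℝ) * ((finrank K F : ℝ) * finrank F M * s) =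
      (finrank K F * finrank F M : ℝ) ^ 2 * (s / finrank K F) := by
    field_simp
  rw [e, Real.sqrt_mul (by positivity), Real.sqrt_sq (by positivity)]
  ring

end Pool.Agent.Lib.MP_bf61d2_nt.Artin
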