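import Pool.Agent.Lib.MP_bf61d2_nt.Artin.Final63
import Pool.Agent.Lib.MP_bf61d2_nt.Artin.S1u63
import Pool.Agent.Lib.MP_bf61d2_nt.Artin.S2g63

set_option autoImplicit false

/-!
Artin twists at the edge: a single elliptic curve with inequivalent conjugate twists.
-/

namespace Pool.Agent.Lib.MP_bf61d2_nt.Artin

open NumberField IsDedekindDomain Filter Topology Polynomial Module
open Pool.Agent.Lib.MP_bf61d2_nt.Perm

section Fx

variable {K M : Type*} [Field K] [Field M] [Algebra K M]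

lemma fx_conj (F : IntermediateField K M) (g h : Gal(M/K)) : fx F (h * g * h⁻¹) = fx F g := by
  have hinv : ∀ x : M, h⁻¹ (h x) = x := fun x => by
    rw [← AlgEquiv.mul_apply, inv_mul_cancel, AlgEquiv.one_apply]
  have hinv' : ∀ x : M, h (h⁻¹ x) = x := fun x => by
    rw [← AlgEquiv.mul_apply, mul_inv_cancel, AlgEquiv.one_apply]
  refine Nat.card_congr ⟨fun φ => ⟨((h⁻¹ : Gal(M/K)) : M →ₐ[K] M).comp φ.1, ?_⟩,
    fun φ => ⟨(h : M →ₐ[K] M).comp φ.1, ?_⟩, ?_, ?_⟩
  · refine AlgHom.ext fun x => ?_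
    have h2 : (h * g * h⁻¹) (φ.1 x) = φ.1 x := DFunLike.congr_fun φ.2 x
    rw [AlgEquiv.mul_apply, AlgEquiv.mul_apply] at h2
    show g (h⁻¹ (φ.1 x)) = h⁻¹ (φ.1 x)
    rw [← hinv (g (h⁻¹ (φ.1 x))), h2]
  · refine AlgHom.ext fun x => ?_
    have h2 : g (φ.1 x) = φ.1 x := DFunLike.congr_fun φ.2 x
    show (h * g * h⁻¹) (h (φ.1 x)) = h (φ.1 x)
    rw [AlgEquiv.mul_apply, AlgEquiv.mul_apply, hinv, h2]
  · intro φ
    exact Subtype.ext (AlgHom.ext fun x => hinv' (φ.1 x))
  · intro φ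
    exact Subtype.ext (AlgHom.ext fun x => hinv (φ.1 x))

end Fx

section

variable {K M : Type*} [Field K] [NumberField K] [Field M] [NumberField M] [Algebra K M]
  [IsGalois K M] [Fintype Gal(M/K)]

/-- The zonoid bound for one class function. -/
theorem single_class {Fr : HeightOneSpectrum (𝓞 K) → Gal(M/K)} (hFr : ∀ v, IsFr v (Fr v))
    {c : HeightOneSpectrum (𝓞 K) → ℝ} (hc : ∀ v, |c v| ≤ 2) {f : Gal(M/K) → ℂ}
    (hf : IsClassFn f) (t : ℝ) {ε : ℝ} (hε : 0 < ε) : ∀ᶠ σ : ℝ in 𝓝[>] 1,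
      |(SC (K := K) σ (fun v => (c v : ℂ) * (f (Fr v) * ph t (nm v)))).re| ≤
        ((if t = 0 then 2 else 4 / Real.pi) *
          ((∑ g : Gal(M/K), ‖f g‖) / Fintype.card Gal(M/K)) + ε) * Real.log (1 / (σ - 1)) := by
  obtain ⟨B, hB, hbd⟩ := zonoid_bound hFr hc (fun _ : Fin 1 => f) (fun _ => hf) (fun _ => t)
  set m : ℝ := (∑ g : Gal(M/K), ‖f g‖) / Fintype.card Gal(M/K) with hm
  simp only [Fin.sum_univ_one] at hB hbd
  have hB2 : 2 * B ≤ (if t = 0 then 2 else 4 / Real.pi) * m := by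
    split_ifs with ht
    · refine mul_le_mul_of_nonneg_left ?_ zero_le_two
      refine le_of_tendsto hB ?_
      filter_upwards [eventually_gt_atTop (0 : ℝ)] with X hX
      have e2 : ∀ (g : Gal(M/K)) (u : ℝ), f g *
          Complex.exp (((-(t * u) : ℝ) : ℂ) * Complex.I) = f g := fun g u => by simp [ht]
      simp only [e2]
      rw [intervalIntegral.integral_const, smul_eq_mul, sub_zero, inv_mul_cancel_left₀ hX.ne', hm]
      gcongr with g
      exact Complex.abs_re_le_norm _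
    · have h := tendsto_nhds_unique hB (mean_abs_single (fun g => f g) ht)
      rw [h, ← hm]
      refine le_of_eq ?_
      ring
  have hlog : ∀ᶠ σ : ℝ in 𝓝[>] 1, 0 ≤ Real.log (1 / (σ - 1)) := by
    filter_upwards [self_mem_nhdsWithin, Ioo_mem_nhdsGT (show (1 : ℝ) < 2 by norm_num)] with σ h h'
    have h3 : (1 : ℝ) < σ := h
    refine Real.log_nonneg ?_
    rw [le_div_iff₀ (by linarith)]
    linarith [h'.2]
  filter_upwards [hbd ε hε, hlog] with σ h1 h2
  refine h1.trans ?_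
  gcongr

/-- The bound for one class function, uniformly on the line. -/
theorem single_class_unif {Fr : HeightOneSpectrum (𝓞 K) → Gal(M/K)} (hFr : ∀ v, IsFr v (Fr v))
    {c : HeightOneSpectrum (𝓞 K) → ℝ} (hc : ∀ v, |c v| ≤ 2) {f : Gal(M/K) → ℂ}
    (hf : IsClassFn f) {ε : ℝ} (hε : 0 < ε) : ∀ᶠ σ : ℝ in 𝓝[>] 1, ∀ t : ℝ,
      |(SC (K := K) σ (fun v => (c v : ℂ) * (f (Fr v) * ph t (nm v)))).re| ≤
        (2 * ((∑ g : Gal(M/K), ‖f g‖) / Fintype.card Gal(M/K)) + ε) *
          Real.log (1 / (σ - 1)) := by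
  have hf' : IsClassFn (fun g => ((‖f g‖ : ℝ) : ℂ)) := fun g h => by simp only [hf g h]
  filter_upwards [cheb hFr hf' 0 (ε / 2) (half_pos hε), self_mem_nhdsWithin] with σ h1 hσ t
  have hσ' : 1 < σ := hσ
  rw [if_pos rfl] at h1
  set m : ℝ := (∑ g : Gal(M/K), ‖f g‖) / Fintype.card Gal(M/K) with hm
  have hb : ∀ v, ‖(c v : ℂ) * (f (Fr v) * ph t (nm v))‖ ≤ 2 * ∑ g, ‖f g‖ := by
    intro v
    rw [norm_mul, norm_mul, norm_ph63, mul_one, Complex.norm_real, Real.norm_eq_abs]
    exact mul_le_mul (hc v) (Finset.single_le_sum (f := fun g => ‖f g‖)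
      (fun g _ => norm_nonneg _) (Finset.mem_univ _)) (norm_nonneg _) zero_le_two
  have hb' : ∀ v, ‖((‖f (Fr v)‖ : ℝ) : ℂ) * ph 0 (nm v)‖ ≤ ∑ g, ‖f g‖ := by
    intro v
    rw [norm_mul, norm_ph63, mul_one, Complex.norm_real, norm_norm]
    exact Finset.single_le_sum (f := fun g => ‖f g‖) (fun g _ => norm_nonneg _) (Finset.mem_univ _)
  have hs := (summable_SC63 (K := K) hσ' hb').norm
  have e0 : ∀ v : HeightOneSpectrum (𝓞 K), ph 0 (nm v) = 1 := fun v => by simp [ph]
  have h2 : (SC (K := K) σ (fun v => ((‖f (Fr v)‖ : ℝ) : ℂ) * ph 0 (nm v))).re =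
      ∑' v, wp σ v * ‖f (Fr v)‖ := by
    rw [re_SC63 hσ' hb']
    refine tsum_congr fun v => ?_
    rw [e0, mul_one, Complex.ofReal_re]
  have h3 : Summable fun v => wp σ v * ‖f (Fr v)‖ := by
    refine hs.congr fun v => ?_
    rw [e0, mul_one, norm_mul, Complex.norm_real, Complex.norm_real, norm_norm, Real.norm_eq_abs,
      abs_of_pos (wp_pos σ v)]
  have h4 : |(SC (K := K) σ (fun v => (c v : ℂ) * (f (Fr v) * ph t (nm v)))).re| ≤
      2 * ∑' v, wp σ v * ‖f (Fr v)‖ := by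
    refine (Complex.abs_re_le_norm _).trans ?_
    rw [SC, ← tsum_mul_left]
    refine (norm_tsum_le_tsum_norm (summable_SC63 hσ' hb).norm).trans
      (Summable.tsum_le_tsum (fun v => ?_) (summable_SC63 hσ' hb).norm (h3.mul_left 2))
    rw [norm_mul, norm_mul, norm_mul, norm_ph63, mul_one, Complex.norm_real, Complex.norm_real,
      Real.norm_eq_abs, Real.norm_eq_abs, abs_of_pos (wp_pos σ v)]
    have h5 := mul_le_mul_of_nonneg_right (hc v) (norm_nonneg (f (Fr v)))
    have h6 := mul_le_mul_of_nonneg_left h5 (wp_pos σ v).le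
    linarith
  have h7 := (Complex.re_le_norm _).trans h1
  rw [Complex.sub_re, Complex.re_mul_ofReal, h2] at h7
  have h8 : ((∑ g : Gal(M/K), ((‖f g‖ : ℝ) : ℂ)) / (Fintype.card Gal(M/K) : ℂ)).re = m := by
    rw [← Complex.ofReal_sum, ← Complex.ofReal_natCast, ← Complex.ofReal_div, Complex.ofReal_re]
  rw [h8] at h7
  linarith

/-- A single curve: the sum over the places. -/
theorem conj_key (E : WeierstrassCurve K) [E.IsElliptic] (F : IntermediateField K M)
    {d : F} {θ : M} (hθ : θ ^ 2 = d) (hd : ¬ IsSquare d)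
    {Fr : HeightOneSpectrum (𝓞 K) → Gal(M/K)} (hFr : ∀ v, IsFr v (Fr v)) :
    ∃ C : ℝ, 0 ≤ C ∧ ∀ t δ : ℝ, 0 < δ →
      |Real.log ‖(qt (E.baseChange F) d).LSeries ((3 / 2 + δ : ℝ) + t * Complex.I)‖ -
        (SC (K := K) (1 + δ) (fun v => (cc E v : ℂ) *
          (((fx ((IntermediateField.adjoin F {θ}).restrictScalars K) (Fr v) : ℂ) -
            (fx F (Fr v) : ℂ)) * ph t (nm v)))).re| ≤ C := by
  have hfd : FiniteDimensional K M := Module.Finite.of_restrictScalars_finite ℚ K M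
  set L₀ : IntermediateField F M := IntermediateField.adjoin F {θ} with hL₀
  set F' : IntermediateField K M := L₀.restrictScalars K with hF'
  have hθ' : θ ∈ F' := IntermediateField.mem_adjoin_simple_self F θ
  have hle : F ≤ F' := fun x hx => L₀.algebraMap_mem ⟨x, hx⟩
  let _ : Algebra F F' := (IntermediateField.inclusion hle).toAlgebra
  have htow : IsScalarTower K F F' := IsScalarTower.of_algebraMap_eq fun x => by
    apply Subtype.ext
    rfl
  -- the degree
  have hint : IsIntegral F θ := by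
    have : FiniteDimensional F M := Module.Finite.of_restrictScalars_finite K F M
    exact IsIntegral.of_finite F θ
  have hdeg : finrank F F' = 2 := by
    have e : F' ≃ₗ[F] L₀ :=
      { toFun := fun x => ⟨x.1, x.2⟩
        invFun := fun x => ⟨x.1, x.2⟩
        map_add' := fun _ _ => rfl
        map_smul' := fun a x => by
          apply Subtype.ext
          show ((a • x : F') : M) = a • (x : M)
          rw [Algebra.smul_def, Algebra.smul_def]
          rfl
        left_inv := fun _ => rfl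
        right_inv := fun _ => rfl }
    rw [e.finrank_eq, hL₀, IntermediateField.adjoin.finrank hint]
    have hirr : Irreducible (X ^ 2 - C d : F[X]) := by
      refine X_pow_sub_C_irreducible_of_prime Nat.prime_two fun b hb => hd ⟨b, ?_⟩
      rw [← hb, sq]
    have hmon : (X ^ 2 - C d : F[X]).Monic := monic_X_pow_sub_C _ two_ne_zero
    have hev : aeval θ (X ^ 2 - C d : F[X]) = 0 := by
      rw [map_sub, map_pow, aeval_X, aeval_C, hθ]
      exact sub_self _
    rw [← minpoly.eq_of_irreducible_of_monic hirr hev hmon, natDegree_X_pow_sub_C]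
  have hell : (E.baseChange F).IsElliptic := inferInstanceAs (E.map (algebraMap K F)).IsElliptic
  obtain ⟨C₁, h10, h1⟩ := log_quadratic_unif (E.baseChange F) hd F' hdeg (θ := ⟨θ, hθ'⟩)
    (Subtype.ext hθ)
  have hbc : (E.baseChange F).baseChange F' = E.baseChange F' := by
    rw [WeierstrassCurve.baseChange, WeierstrassCurve.baseChange, WeierstrassCurve.baseChange,
      WeierstrassCurve.map_map, ← IsScalarTower.algebraMap_eq]
  rw [hbc] at h1
  obtain ⟨R, hR⟩ := log_baseChange_unif E F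
  obtain ⟨R', hR'⟩ := log_baseChange_unif E F'
  obtain ⟨C₂, h20, h2⟩ := swap (finite_fx hFr F)
  obtain ⟨C₃, h30, h3⟩ := swap (finite_fx hFr F')
  refine ⟨C₁ + |R| + |R'| + C₂ + C₃, by positivity, fun t δ hδ => ?_⟩
  have hσ : 1 < 1 + δ := by linarith
  have a1 := abs_le.mp (h1 t δ hδ)
  have a2 := abs_le.mp ((hR t δ hδ).trans (le_abs_self R))
  have a3 := abs_le.mp ((hR' t δ hδ).trans (le_abs_self R'))
  have hx : ∀ v : HeightOneSpectrum (𝓞 K), |cc E v * Real.cos (t * Real.log (nm v))| ≤ 2 := by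
    intro v
    rw [abs_mul]
    calc _ ≤ 2 * 1 := mul_le_mul (abs_cc_le _ v) (Real.abs_cos_le_one _) (abs_nonneg _)
          (by norm_num)
      _ = 2 := by norm_num
  have a4 := abs_le.mp (h2 (1 + δ) hσ (fun v => cc E v * Real.cos (t * Real.log (nm v))) hx)
  have a5 := abs_le.mp (h3 (1 + δ) hσ (fun v => cc E v * Real.cos (t * Real.log (nm v))) hx)
  have b1 := re_SC_real F E Fr hσ t
  have b2 := re_SC_real F' E Fr hσ t
  have hsum : ∀ F₁ : IntermediateField K M, Summable fun v : HeightOneSpectrum (𝓞 K) =>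
      (wp (1 + δ) v : ℂ) * ((cc E v : ℂ) * ((fx F₁ (Fr v) : ℂ) * ph t (nm v))) := fun F₁ => by
    refine summable_SC63 hσ (C := 2 * ∑ g : Gal(M/K), (fx F₁ g : ℝ)) fun v => ?_
    rw [norm_mul, norm_mul, norm_ph63, mul_one, Complex.norm_real, Real.norm_eq_abs,
      Complex.norm_natCast]
    exact mul_le_mul (abs_cc_le E v) (Finset.single_le_sum
      (f := fun g : Gal(M/K) => (fx F₁ g : ℝ)) (fun g _ => Nat.cast_nonneg _)
      (Finset.mem_univ _)) (Nat.cast_nonneg _) (by norm_num)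
  have b3 : SC (K := K) (1 + δ) (fun v => (cc E v : ℂ) *
        (((fx F' (Fr v) : ℂ) - (fx F (Fr v) : ℂ)) * ph t (nm v))) =
      SC (K := K) (1 + δ) (fun v => (cc E v : ℂ) * ((fx F' (Fr v) : ℂ) * ph t (nm v))) -
      SC (K := K) (1 + δ) (fun v => (cc E v : ℂ) * ((fx F (Fr v) : ℂ) * ph t (nm v))) := by
    rw [SC, SC, SC, ← (hsum F').tsum_sub (hsum F)]
    refine tsum_congr fun v => ?_
    ring
  rw [b3, Complex.sub_re, b1, b2, abs_le]
  constructor <;> linarith [a1.1, a1.2, a2.1, a2.2, a3.1, a3.2, a4.1, a4.2, a5.1, a5.2]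

/-- From the sum over the places to the L-series. -/
lemma conj_step {A C : ℝ} {ε : ℝ} (hε : 0 < ε) {T : Set ℝ} {X Y : ℝ → ℝ → ℝ}
    (hXY : ∀ t σ : ℝ, 3 / 2 < σ → |X σ t - Y σ t| ≤ C)
    (hY : ∀ᶠ σ : ℝ in 𝓝[>] (3 / 2), ∀ t ∈ T, |Y σ t| ≤ (A + ε / 2) * Real.log (1 / (σ - 3 / 2))) :
    ∀ᶠ σ : ℝ in 𝓝[>] (3 / 2), ∀ t ∈ T, |X σ t| ≤ (A + ε) * Real.log (1 / (σ - 3 / 2)) := by
  filter_upwards [hY, tendsto_log_edge.eventually (eventually_ge_atTop (C / (ε / 2))),
    self_mem_nhdsWithin] with σ h4 h5 hσ t ht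
  have hσ' : 3 / 2 < σ := hσ
  rw [div_le_iff₀ (half_pos hε)] at h5
  have h6 := hXY t σ hσ'
  have h10 := abs_sub_abs_le_abs_sub (X σ t) (Y σ t)
  have := h4 t ht
  nlinarith

/-- A single curve. -/
theorem conj_final (E : WeierstrassCurve K) [E.IsElliptic] (F : IntermediateField K M)
    [IsGalois K F] {d : F} {θ : M} (hθ : θ ^ 2 = d) (hd : ¬ IsSquare d) {ε : ℝ} (hε : 0 < ε) :
    (∀ᶠ σ : ℝ in 𝓝[>] (3 / 2), ∀ t : ℝ,
      |Real.log ‖(qt (E.baseChange F) d).LSeries (σ + t * Complex.I)‖| ≤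
        (2 * Real.sqrt (Nat.card {τ : Gal(F/K) // IsSquare (d * τ d)} / finrank K F) + ε) *
          Real.log (1 / (σ - 3 / 2))) ∧
    ∀ t : ℝ, t ≠ 0 → ∀ᶠ σ : ℝ in 𝓝[>] (3 / 2),
      |Real.log ‖(qt (E.baseChange F) d).LSeries (σ + t * Complex.I)‖| ≤
        (4 / Real.pi * Real.sqrt (Nat.card {τ : Gal(F/K) // IsSquare (d * τ d)} / finrank K F) +
          ε) * Real.log (1 / (σ - 3 / 2)) := by
  choose Fr hFr using fun v : HeightOneSpectrum (𝓞 K) => exists_isFr (K := K) (M := M) v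
  obtain ⟨C, hC0, hC⟩ := conj_key E F hθ hd hFr
  set F' : IntermediateField K M := (IntermediateField.adjoin F {θ}).restrictScalars K with hF'
  set f : Gal(M/K) → ℂ := fun g => (fx F' g : ℂ) - (fx F g : ℂ) with hf
  have hfc : IsClassFn f := fun g h => by simp only [hf, fx_conj]
  have hmean := sum_abs_conj_gen F hθ hd
  set q : ℝ := Real.sqrt (Nat.card {τ : Gal(F/K) // IsSquare (d * τ d)} / finrank K F) with hq
  have h7 : (∑ g : Gal(M/K), ‖f g‖) / Fintype.card Gal(M/K) ≤ q := by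
    refine le_trans (le_of_eq ?_) hmean
    congr 1
    refine Finset.sum_congr rfl fun g _ => ?_
    simp only [hf]
    rw [← Real.norm_eq_abs, ← Complex.norm_real]
    push_cast
    rfl
  have hlog : ∀ᶠ σ : ℝ in 𝓝[>] (3 / 2), 0 ≤ Real.log (1 / (σ - 3 / 2)) :=
    tendsto_log_edge.eventually (eventually_ge_atTop 0)
  have hXY : ∀ t σ : ℝ, 3 / 2 < σ →
      |Real.log ‖(qt (E.baseChange F) d).LSeries (σ + t * Complex.I)‖ -
        (SC (K := K) (1 + (σ - 3 / 2)) (fun v => (cc E v : ℂ) *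
          (f (Fr v) * ph t (nm v)))).re| ≤ C := by
    intro t σ hσ
    have h6 := hC t (σ - 3 / 2) (by linarith)
    have e : ((3 / 2 + (σ - 3 / 2) : ℝ) : ℂ) = σ := by norm_num
    rw [e] at h6
    exact h6
  constructor
  · have h4 := tendsto_sub_three_halves.eventually
      (single_class_unif hFr (c := fun v => cc E v) (fun v => abs_cc_le E v) hfc (half_pos hε))
    have h5 := conj_step (A := 2 * q) hε (T := Set.univ)
      (X := fun σ t => Real.log ‖(qt (E.baseChange F) d).LSeries (σ + t * Complex.I)‖)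
      (Y := fun σ t => (SC (K := K) (1 + (σ - 3 / 2)) (fun v => (cc E v : ℂ) *
          (f (Fr v) * ph t (nm v)))).re) hXY (by
        filter_upwards [h4, hlog] with σ h4 h5 t _
        rw [add_sub_cancel_left] at h4
        refine (h4 t).trans (mul_le_mul_of_nonneg_right ?_ h5)
        have := mul_le_mul_of_nonneg_left h7 zero_le_two
        linarith)
    exact h5.mono fun σ h t => h t trivial
  · intro t ht
    have h4 := tendsto_sub_three_halves.eventually
      (single_class hFr (c := fun v => cc E v) (fun v => abs_cc_le E v) hfc t (half_pos hε))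
    rw [if_neg ht] at h4
    have h5 := conj_step (A := 4 / Real.pi * q) hε (T := {t})
      (X := fun σ t => Real.log ‖(qt (E.baseChange F) d).LSeries (σ + t * Complex.I)‖)
      (Y := fun σ t => (SC (K := K) (1 + (σ - 3 / 2)) (fun v => (cc E v : ℂ) *
          (f (Fr v) * ph t (nm v)))).re) hXY (by
        filter_upwards [h4, hlog] with σ h4 h5 t' ht'
        rw [Set.mem_singleton_iff] at ht'
        subst ht'
        rw [add_sub_cancel_left] at h4
        refine h4.trans (mul_le_mul_of_nonneg_right ?_ h5)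
        have := mul_le_mul_of_nonneg_left h7 (show 0 ≤ 4 / Real.pi by positivity)
        linarith)
    exact h5.mono fun σ h => h t rfl

end

end Pool.Agent.Lib.MP_bf61d2_nt.Artin
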