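import Pool.Agent.Lib.MP_bf61d2_nt.Artin.B90

set_option autoImplicit false

/-!
ARTIN EDGE (MP_bf61d2_nt), module D2: the Bessel inequality over pairwise orthogonal class functions
and shifts, from equidistribution of the Frobenius elements.
-/

namespace Pool.Agent.Lib.MP_bf61d2_nt.Artin

open NumberField IsDedekindDomain Filter Topology
open Pool.Agent.Lib.MP_bf61d2_nt.Perm

variable {K M : Type*} [Field K] [NumberField K] [Field M] [NumberField M] [Algebra K M]
  [Fintype Gal(M/K)]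

namespace D2x90

omit [NumberField K] [Fintype Gal(M/K)] in
lemma norm_ph (u : ℝ) (n : ℕ) : ‖ph u n‖ = 1 := by
  unfold ph
  exact Complex.norm_exp_ofReal_mul_I _

omit [NumberField K] [Fintype Gal(M/K)] in
lemma ph_mul_conj (s t : ℝ) (n : ℕ) : ph s n * (starRingEnd ℂ) (ph t n) = ph (s - t) n := by
  unfold ph
  rw [← Complex.exp_conj, map_mul, Complex.conj_ofReal, Complex.conj_I, ← Complex.exp_add]
  congr 1
  push_cast
  ring

omit [NumberField K] [Fintype Gal(M/K)] in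
lemma ph_zero (n : ℕ) : ph 0 n = 1 := by
  unfold ph
  simp

end D2x90

open D2x90 in
/-- D2, with the theorem of Chebotarev as a hypothesis -/
theorem bessel_artin_of {Fr : HeightOneSpectrum (𝓞 K) → Gal(M/K)}
    (hch : ∀ f : Gal(M/K) → ℂ, IsClassFn f → WEq Fr f)
    {c : HeightOneSpectrum (𝓞 K) → ℝ} (hc : ∀ v, |c v| ≤ 2) {n : ℕ} (f : Fin n → Gal(M/K) → ℂ)
    (hf : ∀ j, IsClassFn (f j)) (t : Fin n → ℝ)
    (hf1 : ∀ j, ∑ g, f j g * (starRingEnd ℂ) (f j g) = Fintype.card Gal(M/K))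
    (hf2 : ∀ i j, i ≠ j → t i = t j → ∑ g, f i g * (starRingEnd ℂ) (f j g) = 0)
    {ε : ℝ} (hε : 0 < ε) : ∀ᶠ σ : ℝ in 𝓝[>] 1,
      ∑ j, ‖SC (K := K) σ (fun v => (c v : ℂ) * (f j (Fr v) * ph (t j) (nm v)))‖ ^ 2 ≤
        (4 + ε) * Real.log (1 / (σ - 1)) ^ 2 := by
  classical
  have hG : (0 : ℝ) < Fintype.card Gal(M/K) := by exact_mod_cast Fintype.card_pos
  have hGc : ((Fintype.card Gal(M/K) : ℕ) : ℂ) ≠ 0 := by exact_mod_cast hG.ne'
  -- a small parameter
  obtain ⟨η, hη, hη1⟩ : ∃ η : ℝ, 0 < η ∧ (1 + n * η) * (4 * (1 + η)) ≤ 4 + ε := by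
    have h1 : Continuous fun η : ℝ => (1 + n * η) * (4 * (1 + η)) := by fun_prop
    have h2 : Tendsto (fun η : ℝ => (1 + n * η) * (4 * (1 + η))) (𝓝[>] 0) (𝓝 4) := by
      have h3 := (h1.tendsto 0).mono_left (nhdsWithin_le_nhds (s := Set.Ioi (0 : ℝ)))
      simpa using h3
    have h4 := (h2.eventually (Iic_mem_nhds (show (4 : ℝ) < 4 + ε by linarith))).and
      self_mem_nhdsWithin
    obtain ⟨η, h5, h6⟩ := h4.exists
    exact ⟨η, h6, h5⟩
  -- the products are class functions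
  have hprod : ∀ i j, IsClassFn fun g => f i g * (starRingEnd ℂ) (f j g) := by
    intro i j a b
    show f i (b * a * b⁻¹) * (starRingEnd ℂ) (f j (b * a * b⁻¹)) = _
    rw [hf i, hf j]
  have hpair : ∀ᶠ σ : ℝ in 𝓝[>] 1, ∀ i j : Fin n,
      ‖SC (K := K) σ (fun v => (f i (Fr v) * (starRingEnd ℂ) (f j (Fr v))) *
        ph (t i - t j) (nm v)) - (if t i - t j = 0 then
          (∑ g, f i g * (starRingEnd ℂ) (f j g)) / Fintype.card Gal(M/K) else 0) *
          (Real.log (1 / (σ - 1)) : ℝ)‖ ≤ η * Real.log (1 / (σ - 1)) := by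
    rw [eventually_all]
    intro i
    rw [eventually_all]
    intro j
    exact hch _ (hprod i j) (t i - t j) η hη
  have hone : ∀ᶠ σ : ℝ in 𝓝[>] 1,
      ‖SC (K := K) σ (fun v => (1 : ℂ) * ph 0 (nm v)) - (if (0 : ℝ) = 0 then
          (∑ _g : Gal(M/K), (1 : ℂ)) / Fintype.card Gal(M/K) else 0) *
          (Real.log (1 / (σ - 1)) : ℝ)‖ ≤ η * Real.log (1 / (σ - 1)) :=
    hch (fun _ => 1) (fun _ _ => rfl) 0 η hη
  have hlog : ∀ᶠ σ : ℝ in 𝓝[>] 1, σ < 2 := by
    have h1 : Set.Iio (2 : ℝ) ∈ 𝓝 (1 : ℝ) := Iio_mem_nhds (by norm_num)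
    exact mem_nhdsWithin_of_mem_nhds h1
  filter_upwards [hpair, hone, hlog, self_mem_nhdsWithin] with σ hp ho hσ2 hσ1
  have hσ : 1 < σ := hσ1
  set Λ : ℝ := Real.log (1 / (σ - 1)) with hΛ
  have hΛ0 : 0 ≤ Λ := by
    apply Real.log_nonneg
    rw [le_div_iff₀ (by linarith)]
    linarith
  -- the total mass
  have hmass : ∑' v : HeightOneSpectrum (𝓞 K), wp σ v ≤ (1 + η) * Λ := by
    have e1 : SC (K := K) σ (fun v => (1 : ℂ) * ph 0 (nm v)) =
        ((∑' v : HeightOneSpectrum (𝓞 K), wp σ v : ℝ) : ℂ) := by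
      unfold SC
      rw [Complex.ofReal_tsum]
      refine tsum_congr fun v => ?_
      beta_reduce
      rw [ph_zero, mul_one, mul_one]
    have e2 : (∑ _g : Gal(M/K), (1 : ℂ)) / Fintype.card Gal(M/K) = 1 := by
      rw [Finset.sum_const, Finset.card_univ, nsmul_eq_mul, mul_one, div_self hGc]
    rw [if_pos rfl, e2, one_mul, e1, ← Complex.ofReal_sub, Complex.norm_real,
      Real.norm_eq_abs] at ho
    linarith [(abs_le.1 ho).2]
  have hmass2 : ∑' v : HeightOneSpectrum (𝓞 K), wp σ v * c v ^ 2 ≤ 4 * ((1 + η) * Λ) := by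
    have hle : ∀ v : HeightOneSpectrum (𝓞 K), wp σ v * c v ^ 2 ≤ wp σ v * 4 := by
      intro v
      refine mul_le_mul_of_nonneg_left ?_ (wp_pos σ v).le
      have h1 := abs_le.1 (hc v)
      nlinarith [h1.1, h1.2]
    have hs : Summable fun v : HeightOneSpectrum (𝓞 K) => wp σ v * 4 :=
      (summable_wp hσ).mul_right 4
    have hs' : Summable fun v : HeightOneSpectrum (𝓞 K) => wp σ v * c v ^ 2 :=
      hs.of_nonneg_of_le (fun v => mul_nonneg (wp_pos σ v).le (sq_nonneg _)) hle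
    have h1 := hs'.tsum_le_tsum hle hs
    rw [tsum_mul_right] at h1
    linarith
  -- the Gram bound
  have hgram : ∀ j ∈ (Finset.univ : Finset (Fin n)), ∑ j' ∈ (Finset.univ : Finset (Fin n)),
      ‖∑' v : HeightOneSpectrum (𝓞 K), (wp σ v : ℂ) * ((f j (Fr v) * ph (t j) (nm v)) *
        (starRingEnd ℂ) (f j' (Fr v) * ph (t j') (nm v)))‖ ≤ (1 + n * η) * Λ := by
    intro j _
    have hG1 : ∀ j', ‖∑' v : HeightOneSpectrum (𝓞 K), (wp σ v : ℂ) *
        ((f j (Fr v) * ph (t j) (nm v)) *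
        (starRingEnd ℂ) (f j' (Fr v) * ph (t j') (nm v)))‖ ≤
        (if j' = j then Λ else 0) + η * Λ := by
      intro j'
      have e1 : (∑' v : HeightOneSpectrum (𝓞 K), (wp σ v : ℂ) * ((f j (Fr v) * ph (t j) (nm v)) *
          (starRingEnd ℂ) (f j' (Fr v) * ph (t j') (nm v)))) =
          SC (K := K) σ (fun v => (f j (Fr v) * (starRingEnd ℂ) (f j' (Fr v))) *
            ph (t j - t j') (nm v)) := by
        unfold SC
        refine tsum_congr fun v => ?_
        beta_reduce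
        rw [map_mul, ← ph_mul_conj]
        ring
      rw [e1]
      have h1 := hp j j'
      have h2 : ‖(if t j - t j' = 0 then
          (∑ g, f j g * (starRingEnd ℂ) (f j' g)) / Fintype.card Gal(M/K) else 0) *
          ((Λ : ℝ) : ℂ)‖ ≤ if j' = j then Λ else 0 := by
        by_cases hjj : j' = j
        · subst hjj
          rw [if_pos (sub_self _), hf1, div_self hGc, one_mul, if_pos rfl, Complex.norm_real,
            Real.norm_eq_abs, abs_of_nonneg hΛ0]
        · rw [if_neg hjj]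
          by_cases htt : t j - t j' = 0
          · rw [if_pos htt, hf2 j j' (Ne.symm hjj) (sub_eq_zero.1 htt), zero_div, zero_mul,
              norm_zero]
          · rw [if_neg htt, zero_mul, norm_zero]
      have h3 := norm_sub_norm_le (SC (K := K) σ (fun v => (f j (Fr v) *
        (starRingEnd ℂ) (f j' (Fr v))) * ph (t j - t j') (nm v)))
        ((if t j - t j' = 0 then
          (∑ g, f j g * (starRingEnd ℂ) (f j' g)) / Fintype.card Gal(M/K) else 0) *
          ((Λ : ℝ) : ℂ))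
      linarith
    refine (Finset.sum_le_sum fun j' _ => hG1 j').trans (le_of_eq ?_)
    rw [Finset.sum_add_distrib, Finset.sum_ite_eq' Finset.univ j, if_pos (Finset.mem_univ j),
      Finset.sum_const, Finset.card_univ, Fintype.card_fin, nsmul_eq_mul]
    ring
  have hB := bessel_complex (ι := HeightOneSpectrum (𝓞 K)) (τ := Fin n) (fun v => wp σ v) c
    (fun j v => f j (Fr v) * ph (t j) (nm v)) Finset.univ (P := (1 + n * η) * Λ) (B := 2)
    (D := ∑ j, ∑ g, ‖f j g‖) (by positivity) (summable_wp hσ) (fun v => (wp_pos σ v).le) hc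
    (by
      intro j v
      rw [norm_mul, norm_ph, mul_one]
      exact (Finset.single_le_sum (f := fun g => ‖f j g‖) (fun g _ => norm_nonneg _)
        (Finset.mem_univ (Fr v))).trans (Finset.single_le_sum (f := fun j => ∑ g, ‖f j g‖)
        (fun j _ => Finset.sum_nonneg fun g _ => norm_nonneg _) (Finset.mem_univ j)))
    hgram
  refine hB.trans ?_
  have hP : 0 ≤ (1 + n * η) * Λ := by positivity
  calc (1 + n * η) * Λ * ∑' v : HeightOneSpectrum (𝓞 K), wp σ v * c v ^ 2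
      ≤ (1 + n * η) * Λ * (4 * ((1 + η) * Λ)) := mul_le_mul_of_nonneg_left hmass2 hP
    _ = ((1 + n * η) * (4 * (1 + η))) * Λ ^ 2 := by ring
    _ ≤ (4 + ε) * Λ ^ 2 := mul_le_mul_of_nonneg_right hη1 (sq_nonneg _)

end Pool.Agent.Lib.MP_bf61d2_nt.Artin
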