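import Pool.Agent.Lib.MP_bf61d2_nt.Artin.T7

set_option autoImplicit false

/-!
The twist by a permutation representation.
-/

namespace Pool.Agent.Lib.MP_bf61d2_nt.Artin

open NumberField IsDedekindDomain Filter Topology Polynomial Module
open Pool.Agent.Lib.MP_bf61d2_nt.Perm

section D3

variable {K M : Type*} [Field K] [NumberField K] [Field M] [NumberField M] [Algebra K M]
  [IsGalois K M]

omit [IsGalois K M] in
/-- the real part of the sum, for real coefficients -/
lemma re_SC_real (F : IntermediateField K M) (E : WeierstrassCurve K)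
    (Fr : HeightOneSpectrum (𝓞 K) → Gal(M/K)) {σ : ℝ} (hσ : 1 < σ) (t : ℝ) :
    (SC (K := K) σ (fun v => (cc E v : ℂ) * ((fx F (Fr v) : ℂ) * ph t (nm v)))).re =
      ∑' v, wp σ v * (fx F (Fr v) * (cc E v * Real.cos (t * Real.log (nm v)))) := by
  classical
  have hfd : FiniteDimensional K M := Module.Finite.of_restrictScalars_finite ℚ K M
  have := Fintype.ofFinite Gal(M/K)
  have hs : Summable fun v : HeightOneSpectrum (𝓞 K) =>
      (wp σ v : ℂ) * ((cc E v : ℂ) * ((fx F (Fr v) : ℂ) * ph t (nm v))) := by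
    refine Summable.of_norm_bounded ((summable_wp (K := K) hσ).mul_left
      (2 * ∑ g : Gal(M/K), (fx F g : ℝ))) fun v => ?_
    rw [norm_mul, norm_mul, norm_mul, norm_ph, Complex.norm_real, Complex.norm_real,
      Real.norm_eq_abs, Real.norm_eq_abs, abs_of_pos (wp_pos _ v), mul_one,
      Complex.norm_natCast]
    have h1 : (fx F (Fr v) : ℝ) ≤ ∑ g : Gal(M/K), (fx F g : ℝ) :=
      Finset.single_le_sum (f := fun g : Gal(M/K) => (fx F g : ℝ)) (fun g _ => Nat.cast_nonneg _)
        (Finset.mem_univ _)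
    rw [mul_comm]
    apply mul_le_mul_of_nonneg_right _ (wp_pos σ v).le
    exact mul_le_mul (abs_cc_le E v) h1 (Nat.cast_nonneg _) (by norm_num)
  rw [SC, Complex.re_tsum hs]
  refine tsum_congr fun v => ?_
  have e : (wp σ v : ℂ) * ((cc E v : ℂ) * ((fx F (Fr v) : ℂ) * ph t (nm v))) =
      ((wp σ v * (cc E v * fx F (Fr v)) : ℝ) : ℂ) * ph t (nm v) := by
    push_cast; ring
  rw [e, Complex.re_ofReal_mul, ph, Complex.exp_ofReal_mul_I_re, Real.cos_neg]
  ring

/-- D3 (from `log_LTw`, `finite_fx`, `Perm.log_baseChange`, `Perm.swap`): the twist by the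
permutation representation of the embeddings of `F`. -/
theorem perm_LTw_of (E : WeierstrassCurve K) [E.IsElliptic] (F : IntermediateField K M)
    {V : Type*} [AddCommGroup V] [Module ℂ V] [FiniteDimensional ℂ V]
    (ρ : Representation ℂ Gal(M/K) V)
    (hρ : ∀ g, ρ.character g = (fx F g : ℂ)) {Fr : HeightOneSpectrum (𝓞 K) → Gal(M/K)}
    (hFr : {v : HeightOneSpectrum (𝓞 K) | r1 F v ≠ fx F (Fr v)}.Finite)
    {S : Set (HeightOneSpectrum (𝓞 K))} (hS : S.Finite) (t : ℝ) :
    ∃ C : ℝ, 0 ≤ C ∧ ∀ δ : ℝ, 0 < δ →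
      |Real.log ‖LTw E ρ Fr S ((3 / 2 + δ : ℝ) + t * Complex.I)‖ -
        Real.log ‖(E.baseChange F).LSeries ((3 / 2 + δ : ℝ) + t * Complex.I)‖| ≤ C := by
  have hfd : FiniteDimensional K M := Module.Finite.of_restrictScalars_finite ℚ K M
  obtain ⟨C₁, h10, h1⟩ := log_LTw E ρ Fr hS t
  obtain ⟨C₂, h20, h2⟩ := swap hFr
  obtain ⟨R, hR⟩ := log_baseChange E F t
  refine ⟨C₁ + C₂ + |R|, by positivity, fun δ hδ => ?_⟩
  have h3 := h1 δ hδ
  have h4 := h2 (1 + δ) (by linarith) (fun v => cc E v * Real.cos (t * Real.log (nm v)))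
    (fun v => by
      rw [abs_mul]
      calc _ ≤ 2 * 1 := mul_le_mul (abs_cc_le _ v) (Real.abs_cos_le_one _) (abs_nonneg _)
            (by norm_num)
        _ = 2 := by norm_num)
  have h5 := hR δ hδ
  simp_rw [hρ] at h3
  rw [re_SC_real F E Fr (by linarith : 1 < 1 + δ) t] at h3
  have h6 := abs_le.mp h3
  have h7 := abs_le.mp h4
  have h8 := abs_le.mp h5
  have h9 := le_abs_self R
  rw [abs_le]
  constructor <;> linarith [h6.1, h6.2, h7.1, h7.2, h8.1, h8.2]

end D3

end Pool.Agent.Lib.MP_bf61d2_nt.Artin
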