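import Pool.Agent.Lib.MP_bf61d2_nt.Artin.D37
import Pool.Agent.Lib.MP_bf61d2_nt.Artin.F40

set_option autoImplicit false

/-!
The twist by a permutation representation.
-/

namespace Pool.Agent.Lib.MP_bf61d2_nt.Artin

open NumberField IsDedekindDomain Filter Topology Polynomial Module
open Pool.Agent.Lib.MP_bf61d2_nt.Perm

variable {K M : Type*} [Field K] [NumberField K] [Field M] [NumberField M] [Algebra K M]
  [IsGalois K M]

/-- D3 (from `log_LTw`, `finite_fx`, `Perm.log_baseChange`, `Perm.swap`): the twist by the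
permutation representation of the embeddings of `F`. -/
theorem perm_LTw (E : WeierstrassCurve K) [E.IsElliptic] (F : IntermediateField K M) {V : Type*}
    [AddCommGroup V] [Module ℂ V] [FiniteDimensional ℂ V] (ρ : Representation ℂ Gal(M/K) V)
    (hρ : ∀ g, ρ.character g = (fx F g : ℂ)) {Fr : HeightOneSpectrum (𝓞 K) → Gal(M/K)}
    (hFr : ∀ v, IsFr v (Fr v)) {S : Set (HeightOneSpectrum (𝓞 K))} (hS : S.Finite) (t : ℝ) :
    ∃ C : ℝ, 0 ≤ C ∧ ∀ δ : ℝ, 0 < δ →
      |Real.log ‖LTw E ρ Fr S ((3 / 2 + δ : ℝ) + t * Complex.I)‖ -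
        Real.log ‖(E.baseChange F).LSeries ((3 / 2 + δ : ℝ) + t * Complex.I)‖| ≤ C :=
  perm_LTw_of E F ρ hρ (finite_fx hFr F) hS t

end Pool.Agent.Lib.MP_bf61d2_nt.Artin
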