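import Mathlib

set_option autoImplicit false

/-!
Endomorphisms of finite order of a complex vector space, and characters of finite groups.
-/

namespace Pool.Agent.Lib.MP_bf61d2_nt.Artin

open Polynomial Module

section R

variable {V : Type*} [AddCommGroup V] [Module ℂ V] [FiniteDimensional ℂ V]

/-- A basis of eigenvectors. -/
lemma exists_eigenbasis (T : Module.End ℂ V) {n : ℕ} (hn : n ≠ 0) (hT : T ^ n = 1) :
    ∃ (b : Basis (Fin (finrank ℂ V)) ℂ V) (l : Fin (finrank ℂ V) → ℂ),
      ∀ i, T (b i) = l i • b i := by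
  classical
  have hss : T.IsSemisimple := by
    refine Module.End.isSemisimple_of_squarefree_aeval_eq_zero (p := X ^ n - C 1) ?_ (by simp [hT])
    exact (Polynomial.separable_X_pow_sub_C (1 : ℂ) (by exact_mod_cast hn) one_ne_zero).squarefree
  have htop := hss.iSup_eigenspace_eq_top
  have hint : DirectSum.IsInternal (fun μ : ℂ => T.eigenspace μ) :=
    (DirectSum.isInternal_submodule_iff_iSupIndep_and_iSup_eq_top _).mpr
      ⟨T.eigenspaces_iSupIndep, htop⟩
  set b₀ := hint.collectedBasis (fun μ => Module.finBasis ℂ (T.eigenspace μ)) with hb₀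
  have hfin := FiniteDimensional.fintypeBasisIndex b₀
  set e := Fintype.equivFinOfCardEq (Module.finrank_eq_card_basis b₀).symm with he
  refine ⟨b₀.reindex e, fun i => (e.symm i).1, fun i => ?_⟩
  rw [Basis.reindex_apply]
  exact Module.End.mem_eigenspace_iff.mp (hint.collectedBasis_mem _ _)

/-- The eigenvalues, with their multiplicities. -/
lemma exists_eigen_pow (T : Module.End ℂ V) {n : ℕ} (hn : n ≠ 0) (hT : T ^ n = 1) :
    ∃ l : Fin (finrank ℂ V) → ℂ, (∀ i, l i ^ n = 1) ∧ ∀ p : ℂ[X],
      LinearMap.det (aeval T p) = ∏ i, p.eval (l i) ∧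
      LinearMap.trace ℂ V (aeval T p) = ∑ i, p.eval (l i) := by
  classical
  obtain ⟨b, l, hl⟩ := exists_eigenbasis T hn hT
  have hp : ∀ (p : ℂ[X]) (i : Fin (finrank ℂ V)), aeval T p (b i) = p.eval (l i) • b i :=
    fun p i => Module.End.aeval_apply_of_mem_apply_eq_smul (hl i)
  have hM : ∀ p : ℂ[X], LinearMap.toMatrix b b (aeval T p) =
      Matrix.diagonal fun i => p.eval (l i) := by
    intro p
    ext i j
    rw [LinearMap.toMatrix_apply, hp, map_smul, Basis.repr_self, Matrix.diagonal_apply,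
      Finsupp.smul_apply, Finsupp.single_apply, smul_eq_mul]
    by_cases h : i = j
    · subst h
      simp
    · rw [if_neg (Ne.symm h), if_neg h, mul_zero]
  refine ⟨l, fun i => ?_, fun p => ⟨?_, ?_⟩⟩
  · have h1 := hp (X ^ n) i
    rw [map_pow, aeval_X, hT, eval_pow, eval_X, Module.End.one_apply] at h1
    have h3 : ((l i) ^ n - 1) • b i = 0 := by rw [sub_smul, one_smul, ← h1, sub_self]
    rcases smul_eq_zero.mp h3 with h4 | h4
    · exact sub_eq_zero.mp h4
    · exact absurd h4 (b.ne_zero i)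
  · rw [← LinearMap.det_toMatrix b, hM, Matrix.det_diagonal]
  · rw [LinearMap.trace_eq_matrix_trace ℂ b, hM, Matrix.trace_diagonal]

theorem exists_eigen (T : Module.End ℂ V) {n : ℕ} (hn : n ≠ 0) (hT : T ^ n = 1) :
    ∃ l : Fin (finrank ℂ V) → ℂ, (∀ i, ‖l i‖ = 1) ∧ ∀ p : ℂ[X],
      LinearMap.det (aeval T p) = ∏ i, p.eval (l i) ∧
      LinearMap.trace ℂ V (aeval T p) = ∑ i, p.eval (l i) := by
  obtain ⟨l, hl, hp⟩ := exists_eigen_pow T hn hT
  exact ⟨l, fun i => Complex.norm_eq_one_of_pow_eq_one (hl i) hn, hp⟩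

theorem character_inv {G : Type*} [Group G] [Finite G] (ρ : Representation ℂ G V) (g : G) :
    ρ.character g⁻¹ = (starRingEnd ℂ) (ρ.character g) := by
  have ho := orderOf_pos g
  obtain ⟨l, hl, hp⟩ := exists_eigen_pow (ρ g) (n := orderOf g) ho.ne'
    (by rw [← map_pow, pow_orderOf_eq_one, map_one])
  have hinv : g⁻¹ = g ^ (orderOf g - 1) := by
    rw [inv_eq_iff_mul_eq_one, ← pow_succ', Nat.sub_add_cancel ho, pow_orderOf_eq_one]
  have h1 : ρ.character g = ∑ i, l i := by
    have := (hp X).2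
    rw [aeval_X] at this
    simpa [Representation.character] using this
  have h2 : ρ.character g⁻¹ = ∑ i, (l i) ^ (orderOf g - 1) := by
    have := (hp (X ^ (orderOf g - 1))).2
    rw [map_pow, aeval_X, ← map_pow, ← hinv] at this
    simpa [Representation.character] using this
  rw [h1, h2, map_sum]
  refine Finset.sum_congr rfl fun i _ => ?_
  have h8 : ‖l i‖ = 1 := Complex.norm_eq_one_of_pow_eq_one (hl i) ho.ne'
  have h9 : l i ≠ 0 := fun h => by
    rw [h, norm_zero] at h8
    exact zero_ne_one h8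
  have h10 : (l i) ^ (orderOf g - 1) = (l i)⁻¹ := by
    apply eq_inv_of_mul_eq_one_left
    rw [← pow_succ, Nat.sub_add_cancel ho, hl i]
  rw [h10, Complex.inv_def, Complex.normSq_eq_norm_sq, h8]
  simp

theorem norm_character_le {G : Type*} [Group G] [Finite G] (ρ : Representation ℂ G V) (g : G) :
    ‖ρ.character g‖ ≤ finrank ℂ V := by
  have ho := orderOf_pos g
  obtain ⟨l, hl, hp⟩ := exists_eigen (ρ g) (n := orderOf g) ho.ne'
    (by rw [← map_pow, pow_orderOf_eq_one, map_one])
  have h1 : ρ.character g = ∑ i, l i := by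
    have := (hp X).2
    rw [aeval_X] at this
    simpa [Representation.character] using this
  rw [h1]
  refine (norm_sum_le _ _).trans ?_
  simp [hl]

end R

end Pool.Agent.Lib.MP_bf61d2_nt.Artin
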