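import Pool.Agent.Lib.MP_bf61d2_nt.Artin.Defs63
import Pool.Agent.Lib.MP_bf61d2_nt.Artin.R7

set_option autoImplicit false

/-!
The logarithm of the Euler product of the twist of an elliptic curve by a representation.
-/

namespace Pool.Agent.Lib.MP_bf61d2_nt.Artin

open NumberField IsDedekindDomain Filter Topology Polynomial Module
open Pool.Agent.Lib.MP_bf61d2_nt.Perm

section T

variable {K : Type*} [Field K] [NumberField K]

/-- Rotation of `q ^ (-s)` by a complex number of modulus one. -/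
lemma exists_rot (v : HeightOneSpectrum (𝓞 K)) (s : ℂ) {l : ℂ} (hl : ‖l‖ = 1) :
    ∃ s' : ℂ, s'.re = s.re ∧ (nm v : ℂ) ^ (-s') = (nm v : ℂ) ^ (-s) * l ∧
      (nm v : ℂ) ^ (-(s' - 1 / 2)) = (nm v : ℂ) ^ (-(s - 1 / 2)) * l := by
  have h1 : (1 : ℝ) < nm v := by exact_mod_cast one_lt_nm v
  have h0 : (nm v : ℂ) ≠ 0 := by
    have := nm_pos v
    exact_mod_cast this.ne'
  have hlog : Real.log (nm v) ≠ 0 := (Real.log_pos h1).ne'
  have hlog' : Complex.log (nm v : ℂ) = (Real.log (nm v) : ℂ) := by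
    rw [← Complex.natCast_log]
  obtain ⟨θ, hθ⟩ : ∃ θ : ℝ, l = Complex.exp (θ * Complex.I) :=
    ⟨Complex.arg l, by
      have := Complex.norm_mul_exp_arg_mul_I l
      rw [hl] at this
      simpa using this.symm⟩
  have key : (nm v : ℂ) ^ ((θ / Real.log (nm v) : ℝ) * Complex.I) = l := by
    rw [Complex.cpow_def_of_ne_zero h0, hlog', hθ, Complex.ofReal_div]
    congr 1
    have : ((Real.log (nm v) : ℝ) : ℂ) ≠ 0 := Complex.ofReal_ne_zero.mpr hlog
    field_simp
  refine ⟨s - (θ / Real.log (nm v) : ℝ) * Complex.I, by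
    rw [Complex.sub_re, Complex.re_ofReal_mul, Complex.I_re, mul_zero, sub_zero], ?_, ?_⟩
  · rw [show -(s - (θ / Real.log (nm v) : ℝ) * Complex.I) =
      -s + (θ / Real.log (nm v) : ℝ) * Complex.I by ring, Complex.cpow_add _ _ h0, key]
  · rw [show -(s - (θ / Real.log (nm v) : ℝ) * Complex.I - 1 / 2) =
      -(s - 1 / 2) + (θ / Real.log (nm v) : ℝ) * Complex.I by ring, Complex.cpow_add _ _ h0, key]

/-- The local factor. -/
lemma exists_local (E : WeierstrassCurve K) {V : Type*} [AddCommGroup V] [Module ℂ V]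
    [FiniteDimensional ℂ V] {G : Type*} [Group G] [Finite G] (ρ : Representation ℂ G V)
    (v : HeightOneSpectrum (𝓞 K)) (g : G) {s : ℂ} (hs : 3 / 2 ≤ s.re) :
    ∃ Λ : ℂ, Complex.exp Λ =
        (LinearMap.det (aeval (((nm v : ℂ) ^ (-s)) • ρ g) (lp E v)))⁻¹ ∧
      ‖Λ‖ ≤ finrank ℂ V * (14 * xi E v s.re) ∧
      ‖Λ - cc E v * (ρ.character g * (nm v : ℂ) ^ (-(s - 1 / 2)))‖ ≤
        finrank ℂ V * (150 / (pr v : ℝ) ^ 2) := by
  have ho := orderOf_pos g
  obtain ⟨l, hl, hp⟩ := exists_eigen (ρ g) (n := orderOf g) ho.ne'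
    (by rw [← map_pow, pow_orderOf_eq_one, map_one])
  have hchar : ρ.character g = ∑ i, l i := by
    have := (hp X).2
    rw [aeval_X] at this
    simpa [Representation.character] using this
  choose s' hs1 hs2 hs3 using fun i => exists_rot v s (hl i)
  have hs' : ∀ i, 3 / 2 ≤ (s' i).re := fun i => by rw [hs1]; exact hs
  refine ⟨∑ i, lam E v (s' i), ?_, ?_, ?_⟩
  · rw [Complex.exp_sum]
    have h1 : aeval (((nm v : ℂ) ^ (-s)) • ρ g) (lp E v) =
        aeval (ρ g) (1 - C ((tr E v : ℂ) * (nm v : ℂ) ^ (-s)) * X +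
          C ((bb E v : ℂ) * ((nm v : ℂ) ^ (-s)) ^ 2) * X ^ 2 : ℂ[X]) := by
      rw [(lp_eq E v).1, quad]
      simp only [map_add, map_sub, map_mul, map_one, aeval_C, aeval_X, map_pow,
        Algebra.algebraMap_eq_smul_one, _root_.smul_pow, one_pow, smul_mul_assoc, one_mul,
        Int.cast_smul_eq_zsmul]
    rw [h1, (hp _).1, ← Finset.prod_inv_distrib]
    refine Finset.prod_congr rfl fun i _ => ?_
    have h3 := norm_zv_lt E v (hs' i)
    have hne : 1 - zv E v (s' i) ≠ 0 := by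
      intro h
      have : ‖(1 : ℂ)‖ = ‖zv E v (s' i)‖ := by rw [sub_eq_zero.mp h]
      rw [norm_one] at this
      linarith
    rw [lam, Complex.exp_neg, Complex.exp_log hne]
    congr 1
    rw [zv, hs2]
    simp only [eval_add, eval_sub, eval_one, eval_mul, eval_C, eval_X, eval_pow]
    ring
  · refine (norm_sum_le _ _).trans ?_
    refine (Finset.sum_le_sum fun i _ => norm_lam_le E v (hs' i)).trans ?_
    simp [hs1]
  · have h1 : ∑ i, lam E v (s' i) - cc E v * (ρ.character g * (nm v : ℂ) ^ (-(s - 1 / 2))) =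
        ∑ i, rho E v (s' i) := by
      rw [hchar, Finset.sum_mul, Finset.mul_sum, ← Finset.sum_sub_distrib]
      refine Finset.sum_congr rfl fun i _ => ?_
      rw [rho, hs3]
      ring
    rw [h1]
    refine (norm_sum_le _ _).trans ?_
    refine (Finset.sum_le_sum fun i _ => norm_rho_le E v (hs' i)).trans ?_
    simp

/-- The phase. -/
lemma cpow_eq_ph (v : HeightOneSpectrum (𝓞 K)) (δ t : ℝ) :
    (nm v : ℂ) ^ (-((((3 / 2 + δ : ℝ) : ℂ) + t * Complex.I) - 1 / 2)) =
      (wp (1 + δ) v : ℂ) * ph t (nm v) := by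
  have h0 : (nm v : ℂ) ≠ 0 := by
    have := nm_pos v
    exact_mod_cast this.ne'
  have e : -((((3 / 2 + δ : ℝ) : ℂ) + t * Complex.I) - 1 / 2) =
      ((-(1 + δ) : ℝ) : ℂ) + (-(t * Complex.I)) := by
    push_cast; ring
  rw [e, Complex.cpow_add _ _ h0, wp, Complex.ofReal_cpow (nm_pos v).le, ph,
    Complex.cpow_def_of_ne_zero h0 (-(t * Complex.I)), ← Complex.natCast_log]
  push_cast
  congr 2
  ring

lemma norm_ph (u : ℝ) (n : ℕ) : ‖ph u n‖ = 1 := by
  rw [ph, Complex.norm_exp_ofReal_mul_I]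

variable {M : Type*} [Field M] [NumberField M] [Algebra K M]

theorem log_LTw (E : WeierstrassCurve K) {V : Type*} [AddCommGroup V] [Module ℂ V]
    [FiniteDimensional ℂ V] (ρ : Representation ℂ Gal(M/K) V)
    (Fr : HeightOneSpectrum (𝓞 K) → Gal(M/K)) {S : Set (HeightOneSpectrum (𝓞 K))}
    (hS : S.Finite) (t : ℝ) : ∃ C : ℝ, 0 ≤ C ∧ ∀ δ : ℝ, 0 < δ →
      |Real.log ‖LTw E ρ Fr S ((3 / 2 + δ : ℝ) + t * Complex.I)‖ -
        (SC (K := K) (1 + δ) (fun v => (cc E v : ℂ) * (ρ.character (Fr v) * ph t (nm v)))).re| ≤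
        C := by
  classical
  have hfd : FiniteDimensional K M := Module.Finite.of_restrictScalars_finite ℚ K M
  set d : ℝ := (finrank ℂ V : ℝ) with hd
  have hd0 : 0 ≤ d := Nat.cast_nonneg _
  refine ⟨d * RB K + d * hS.toFinset.card, by have := RB_nonneg (K := K); positivity, ?_⟩
  intro δ hδ
  set s : ℂ := ((3 / 2 + δ : ℝ) : ℂ) + t * Complex.I with hs
  have hre : s.re = 3 / 2 + δ := by simp [hs]
  have h1 : 3 / 2 < s.re := by rw [hre]; linarith
  choose Λ hΛ1 hΛ2 hΛ3 using fun v => exists_local E ρ v (Fr v) h1.le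
  have hΛs : Summable Λ :=
    Summable.of_norm_bounded (((summable_xi E h1).mul_left 14).mul_left d) hΛ2
  have hΛs' : Summable fun v : {v : HeightOneSpectrum (𝓞 K) // v ∉ S} => Λ v.1 :=
    hΛs.subtype _
  have hL : LTw E ρ Fr S s = Complex.exp (∑' v : {v : HeightOneSpectrum (𝓞 K) // v ∉ S}, Λ v.1) := by
    rw [LTw]
    have h2 : HasProd (fun v : {v : HeightOneSpectrum (𝓞 K) // v ∉ S} => Complex.exp (Λ v.1))
        (Complex.exp (∑' v : {v : HeightOneSpectrum (𝓞 K) // v ∉ S}, Λ v.1)) :=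
      hΛs'.hasSum.cexp
    simp_rw [hΛ1] at h2
    exact h2.tprod_eq
  rw [hL, Complex.norm_exp, Real.log_exp]
  -- the main term
  set m : HeightOneSpectrum (𝓞 K) → ℂ := fun v =>
    (wp (1 + δ) v : ℂ) * ((cc E v : ℂ) * (ρ.character (Fr v) * ph t (nm v))) with hm
  have hm1 : ∀ v, m v = cc E v * (ρ.character (Fr v) * (nm v : ℂ) ^ (-(s - 1 / 2))) := by
    intro v
    rw [hm, hs, cpow_eq_ph]
    ring
  have hm2 : ∀ v, ‖m v‖ ≤ 2 * d * wp (1 + δ) v := by
    intro v
    rw [hm]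
    simp only
    rw [norm_mul, norm_mul, norm_mul, norm_ph, Complex.norm_real, Complex.norm_real,
      Real.norm_eq_abs, Real.norm_eq_abs, abs_of_pos (wp_pos _ v), mul_one]
    have h2 := abs_cc_le E v
    have h3 := norm_character_le ρ (Fr v)
    have h4 := wp_pos (1 + δ) v
    calc wp (1 + δ) v * (|cc E v| * ‖ρ.character (Fr v)‖) ≤ wp (1 + δ) v * (2 * d) := by
          apply mul_le_mul_of_nonneg_left _ h4.le
          exact mul_le_mul h2 h3 (norm_nonneg _) (by norm_num)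
      _ = _ := by ring
  have hms : Summable m :=
    Summable.of_norm_bounded ((summable_wp (K := K) (by linarith : 1 < 1 + δ)).mul_left (2 * d)) hm2
  have hms' : Summable fun v : {v : HeightOneSpectrum (𝓞 K) // v ∉ S} => m v.1 := hms.subtype _
  have hSC : SC (K := K) (1 + δ) (fun v => (cc E v : ℂ) * (ρ.character (Fr v) * ph t (nm v))) =
      ∑' v, m v := rfl
  rw [hSC, ← Complex.sub_re]
  refine (Complex.abs_re_le_norm _).trans ?_
  have h2 : ‖∑' v : {v : HeightOneSpectrum (𝓞 K) // v ∉ S}, Λ v.1 -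
      ∑' v : {v : HeightOneSpectrum (𝓞 K) // v ∉ S}, m v.1‖ ≤ d * RB K := by
    rw [← hΛs'.tsum_sub hms']
    have hb : Summable fun v : HeightOneSpectrum (𝓞 K) => d * (150 / (pr v : ℝ) ^ 2) :=
      summable_bound.mul_left d
    have hb' : Summable fun v : {v : HeightOneSpectrum (𝓞 K) // v ∉ S} =>
        d * (150 / (pr v.1 : ℝ) ^ 2) := hb.subtype _
    refine (tsum_of_norm_bounded hb'.hasSum fun v => ?_).trans ?_
    · rw [hm1]
      exact hΛ3 v.1
    · rw [RB, ← tsum_mul_left]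
      exact hb.tsum_subtype_le _ {v | v ∉ S} (fun v => by positivity)
  have h3 : ‖∑' v : {v : HeightOneSpectrum (𝓞 K) // v ∉ S}, m v.1 - ∑' v, m v‖ ≤
      d * hS.toFinset.card := by
    have h4 := hms.sum_add_tsum_subtype_compl hS.toFinset
    have h5 : ∑' v : {v : HeightOneSpectrum (𝓞 K) // v ∉ S}, m v.1 =
        ∑' v : {v : HeightOneSpectrum (𝓞 K) // v ∉ hS.toFinset}, m v.1 := by
      have hset : {v : HeightOneSpectrum (𝓞 K) | v ∉ S} = {v | v ∉ hS.toFinset} := by
        ext v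
        simp
      exact tsum_congr_set_coe m hset
    rw [h5, ← h4, sub_add_cancel_right, norm_neg]
    refine (norm_sum_le _ _).trans ?_
    calc ∑ v ∈ hS.toFinset, ‖m v‖ ≤ ∑ _v ∈ hS.toFinset, d := by
          refine Finset.sum_le_sum fun v _ => (hm2 v).trans ?_
          have h6 := wp_le_half (by linarith : 1 ≤ 1 + δ) v
          nlinarith
      _ = _ := by rw [Finset.sum_const, nsmul_eq_mul, mul_comm]
  calc _ ≤ ‖∑' v : {v : HeightOneSpectrum (𝓞 K) // v ∉ S}, Λ v.1 -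
        ∑' v : {v : HeightOneSpectrum (𝓞 K) // v ∉ S}, m v.1‖ +
        ‖∑' v : {v : HeightOneSpectrum (𝓞 K) // v ∉ S}, m v.1 - ∑' v, m v‖ :=
        norm_sub_le_norm_sub_add_norm_sub _ _ _
    _ ≤ _ := add_le_add h2 h3

end T

end Pool.Agent.Lib.MP_bf61d2_nt.Artin
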