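import Pool.Agent.Lib.MP_bf61d2_nt.Perm.Cor

set_option autoImplicit false

/-!
Mean value of `|Re (z e^(-i t u))|`.
-/

namespace Pool.Agent.Lib.MP_bf61d2_nt.Artin

open Filter Topology MeasureTheory
open Pool.Agent.Lib.MP_bf61d2_nt.Perm

namespace V2

/-- Mean values are invariant under translations. -/
lemma tendsto_shift {h : ℝ → ℝ} (hc : Continuous h) {m : ℝ}
    (hm : Tendsto (fun X : ℝ => X⁻¹ * ∫ u in (0 : ℝ)..X, h u) atTop (𝓝 m)) (a : ℝ) :
    Tendsto (fun X : ℝ => X⁻¹ * ∫ u in (0 : ℝ)..X, h (u + a)) atTop (𝓝 m) := by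
  have h1 : Tendsto (fun X : ℝ => X + a) atTop atTop := tendsto_atTop_add_const_right _ _ tendsto_id
  have h2 := hm.comp h1
  have h3 : Tendsto (fun X : ℝ => 1 + X⁻¹ * a) atTop (𝓝 (1 + 0 * a)) :=
    tendsto_const_nhds.add (tendsto_inv_atTop_zero.mul_const a)
  have h4 : Tendsto (fun X : ℝ => X⁻¹ * ∫ u in (0 : ℝ)..a, h u) atTop
      (𝓝 (0 * ∫ u in (0 : ℝ)..a, h u)) := tendsto_inv_atTop_zero.mul_const _
  have h5 := (h3.mul h2).sub h4
  rw [zero_mul, add_zero, one_mul, zero_mul, sub_zero] at h5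
  refine h5.congr' ?_
  filter_upwards [eventually_gt_atTop 0, eventually_gt_atTop (-a)] with X hX hXa
  have hXa' : X + a ≠ 0 := by linarith
  simp only [Function.comp]
  rw [intervalIntegral.integral_comp_add_right (fun u => h u) a, zero_add]
  have h6 := intervalIntegral.integral_add_adjacent_intervals
    (hc.intervalIntegrable (μ := volume) 0 a) (hc.intervalIntegrable a (X + a))
  have h7 : ∫ u in a..(X + a), h u = (∫ u in (0 : ℝ)..(X + a), h u) - ∫ u in (0 : ℝ)..a, h u := by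
    linarith
  rw [h7]
  field_simp

lemma abs_re_eq (z : ℂ) {t : ℝ} (ht : t ≠ 0) (u : ℝ) :
    |(z * Complex.exp (((-(t * u) : ℝ) : ℂ) * Complex.I)).re| =
      ‖z‖ * |Real.cos (t * (u + -(Complex.arg z / t)))| := by
  have h1 : z * Complex.exp (((-(t * u) : ℝ) : ℂ) * Complex.I) =
      ((‖z‖ : ℝ) : ℂ) * Complex.exp (((-(t * (u + -(Complex.arg z / t))) : ℝ) : ℂ) * Complex.I) := by
    have h2 : (((-(t * (u + -(Complex.arg z / t))) : ℝ) : ℂ) * Complex.I) =
        (Complex.arg z : ℂ) * Complex.I + (((-(t * u) : ℝ) : ℂ) * Complex.I) := by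
      have h3 : -(t * (u + -(Complex.arg z / t))) = Complex.arg z + -(t * u) := by
        field_simp
        ring
      rw [h3]
      push_cast
      ring
    rw [h2, Complex.exp_add, ← mul_assoc, Complex.norm_mul_exp_arg_mul_I]
  rw [h1, Complex.re_ofReal_mul, Complex.exp_ofReal_mul_I_re, Real.cos_neg, abs_mul,
    abs_of_nonneg (norm_nonneg z)]

lemma mean_abs_one (z : ℂ) {t : ℝ} (ht : t ≠ 0) :
    Tendsto (fun X : ℝ => X⁻¹ * ∫ u in (0 : ℝ)..X,
        |(z * Complex.exp (((-(t * u) : ℝ) : ℂ) * Complex.I)).re|) atTop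
      (𝓝 (‖z‖ * (2 / Real.pi))) := by
  have h1 := tendsto_avg_abs_cos t
  rw [if_neg ht] at h1
  have h2 := tendsto_shift (h := fun u => |Real.cos (t * u)|) (by fun_prop) h1
    (-(Complex.arg z / t))
  refine (h2.const_mul ‖z‖).congr fun X => ?_
  simp_rw [abs_re_eq z ht]
  rw [intervalIntegral.integral_const_mul]
  ring

end V2

/-- V2: the mean value for one frequency. -/
theorem mean_abs_single {G : Type*} [Fintype G] (z : G → ℂ) {t : ℝ} (ht : t ≠ 0) :
    Tendsto (fun X : ℝ => X⁻¹ * ∫ u in (0 : ℝ)..X,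
      (∑ g : G, |(z g * Complex.exp (((-(t * u) : ℝ) : ℂ) * Complex.I)).re|) /
        Fintype.card G) atTop (𝓝 (2 / Real.pi * ((∑ g : G, ‖z g‖) / Fintype.card G))) := by
  have h1 : Tendsto (fun X : ℝ => (∑ g : G, X⁻¹ * ∫ u in (0 : ℝ)..X,
      |(z g * Complex.exp (((-(t * u) : ℝ) : ℂ) * Complex.I)).re|) / Fintype.card G) atTop
      (𝓝 ((∑ g : G, ‖z g‖ * (2 / Real.pi)) / Fintype.card G)) :=
    (tendsto_finsetSum _ fun g _ => V2.mean_abs_one (z g) ht).div_const _
  have e : (∑ g : G, ‖z g‖ * (2 / Real.pi)) / (Fintype.card G : ℝ) =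
      2 / Real.pi * ((∑ g : G, ‖z g‖) / Fintype.card G) := by
    rw [← Finset.sum_mul]
    ring
  rw [← e]
  refine h1.congr fun X => ?_
  rw [intervalIntegral.integral_div, intervalIntegral.integral_finsetSum fun g _ =>
    (by fun_prop : Continuous fun u : ℝ =>
      |(z g * Complex.exp (((-(t * u) : ℝ) : ℂ) * Complex.I)).re|).intervalIntegrable _ _,
    ← mul_div_assoc, Finset.mul_sum]

end Pool.Agent.Lib.MP_bf61d2_nt.Artin
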