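import Pool.Agent.Lib.MP_bf61d2_nt.Artin.D1x63
import Pool.Agent.Lib.MP_bf61d2_nt.Artin.D2x90
import Pool.Agent.Lib.MP_bf61d2_nt.Artin.D37b
import Pool.Agent.Lib.MP_bf61d2_nt.Artin.R7
import Pool.Agent.Lib.MP_bf61d2_nt.Artin.T7
import Pool.Agent.Lib.MP_bf61d2_nt.Artin.V2x7

set_option autoImplicit false

/-!
Artin twists at the edge: the final assembly.
-/

namespace Pool.Agent.Lib.MP_bf61d2_nt.Artin

open NumberField IsDedekindDomain Filter Topology Polynomial Module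
open Pool.Agent.Lib.MP_bf61d2_nt.Perm

variable {K M : Type*} [Field K] [NumberField K] [Field M] [NumberField M] [Algebra K M]

lemma tendsto_sub_three_halves : Tendsto (fun σ : ℝ => 1 + (σ - 3 / 2)) (𝓝[>] (3 / 2)) (𝓝[>] 1) := by
  refine tendsto_nhdsWithin_iff.mpr ⟨?_, ?_⟩
  · have h : Tendsto (fun σ : ℝ => 1 + (σ - 3 / 2)) (𝓝 (3 / 2)) (𝓝 (1 + (3 / 2 - 3 / 2))) :=
      (tendsto_id.sub_const _).const_add _
    rw [sub_self, add_zero] at h
    exact h.mono_left nhdsWithin_le_nhds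
  · filter_upwards [self_mem_nhdsWithin] with σ hσ
    have : (3 / 2 : ℝ) < σ := hσ
    exact (by linarith : (1 : ℝ) < 1 + (σ - 3 / 2))

lemma tendsto_log_edge : Tendsto (fun σ : ℝ => Real.log (1 / (σ - 3 / 2))) (𝓝[>] (3 / 2)) atTop := by
  have h : Tendsto (fun σ : ℝ => σ - 3 / 2) (𝓝[>] (3 / 2)) (𝓝[>] 0) := by
    refine tendsto_nhdsWithin_iff.mpr ⟨?_, ?_⟩
    · have h : Tendsto (fun σ : ℝ => σ - 3 / 2) (𝓝 (3 / 2)) (𝓝 (3 / 2 - 3 / 2)) :=
        tendsto_id.sub_const _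
      rw [sub_self] at h
      exact h.mono_left nhdsWithin_le_nhds
    · filter_upwards [self_mem_nhdsWithin] with σ hσ
      have : (3 / 2 : ℝ) < σ := hσ
      exact (by linarith : (0 : ℝ) < σ - 3 / 2)
  exact tendsto_log_inv.comp h

/-- `log |L|` at `σ + i t` and the sum over the places. -/
lemma log_edge (E : WeierstrassCurve K) {V : Type*} [AddCommGroup V] [Module ℂ V]
    [FiniteDimensional ℂ V] (ρ : Representation ℂ Gal(M/K) V)
    (Fr : HeightOneSpectrum (𝓞 K) → Gal(M/K)) {S : Set (HeightOneSpectrum (𝓞 K))}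
    (hS : S.Finite) (t : ℝ) : ∃ C : ℝ, 0 ≤ C ∧ ∀ σ : ℝ, 3 / 2 < σ →
      |Real.log ‖LTw E ρ Fr S (σ + t * Complex.I)‖ -
        (SC (K := K) (1 + (σ - 3 / 2)) (fun v => (cc E v : ℂ) *
          (ρ.character (Fr v) * ph t (nm v)))).re| ≤ C := by
  obtain ⟨C, hC0, hC⟩ := log_LTw E ρ Fr hS t
  refine ⟨C, hC0, fun σ hσ => ?_⟩
  have h := hC (σ - 3 / 2) (by linarith)
  have e : ((3 / 2 + (σ - 3 / 2) : ℝ) : ℂ) = σ := by norm_num
  rw [e] at h
  exact h

variable [IsGalois K M] [Fintype Gal(M/K)]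

/-- The zonoid bound. -/
theorem zonoid_final (E : WeierstrassCurve K) {Fr : HeightOneSpectrum (𝓞 K) → Gal(M/K)}
    (hFr : ∀ v, IsFr v (Fr v)) {S : Set (HeightOneSpectrum (𝓞 K))} (hS : S.Finite) {n : ℕ}
    {V : Fin n → Type*} [∀ j, AddCommGroup (V j)] [∀ j, Module ℂ (V j)]
    [∀ j, FiniteDimensional ℂ (V j)] (ρ : ∀ j, Representation ℂ Gal(M/K) (V j)) (t : Fin n → ℝ)
    (c : Fin n → ℝ) :
    ∃ B : ℝ, Tendsto (fun X : ℝ => X⁻¹ * ∫ u in (0 : ℝ)..X,
        (∑ g : Gal(M/K), |(∑ j, (c j * (ρ j).character g) *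
          Complex.exp (((-(t j * u) : ℝ) : ℂ) * Complex.I)).re|) /
          Fintype.card Gal(M/K)) atTop (𝓝 B) ∧
      ∀ ε : ℝ, 0 < ε → ∀ᶠ σ : ℝ in 𝓝[>] (3 / 2),
        |∑ j, c j * Real.log ‖LTw E (ρ j) Fr S (σ + t j * Complex.I)‖| ≤
          (2 * B + ε) * Real.log (1 / (σ - 3 / 2)) := by
  obtain ⟨B, hB, hbd⟩ := zonoid_bound hFr (c := fun v => cc E v) (fun v => abs_cc_le E v)
    (fun j g => (c j : ℂ) * (ρ j).character g)
    (fun j g h => by simp only [Representation.char_conj]) t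
  refine ⟨B, hB, fun ε hε => ?_⟩
  choose C hC0 hC using fun j => log_edge E (ρ j) Fr hS (t j)
  have h1 := tendsto_sub_three_halves.eventually (hbd (ε / 2) (half_pos hε))
  have h2 := tendsto_log_edge.eventually
    (eventually_ge_atTop ((∑ j, |c j| * C j) / (ε / 2)))
  filter_upwards [h1, h2, self_mem_nhdsWithin] with σ h1 h2 hσ
  have hσ' : 3 / 2 < σ := hσ
  rw [add_sub_cancel_left] at h1
  rw [div_le_iff₀ (half_pos hε)] at h2
  set Y : Fin n → ℂ := fun j => SC (K := K) (1 + (σ - 3 / 2)) (fun v => (cc E v : ℂ) *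
    ((ρ j).character (Fr v) * ph (t j) (nm v))) with hY
  have e1 : (∑ j, SC (K := K) (1 + (σ - 3 / 2)) (fun v => ((cc E v : ℝ) : ℂ) *
      ((c j : ℂ) * (ρ j).character (Fr v) * ph (t j) (nm v)))).re = ∑ j, c j * (Y j).re := by
    rw [Complex.re_sum]
    refine Finset.sum_congr rfl fun j _ => ?_
    rw [← Complex.re_ofReal_mul, hY]
    simp only [SC]
    rw [← tsum_mul_left]
    congr 1
    refine tsum_congr fun v => ?_
    ring
  rw [e1] at h1
  have h3 : |∑ j, c j * Real.log ‖LTw E (ρ j) Fr S (σ + t j * Complex.I)‖ -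
      ∑ j, c j * (Y j).re| ≤ ∑ j, |c j| * C j := by
    rw [← Finset.sum_sub_distrib]
    refine (Finset.abs_sum_le_sum_abs _ _).trans (Finset.sum_le_sum fun j _ => ?_)
    rw [← mul_sub, abs_mul]
    exact mul_le_mul_of_nonneg_left (hC j σ hσ') (abs_nonneg _)
  have h4 := abs_sub_abs_le_abs_sub
    (∑ j, c j * Real.log ‖LTw E (ρ j) Fr S (σ + t j * Complex.I)‖) (∑ j, c j * (Y j).re)
  nlinarith

/-- The Bessel inequality. -/
theorem bessel_final (E : WeierstrassCurve K) {Fr : HeightOneSpectrum (𝓞 K) → Gal(M/K)}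
    (hFr : ∀ v, IsFr v (Fr v)) {S : Set (HeightOneSpectrum (𝓞 K))} (hS : S.Finite) {n : ℕ}
    {V : Fin n → Type*} [∀ j, AddCommGroup (V j)] [∀ j, Module ℂ (V j)]
    [∀ j, FiniteDimensional ℂ (V j)] (ρ : ∀ j, Representation ℂ Gal(M/K) (V j)) (t : Fin n → ℝ)
    (hirr : ∀ j, (ρ j).IsIrreducible)
    (hne : ∀ i j, i ≠ j → t i = t j → IsEmpty ((ρ i).Equiv (ρ j))) {ε : ℝ} (hε : 0 < ε) :
    ∀ᶠ σ : ℝ in 𝓝[>] (3 / 2), ∑ j, Real.log ‖LTw E (ρ j) Fr S (σ + t j * Complex.I)‖ ^ 2 ≤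
      (4 + ε) * Real.log (1 / (σ - 3 / 2)) ^ 2 := by
  classical
  have hcard : (Fintype.card Gal(M/K) : ℂ) ≠ 0 := Nat.cast_ne_zero.mpr Fintype.card_ne_zero
  have : Invertible (Nat.card Gal(M/K) : ℂ) := invertibleOfNonzero (by
    rwa [Nat.card_eq_fintype_card])
  have hort : ∀ i j, ∑ g, (ρ i).character g * (starRingEnd ℂ) ((ρ j).character g) =
      (Fintype.card Gal(M/K) : ℂ) * (if Nonempty ((ρ j).Equiv (ρ i)) then 1 else 0) := by
    intro i j
    have := hirr i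
    have := hirr j
    have h := Representation.char_orthonormal (ρ i) (ρ j)
    rw [← h, Nat.card_eq_fintype_card, mul_inv_cancel_left₀ hcard]
    refine Finset.sum_congr rfl fun g _ => ?_
    rw [character_inv]
  have hb := fun (ε : ℝ) (hε : 0 < ε) => bessel_artin_of (fun _ h => cheb hFr h) (c := fun v => cc E v)
    (fun v => abs_cc_le E v) (fun j g => (ρ j).character g)
    (fun j g h => by simp only [Representation.char_conj]) t
    (fun j => by rw [hort, if_pos ⟨.refl _⟩, mul_one])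
    (fun i j hij htt => by
      rw [hort, if_neg, mul_zero]
      rintro ⟨φ⟩
      exact (hne i j hij htt).false φ.symm) hε
  choose C hC0 hC using fun j => log_edge E (ρ j) Fr hS (t j)
  set η : ℝ := ε / (2 * (4 + ε)) with hη
  have hη0 : 0 < η := by positivity
  have h1 := tendsto_sub_three_halves.eventually (hb (ε / 4) (by linarith))
  have h2 := tendsto_log_edge.eventually
    (eventually_ge_atTop (max 1 (((1 + 1 / η) * ∑ j, C j ^ 2) / (ε / 8))))
  filter_upwards [h1, h2, self_mem_nhdsWithin] with σ h1 h2 hσ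
  have hσ' : 3 / 2 < σ := hσ
  rw [add_sub_cancel_left] at h1
  have h21 := (le_max_left _ _).trans h2
  have h22 := (le_max_right _ _).trans h2
  rw [div_le_iff₀ (by positivity)] at h22
  set Lg : ℝ := Real.log (1 / (σ - 3 / 2)) with hLg
  set Y : Fin n → ℂ := fun j => SC (K := K) (1 + (σ - 3 / 2)) (fun v => (cc E v : ℂ) *
    ((ρ j).character (Fr v) * ph (t j) (nm v))) with hY
  have hterm : ∀ j, Real.log ‖LTw E (ρ j) Fr S (σ + t j * Complex.I)‖ ^ 2 ≤
      (1 + η) * ‖Y j‖ ^ 2 + (1 + 1 / η) * C j ^ 2 := by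
    intro j
    have h6 := hC j σ hσ'
    set X : ℝ := Real.log ‖LTw E (ρ j) Fr S (σ + t j * Complex.I)‖ with hX
    have h7 : (X - (Y j).re) ^ 2 ≤ C j ^ 2 := by
      rw [← sq_abs]
      exact pow_le_pow_left₀ (abs_nonneg _) h6 2
    have h8 : X ^ 2 ≤ (1 + η) * (Y j).re ^ 2 + (1 + 1 / η) * (X - (Y j).re) ^ 2 := by
      have h9 : (1 + η) * (Y j).re ^ 2 + (1 + 1 / η) * (X - (Y j).re) ^ 2 - X ^ 2 =
          η * ((Y j).re - 1 / η * (X - (Y j).re)) ^ 2 := by
        field_simp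
        ring
      have h10 : 0 ≤ η * ((Y j).re - 1 / η * (X - (Y j).re)) ^ 2 := by positivity
      linarith
    have h11 : 0 ≤ 1 + 1 / η := by positivity
    have h12 : (Y j).re ^ 2 ≤ ‖Y j‖ ^ 2 := by
      rw [← sq_abs]
      exact pow_le_pow_left₀ (abs_nonneg _) (Complex.abs_re_le_norm _) 2
    nlinarith [mul_le_mul_of_nonneg_left h7 h11, mul_le_mul_of_nonneg_left h12 (by positivity : 0 ≤ 1 + η)]
  calc ∑ j, Real.log ‖LTw E (ρ j) Fr S (σ + t j * Complex.I)‖ ^ 2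
      ≤ ∑ j, ((1 + η) * ‖Y j‖ ^ 2 + (1 + 1 / η) * C j ^ 2) := Finset.sum_le_sum fun j _ => hterm j
    _ = (1 + η) * ∑ j, ‖Y j‖ ^ 2 + (1 + 1 / η) * ∑ j, C j ^ 2 := by
        rw [Finset.sum_add_distrib, ← Finset.mul_sum, ← Finset.mul_sum]
    _ ≤ (1 + η) * ((4 + ε / 4) * Lg ^ 2) + (1 + 1 / η) * ∑ j, C j ^ 2 := by gcongr
    _ ≤ (1 + η) * ((4 + ε / 4) * Lg ^ 2) + ε / 8 * Lg ^ 2 := by
        have h15 : Lg ≤ Lg ^ 2 := by nlinarith
        have h16 := mul_le_mul_of_nonneg_right h15 (by linarith : 0 ≤ ε / 8)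
        linarith
    _ ≤ (4 + ε) * Lg ^ 2 := by
        have h13 : (1 + η) * (4 + ε / 4) ≤ 4 + 3 / 4 * ε := by
          have h14 : η * (4 + ε / 4) ≤ ε / 2 := by
            rw [hη, div_mul_eq_mul_div, div_le_div_iff₀ (by positivity) (by norm_num)]
            nlinarith
          nlinarith
        nlinarith [sq_nonneg Lg, mul_le_mul_of_nonneg_right h13 (sq_nonneg Lg)]

/-- The bound at one point of the line. -/
theorem single_final (E : WeierstrassCurve K) {Fr : HeightOneSpectrum (𝓞 K) → Gal(M/K)}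
    (hFr : ∀ v, IsFr v (Fr v)) {S : Set (HeightOneSpectrum (𝓞 K))} (hS : S.Finite) {n : ℕ}
    {V : Fin n → Type*} [∀ j, AddCommGroup (V j)] [∀ j, Module ℂ (V j)]
    [∀ j, FiniteDimensional ℂ (V j)] (ρ : ∀ j, Representation ℂ Gal(M/K) (V j)) (t : ℝ)
    (c : Fin n → ℝ) {ε : ℝ} (hε : 0 < ε) : ∀ᶠ σ : ℝ in 𝓝[>] (3 / 2),
      |∑ j, c j * Real.log ‖LTw E (ρ j) Fr S (σ + t * Complex.I)‖| ≤
        ((if t = 0 then 2 else 4 / Real.pi) *
          ((∑ g : Gal(M/K), ‖∑ j, (c j : ℂ) * (ρ j).character g‖) / Fintype.card Gal(M/K)) + ε) *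
          Real.log (1 / (σ - 3 / 2)) := by
  obtain ⟨B, hB, hbd⟩ := zonoid_final E hFr hS ρ (fun _ => t) c
  set m : ℝ := (∑ g : Gal(M/K), ‖∑ j, (c j : ℂ) * (ρ j).character g‖) / Fintype.card Gal(M/K)
    with hm
  have e1 : ∀ (g : Gal(M/K)) (u : ℝ), (∑ j, ((c j : ℂ) * (ρ j).character g) *
      Complex.exp (((-(t * u) : ℝ) : ℂ) * Complex.I)) = (∑ j, (c j : ℂ) * (ρ j).character g) *
      Complex.exp (((-(t * u) : ℝ) : ℂ) * Complex.I) := fun g u => by rw [Finset.sum_mul]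
  simp only [e1] at hB
  have hB2 : 2 * B ≤ (if t = 0 then 2 else 4 / Real.pi) * m := by
    split_ifs with ht
    · refine mul_le_mul_of_nonneg_left ?_ zero_le_two
      refine le_of_tendsto hB ?_
      filter_upwards [eventually_gt_atTop (0 : ℝ)] with X hX
      have e2 : ∀ (g : Gal(M/K)) (u : ℝ), (∑ j, (c j : ℂ) * (ρ j).character g) *
          Complex.exp (((-(t * u) : ℝ) : ℂ) * Complex.I) =
          ∑ j, (c j : ℂ) * (ρ j).character g := fun g u => by simp [ht]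
      simp only [e2]
      rw [intervalIntegral.integral_const, smul_eq_mul, sub_zero, inv_mul_cancel_left₀ hX.ne', hm]
      gcongr with g
      exact Complex.abs_re_le_norm _
    · have h := tendsto_nhds_unique hB (mean_abs_single
        (fun g => ∑ j, (c j : ℂ) * (ρ j).character g) ht)
      rw [h, ← hm]
      refine le_of_eq ?_
      ring
  refine (hbd ε hε |>.and (tendsto_log_edge.eventually (eventually_ge_atTop 0))).mono
    fun σ hσ => hσ.1.trans ?_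
  have h0 : 0 ≤ Real.log (1 / (σ - 3 / 2)) := hσ.2
  gcongr

end Pool.Agent.Lib.MP_bf61d2_nt.Artin
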