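import Pool.Agent.Lib.MP_bf61d2_nt.Artin.Defs63

set_option autoImplicit false

/-!
ARTIN EDGE (MP_bf61d2_nt), module G: class indicators from permutation characters, orthogonality
for even characters, closure properties of equidistribution.
-/

namespace Pool.Agent.Lib.MP_bf61d2_nt.Artin

open NumberField IsDedekindDomain Filter Topology Polynomial Module
open Pool.Agent.Lib.MP_bf61d2_nt.Perm
open scoped Classical nonZeroDivisors

namespace X38

/-- Fixed point counts are class functions. -/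
lemma fp_conj {G : Type*} [Group G] (X : Type*) [MulAction G X] {x y : G} (h : IsConj x y) :
    fp X x = fp X y := by
  obtain ⟨a, ha⟩ := isConj_iff.1 h
  unfold fp
  refine Nat.card_congr ((MulAction.toPerm a).subtypeEquiv fun z => ?_)
  rw [MulAction.toPerm_apply, ← ha, mul_smul, mul_smul, inv_smul_smul, smul_left_cancel_iff]

end X38

theorem class_indicator {G A : Type*} [Group G] [Finite G] [CommRing A] (c : G →* Aˣ) {g₀ : G}
    (hg : Star c g₀) : ∃ κ : ℕ, κ ≠ 0 ∧ ∀ x : G,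
      (if c x = c g₀ ∨ c x = -c g₀ then fp (G ⧸ Subgroup.zpowers g₀) x else 0) =
        if IsConj g₀ x then κ else 0 := by
  refine ⟨fp (G ⧸ Subgroup.zpowers g₀) g₀, ?_, fun x => ?_⟩
  · unfold fp
    have hne : Nonempty {x : G ⧸ Subgroup.zpowers g₀ // g₀ • x = x} := by
      refine ⟨⟨((1 : G) : G ⧸ Subgroup.zpowers g₀), ?_⟩⟩
      rw [MulAction.Quotient.smul_coe, smul_eq_mul, mul_one, QuotientGroup.eq]
      rw [mul_one]
      exact inv_mem (Subgroup.mem_zpowers g₀)
    exact Nat.card_ne_zero.2 ⟨hne, inferInstance⟩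
  · by_cases hc : IsConj g₀ x
    · rw [if_pos hc, if_pos, X38.fp_conj _ hc]
      left
      obtain ⟨a, ha⟩ := isConj_iff.1 hc
      rw [← ha, map_mul, map_mul, map_inv, mul_comm (c a), mul_assoc, mul_inv_cancel, mul_one]
    · rw [if_neg hc]
      split_ifs with h
      · unfold fp
        rw [Nat.card_eq_zero]
        left
        constructor
        rintro ⟨z, hz⟩
        induction z using QuotientGroup.induction_on with
        | H a =>
        rw [MulAction.Quotient.smul_coe, smul_eq_mul, QuotientGroup.eq] at hz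
        have h1 : a⁻¹ * x * a ∈ Subgroup.zpowers g₀ := by
          have h2 := inv_mem hz
          rwa [mul_inv_rev, inv_inv, ← mul_assoc] at h2
        have h3 : c (a⁻¹ * x * a) = c x := by
          rw [map_mul, map_mul, map_inv, mul_comm, ← mul_assoc, mul_inv_cancel, one_mul]
        have h4 := hg _ h1 (by rw [h3]; exact h)
        apply hc
        rw [isConj_iff]
        refine ⟨a, ?_⟩
        rw [← h4]
        group
      · rfl

/-! ### Orthogonality for the even characters -/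

namespace X38

lemma sum_even {m : ℕ} [NeZero m] (a b : (ZMod m)ˣ) :
    ∑ χ : DirichletCharacter ℂ m, ((1 + χ (-1)) / 2 * χ ((a⁻¹ : (ZMod m)ˣ) : ZMod m)) * χ (b : ZMod m) =
      (m.totient : ℂ) / 2 * ((if a = b then 1 else 0) + (if a = -b then 1 else 0)) := by
  have h1 : ∀ b' : (ZMod m)ˣ, ∑ χ : DirichletCharacter ℂ m,
      χ ((a⁻¹ : (ZMod m)ˣ) : ZMod m) * χ (b' : ZMod m) = if a = b' then (m.totient : ℂ) else 0 := by
    intro b'
    have h := DirichletCharacter.sum_char_inv_mul_char_eq ℂ (n := m) (a := (a : ZMod m))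
      a.isUnit (b' : ZMod m)
    rw [ZMod.inv_coe_unit] at h
    rw [h]
    simp only [Units.val_inj]
  have h2 : ∀ χ : DirichletCharacter ℂ m,
      ((1 + χ (-1)) / 2 * χ ((a⁻¹ : (ZMod m)ˣ) : ZMod m)) * χ (b : ZMod m) =
      1 / 2 * (χ ((a⁻¹ : (ZMod m)ˣ) : ZMod m) * χ (b : ZMod m)) +
      1 / 2 * (χ ((a⁻¹ : (ZMod m)ˣ) : ZMod m) * χ ((-b : (ZMod m)ˣ) : ZMod m)) := by
    intro χ
    have h3 : χ ((-b : (ZMod m)ˣ) : ZMod m) = χ (-1) * χ (b : ZMod m) := by
      rw [← map_mul]
      congr 1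
      push_cast
      ring
    rw [h3]
    ring
  rw [Finset.sum_congr rfl fun χ _ => h2 χ, Finset.sum_add_distrib, ← Finset.mul_sum,
    ← Finset.mul_sum, h1 b, h1 (-b)]
  split_ifs <;> ring

end X38

/-! ### Closure properties of equidistribution -/

section

variable {K M : Type*} [Field K] [NumberField K] [Field M] [NumberField M] [Algebra K M]

lemma ph_norm (u : ℝ) (n : ℕ) : ‖ph u n‖ = 1 := by
  unfold ph
  exact Complex.norm_exp_ofReal_mul_I _

lemma summable_SC {σ : ℝ} (hσ : 1 < σ) {f : HeightOneSpectrum (𝓞 K) → ℂ} {B : ℝ}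
    (hf : ∀ v, ‖f v‖ ≤ B) : Summable fun v => (wp σ v : ℂ) * f v := by
  refine Summable.of_norm_bounded ((summable_wp (K := K) hσ).mul_right B) fun v => ?_
  rw [norm_mul, Complex.norm_real, Real.norm_eq_abs, abs_of_pos (wp_pos σ v)]
  exact mul_le_mul_of_nonneg_left (hf v) (wp_pos σ v).le

variable [Fintype Gal(M/K)]

omit [NumberField M] in
lemma bdd_fr (Fr : HeightOneSpectrum (𝓞 K) → Gal(M/K)) (f : Gal(M/K) → ℂ) (u : ℝ)
    (v : HeightOneSpectrum (𝓞 K)) : ‖f (Fr v) * ph u (nm v)‖ ≤ ∑ g, ‖f g‖ := by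
  rw [norm_mul, ph_norm, mul_one]
  exact Finset.single_le_sum (f := fun g => ‖f g‖) (fun g _ => norm_nonneg _) (Finset.mem_univ _)

lemma CEq.add {Fr : HeightOneSpectrum (𝓞 K) → Gal(M/K)} {f g : Gal(M/K) → ℂ} (hf : CEq Fr f)
    (hg : CEq Fr g) : CEq Fr (f + g) := by
  intro u
  obtain ⟨C₁, h10, h1⟩ := hf u
  obtain ⟨C₂, h20, h2⟩ := hg u
  refine ⟨C₁ + C₂, by positivity, ?_⟩
  filter_upwards [h1, h2, self_mem_nhdsWithin] with σ h1 h2 hσ
  have hσ' : 1 < σ := hσ
  have e1 : SC σ (fun v => (f + g) (Fr v) * ph u (nm v)) =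
      SC σ (fun v => f (Fr v) * ph u (nm v)) + SC σ (fun v => g (Fr v) * ph u (nm v)) := by
    unfold SC
    rw [← (summable_SC hσ' (bdd_fr Fr f u)).tsum_add (summable_SC hσ' (bdd_fr Fr g u))]
    refine tsum_congr fun v => ?_
    simp only [Pi.add_apply]
    ring
  have e2 : (if u = 0 then (∑ x, (f + g) x) / (Fintype.card Gal(M/K) : ℂ) else 0) =
      (if u = 0 then (∑ x, f x) / (Fintype.card Gal(M/K) : ℂ) else 0) +
      (if u = 0 then (∑ x, g x) / (Fintype.card Gal(M/K) : ℂ) else 0) := by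
    split_ifs
    · simp only [Pi.add_apply, Finset.sum_add_distrib]
      ring
    · ring
  rw [e1, e2, add_mul, add_sub_add_comm]
  exact (norm_add_le _ _).trans (add_le_add h1 h2)

lemma CEq.smul {Fr : HeightOneSpectrum (𝓞 K) → Gal(M/K)} {f : Gal(M/K) → ℂ} (a : ℂ)
    (hf : CEq Fr f) : CEq Fr (a • f) := by
  intro u
  obtain ⟨C₁, h10, h1⟩ := hf u
  refine ⟨‖a‖ * C₁, by positivity, ?_⟩
  filter_upwards [h1] with σ h1
  have e1 : SC σ (fun v => (a • f) (Fr v) * ph u (nm v)) =
      a * SC σ (fun v => f (Fr v) * ph u (nm v)) := by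
    unfold SC
    rw [← tsum_mul_left]
    refine tsum_congr fun v => ?_
    simp only [Pi.smul_apply, smul_eq_mul]
    ring
  have e2 : (if u = 0 then (∑ x, (a • f) x) / (Fintype.card Gal(M/K) : ℂ) else 0) =
      a * (if u = 0 then (∑ x, f x) / (Fintype.card Gal(M/K) : ℂ) else 0) := by
    split_ifs
    · simp only [Pi.smul_apply, smul_eq_mul, ← Finset.mul_sum]
      ring
    · ring
  rw [e1, e2, mul_assoc, ← mul_sub, norm_mul]
  exact mul_le_mul_of_nonneg_left h1 (norm_nonneg _)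

lemma CEq.zero (Fr : HeightOneSpectrum (𝓞 K) → Gal(M/K)) : CEq Fr (0 : Gal(M/K) → ℂ) := by
  intro u
  refine ⟨0, le_rfl, Filter.Eventually.of_forall fun σ => ?_⟩
  simp [SC]

lemma CEq.sum {Fr : HeightOneSpectrum (𝓞 K) → Gal(M/K)} {ι : Type*} (s : Finset ι)
    (F : ι → Gal(M/K) → ℂ) (hF : ∀ i ∈ s, CEq Fr (F i)) : CEq Fr (∑ i ∈ s, F i) := by
  classical
  induction s using Finset.induction_on with
  | empty => simpa using CEq.zero Fr
  | insert a s ha ih =>
    rw [Finset.sum_insert ha]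
    exact (hF a (Finset.mem_insert_self a s)).add
      (ih fun i hi => hF i (Finset.mem_insert_of_mem hi))

end

end Pool.Agent.Lib.MP_bf61d2_nt.Artin
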