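import Pool.Agent.Lib.MP_bf61d2_nt.Artin.Defs63

set_option autoImplicit false

/-!
Artin twists at the edge (MP_bf61d2_nt), modules N2, N3: the Euler product of the Dirichlet series
of the ideals with a Dirichlet character of the norm, and a bounded argument.
-/

namespace Pool.Agent.Lib.MP_bf61d2_nt.Artin

open NumberField IsDedekindDomain Filter Topology Polynomial Module
open Pool.Agent.Lib.MP_bf61d2_nt.Perm
open Pool.Agent.Lib.MP_bf61d2_nt.Edge

namespace N73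

section euler

variable {K : Type*} [Field K] [NumberField K]

lemma summable_hom (h : ℕ →*₀ ℂ) {σ : ℝ} (hσ : 1 < σ) (hb : ∀ n : ℕ, ‖h n‖ ≤ (n : ℝ) ^ (-σ)) :
    Summable fun I : Ideal (𝓞 K) => h (Ideal.absNorm I) := by
  refine Summable.of_norm_bounded (Zeta.summable_ideals (K := K) hσ) fun I => hb _

lemma norm_hom_lt (h : ℕ →*₀ ℂ) {σ : ℝ} (hσ : 1 < σ) (hb : ∀ n : ℕ, ‖h n‖ ≤ (n : ℝ) ^ (-σ))
    (v : HeightOneSpectrum (𝓞 K)) : ‖h (nm v)‖ < 1 := by
  refine (hb _).trans_lt ?_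
  exact Real.rpow_lt_one_of_one_lt_of_neg (by exact_mod_cast one_lt_nm v) (by linarith)

lemma prod_geom_hom (h : ℕ →*₀ ℂ) (S : Finset (HeightOneSpectrum (𝓞 K))) (M : ℕ)
    [DecidableEq (Ideal (𝓞 K))] [DecidableEq S] :
    ∏ i : S, ∑ k ∈ Finset.range M, (h (nm i.1)) ^ k =
      ∑ I ∈ (Fintype.piFinset (fun _ : S => Finset.range M)).image (idl S),
        h (Ideal.absNorm I) := by
  rw [Finset.prod_univ_sum]
  rw [Finset.sum_image (fun a _ b _ h => idl_injective S h)]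
  refine Finset.sum_congr rfl fun e _ => ?_
  rw [absNorm_idl, map_prod]
  simp only [map_pow]

/-- Euler product for a completely multiplicative function of the norm. -/
theorem tendsto_euler_hom (h : ℕ →*₀ ℂ) {σ : ℝ} (hσ : 1 < σ)
    (hb : ∀ n : ℕ, ‖h n‖ ≤ (n : ℝ) ^ (-σ)) :
    Tendsto (fun S : Finset (HeightOneSpectrum (𝓞 K)) => ∏ v ∈ S, (1 - h (nm v))⁻¹) atTop
      (𝓝 (∑' I : Ideal (𝓞 K), h (Ideal.absNorm I))) := by
  classical
  have hZ := (summable_hom (K := K) h hσ hb).hasSum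
  rw [Metric.tendsto_atTop]
  intro ε hε
  have hZ' : Tendsto (fun T : Finset (Ideal (𝓞 K)) => ∑ I ∈ T, h (Ideal.absNorm I)) atTop
      (𝓝 (∑' I : Ideal (𝓞 K), h (Ideal.absNorm I))) := hZ
  rw [Metric.tendsto_atTop] at hZ'
  obtain ⟨F, hF⟩ := hZ' (ε / 2) (by linarith)
  have hc : ∀ I : Ideal (𝓞 K), ∃ S₀ : Finset (HeightOneSpectrum (𝓞 K)), I ≠ 0 →
      ∀ S : Finset (HeightOneSpectrum (𝓞 K)), S₀ ⊆ S → ∃ e : S → ℕ, idl S e = I := by
    intro I
    by_cases hI : I = 0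
    · exact ⟨∅, fun h => absurd hI h⟩
    · obtain ⟨S₀, h⟩ := Zeta.exists_idl hI
      exact ⟨S₀, fun _ => h⟩
  choose S₀ hS₀ using hc
  refine ⟨F.biUnion S₀, fun S hS => ?_⟩
  have hS' : ∀ I ∈ F, I ≠ 0 → ∃ e : S → ℕ, idl S e = I := fun I hI hI0 =>
    hS₀ I hI0 S ((Finset.subset_biUnion_of_mem S₀ hI).trans hS)
  have hev : ∀ᶠ M : ℕ in atTop, ∀ I ∈ F, I ≠ 0 →
      I ∈ (Fintype.piFinset (fun _ : S => Finset.range M)).image (idl S) := by
    rw [Filter.eventually_all_finset]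
    intro I hI
    by_cases hI0 : I = 0
    · exact Eventually.of_forall fun M h => absurd hI0 h
    · obtain ⟨e, he⟩ := hS' I hI hI0
      filter_upwards [eventually_ge_atTop (Finset.univ.sup e + 1)] with M hM _
      refine Finset.mem_image.mpr ⟨e, ?_, he⟩
      rw [Fintype.mem_piFinset]
      intro i
      rw [Finset.mem_range]
      have := Finset.le_sup (f := e) (Finset.mem_univ i)
      omega
  have hlim : Tendsto (fun M : ℕ => ∏ i : S, ∑ k ∈ Finset.range M, (h (nm i.1)) ^ k) atTop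
      (𝓝 (∏ i : S, (1 - h (nm i.1))⁻¹)) :=
    tendsto_finsetProd _ fun i _ =>
      (hasSum_geometric_of_norm_lt_one (norm_hom_lt h hσ hb i.1)).tendsto_sum_nat
  rw [← Finset.prod_coe_sort]
  refine lt_of_le_of_lt ?_ (half_lt_self hε)
  refine le_of_tendsto (hlim.dist tendsto_const_nhds) ?_
  filter_upwards [hev] with M hM
  rw [prod_geom_hom]
  have h0 : h (Ideal.absNorm (0 : Ideal (𝓞 K))) = 0 := by
    rw [map_zero, map_zero]
  rw [← Finset.sum_insert_zero (a := (0 : Ideal (𝓞 K))) h0]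
  refine (hF _ ?_).le
  intro I hI
  rw [Finset.mem_insert]
  by_cases hI0 : I = 0
  · exact Or.inl hI0
  · exact Or.inr (hM I hI hI0)

/-- The Dirichlet series as a sum over ideals. -/
lemma LF_eq_tsum {m : ℕ} [NeZero m] (χ : DirichletCharacter ℂ m) {s : ℂ} (hs : 1 < s.re)
    (hs0 : s ≠ 0) :
    LF K (fun n => χ n) s = ∑' I : Ideal (𝓞 K), dirichletSummandHom χ hs0 (Ideal.absNorm I) := by
  have hb : ∀ n : ℕ, ‖dirichletSummandHom χ hs0 n‖ ≤ (n : ℝ) ^ (-s.re) := by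
    intro n
    change ‖χ n * (n : ℂ) ^ (-s)‖ ≤ _
    rw [norm_mul, Zeta.norm_term hs]
    exact mul_le_of_le_one_left (by positivity) (DirichletCharacter.norm_le_one χ _)
  have h1 := (summable_hom (K := K) (dirichletSummandHom χ hs0) hs hb).hasSum
  have h2 := h1.tsum_fiberwise (fun I : Ideal (𝓞 K) => Ideal.absNorm I)
  rw [← h2.tsum_eq, LF, LSeries]
  refine tsum_congr fun n => ?_
  have h3 : ∑' b : (fun I : Ideal (𝓞 K) => Ideal.absNorm I) ⁻¹' {n},
      dirichletSummandHom χ hs0 (Ideal.absNorm (b : Ideal (𝓞 K))) =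
      ∑' b : (fun I : Ideal (𝓞 K) => Ideal.absNorm I) ⁻¹' {n}, dirichletSummandHom χ hs0 n := by
    refine tsum_congr fun b => ?_
    have hb : Ideal.absNorm (b : Ideal (𝓞 K)) = n := b.2
    rw [hb]
  rw [h3, tsum_const, nsmul_eq_mul, LSeries.term_def]
  change _ = (_ : ℂ) * (χ n * (n : ℂ) ^ (-s))
  split_ifs with h
  · subst h
    have h4 : ((0 : ℕ) : ℂ) ^ (-s) = 0 := by
      rw [Nat.cast_zero, Complex.zero_cpow (neg_ne_zero.mpr hs0)]
    rw [h4, mul_zero, mul_zero]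
  · rw [Complex.cpow_neg, div_eq_mul_inv, mul_assoc]
    rfl

end euler

section constant

theorem const_of_int {g : ℝ → ℝ} {a b : ℝ} (hg : ContinuousOn g (Set.Ioo a b))
    (hint : ∀ x ∈ Set.Ioo a b, ∀ y ∈ Set.Ioo a b, ∃ n : ℤ, g x - g y = n) :
    ∀ x ∈ Set.Ioo a b, ∀ y ∈ Set.Ioo a b, g x = g y := by
  have key : ∀ x ∈ Set.Ioo a b, ∀ y ∈ Set.Ioo a b, ¬ g x < g y := by
    intro x hx y hy hlt
    obtain ⟨n, hn⟩ := hint y hy x hx
    have hn1 : (1 : ℤ) ≤ n := by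
      have : (0 : ℝ) < n := by rw [← hn]; linarith
      exact_mod_cast this
    have hn2 : (1 : ℝ) ≤ n := by exact_mod_cast hn1
    obtain ⟨z, hz, hz2⟩ := isPreconnected_Ioo.intermediate_value hx hy hg
      (show g x + 1 / 2 ∈ Set.Icc (g x) (g y) from ⟨by linarith, by linarith⟩)
    obtain ⟨k, hk⟩ := hint z hz x hx
    rw [hz2] at hk
    have h1 : ((2 * k : ℤ) : ℝ) = ((1 : ℤ) : ℝ) := by
      push_cast
      linarith
    have h2 : 2 * k = 1 := by exact_mod_cast h1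
    omega
  intro x hx y hy
  exact le_antisymm (not_lt.1 (key y hy x hx)) (not_lt.1 (key x hx y hy))

end constant

end N73

/-- N2: Euler product. -/
theorem euler_log (K : Type*) [Field K] [NumberField K] {m : ℕ} [NeZero m]
    (χ : DirichletCharacter ℂ m) (u : ℝ) :
    ∃ Λ : ℝ → ℂ, ContinuousOn Λ (Set.Ioi 1) ∧ ∀ σ : ℝ, 1 < σ →
      Complex.exp (Λ σ) = LF K (fun n => χ n) (σ + u * Complex.I) ∧
      ‖Λ σ - SC (K := K) σ (fun v => χ (nm v) * ph u (nm v))‖ ≤ sqC K := by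
  classical
  have hre : ∀ σ : ℝ, ((σ : ℂ) + u * Complex.I).re = σ := by
    intro σ
    simp
  -- the local terms
  obtain ⟨z, hz⟩ : ∃ z : HeightOneSpectrum (𝓞 K) → ℝ → ℂ,
      z = fun (v : HeightOneSpectrum (𝓞 K)) (σ : ℝ) =>
        χ ((nm v : ℕ) : ZMod m) * ((nm v : ℕ) : ℂ) ^ (-((σ : ℂ) + (u : ℂ) * Complex.I)) :=
    ⟨_, rfl⟩
  have hzn : ∀ v, ∀ σ : ℝ, 1 < σ → ‖z v σ‖ ≤ wp σ v := by
    intro v σ hσ
    rw [hz]
    simp only
    have hs : 1 < ((σ : ℂ) + u * Complex.I).re := by rw [hre]; exact hσ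
    rw [norm_mul, Zeta.norm_term hs, hre]
    exact mul_le_of_le_one_left (by positivity) (DirichletCharacter.norm_le_one χ _)
  have hzh : ∀ v, ∀ σ : ℝ, 1 < σ → ‖z v σ‖ ≤ 1 / 2 := fun v σ hσ =>
    (hzn v σ hσ).trans (wp_le_half hσ.le v)
  have hneg : ∀ v, ∀ σ : ℝ, 1 < σ → ‖-z v σ‖ ≤ 1 / 2 := fun v σ hσ => by
    rw [norm_neg]
    exact hzh v σ hσ
  have hlogn : ∀ v, ∀ σ : ℝ, 1 < σ → ‖-Complex.log (1 - z v σ)‖ ≤ 2 * wp σ v := by
    intro v σ hσ
    rw [norm_neg, sub_eq_add_neg]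
    refine (Complex.norm_log_one_add_half_le_self (hneg v σ hσ)).trans ?_
    rw [norm_neg]
    have := hzn v σ hσ
    have := norm_nonneg (z v σ)
    linarith
  have hslit : ∀ v, ∀ σ : ℝ, 1 < σ → 1 - z v σ ∈ Complex.slitPlane := by
    intro v σ hσ
    rw [sub_eq_add_neg]
    exact Complex.mem_slitPlane_of_norm_lt_one (lt_of_le_of_lt (hneg v σ hσ) (by norm_num))
  have hcont : ∀ v, Continuous (z v) := by
    intro v
    rw [hz]
    have h0 : (nm v : ℂ) ≠ 0 := by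
      have := nm_pos' v
      exact_mod_cast this.ne'
    refine continuous_const.mul ?_
    refine Continuous.const_cpow (by fun_prop) (Or.inl h0)
  have hsum : ∀ σ : ℝ, 1 < σ → Summable fun v => -Complex.log (1 - z v σ) := fun σ hσ =>
    Summable.of_norm_bounded ((summable_wp (K := K) hσ).mul_left 2) fun v => hlogn v σ hσ
  refine ⟨fun σ => ∑' v, -Complex.log (1 - z v σ), ?_, fun σ hσ => ⟨?_, ?_⟩⟩
  · -- continuity
    intro σ hσ
    have hσ' : 1 < σ := hσ
    obtain ⟨σ₀, h1, h2⟩ := exists_between hσ'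
    have h3 : ContinuousOn (fun σ => ∑' v, -Complex.log (1 - z v σ)) (Set.Ioi σ₀) := by
      refine continuousOn_tsum (u := fun v => 2 * wp σ₀ v) (fun v => ?_)
        ((summable_wp (K := K) h1).mul_left 2) (fun v x hx => ?_)
      · refine ContinuousOn.neg (ContinuousOn.clog ?_ fun x hx => hslit v x (h1.trans hx))
        exact (continuous_const.sub (hcont v)).continuousOn
      · refine (hlogn v x (h1.trans hx)).trans ?_
        refine mul_le_mul_of_nonneg_left ?_ (by norm_num)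
        have hx' : σ₀ < x := hx
        exact Real.rpow_le_rpow_of_exponent_le (by exact_mod_cast (one_lt_nm v).le) (by linarith)
    exact (h3.continuousAt (Ioi_mem_nhds h2)).continuousWithinAt
  · -- the exponential
    have hs : 1 < ((σ : ℂ) + u * Complex.I).re := by rw [hre]; exact hσ
    have hs0 : (σ : ℂ) + u * Complex.I ≠ 0 := by
      intro h
      rw [h, Complex.zero_re] at hs
      linarith
    rw [N73.LF_eq_tsum χ hs hs0]
    have hb : ∀ n : ℕ, ‖dirichletSummandHom χ hs0 n‖ ≤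
        (n : ℝ) ^ (-((σ : ℂ) + u * Complex.I).re) := by
      intro n
      change ‖χ n * (n : ℂ) ^ (-((σ : ℂ) + u * Complex.I))‖ ≤ _
      rw [norm_mul, Zeta.norm_term hs]
      exact mul_le_of_le_one_left (by positivity) (DirichletCharacter.norm_le_one χ _)
    have h1 := N73.tendsto_euler_hom (K := K) (dirichletSummandHom χ hs0) hs hb
    have h2 : Tendsto (fun S : Finset (HeightOneSpectrum (𝓞 K)) =>
        Complex.exp (∑ v ∈ S, -Complex.log (1 - z v σ))) atTop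
        (𝓝 (Complex.exp (∑' v, -Complex.log (1 - z v σ)))) :=
      (Complex.continuous_exp.tendsto _).comp (hsum σ hσ).hasSum
    refine tendsto_nhds_unique h2 (h1.congr fun S => ?_)
    rw [Complex.exp_sum]
    refine Finset.prod_congr rfl fun v _ => ?_
    have h3 : 1 - z v σ ≠ 0 := Complex.slitPlane_ne_zero (hslit v σ hσ)
    rw [Complex.exp_neg, Complex.exp_log h3, hz]
    rfl
  · -- the prime sum
    have h1 : ∀ v, (wp σ v : ℂ) * (χ (nm v) * ph u (nm v)) = z v σ := by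
      intro v
      have h0 : (nm v : ℂ) ≠ 0 := by
        have := nm_pos' v
        exact_mod_cast this.ne'
      rw [hz]
      simp only
      rw [neg_add, Complex.cpow_add _ _ h0]
      have e1 : ((nm v : ℂ)) ^ (-(σ : ℂ)) = ((wp σ v : ℝ) : ℂ) := by
        rw [wp, Complex.ofReal_cpow (Nat.cast_nonneg _)]
        push_cast
        rfl
      have e2 : ((nm v : ℂ)) ^ (-((u : ℂ) * Complex.I)) = ph u (nm v) := by
        rw [Complex.cpow_def_of_ne_zero h0, ph]
        congr 1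
        have e3 : Complex.log (nm v : ℂ) = ((Real.log (nm v) : ℝ) : ℂ) := by
          rw [Complex.natCast_log]
        rw [e3]
        push_cast
        ring
      rw [e1, e2]
      ring
    have h2 : Summable fun v => z v σ :=
      Summable.of_norm_bounded (summable_wp (K := K) hσ) fun v => hzn v σ hσ
    have h3 : SC (K := K) σ (fun v => χ (nm v) * ph u (nm v)) = ∑' v, z v σ := by
      rw [SC]
      exact tsum_congr h1
    rw [h3, ← (hsum σ hσ).tsum_sub h2]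
    have h4 : ∀ v, ‖-Complex.log (1 - z v σ) - z v σ‖ ≤ 1 / (pr v : ℝ) ^ 2 := by
      intro v
      have h5 := Complex.norm_log_one_add_sub_self_le (z := -z v σ)
        (lt_of_le_of_lt (hneg v σ hσ) (by norm_num))
      have h6 : -Complex.log (1 - z v σ) - z v σ = -(Complex.log (1 + -z v σ) - -z v σ) := by
        rw [← sub_eq_add_neg]
        ring
      rw [h6, norm_neg]
      rw [norm_neg] at h5
      have h7 := hzh v σ hσ
      have h8 : (1 - ‖z v σ‖)⁻¹ ≤ 2 := by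
        rw [inv_le_comm₀ (by linarith) (by norm_num)]
        linarith
      have h9 : ‖z v σ‖ ^ 2 * (1 - ‖z v σ‖)⁻¹ / 2 ≤ ‖z v σ‖ ^ 2 := by
        have := mul_le_mul_of_nonneg_left h8 (sq_nonneg ‖z v σ‖)
        linarith
      have h10 : ‖z v σ‖ ≤ 1 / pr v := (hzn v σ hσ).trans (wp_le hσ.le v)
      have h11 : ‖z v σ‖ ^ 2 ≤ (1 / pr v) ^ 2 := pow_le_pow_left₀ (norm_nonneg _) h10 2
      calc _ ≤ ‖z v σ‖ ^ 2 := h5.trans h9
        _ ≤ (1 / pr v) ^ 2 := h11
        _ = _ := by ring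
    have h5 : Summable fun v => ‖-Complex.log (1 - z v σ) - z v σ‖ :=
      Summable.of_nonneg_of_le (fun v => norm_nonneg _) h4 summable_pr_sq
    refine (norm_tsum_le_tsum_norm h5).trans ?_
    exact h5.tsum_le_tsum h4 summable_pr_sq

/-- N3: bounded argument. -/
theorem log_bounded {G : ℂ → ℂ} {u : ℝ} (hG : ContinuousAt G (1 + u * Complex.I))
    (h0 : G (1 + u * Complex.I) ≠ 0) {Λ : ℝ → ℂ} (hΛ : ContinuousOn Λ (Set.Ioi 1))
    (h : ∀ᶠ σ : ℝ in 𝓝[>] 1, Complex.exp (Λ σ) = G (σ + u * Complex.I)) :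
    ∃ C : ℝ, ∀ᶠ σ : ℝ in 𝓝[>] 1, ‖Λ σ‖ ≤ C := by
  obtain ⟨g, hg⟩ : ∃ g, g = G (1 + u * Complex.I) := ⟨_, rfl⟩
  rw [← hg] at h0
  have hg0 : 0 < ‖g‖ := norm_pos_iff.2 h0
  -- the values of `G` are near `g`
  have hc : Tendsto (fun σ : ℝ => (σ : ℂ) + u * Complex.I) (𝓝[>] 1) (𝓝 (1 + u * Complex.I)) := by
    have h1 : Continuous fun σ : ℝ => (σ : ℂ) + u * Complex.I := by fun_prop
    have h2 := h1.tendsto 1
    rw [Complex.ofReal_one] at h2
    exact h2.mono_left nhdsWithin_le_nhds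
  have h1 : Tendsto (fun σ : ℝ => G ((σ : ℂ) + u * Complex.I)) (𝓝[>] 1) (𝓝 g) := by
    rw [hg]
    exact hG.tendsto.comp hc
  have h2 : ∀ᶠ σ : ℝ in 𝓝[>] 1, ‖G ((σ : ℂ) + u * Complex.I) - g‖ < ‖g‖ / 2 := by
    have := h1.eventually (Metric.ball_mem_nhds g (half_pos hg0))
    simpa only [Metric.mem_ball, dist_eq_norm] using this
  have h3 := h.and h2
  rw [eventually_nhdsWithin_iff, Metric.eventually_nhds_iff] at h3
  obtain ⟨δ, hδ, h3⟩ := h3
  have h4 : ∀ σ ∈ Set.Ioo (1 : ℝ) (1 + δ), ‖Complex.exp (Λ σ) / g - 1‖ < 1 / 2 := by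
    intro σ hσ
    obtain ⟨e1, e2⟩ := h3 (y := σ) (by
      rw [Real.dist_eq, abs_of_pos (by linarith [hσ.1])]
      linarith [hσ.2]) hσ.1
    rw [e1]
    have e3 : G ((σ : ℂ) + u * Complex.I) / g - 1 = (G ((σ : ℂ) + u * Complex.I) - g) / g := by
      rw [sub_div, div_self h0]
    rw [e3, norm_div, div_lt_iff₀ hg0]
    linarith
  have hsub : Set.Ioo (1 : ℝ) (1 + δ) ⊆ Set.Ioi 1 := fun x hx => hx.1
  have hΛ' : ContinuousOn Λ (Set.Ioo 1 (1 + δ)) := hΛ.mono hsub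
  -- the principal logarithm
  obtain ⟨w, hw⟩ : ∃ w : ℝ → ℂ, w = fun σ => Complex.log (Complex.exp (Λ σ) / g) := ⟨_, rfl⟩
  have hslit : ∀ σ ∈ Set.Ioo (1 : ℝ) (1 + δ), Complex.exp (Λ σ) / g ∈ Complex.slitPlane := by
    intro σ hσ
    have e1 : Complex.exp (Λ σ) / g = 1 + (Complex.exp (Λ σ) / g - 1) := by ring
    rw [e1]
    exact Complex.mem_slitPlane_of_norm_lt_one ((h4 σ hσ).trans (by norm_num))
  have hwc : ContinuousOn w (Set.Ioo 1 (1 + δ)) := by
    rw [hw]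
    refine ContinuousOn.clog ?_ hslit
    exact (hΛ'.cexp).div_const g
  have hwn : ∀ σ ∈ Set.Ioo (1 : ℝ) (1 + δ), ‖w σ‖ ≤ 3 / 4 := by
    intro σ hσ
    rw [hw]
    simp only
    have e1 : Complex.exp (Λ σ) / g = 1 + (Complex.exp (Λ σ) / g - 1) := by ring
    rw [e1]
    refine (Complex.norm_log_one_add_half_le_self (h4 σ hσ).le).trans ?_
    have := h4 σ hσ
    linarith
  -- the difference is constant
  obtain ⟨f, hf⟩ : ∃ f : ℝ → ℂ, f = fun σ => Λ σ - w σ := ⟨_, rfl⟩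
  have hfc : ContinuousOn f (Set.Ioo 1 (1 + δ)) := by
    rw [hf]
    exact hΛ'.sub hwc
  have hfe : ∀ σ ∈ Set.Ioo (1 : ℝ) (1 + δ), Complex.exp (f σ) = g := by
    intro σ hσ
    rw [hf]
    simp only
    rw [Complex.exp_sub, hw]
    simp only
    rw [Complex.exp_log (Complex.slitPlane_ne_zero (hslit σ hσ))]
    have := Complex.exp_ne_zero (Λ σ)
    field_simp
  have hpi : (2 * Real.pi) ≠ 0 := by positivity
  have hint : ∀ x ∈ Set.Ioo (1 : ℝ) (1 + δ), ∀ y ∈ Set.Ioo (1 : ℝ) (1 + δ), ∃ n : ℤ,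
      f x = f y + n * (2 * Real.pi * Complex.I) := by
    intro x hx y hy
    have e1 : Complex.exp (f x) = Complex.exp (f y) := by rw [hfe x hx, hfe y hy]
    exact Complex.exp_eq_exp_iff_exists_int.1 e1
  have him : ∀ x ∈ Set.Ioo (1 : ℝ) (1 + δ), ∀ y ∈ Set.Ioo (1 : ℝ) (1 + δ), ∀ n : ℤ,
      f x = f y + n * (2 * Real.pi * Complex.I) →
      (f x).im / (2 * Real.pi) - (f y).im / (2 * Real.pi) = n := by
    intro x hx y hy n hn
    have e1 : (f x).im = (f y).im + n * (2 * Real.pi) := by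
      rw [hn, Complex.add_im]
      congr 1
      simp [Complex.mul_im]
    rw [e1]
    field_simp
    ring
  have hconst := N73.const_of_int (g := fun σ => (f σ).im / (2 * Real.pi)) (a := 1) (b := 1 + δ)
    ((Complex.continuous_im.comp_continuousOn hfc).div_const _) (fun x hx y hy => by
      obtain ⟨n, hn⟩ := hint x hx y hy
      exact ⟨n, him x hx y hy n hn⟩)
  have hm : 1 + δ / 2 ∈ Set.Ioo (1 : ℝ) (1 + δ) := ⟨by linarith, by linarith⟩
  refine ⟨3 / 4 + ‖f (1 + δ / 2)‖, ?_⟩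
  filter_upwards [Ioo_mem_nhdsGT (show (1 : ℝ) < 1 + δ by linarith)] with σ hσ
  obtain ⟨n, hn⟩ := hint σ hσ _ hm
  have e1 := him σ hσ _ hm n hn
  have e2 : (f σ).im / (2 * Real.pi) = (f (1 + δ / 2)).im / (2 * Real.pi) := hconst σ hσ _ hm
  have e3 : (n : ℝ) = 0 := by rw [← e1, e2, sub_self]
  have e4 : n = 0 := by exact_mod_cast e3
  rw [e4, Int.cast_zero, zero_mul, add_zero] at hn
  have e5 : Λ σ = w σ + f σ := by
    rw [hf]
    ring
  rw [e5, hn]
  refine (norm_add_le _ _).trans ?_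
  have := hwn σ hσ
  linarith

end Pool.Agent.Lib.MP_bf61d2_nt.Artin
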