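import Pool.Agent.Lib.MP_bf61d2_nt.Artin.Z69
import Pool.Agent.Lib.MP_bf61d2_nt.Artin.N2373
import Pool.Agent.Lib.MP_bf61d2_nt.Artin.F40
import Pool.Agent.Lib.MP_bf61d2_nt.Perm.Equi

set_option autoImplicit false

/-!
ARTIN EDGE, module N4: the sums over the places with an even Dirichlet character of the norm.
-/

namespace Pool.Agent.Lib.MP_bf61d2_nt.Artin

open NumberField IsDedekindDomain Filter Topology Polynomial Module
open Pool.Agent.Lib.MP_bf61d2_nt.Perm
open scoped Classical nonZeroDivisors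

namespace N4

/-! ### Sums over the places -/

section Sums

variable {F : Type*} [Field F] [NumberField F]

lemma ph_norm (u : ℝ) (n : ℕ) : ‖ph u n‖ = 1 := by
  rw [ph, Complex.norm_exp_ofReal_mul_I]

lemma ph_re (u : ℝ) (n : ℕ) : (ph u n).re = Real.cos (u * Real.log n) := by
  rw [ph, Complex.exp_ofReal_mul_I_re, Real.cos_neg]

lemma ph_zero (n : ℕ) : ph 0 n = 1 := by simp [ph]

lemma summable_sc {σ : ℝ} (hσ : 1 < σ) {f : HeightOneSpectrum (𝓞 F) → ℂ} {B : ℝ}
    (hf : ∀ v, ‖f v‖ ≤ B) : Summable fun v => (wp σ v : ℂ) * f v := by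
  refine Summable.of_norm_bounded (g := fun v => wp σ v * B) ((summable_wp hσ).mul_right B)
    fun v => ?_
  rw [norm_mul, Complex.norm_real, Real.norm_eq_abs, abs_of_pos (wp_pos σ v)]
  exact mul_le_mul_of_nonneg_left (hf v) (wp_pos σ v).le

lemma sc_re {σ : ℝ} (hσ : 1 < σ) {f : HeightOneSpectrum (𝓞 F) → ℂ} {B : ℝ}
    (hf : ∀ v, ‖f v‖ ≤ B) : (SC σ f).re = ∑' v, wp σ v * (f v).re := by
  rw [SC, Complex.re_tsum (summable_sc hσ hf)]
  exact tsum_congr fun v => Complex.re_ofReal_mul _ _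

lemma sc_congr {f g : HeightOneSpectrum (𝓞 F) → ℂ} {B : ℝ} (hf : ∀ v, ‖f v‖ ≤ B)
    (hg : ∀ v, ‖g v‖ ≤ B) (hfin : {v | f v ≠ g v}.Finite) :
    ∃ C : ℝ, 0 ≤ C ∧ ∀ σ : ℝ, 1 < σ → ‖SC σ f - SC σ g‖ ≤ C := by
  refine ⟨∑ v ∈ hfin.toFinset, |B|, Finset.sum_nonneg fun _ _ => abs_nonneg _, fun σ hσ => ?_⟩
  have h1 : SC σ f - SC σ g = ∑' v, (wp σ v : ℂ) * (f v - g v) := by
    rw [SC, SC, ← (summable_sc hσ hf).tsum_sub (summable_sc hσ hg)]
    exact tsum_congr fun v => (mul_sub _ _ _).symm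
  rw [h1, tsum_eq_sum (s := hfin.toFinset) fun v hv => by
    have : f v = g v := by
      by_contra hne
      exact hv (hfin.mem_toFinset.mpr hne)
    rw [this, sub_self, mul_zero]]
  refine (norm_sum_le _ _).trans (Finset.sum_le_sum fun v _ => ?_)
  rw [norm_mul, Complex.norm_real, Real.norm_eq_abs, abs_of_pos (wp_pos σ v)]
  have h2 := wp_le_half hσ.le v
  have h3 := (norm_sub_le (f v) (g v)).trans (add_le_add (hf v) (hg v))
  have h4 := le_abs_self B
  have h5 := (wp_pos σ v).le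
  have h6 := norm_nonneg (f v - g v)
  nlinarith

lemma sc_sum {ι : Type*} (s : Finset ι) {σ : ℝ} (hσ : 1 < σ)
    {f : ι → HeightOneSpectrum (𝓞 F) → ℂ} {B : ℝ} (hf : ∀ i v, ‖f i v‖ ≤ B) :
    ∑ i ∈ s, SC σ (f i) = SC σ (fun v => ∑ i ∈ s, f i v) := by
  simp only [SC, Finset.mul_sum]
  rw [Summable.tsum_finsetSum fun i _ => summable_sc hσ (hf i)]

lemma tendsto_log : Tendsto (fun σ : ℝ => Real.log (1 / (σ - 1))) (𝓝[>] 1) atTop := by
  have h1 : Tendsto (fun σ : ℝ => σ - 1) (𝓝[>] 1) (𝓝[>] 0) := by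
    refine tendsto_nhdsWithin_iff.mpr ⟨?_, ?_⟩
    · have : Tendsto (fun σ : ℝ => σ - 1) (𝓝 1) (𝓝 (1 - 1)) :=
        (continuous_id.sub continuous_const).tendsto 1
      rw [sub_self] at this
      exact this.mono_left nhdsWithin_le_nhds
    · filter_upwards [self_mem_nhdsWithin] with σ hσ
      exact sub_pos.mpr (Set.mem_Ioi.mp hσ)
  simp only [one_div]
  exact Real.tendsto_log_atTop.comp (tendsto_inv_nhdsGT_zero.comp h1)

end Sums

/-! ### Characters -/

section Chars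

variable {m : ℕ} [NeZero m]

omit [NeZero m] in
lemma one_ne_neg_one (hm : 2 < m) : (1 : ZMod m) ≠ -1 := by
  intro h
  have h2 : ((2 : ℕ) : ZMod m) = 0 := by
    push_cast
    linear_combination h
  rw [ZMod.natCast_eq_zero_iff] at h2
  exact absurd (Nat.le_of_dvd (by norm_num) h2) (by omega)

/-- The sum of the values of the even characters. -/
lemma sum_even (hm : 2 < m) (x : ZMod m) :
    ∑ χ ∈ Finset.univ.filter (fun χ : DirichletCharacter ℂ m => χ.Even), χ x =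
      if x = 1 ∨ x = -1 then (m.totient : ℂ) / 2 else 0 := by
  have h1 : ∀ χ : DirichletCharacter ℂ m, (if χ.Even then χ x else 0) =
      (χ x + χ (-x)) / 2 := by
    intro χ
    rcases χ.even_or_odd with h | h
    · rw [if_pos h, h.eval_neg]
      ring
    · rw [if_neg, h.eval_neg]
      · ring
      · intro he
        have := he.symm.trans h
        norm_num at this
  rw [Finset.sum_filter, Finset.sum_congr rfl fun χ _ => h1 χ, ← Finset.sum_div,
    Finset.sum_add_distrib, DirichletCharacter.sum_characters_eq,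
    DirichletCharacter.sum_characters_eq]
  have h2 := one_ne_neg_one hm
  by_cases hx : x = 1
  · subst hx
    rw [if_pos rfl, if_neg h2.symm, if_pos (Or.inl rfl), add_zero]
  · rw [if_neg hx, zero_add]
    by_cases hx' : x = -1
    · rw [if_pos (by rw [hx', neg_neg]), if_pos (Or.inr hx')]
    · rw [if_neg fun h => hx' (by rw [← h, neg_neg]), if_neg (not_or.mpr ⟨hx, hx'⟩), zero_div]

end Chars

/-! ### The Galois group -/

section Gal

variable {F L : Type*} [Field F] [NumberField F] [Field L] [NumberField L] [Algebra F L]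
  [IsGalois F L] [Fintype Gal(L/F)]

omit [NumberField F] [NumberField L] [IsGalois F L] [Fintype Gal(L/F)] in
lemma fp_normal (H : Subgroup Gal(L/F)) [H.Normal] (g : Gal(L/F)) :
    fp (Gal(L/F) ⧸ H) g = if g ∈ H then Nat.card (Gal(L/F) ⧸ H) else 0 := by
  have key : ∀ x : Gal(L/F) ⧸ H, g • x = x ↔ g ∈ H := by
    intro x
    induction x using QuotientGroup.induction_on with
    | H a =>
      rw [MulAction.Quotient.smul_coe, smul_eq_mul, eq_comm, QuotientGroup.eq]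
      have : a⁻¹ * (g * a) = a⁻¹ * g * (a⁻¹)⁻¹ := by group
      rw [this]
      constructor
      · intro h
        have h2 := Subgroup.Normal.conj_mem (n := a⁻¹ * g * (a⁻¹)⁻¹) inferInstance h a
        have h3 : a * (a⁻¹ * g * (a⁻¹)⁻¹) * a⁻¹ = g := by group
        rwa [h3] at h2
      · intro h
        exact Subgroup.Normal.conj_mem inferInstance g h a⁻¹
  unfold fp
  split_ifs with h
  · exact Nat.card_congr (Equiv.subtypeUnivEquiv fun x => (key x).mpr h)
  · have : IsEmpty {x : Gal(L/F) ⧸ H // g • x = x} := ⟨fun x => h ((key x.1).mp x.2)⟩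
    exact Nat.card_of_isEmpty

lemma eqd_normal {Fr : HeightOneSpectrum (𝓞 F) → Gal(L/F)} (hFr : ∀ v, IsFr v (Fr v))
    (H : Subgroup Gal(L/F)) [H.Normal] [DecidablePred fun g : Gal(L/F) => g ∈ H] :
    Eqd Fr fun g => if g ∈ H then (1 : ℝ) else 0 := by
  have h1 := (eqd_quotient (fun F' => finite_fx hFr F') H).smul
    ((Nat.card (Gal(L/F) ⧸ H) : ℝ))⁻¹
  have h2 : (Nat.card (Gal(L/F) ⧸ H) : ℝ) ≠ 0 := by
    exact_mod_cast Nat.card_pos.ne'
  convert h1 using 1
  funext g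
  rw [Pi.smul_apply, smul_eq_mul, fp_normal]
  by_cases h : g ∈ H
  · rw [if_pos h, if_pos h, inv_mul_cancel₀ h2]
  · rw [if_neg h, if_neg h, Nat.cast_zero, mul_zero]

lemma eqd_const {Fr : HeightOneSpectrum (𝓞 F) → Gal(L/F)} (hFr : ∀ v, IsFr v (Fr v)) (a : ℝ) :
    Eqd Fr fun _ => a := by
  have h1 := (eqd_normal hFr (⊤ : Subgroup Gal(L/F))).smul a
  convert h1 using 1
  funext g
  rw [Pi.smul_apply, smul_eq_mul, if_pos (Subgroup.mem_top g), mul_one]

end Gal

/-! ### The characters and the Galois group -/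

section Main

variable {F L : Type*} [Field F] [NumberField F] [Field L] [NumberField L] [Algebra F L]
  [IsGalois F L] [Fintype Gal(L/F)] {m : ℕ} [NeZero m] {ζ : L} (hζ : IsPrimitiveRoot ζ m)

omit [NeZero m] in
lemma norm_tm (χ : DirichletCharacter ℂ m) (u : ℝ) (n k : ℕ) : ‖χ n * ph u k‖ ≤ 1 := by
  rw [norm_mul, ph_norm, mul_one]
  exact DirichletCharacter.norm_le_one χ _

lemma re_lt_one {z : ℂ} (h : ‖z‖ ≤ 1) (h1 : z ≠ 1) : z.re < 1 := by
  by_contra hc
  rw [not_lt] at hc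
  have h2 : ‖z‖ ^ 2 = z.re ^ 2 + z.im ^ 2 := by
    rw [← Complex.normSq_eq_norm_sq, Complex.normSq_apply]
    ring
  have h3 : ‖z‖ ^ 2 ≤ 1 := by
    have := norm_nonneg z
    nlinarith
  have h4 : z.im = 0 := by
    have : z.im ^ 2 ≤ 0 := by nlinarith
    exact pow_eq_zero_iff (two_ne_zero) |>.mp (le_antisymm this (sq_nonneg _))
  have h5 : z.re = 1 := by
    rw [h4] at h2
    nlinarith
  exact h1 (Complex.ext h5 h4)

omit [Fintype Gal(L/F)] in
lemma fin_cyc {Fr : HeightOneSpectrum (𝓞 F) → Gal(L/F)} (hFr : ∀ v, IsFr v (Fr v)) :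
    {v : HeightOneSpectrum (𝓞 F) |
      ((hζ.autToPow F (Fr v) : (ZMod m)ˣ) : ZMod m) ≠ (nm v : ZMod m)}.Finite :=
  (finite_cyc hζ).subset fun v hv => ⟨Fr v, hFr v, hv⟩

/-- There is no pole. -/
lemma no_pole {Fr : HeightOneSpectrum (𝓞 F) → Gal(L/F)} (hFr : ∀ v, IsFr v (Fr v))
    (χ : DirichletCharacter ℂ m) {g₀ : Gal(L/F)}
    (hg₀ : χ ((hζ.autToPow F g₀ : (ZMod m)ˣ) : ZMod m) ≠ 1) (C : ℝ) :
    ¬ ∀ᶠ σ : ℝ in 𝓝[>] 1, Real.log (1 / (σ - 1)) - C ≤
      (SC (K := F) σ (fun v => χ (nm v) * ph 0 (nm v))).re := by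
  intro hcon
  set c := hζ.autToPow F with hc
  set H : Subgroup Gal(L/F) := (χ.toUnitHom.comp c).ker with hH
  have hmem : ∀ g, g ∈ H ↔ χ ((c g : (ZMod m)ˣ) : ZMod m) = 1 := by
    intro g
    rw [hH, MonoidHom.mem_ker, MonoidHom.comp_apply, ← Units.val_eq_one, MulChar.coe_toUnitHom]
  have hpos : ∀ g : Gal(L/F), ∃ d : ℝ, 0 < d ∧ (g ∉ H → d ≤ 1 - (χ ((c g : (ZMod m)ˣ) : ZMod m)).re) := by
    intro g
    by_cases h : g ∈ H
    · exact ⟨1, one_pos, fun h' => absurd h h'⟩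
    · refine ⟨1 - (χ ((c g : (ZMod m)ˣ) : ZMod m)).re, ?_, fun _ => le_rfl⟩
      exact sub_pos.mpr (re_lt_one (DirichletCharacter.norm_le_one χ _) fun h' => h ((hmem g).mpr h'))
  choose d hd0 hd using hpos
  set d₀ := Finset.univ.inf' ⟨1, Finset.mem_univ _⟩ d with hd₀
  have hd₀0 : 0 < d₀ := (Finset.lt_inf'_iff _).mpr fun g _ => hd0 g
  have hd₀1 : ∀ g, g ∉ H → (χ ((c g : (ZMod m)ˣ) : ZMod m)).re ≤ 1 - d₀ := by
    intro g hg
    have h1 : d₀ ≤ d g := Finset.inf'_le _ (Finset.mem_univ g)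
    linarith [hd g hg]
  set f : Gal(L/F) → ℝ := (fun _ => 1 - d₀) + d₀ • (fun g => if g ∈ H then (1 : ℝ) else 0) with hf
  have hfE : Eqd Fr f := (eqd_const hFr _).add ((eqd_normal hFr H).smul d₀)
  have hfg : ∀ g, (χ ((c g : (ZMod m)ˣ) : ZMod m)).re ≤ f g := by
    intro g
    rw [hf, Pi.add_apply, Pi.smul_apply, smul_eq_mul]
    split_ifs with h
    · rw [(hmem g).mp h, Complex.one_re]
      linarith
    · rw [mul_zero, add_zero]
      exact hd₀1 g h
  have hf1 : ∀ g, f g ≤ 1 := by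
    intro g
    rw [hf, Pi.add_apply, Pi.smul_apply, smul_eq_mul]
    split_ifs with h <;> linarith
  have hg₀H : g₀ ∉ H := fun h => hg₀ ((hmem g₀).mp h)
  have hfg₀ : f g₀ < 1 := by
    rw [hf, Pi.add_apply, Pi.smul_apply, smul_eq_mul, if_neg hg₀H]
    linarith
  have hcard : (0 : ℝ) < Fintype.card Gal(L/F) := by exact_mod_cast Fintype.card_pos
  set μ : ℝ := (∑ g, f g) / Fintype.card Gal(L/F) with hμ
  have hμ1 : μ < 1 := by
    rw [hμ, div_lt_one hcard]
    calc ∑ g, f g < ∑ _g : Gal(L/F), (1 : ℝ) :=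
          Finset.sum_lt_sum (fun g _ => hf1 g) ⟨g₀, Finset.mem_univ _, hfg₀⟩
      _ = _ := by rw [Finset.sum_const, Finset.card_univ, nsmul_eq_mul, mul_one]
  obtain ⟨C₁, h10, h1⟩ := hfE 0
  obtain ⟨C₂, h20, h2⟩ := sc_congr (F := F) (f := fun v => χ (nm v) * ph 0 (nm v))
    (g := fun v => χ ((c (Fr v) : (ZMod m)ˣ) : ZMod m)) (B := 1) (fun v => norm_tm χ 0 _ _)
    (fun v => DirichletCharacter.norm_le_one χ _) ((fin_cyc hζ hFr).subset fun v hv h => hv (by
      rw [h, ph_zero, mul_one]))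
  have h3 := (tendsto_log.const_mul_atTop (sub_pos.mpr hμ1)).eventually_gt_atTop (C₁ + C₂ + C)
  obtain ⟨σ, h1, h3, h4, hσ⟩ := (h1.and (h3.and (hcon.and self_mem_nhdsWithin))).exists
  have hσ' : 1 < σ := hσ
  have h5 := h2 σ hσ'
  have h6 := (Complex.abs_re_le_norm _).trans h5
  rw [Complex.sub_re] at h6
  have h7 : (SC σ (fun v => χ ((c (Fr v) : (ZMod m)ˣ) : ZMod m))).re ≤
      ∑' v, wp σ v * (f (Fr v) * Real.cos (0 * Real.log (nm v))) := by
    rw [sc_re hσ' (B := 1) fun v => DirichletCharacter.norm_le_one χ _]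
    refine Summable.tsum_le_tsum (fun v => ?_) ?_ (summable_fin hσ' Fr f 0)
    · rw [zero_mul, Real.cos_zero, mul_one]
      exact mul_le_mul_of_nonneg_left (hfg _) (wp_pos σ v).le
    · have := (Complex.hasSum_re (summable_sc hσ' (B := 1)
        (f := fun v : HeightOneSpectrum (𝓞 F) => χ ((c (Fr v) : (ZMod m)ˣ) : ZMod m))
        fun v => DirichletCharacter.norm_le_one χ _).hasSum).summable
      refine this.congr fun v => ?_
      rw [Complex.re_ofReal_mul]
  rw [if_pos rfl] at h1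
  have h8 := (abs_le.mp h1).2
  have h9 := (abs_le.mp h6).2
  nlinarith

/-- The continuous extension. -/
lemma exists_cont {Fr : HeightOneSpectrum (𝓞 F) → Gal(L/F)} (hFr : ∀ v, IsFr v (Fr v))
    {χ : DirichletCharacter ℂ m} (hχ : χ.Even) {u : ℝ}
    (h : u ≠ 0 ∨ ∃ g : Gal(L/F), χ ((hζ.autToPow F g : (ZMod m)ˣ) : ZMod m) ≠ 1) :
    ∃ G : ℂ → ℂ, ContinuousAt G (1 + u * Complex.I) ∧
      ∀ᶠ σ : ℝ in 𝓝[>] 1, G (σ + u * Complex.I) = LF F (fun n => χ n) (σ + u * Complex.I) := by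
  have hψ : ∀ x : ZMod m, χ (-x) = χ x := fun x => hχ.eval_neg _ x
  have hmap : Tendsto (fun σ : ℝ => (σ + u * Complex.I : ℂ)) (𝓝[>] 1) (𝓝 (1 + u * Complex.I)) := by
    have : Continuous fun σ : ℝ => (σ + u * Complex.I : ℂ) := by fun_prop
    have h1 := this.tendsto 1
    rw [Complex.ofReal_one] at h1
    exact h1.mono_left nhdsWithin_le_nhds
  by_cases hu : u = 0
  · have hg : ∃ g : Gal(L/F), χ ((hζ.autToPow F g : (ZMod m)ˣ) : ZMod m) ≠ 1 := by
      rcases h with h | h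
      · exact absurd hu h
      · exact h
    obtain ⟨g₀, hg₀⟩ := hg
    subst hu
    rw [Complex.ofReal_zero, zero_mul, add_zero] at hmap ⊢
    simp only [add_zero] at hmap ⊢
    obtain ⟨G, hG, hGe⟩ := LF_pole F m (fun x => χ x) hψ
    have h1 : ∀ᶠ σ : ℝ in 𝓝[>] 1, G σ = (σ - 1) * LF F (fun n => χ n) σ := by
      filter_upwards [hmap.eventually hGe, self_mem_nhdsWithin] with σ h2 hσ
      exact h2 (by rw [Complex.ofReal_re]; exact hσ)
    have hG1 : G 1 = 0 := by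
      by_contra hne
      obtain ⟨Λ, -, hΛ⟩ := euler_log F χ 0
      have h2 : Tendsto (fun σ : ℝ => ‖G σ‖) (𝓝[>] 1) (𝓝 ‖G 1‖) :=
        (hG.continuousAt.tendsto.comp hmap).norm
      have h3 : 0 < ‖G 1‖ := norm_pos_iff.mpr hne
      refine no_pole hζ hFr χ hg₀ (sqC F - Real.log (‖G 1‖ / 2)) ?_
      filter_upwards [h1, h2.eventually_const_lt (half_lt_self h3), self_mem_nhdsWithin]
        with σ h4 h5 hσ
      have hσ' : 1 < σ := hσ
      have hσ0 : 0 < σ - 1 := by linarith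
      obtain ⟨h6, h7⟩ := hΛ σ hσ'
      rw [Complex.ofReal_zero, zero_mul, add_zero] at h6
      have h8 : ‖G σ‖ = (σ - 1) * Real.exp (Λ σ).re := by
        rw [h4, ← h6, norm_mul, Complex.norm_exp]
        have : ((σ : ℂ) - 1) = ((σ - 1 : ℝ) : ℂ) := by push_cast; ring
        rw [this, Complex.norm_real, Real.norm_eq_abs, abs_of_pos hσ0]
      have h9 : ‖G 1‖ / 2 * (1 / (σ - 1)) ≤ Real.exp (Λ σ).re := by
        rw [h8] at h5
        rw [mul_one_div, div_le_iff₀ hσ0]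
        linarith
      have h10 := Real.log_le_log (by positivity) h9
      rw [Real.log_exp, Real.log_mul (by positivity) (by positivity)] at h10
      have h11 := (Complex.abs_re_le_norm _).trans h7
      rw [Complex.sub_re] at h11
      have h12 := (abs_le.mp h11).2
      linarith
    refine ⟨dslope G 1, continuousAt_dslope_same.mpr hG.differentiableAt, ?_⟩
    filter_upwards [h1, self_mem_nhdsWithin] with σ h2 hσ
    have hσ' : 1 < σ := hσ
    have hne : (σ : ℂ) ≠ 1 := by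
      intro h3
      have : σ = 1 := by exact_mod_cast h3
      exact hσ'.ne' this
    rw [dslope_of_ne _ hne, slope_def_field, hG1, sub_zero, h2, mul_comm, mul_div_assoc,
      div_self (sub_ne_zero.mpr hne), mul_one]
  · obtain ⟨G, hG, hGe⟩ := LF_continuation F m (fun x => χ x) hψ hu
    refine ⟨G, hG.continuousAt, ?_⟩
    filter_upwards [hmap.eventually hGe, self_mem_nhdsWithin] with σ h2 hσ
    exact h2 (by
      simp only [Complex.add_re, Complex.ofReal_re, Complex.mul_re, Complex.I_re, mul_zero,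
        Complex.ofReal_im, Complex.I_im, mul_one, sub_self, add_zero]
      exact hσ)

/-- The subgroup `{1, -1}`. -/
def pm (m : ℕ) : Subgroup (ZMod m)ˣ where
  carrier := {x | x = 1 ∨ x = -1}
  one_mem' := Or.inl rfl
  mul_mem' := by
    rintro a b (rfl | rfl) (rfl | rfl)
    · exact Or.inl (one_mul _)
    · exact Or.inr (one_mul _)
    · exact Or.inr (mul_one _)
    · exact Or.inl (by rw [neg_mul_neg, one_mul])
  inv_mem' := by
    rintro a (rfl | rfl)
    · exact Or.inl inv_one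
    · exact Or.inr (by rw [inv_neg, inv_one])

/-- The sum over the characters without pole. -/
lemma sum_chars {Fr : HeightOneSpectrum (𝓞 F) → Gal(L/F)} (hFr : ∀ v, IsFr v (Fr v))
    (hm : 2 < m) (u : ℝ) (E : Finset (DirichletCharacter ℂ m))
    (hE : ∀ χ, χ ∈ E ↔ χ.Even ∧ (u ≠ 0 ∨ ∃ g : Gal(L/F),
      χ ((hζ.autToPow F g : (ZMod m)ˣ) : ZMod m) ≠ 1)) :
    ∃ f : Gal(L/F) → ℝ, (∀ g, ∑ χ ∈ E, χ ((hζ.autToPow F g : (ZMod m)ˣ) : ZMod m) = (f g : ℂ)) ∧
      Eqd Fr f ∧ (u = 0 → ∑ g, f g = 0) := by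
  set c := hζ.autToPow F with hc
  have hpm : Eqd Fr fun g => if g ∈ (pm m).comap c then (1 : ℝ) else 0 :=
    eqd_normal hFr ((pm m).comap c)
  have hmem : ∀ g, (((c g : (ZMod m)ˣ) : ZMod m) = 1 ∨ ((c g : (ZMod m)ˣ) : ZMod m) = -1) ↔
      g ∈ (pm m).comap c := by
    intro g
    rw [Subgroup.mem_comap]
    change _ ↔ c g = 1 ∨ c g = -1
    rw [Units.ext_iff, Units.ext_iff, Units.val_one, Units.val_neg, Units.val_one]
  by_cases hu : u = 0
  · set T := Finset.univ.filter (fun χ : DirichletCharacter ℂ m => χ.Even ∧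
      ∀ g : Gal(L/F), χ ((c g : (ZMod m)ˣ) : ZMod m) = 1) with hT
    have hsplit : ∀ g, ∑ χ ∈ E, χ ((c g : (ZMod m)ˣ) : ZMod m) +
        ∑ χ ∈ T, χ ((c g : (ZMod m)ˣ) : ZMod m) =
        ∑ χ ∈ Finset.univ.filter (fun χ : DirichletCharacter ℂ m => χ.Even),
          χ ((c g : (ZMod m)ˣ) : ZMod m) := by
      intro g
      rw [← Finset.sum_union]
      · refine Finset.sum_congr ?_ fun _ _ => rfl
        ext χ
        rw [Finset.mem_union, hE, hT, Finset.mem_filter, Finset.mem_filter]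
        constructor
        · rintro (h | h)
          · exact ⟨Finset.mem_univ _, h.1⟩
          · exact ⟨Finset.mem_univ _, h.2.1⟩
        · rintro ⟨-, h⟩
          by_cases h2 : ∃ g : Gal(L/F), χ ((c g : (ZMod m)ˣ) : ZMod m) ≠ 1
          · exact Or.inl ⟨h, Or.inr h2⟩
          · exact Or.inr ⟨Finset.mem_univ _, h, fun g => by
              by_contra h3
              exact h2 ⟨g, h3⟩⟩
      · rw [Finset.disjoint_left]
        intro χ h1 h2
        rw [hE] at h1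
        rw [hT, Finset.mem_filter] at h2
        rcases h1.2 with h3 | ⟨g, h3⟩
        · exact h3 hu
        · exact h3 (h2.2.2 g)
    have hTs : ∀ g, ∑ χ ∈ T, χ ((c g : (ZMod m)ˣ) : ZMod m) = (T.card : ℂ) := by
      intro g
      rw [Finset.sum_congr rfl fun χ hχ => (Finset.mem_filter.mp hχ).2.2 g, Finset.sum_const,
        nsmul_eq_mul, mul_one]
    set f : Gal(L/F) → ℝ := ((m.totient : ℝ) / 2) • (fun g => if g ∈ (pm m).comap c then (1 : ℝ)
      else 0) + (fun _ => -(T.card : ℝ)) with hf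
    have hfs : ∀ g, ∑ χ ∈ E, χ ((c g : (ZMod m)ˣ) : ZMod m) = (f g : ℂ) := by
      intro g
      have h1 := hsplit g
      rw [hTs, sum_even hm] at h1
      rw [eq_sub_of_add_eq h1, hf, Pi.add_apply, Pi.smul_apply, smul_eq_mul]
      by_cases hg : g ∈ (pm m).comap c
      · rw [if_pos ((hmem g).mpr hg), if_pos hg]
        push_cast
        ring
      · rw [if_neg (fun h => hg ((hmem g).mp h)), if_neg hg]
        push_cast
        ring
    refine ⟨f, hfs, (hpm.smul _).add (eqd_const hFr _), fun _ => ?_⟩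
    have h2 : ((∑ g, f g : ℝ) : ℂ) = 0 := by
      push_cast
      rw [← Finset.sum_congr rfl fun g _ => hfs g, Finset.sum_comm]
      refine Finset.sum_eq_zero fun χ hχ => ?_
      rw [hE] at hχ
      rcases hχ.2 with h3 | ⟨g, h3⟩
      · exact absurd hu h3
      · have h4 := sum_hom_units_eq_zero
          (((χ : ZMod m →* ℂ).comp (Units.coeHom (ZMod m))).comp c) fun h5 => h3 (by
            have h6 := DFunLike.congr_fun h5 g
            exact h6)
        exact h4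
    exact_mod_cast h2
  · refine ⟨((m.totient : ℝ) / 2) • (fun g => if g ∈ (pm m).comap c then (1 : ℝ) else 0),
      fun g => ?_, hpm.smul _, fun h => absurd h hu⟩
    have h1 : E = Finset.univ.filter (fun χ : DirichletCharacter ℂ m => χ.Even) := by
      ext χ
      rw [hE, Finset.mem_filter]
      exact ⟨fun h => ⟨Finset.mem_univ _, h.1⟩, fun h => ⟨h.2, Or.inl hu⟩⟩
    rw [h1, sum_even hm, Pi.smul_apply, smul_eq_mul]
    by_cases hg : g ∈ (pm m).comap c
    · rw [if_pos ((hmem g).mpr hg), if_pos hg]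
      push_cast
      ring
    · rw [if_neg (fun h => hg ((hmem g).mp h)), if_neg hg]
      push_cast
      ring

/-- The sum of the real parts is bounded. -/
lemma sum_bound {Fr : HeightOneSpectrum (𝓞 F) → Gal(L/F)} (hFr : ∀ v, IsFr v (Fr v))
    (hm : 2 < m) (u : ℝ) (E : Finset (DirichletCharacter ℂ m))
    (hE : ∀ χ, χ ∈ E ↔ χ.Even ∧ (u ≠ 0 ∨ ∃ g : Gal(L/F),
      χ ((hζ.autToPow F g : (ZMod m)ˣ) : ZMod m) ≠ 1)) :
    ∃ C : ℝ, ∀ᶠ σ : ℝ in 𝓝[>] 1,
      -C ≤ ∑ χ ∈ E, (SC (K := F) σ (fun v => χ (nm v) * ph u (nm v))).re := by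
  obtain ⟨f, hf, hfE, hf0⟩ := sum_chars hζ hFr hm u E hE
  obtain ⟨C₁, h10, h1⟩ := hfE u
  have hfB : ∀ g, ‖(f g : ℂ)‖ ≤ E.card := by
    intro g
    rw [← hf g]
    refine (norm_sum_le _ _).trans ?_
    calc ∑ χ ∈ E, ‖χ ((hζ.autToPow F g : (ZMod m)ˣ) : ZMod m)‖ ≤ ∑ _χ ∈ E, (1 : ℝ) :=
          Finset.sum_le_sum fun χ _ => DirichletCharacter.norm_le_one χ _
      _ = _ := by rw [Finset.sum_const, nsmul_eq_mul, mul_one]
  have hsB : ∀ v : HeightOneSpectrum (𝓞 F), ‖∑ χ ∈ E, χ (nm v) * ph u (nm v)‖ ≤ E.card := by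
    intro v
    refine (norm_sum_le _ _).trans ?_
    calc ∑ χ ∈ E, ‖χ (nm v) * ph u (nm v)‖ ≤ ∑ _χ ∈ E, (1 : ℝ) :=
          Finset.sum_le_sum fun χ _ => norm_tm χ u _ _
      _ = _ := by rw [Finset.sum_const, nsmul_eq_mul, mul_one]
  have hgB : ∀ v : HeightOneSpectrum (𝓞 F), ‖(f (Fr v) : ℂ) * ph u (nm v)‖ ≤ E.card := by
    intro v
    rw [norm_mul, ph_norm, mul_one]
    exact hfB _
  obtain ⟨C₂, h20, h2⟩ := sc_congr hsB hgB ((fin_cyc hζ hFr).subset fun v hv h => hv (by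
    rw [← Finset.sum_mul, ← h, hf]))
  refine ⟨C₁ + C₂, ?_⟩
  filter_upwards [h1, self_mem_nhdsWithin] with σ h1 hσ
  have hσ' : 1 < σ := hσ
  have h3 : ∑ χ ∈ E, (SC (K := F) σ (fun v => χ (nm v) * ph u (nm v))).re =
      (SC (K := F) σ (fun v => ∑ χ ∈ E, χ (nm v) * ph u (nm v))).re := by
    rw [← sc_sum E hσ' (B := 1) (f := fun (χ : DirichletCharacter ℂ m) v =>
      χ (nm v) * ph u (nm v)) fun χ v => norm_tm χ u _ _, Complex.re_sum]
  have h4 : (SC (K := F) σ (fun v => (f (Fr v) : ℂ) * ph u (nm v))).re =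
      ∑' v, wp σ v * (f (Fr v) * Real.cos (u * Real.log (nm v))) := by
    rw [sc_re hσ' hgB]
    refine tsum_congr fun v => ?_
    rw [Complex.re_ofReal_mul, ph_re]
  have h5 := (Complex.abs_re_le_norm _).trans (h2 σ hσ')
  rw [Complex.sub_re, h4] at h5
  have h6 : (if u = 0 then (∑ g, f g) / (Fintype.card Gal(L/F) : ℝ) else 0) = 0 := by
    split_ifs with hu
    · rw [hf0 hu, zero_div]
    · rfl
  rw [h6, zero_mul, sub_zero] at h1
  rw [h3]
  linarith [(abs_le.mp h5).1, (abs_le.mp h1).1]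

/-- An upper bound for each character without pole. -/
lemma upper {χ : DirichletCharacter ℂ m} {u : ℝ} {G : ℂ → ℂ}
    (hG : ContinuousAt G (1 + u * Complex.I))
    (hGe : ∀ᶠ σ : ℝ in 𝓝[>] 1, G (σ + u * Complex.I) = LF F (fun n => χ n) (σ + u * Complex.I)) :
    ∃ C : ℝ, ∀ᶠ σ : ℝ in 𝓝[>] 1, (SC (K := F) σ (fun v => χ (nm v) * ph u (nm v))).re ≤ C := by
  obtain ⟨Λ, -, hΛ⟩ := euler_log F χ u
  have hmap : Tendsto (fun σ : ℝ => (σ + u * Complex.I : ℂ)) (𝓝[>] 1) (𝓝 (1 + u * Complex.I)) := by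
    have : Continuous fun σ : ℝ => (σ + u * Complex.I : ℂ) := by fun_prop
    have h1 := this.tendsto 1
    rw [Complex.ofReal_one] at h1
    exact h1.mono_left nhdsWithin_le_nhds
  have h1 := (hG.tendsto.comp hmap).norm.eventually_lt_const
    (lt_add_one ‖G (1 + u * Complex.I)‖)
  refine ⟨Real.log (‖G (1 + u * Complex.I)‖ + 1) + sqC F, ?_⟩
  filter_upwards [h1, hGe, self_mem_nhdsWithin] with σ h1 h2 hσ
  obtain ⟨h3, h4⟩ := hΛ σ hσ
  rw [Function.comp_apply, h2, ← h3, Complex.norm_exp] at h1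
  have h5 := Real.log_le_log (Real.exp_pos _) h1.le
  rw [Real.log_exp] at h5
  have h6 := (Complex.abs_re_le_norm _).trans h4
  rw [Complex.sub_re] at h6
  linarith [(abs_le.mp h6).1]

end Main

end N4

/-- N4: the sums over the places with an even Dirichlet character of the norm. -/
theorem charsum (F L : Type*) [Field F] [NumberField F] [Field L] [NumberField L] [Algebra F L]
    [IsGalois F L] {m : ℕ} [NeZero m] (hm : 2 < m) {ζ : L} (hζ : IsPrimitiveRoot ζ m)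
    (χ : DirichletCharacter ℂ m) (hχ : χ.Even) (u : ℝ) :
    ∃ C : ℝ, 0 ≤ C ∧ ∀ᶠ σ : ℝ in 𝓝[>] 1,
      ‖SC (K := F) σ (fun v => χ (nm v) * ph u (nm v)) -
        (if u = 0 ∧ ∀ g : Gal(L/F), χ ((hζ.autToPow F g : (ZMod m)ˣ) : ZMod m) = 1 then
          ((Real.log (1 / (σ - 1)) : ℝ) : ℂ) else 0)‖ ≤ C := by
  have hfd : FiniteDimensional F L := Module.Finite.of_restrictScalars_finite ℚ F L
  have : Fintype Gal(L/F) := Fintype.ofFinite _
  choose Fr hFr using fun v : HeightOneSpectrum (𝓞 F) => exists_isFr (M := L) v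
  by_cases h : u = 0 ∧ ∀ g : Gal(L/F), χ ((hζ.autToPow F g : (ZMod m)ˣ) : ZMod m) = 1
  · simp only [if_pos h]
    obtain ⟨hu, hg⟩ := h
    subst hu
    obtain ⟨C₁, h10, h1⟩ := N4.sc_congr (F := F) (f := fun v => χ (nm v) * ph 0 (nm v))
      (g := fun _ => 1) (B := 1) (fun v => N4.norm_tm χ 0 _ _) (fun _ => by simp)
      ((N4.fin_cyc hζ hFr).subset fun v hv h => hv (by
        rw [← h, hg, N4.ph_zero, mul_one]))
    obtain ⟨C₂, h20, h2⟩ := PS_bound F
    refine ⟨C₁ + C₂, by positivity, ?_⟩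
    filter_upwards [h2, self_mem_nhdsWithin] with σ h2 hσ
    have h3 : SC (K := F) σ (fun _ => 1) = ((PS F σ : ℝ) : ℂ) := by
      rw [SC, PS, Complex.ofReal_tsum]
      exact tsum_congr fun v => mul_one _
    have h4 := h1 σ hσ
    rw [h3] at h4
    have h5 : ‖((PS F σ : ℝ) : ℂ) - ((Real.log (1 / (σ - 1)) : ℝ) : ℂ)‖ ≤ C₂ := by
      rw [← Complex.ofReal_sub, Complex.norm_real, Real.norm_eq_abs]
      exact h2
    calc ‖SC (K := F) σ (fun v => χ (nm v) * ph 0 (nm v)) - ((Real.log (1 / (σ - 1)) : ℝ) : ℂ)‖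
        = ‖(SC (K := F) σ (fun v => χ (nm v) * ph 0 (nm v)) - ((PS F σ : ℝ) : ℂ)) +
            (((PS F σ : ℝ) : ℂ) - ((Real.log (1 / (σ - 1)) : ℝ) : ℂ))‖ := by
          rw [sub_add_sub_cancel]
      _ ≤ _ := (norm_add_le _ _).trans (add_le_add h4 h5)
  · simp only [if_neg h, sub_zero]
    have h' : u ≠ 0 ∨ ∃ g : Gal(L/F), χ ((hζ.autToPow F g : (ZMod m)ˣ) : ZMod m) ≠ 1 := by
      by_contra hc
      rw [not_or, not_not, not_exists] at hc
      exact h ⟨hc.1, fun g => not_not.mp (hc.2 g)⟩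
    set E := Finset.univ.filter (fun χ : DirichletCharacter ℂ m => χ.Even ∧
      (u ≠ 0 ∨ ∃ g : Gal(L/F), χ ((hζ.autToPow F g : (ZMod m)ˣ) : ZMod m) ≠ 1)) with hE
    have hmE : ∀ χ, χ ∈ E ↔ χ.Even ∧ (u ≠ 0 ∨ ∃ g : Gal(L/F),
        χ ((hζ.autToPow F g : (ZMod m)ˣ) : ZMod m) ≠ 1) := by
      intro χ
      rw [hE, Finset.mem_filter]
      exact ⟨fun h => h.2, fun h => ⟨Finset.mem_univ _, h⟩⟩
    have hup : ∀ χ : DirichletCharacter ℂ m, ∃ C : ℝ, χ ∈ E → ∀ᶠ σ : ℝ in 𝓝[>] 1,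
        (SC (K := F) σ (fun v => χ (nm v) * ph u (nm v))).re ≤ C := by
      intro χ
      by_cases hχE : χ ∈ E
      · obtain ⟨G, hG, hGe⟩ := N4.exists_cont hζ hFr ((hmE χ).mp hχE).1 ((hmE χ).mp hχE).2
        obtain ⟨C, hC⟩ := N4.upper hG hGe
        exact ⟨C, fun _ => hC⟩
      · exact ⟨0, fun h => absurd h hχE⟩
    choose D hD using hup
    obtain ⟨C₁, h1⟩ := N4.sum_bound hζ hFr hm u E hmE
    have hall : ∀ᶠ σ : ℝ in 𝓝[>] 1, ∀ χ ∈ E,
        (SC (K := F) σ (fun v => χ (nm v) * ph u (nm v))).re ≤ D χ := by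
      rw [Filter.eventually_all_finset]
      exact fun χ hχ => hD χ hχ
    have hχE : χ ∈ E := (hmE χ).mpr ⟨hχ, h'⟩
    obtain ⟨G, hG, hGe⟩ := N4.exists_cont hζ hFr hχ h'
    obtain ⟨Λ, hΛc, hΛ⟩ := euler_log F χ u
    set C₂ : ℝ := C₁ + ∑ χ' ∈ E.erase χ, D χ' + sqC F with hC₂
    have hlow : ∀ᶠ σ : ℝ in 𝓝[>] 1, -C₂ ≤ (Λ σ).re := by
      filter_upwards [h1, hall, self_mem_nhdsWithin] with σ h1 h2 hσ
      rw [← Finset.add_sum_erase E _ hχE] at h1
      have h3 : ∑ χ' ∈ E.erase χ, (SC (K := F) σ (fun v => χ' (nm v) * ph u (nm v))).re ≤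
          ∑ χ' ∈ E.erase χ, D χ' :=
        Finset.sum_le_sum fun χ' hχ' => h2 χ' (Finset.mem_of_mem_erase hχ')
      have h4 := (Complex.abs_re_le_norm _).trans (hΛ σ hσ).2
      rw [Complex.sub_re] at h4
      linarith [(abs_le.mp h4).1]
    have hmap : Tendsto (fun σ : ℝ => (σ + u * Complex.I : ℂ)) (𝓝[>] 1)
        (𝓝 (1 + u * Complex.I)) := by
      have : Continuous fun σ : ℝ => (σ + u * Complex.I : ℂ) := by fun_prop
      have h1 := this.tendsto 1
      rw [Complex.ofReal_one] at h1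
      exact h1.mono_left nhdsWithin_le_nhds
    have hG0 : G (1 + u * Complex.I) ≠ 0 := by
      intro h0
      have h2 := (hG.tendsto.comp hmap).norm
      rw [h0, norm_zero] at h2
      have h3 : Real.exp (-C₂) ≤ 0 := by
        refine ge_of_tendsto h2 ?_
        filter_upwards [hlow, hGe, self_mem_nhdsWithin] with σ h3 h4 hσ
        rw [Function.comp_apply, h4, ← (hΛ σ hσ).1, Complex.norm_exp]
        exact Real.exp_le_exp.mpr h3
      exact absurd h3 (not_le.mpr (Real.exp_pos _))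
    obtain ⟨C, hC⟩ := log_bounded hG hG0 hΛc (by
      filter_upwards [hGe, self_mem_nhdsWithin] with σ h2 hσ
      rw [(hΛ σ hσ).1, h2])
    refine ⟨|C| + |sqC F|, by positivity, ?_⟩
    filter_upwards [hC, self_mem_nhdsWithin] with σ h2 hσ
    have h3 := (hΛ σ hσ).2
    rw [norm_sub_rev] at h3
    have h4 := norm_le_insert' (SC (K := F) σ (fun v => χ (nm v) * ph u (nm v))) (Λ σ)
    linarith [le_abs_self C, le_abs_self (sqC F)]

end Pool.Agent.Lib.MP_bf61d2_nt.Artin
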