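import Pool.Agent.Lib.MP_bf61d2_nt.Artin.Defs63
import Pool.Agent.Lib.MP_bf61d2_nt.Artin.F40
import Pool.Agent.Lib.MP_bf61d2_nt.Artin.N4h3

set_option autoImplicit false

/-!
ARTIN EDGE (MP_bf61d2_nt): equidistribution of the products of a permutation character and an even
Dirichlet character of the cyclotomic character (module H1).
-/

namespace Pool.Agent.Lib.MP_bf61d2_nt.Artin

open NumberField IsDedekindDomain Filter Topology Polynomial Module
open Pool.Agent.Lib.MP_bf61d2_nt.Perm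
open scoped Classical nonZeroDivisors

namespace H19

/-! ### The mean value -/

/-- Sum of a linear character over the group, weighted with a permutation character. -/
lemma sum_fp_mul {G : Type*} [Group G] [Fintype G] (H : Subgroup G) (ψ : G →* ℂ) :
    ∑ g : G, (fp (G ⧸ H) g : ℂ) * ψ g = (Fintype.card (G ⧸ H) : ℂ) * ∑ h : H, ψ h := by
  have h1 : ∀ g : G, (fp (G ⧸ H) g : ℂ) * ψ g = ∑ x : G ⧸ H, if g • x = x then ψ g else 0 := by
    intro g
    rw [← Finset.sum_filter, Finset.sum_const, nsmul_eq_mul, fp, Nat.card_eq_fintype_card,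
      Fintype.card_subtype]
  simp_rw [h1]
  rw [Finset.sum_comm]
  have h2 : ∀ x : G ⧸ H, (∑ g : G, if g • x = x then ψ g else 0) = ∑ h : H, ψ h := by
    intro x
    induction x using QuotientGroup.induction_on with
    | H a =>
      rw [← Equiv.sum_comp (MulAut.conj a).toEquiv]
      have h3 : ∀ g : G, (if (MulAut.conj a).toEquiv g • (a : G ⧸ H) = a then
          ψ ((MulAut.conj a).toEquiv g) else 0) = if g ∈ H then ψ g else 0 := by
        intro g
        have e1 : (MulAut.conj a).toEquiv g = a * g * a⁻¹ := rfl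
        have e2 : (a * g * a⁻¹) • (a : G ⧸ H) = ((a * g : G) : G ⧸ H) := by
          rw [MulAction.Quotient.smul_coe, smul_eq_mul]
          congr 1
          group
        have e3 : ψ (a * g * a⁻¹) = ψ g := by
          have : ψ a * ψ a⁻¹ = 1 := by rw [← map_mul, mul_inv_cancel, map_one]
          rw [map_mul, map_mul, mul_right_comm, this, one_mul]
        rw [e1, e2, e3]
        have e4 : (((a * g : G) : G ⧸ H) = (a : G ⧸ H)) ↔ g ∈ H := by
          rw [eq_comm, QuotientGroup.eq, inv_mul_cancel_left]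
        simp only [e4]
      simp_rw [h3]
      rw [← Finset.sum_filter]
      exact Finset.sum_subtype _ (fun g => by simp) _
  simp_rw [h2]
  rw [Finset.sum_const, nsmul_eq_mul, Finset.card_univ]

lemma mean_fp_mul {G : Type*} [Group G] [Fintype G] (H : Subgroup G) (ψ : G →* ℂ) :
    (∑ g : G, (fp (G ⧸ H) g : ℂ) * ψ g) / Fintype.card G =
      if ∀ h ∈ H, ψ h = 1 then 1 else 0 := by
  rw [sum_fp_mul]
  split_ifs with hc
  · have h1 : ∑ h : H, ψ h = Fintype.card H := by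
      have h2 : ∀ h : H, ψ (h : G) = 1 := fun h => hc h.1 h.2
      simp [h2]
    rw [h1]
    have h2 := Subgroup.card_eq_card_quotient_mul_card_subgroup H
    rw [Nat.card_eq_fintype_card, Nat.card_eq_fintype_card, Nat.card_eq_fintype_card] at h2
    rw [h2]
    push_cast
    refine div_self ?_
    have h3 : (Fintype.card (G ⧸ H) : ℂ) ≠ 0 := by exact_mod_cast Fintype.card_ne_zero
    have h4 : (Fintype.card H : ℂ) ≠ 0 := by exact_mod_cast Fintype.card_ne_zero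
    exact mul_ne_zero h3 h4
  · have h1 : ∑ h : H, (ψ.comp H.subtype) h = 0 := by
      refine sum_hom_units_eq_zero _ fun hh => hc fun h hh' => ?_
      have := DFunLike.congr_fun hh ⟨h, hh'⟩
      simpa using this
    have h2 : ∑ h : H, ψ h = 0 := h1
    rw [h2, mul_zero, zero_div]

/-- The cyclotomic character of an automorphism over an intermediate field. -/
lemma autToPow_restrict {K L : Type*} [Field K] [Field L] [Algebra K L] {m : ℕ} [NeZero m]
    {ζ : L} (hζ : IsPrimitiveRoot ζ m) (F : IntermediateField K L) (g : Gal(L/K)) (g' : Gal(L/F))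
    (h : ∀ x, g' x = g x) : hζ.autToPow F g' = hζ.autToPow K g := by
  have h1 := hζ.autToPow_spec K g
  have h2 := hζ.autToPow_spec F g'
  rw [h, ← h1] at h2
  have h3 := hζ.pow_inj (ZMod.val_lt _) (ZMod.val_lt _) h2
  exact Units.ext (ZMod.val_injective m h3)

lemma forall_iff {K L : Type*} [Field K] [Field L] [Algebra K L] [FiniteDimensional K L]
    [IsGalois K L] {m : ℕ} [NeZero m] {ζ : L} (hζ : IsPrimitiveRoot ζ m) (H : Subgroup Gal(L/K))
    (f : (ZMod m)ˣ → Prop) : (∀ g : Gal(L/(IntermediateField.fixedField H)),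
      f (hζ.autToPow (IntermediateField.fixedField H) g)) ↔ ∀ h ∈ H, f (hζ.autToPow K h) := by
  have e := IntermediateField.fixingSubgroup_fixedField H
  constructor
  · intro hh h hH
    have h1 : h ∈ (IntermediateField.fixedField H).fixingSubgroup := by rw [e]; exact hH
    have h2 := hh ((IntermediateField.fixedField H).fixingSubgroupEquiv ⟨h, h1⟩)
    rwa [autToPow_restrict hζ (IntermediateField.fixedField H) h _ fun x => rfl] at h2
  · intro hh g
    have h1 : ((IntermediateField.fixedField H).fixingSubgroupEquiv.symm g : Gal(L/K)) ∈ H :=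
      e.le ((IntermediateField.fixedField H).fixingSubgroupEquiv.symm g).2
    have h2 := hh _ h1
    rwa [← autToPow_restrict hζ (IntermediateField.fixedField H) _ g fun x => rfl] at h2

/-! ### Complex weighted sums -/

section SC

variable {K : Type*} [Field K] [NumberField K]

lemma summable_sc {σ : ℝ} (hσ : 1 < σ) {f : HeightOneSpectrum (𝓞 K) → ℂ} {B : ℝ}
    (hf : ∀ v, ‖f v‖ ≤ B) : Summable fun v => (wp σ v : ℂ) * f v := by
  refine Summable.of_norm_bounded ((summable_wp (K := K) hσ).mul_right B) fun v => ?_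
  rw [norm_mul, Complex.norm_real, Real.norm_eq_abs, abs_of_pos (wp_pos σ v)]
  exact mul_le_mul_of_nonneg_left (hf v) (wp_pos σ v).le

lemma sc_re {σ : ℝ} (hσ : 1 < σ) {f : HeightOneSpectrum (𝓞 K) → ℂ} {B : ℝ}
    (hf : ∀ v, ‖f v‖ ≤ B) : (SC σ f).re = ∑' v, wp σ v * (f v).re := by
  rw [SC, Complex.re_tsum (summable_sc hσ hf)]
  refine tsum_congr fun v => ?_
  rw [Complex.re_ofReal_mul]

lemma sc_im {σ : ℝ} (hσ : 1 < σ) {f : HeightOneSpectrum (𝓞 K) → ℂ} {B : ℝ}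
    (hf : ∀ v, ‖f v‖ ≤ B) : (SC σ f).im = ∑' v, wp σ v * (f v).im := by
  rw [SC, Complex.im_tsum (summable_sc hσ hf)]
  refine tsum_congr fun v => ?_
  rw [Complex.im_ofReal_mul]

lemma sc_sub {σ : ℝ} (hσ : 1 < σ) {f g : HeightOneSpectrum (𝓞 K) → ℂ} {B : ℝ}
    (hf : ∀ v, ‖f v‖ ≤ B) (hg : ∀ v, ‖g v‖ ≤ B) :
    SC σ f - SC σ g = SC σ fun v => f v - g v := by
  rw [SC, SC, SC, ← (summable_sc hσ hf).tsum_sub (summable_sc hσ hg)]
  refine tsum_congr fun v => ?_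
  ring

/-- A sum with finitely many nonzero terms is bounded. -/
lemma norm_sc_finite {σ : ℝ} (hσ : 1 < σ) {f : HeightOneSpectrum (𝓞 K) → ℂ} {B : ℝ}
    (hf : ∀ v, ‖f v‖ ≤ B) (S : Finset (HeightOneSpectrum (𝓞 K))) (h0 : ∀ v, v ∉ S → f v = 0) :
    ‖SC σ f‖ ≤ S.card * B := by
  rw [SC, tsum_eq_sum (s := S) fun v hv => by rw [h0 v hv, mul_zero]]
  refine (norm_sum_le _ _).trans ?_
  rw [← nsmul_eq_mul, ← Finset.sum_const]
  refine Finset.sum_le_sum fun v _ => ?_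
  rw [norm_mul, Complex.norm_real, Real.norm_eq_abs, abs_of_pos (wp_pos σ v)]
  have h1 : (0 : ℝ) ≤ ‖f v‖ := norm_nonneg _
  calc wp σ v * ‖f v‖ ≤ 1 * ‖f v‖ := by
        refine mul_le_mul_of_nonneg_right ((wp_le_half hσ.le v).trans (by norm_num)) h1
    _ = ‖f v‖ := one_mul _
    _ ≤ B := hf v

end SC

/-- The function of the norm. -/
noncomputable def GG {m : ℕ} (χ : DirichletCharacter ℂ m) (u : ℝ) (n : ℕ) : ℂ := χ n * ph u n

lemma norm_ph (u : ℝ) (n : ℕ) : ‖ph u n‖ = 1 := by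
  rw [ph, Complex.norm_exp_ofReal_mul_I]

lemma norm_GG_le {m : ℕ} (χ : DirichletCharacter ℂ m) (u : ℝ) (n : ℕ) : ‖GG χ u n‖ ≤ 1 := by
  rw [GG, norm_mul, norm_ph, mul_one]
  exact χ.norm_le_one _

end H19

open H19

section

variable {K L : Type*} [Field K] [NumberField K] [Field L] [NumberField L] [Algebra K L]
  [IsGalois K L] [Fintype Gal(L/K)]

/-- H1 -/
theorem ceq_fp_char {Fr : HeightOneSpectrum (𝓞 K) → Gal(L/K)} (hFr : ∀ v, IsFr v (Fr v))
    {m : ℕ} [NeZero m] (hm : 2 < m) {ζ : L} (hζ : IsPrimitiveRoot ζ m) (H : Subgroup Gal(L/K))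
    (χ : DirichletCharacter ℂ m) (hχ : χ.Even) :
    CEq Fr (fun g => (fp (Gal(L/K) ⧸ H) g : ℂ) * χ ((hζ.autToPow K g : (ZMod m)ˣ) : ZMod m)) := by
  intro u
  have hfd : FiniteDimensional K L := Module.Finite.of_restrictScalars_finite ℚ K L
  set F := IntermediateField.fixedField H with hF
  obtain ⟨C₁, h10, h1⟩ := swap (K := K) (M := L) (Fr := Fr) (F := F) (finite_fx hFr F)
  obtain ⟨C₂, h20, h2⟩ := regroup (K := K) (L := F) (a := fun _ => 1) (b := fun _ => 1) (A := 1)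
    (fun _ => by simp) (fun _ => by simp) ∅ (fun _ _ _ => rfl)
  obtain ⟨C₃, h30, h3⟩ := charsum F L hm hζ χ hχ u
  set S := (finite_cyc (K := K) hζ).toFinset with hS
  set ψ : Gal(L/K) →* ℂ := (χ.toMonoidHom : ZMod m →* ℂ).comp
    ((Units.coeHom (ZMod m)).comp (hζ.autToPow K)) with hψ
  have hψ' : ∀ g, χ ((hζ.autToPow K g : (ZMod m)ˣ) : ZMod m) = ψ g := fun g => rfl
  set A : ℝ := ∑ g : Gal(L/K), (fp (Gal(L/K) ⧸ H) g : ℝ) with hA
  have hA0 : 0 ≤ A := Finset.sum_nonneg fun g _ => Nat.cast_nonneg _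
  have hfA : ∀ g, (fp (Gal(L/K) ⧸ H) g : ℝ) ≤ A := fun g =>
    Finset.single_le_sum (f := fun g : Gal(L/K) => (fp (Gal(L/K) ⧸ H) g : ℝ))
      (fun g _ => Nat.cast_nonneg _) (Finset.mem_univ _)
  refine ⟨2 * C₁ + 2 * C₂ + C₃ + S.card * (2 * A), by positivity, ?_⟩
  filter_upwards [h3, self_mem_nhdsWithin] with σ h3 hσ
  have hσ' : 1 < σ := hσ
  -- the four sums
  set T₀ : ℂ := SC σ (fun v : HeightOneSpectrum (𝓞 K) =>
    (fp (Gal(L/K) ⧸ H) (Fr v) : ℂ) * χ ((hζ.autToPow K (Fr v) : (ZMod m)ˣ) : ZMod m) *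
      ph u (nm v)) with hT₀
  set T₁ : ℂ := SC σ (fun v : HeightOneSpectrum (𝓞 K) =>
    (fx F (Fr v) : ℂ) * GG χ u (nm v)) with hT₁
  set T₂ : ℂ := SC σ (fun v : HeightOneSpectrum (𝓞 K) => (r1 F v : ℂ) * GG χ u (nm v)) with hT₂
  set T₃ : ℂ := SC σ (fun w : HeightOneSpectrum (𝓞 F) => GG χ u (nm w)) with hT₃
  have hG := norm_GG_le χ u
  have hre : ∀ n, |(GG χ u n).re| ≤ 1 := fun n => (Complex.abs_re_le_norm _).trans (hG n)
  have him : ∀ n, |(GG χ u n).im| ≤ 1 := fun n => (Complex.abs_im_le_norm _).trans (hG n)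
  have efx : ∀ g, fx F g = fp (Gal(L/K) ⧸ H) g := fun g => by rw [hF, fx_fixedField]
  have b1 : ∀ v : HeightOneSpectrum (𝓞 K), ‖(fx F (Fr v) : ℂ) * GG χ u (nm v)‖ ≤ A := fun v => by
    rw [norm_mul, Complex.norm_natCast, efx]
    calc (fp (Gal(L/K) ⧸ H) (Fr v) : ℝ) * ‖GG χ u (nm v)‖ ≤ A * 1 :=
          mul_le_mul (hfA _) (hG _) (norm_nonneg _) hA0
      _ = A := mul_one A
  have b2 : ∀ v : HeightOneSpectrum (𝓞 K), ‖(r1 F v : ℂ) * GG χ u (nm v)‖ ≤
      Module.finrank (𝓞 K) (𝓞 F) := fun v => by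
    rw [norm_mul, Complex.norm_natCast]
    have : (r1 F v : ℝ) ≤ Module.finrank (𝓞 K) (𝓞 F) := by exact_mod_cast r1_le v
    calc (r1 F v : ℝ) * ‖GG χ u (nm v)‖ ≤ Module.finrank (𝓞 K) (𝓞 F) * 1 :=
          mul_le_mul this (hG _) (norm_nonneg _) (Nat.cast_nonneg _)
      _ = _ := mul_one _
  have b3 : ∀ w : HeightOneSpectrum (𝓞 F), ‖GG χ u (nm w)‖ ≤ 1 := fun w => hG _
  -- T₀ and T₁
  have d0 : ‖T₀ - T₁‖ ≤ S.card * (2 * A) := by
    have e : ∀ v : HeightOneSpectrum (𝓞 K),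
        (fp (Gal(L/K) ⧸ H) (Fr v) : ℂ) * χ ((hζ.autToPow K (Fr v) : (ZMod m)ˣ) : ZMod m) *
          ph u (nm v) - (fx F (Fr v) : ℂ) * GG χ u (nm v) = (fp (Gal(L/K) ⧸ H) (Fr v) : ℂ) *
          ((χ ((hζ.autToPow K (Fr v) : (ZMod m)ˣ) : ZMod m) - χ (nm v)) * ph u (nm v)) := by
      intro v
      rw [efx, GG]
      ring
    have b0 : ∀ v : HeightOneSpectrum (𝓞 K),
        ‖(fp (Gal(L/K) ⧸ H) (Fr v) : ℂ) * χ ((hζ.autToPow K (Fr v) : (ZMod m)ˣ) : ZMod m) *
          ph u (nm v)‖ ≤ A := fun v => by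
      rw [norm_mul, norm_ph, mul_one, norm_mul, Complex.norm_natCast]
      calc (fp (Gal(L/K) ⧸ H) (Fr v) : ℝ) *
            ‖χ ((hζ.autToPow K (Fr v) : (ZMod m)ˣ) : ZMod m)‖ ≤ A * 1 :=
            mul_le_mul (hfA _) (χ.norm_le_one _) (norm_nonneg _) hA0
        _ = A := mul_one A
    rw [hT₀, hT₁, sc_sub hσ' b0 b1]
    simp_rw [e]
    refine norm_sc_finite hσ' (fun v => ?_) S fun v hv => ?_
    · rw [norm_mul, norm_mul, norm_ph, mul_one, Complex.norm_natCast]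
      have h4 : ‖χ ((hζ.autToPow K (Fr v) : (ZMod m)ˣ) : ZMod m) - χ (nm v)‖ ≤ 2 := by
        refine (norm_sub_le _ _).trans ?_
        have := χ.norm_le_one ((hζ.autToPow K (Fr v) : (ZMod m)ˣ) : ZMod m)
        have := χ.norm_le_one (nm v : ZMod m)
        linarith
      calc (fp (Gal(L/K) ⧸ H) (Fr v) : ℝ) *
            ‖χ ((hζ.autToPow K (Fr v) : (ZMod m)ˣ) : ZMod m) - χ (nm v)‖ ≤ A * 2 :=
            mul_le_mul (hfA _) h4 (norm_nonneg _) hA0
        _ = 2 * A := mul_comm _ _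
    · have h4 : ((hζ.autToPow K (Fr v) : (ZMod m)ˣ) : ZMod m) = (nm v : ZMod m) := by
        by_contra hcon
        exact hv ((finite_cyc (K := K) hζ).mem_toFinset.mpr ⟨Fr v, hFr v, hcon⟩)
      rw [h4, sub_self, zero_mul, mul_zero]
  -- T₁ and T₂
  have d1 : ‖T₁ - T₂‖ ≤ 2 * C₁ := by
    have h5 := h1 σ hσ' (fun v => (GG χ u (nm v)).re) (fun v => (hre _).trans (by norm_num))
    have h6 := h1 σ hσ' (fun v => (GG χ u (nm v)).im) (fun v => (him _).trans (by norm_num))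
    have e1 : (T₂ - T₁).re = ∑' v : HeightOneSpectrum (𝓞 K),
        wp σ v * ((r1 F v : ℝ) * (GG χ u (nm v)).re) - ∑' v : HeightOneSpectrum (𝓞 K),
        wp σ v * ((fx F (Fr v) : ℝ) * (GG χ u (nm v)).re) := by
      rw [Complex.sub_re, hT₂, hT₁, sc_re hσ' b2, sc_re hσ' b1]
      congr 1 <;> refine tsum_congr fun v => ?_ <;>
        rw [← Complex.ofReal_natCast, Complex.re_ofReal_mul]
    have e2 : (T₂ - T₁).im = ∑' v : HeightOneSpectrum (𝓞 K),
        wp σ v * ((r1 F v : ℝ) * (GG χ u (nm v)).im) - ∑' v : HeightOneSpectrum (𝓞 K),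
        wp σ v * ((fx F (Fr v) : ℝ) * (GG χ u (nm v)).im) := by
      rw [Complex.sub_im, hT₂, hT₁, sc_im hσ' b2, sc_im hσ' b1]
      congr 1 <;> refine tsum_congr fun v => ?_ <;>
        rw [← Complex.ofReal_natCast, Complex.im_ofReal_mul]
    rw [norm_sub_rev]
    refine (Complex.norm_le_abs_re_add_abs_im _).trans ?_
    rw [e1, e2]
    linarith
  -- T₂ and T₃
  have d2 : ‖T₃ - T₂‖ ≤ 2 * C₂ := by
    have h5 := h2 (fun n => (GG χ u n).re) hre σ hσ'
    have h6 := h2 (fun n => (GG χ u n).im) him σ hσ'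
    simp only [one_mul] at h5 h6
    have e1 : (T₃ - T₂).re = ∑' w : HeightOneSpectrum (𝓞 F), wp σ w * (GG χ u (nm w)).re -
        ∑' v : HeightOneSpectrum (𝓞 K), wp σ v * ((r1 F v : ℝ) * (GG χ u (nm v)).re) := by
      rw [Complex.sub_re, hT₃, hT₂, sc_re hσ' b3, sc_re hσ' b2]
      congr 1
      refine tsum_congr fun v => ?_
      rw [← Complex.ofReal_natCast, Complex.re_ofReal_mul]
    have e2 : (T₃ - T₂).im = ∑' w : HeightOneSpectrum (𝓞 F), wp σ w * (GG χ u (nm w)).im -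
        ∑' v : HeightOneSpectrum (𝓞 K), wp σ v * ((r1 F v : ℝ) * (GG χ u (nm v)).im) := by
      rw [Complex.sub_im, hT₃, hT₂, sc_im hσ' b3, sc_im hσ' b2]
      congr 1
      refine tsum_congr fun v => ?_
      rw [← Complex.ofReal_natCast, Complex.im_ofReal_mul]
    refine (Complex.norm_le_abs_re_add_abs_im _).trans ?_
    rw [e1, e2]
    linarith
  -- the mean value
  have hmean : (if u = 0 then (∑ g : Gal(L/K), (fp (Gal(L/K) ⧸ H) g : ℂ) *
      χ ((hζ.autToPow K g : (ZMod m)ˣ) : ZMod m)) / Fintype.card Gal(L/K) else 0) *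
      ((Real.log (1 / (σ - 1)) : ℝ) : ℂ) =
      if u = 0 ∧ ∀ g : Gal(L/F), χ ((hζ.autToPow F g : (ZMod m)ˣ) : ZMod m) = 1 then
          ((Real.log (1 / (σ - 1)) : ℝ) : ℂ) else 0 := by
    have h4 : (∀ g : Gal(L/F), χ ((hζ.autToPow F g : (ZMod m)ˣ) : ZMod m) = 1) ↔
        ∀ h ∈ H, ψ h = 1 := forall_iff hζ H (fun x => χ (x : ZMod m) = 1)
    have h5 := mean_fp_mul H ψ
    simp only [hψ']
    rw [h5]
    simp only [h4]
    by_cases hu : u = 0
    · by_cases hh : ∀ h ∈ H, ψ h = 1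
      · rw [if_pos hu, if_pos hh, if_pos ⟨hu, hh⟩, one_mul]
      · rw [if_pos hu, if_neg hh, if_neg (fun h => hh h.2), zero_mul]
    · rw [if_neg hu, if_neg (fun h => hu h.1), zero_mul]
  rw [hmean]
  have d3 : ‖T₃ - if u = 0 ∧ ∀ g : Gal(L/F), χ ((hζ.autToPow F g : (ZMod m)ˣ) : ZMod m) = 1 then
      ((Real.log (1 / (σ - 1)) : ℝ) : ℂ) else 0‖ ≤ C₃ := h3
  set R : ℂ := if u = 0 ∧ ∀ g : Gal(L/F), χ ((hζ.autToPow F g : (ZMod m)ˣ) : ZMod m) = 1 then
      ((Real.log (1 / (σ - 1)) : ℝ) : ℂ) else 0 with hR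
  have e : T₀ - R = (T₀ - T₁) + (T₁ - T₂) - (T₃ - T₂) + (T₃ - R) := by ring
  show ‖T₀ - R‖ ≤ _
  rw [e]
  calc ‖(T₀ - T₁) + (T₁ - T₂) - (T₃ - T₂) + (T₃ - R)‖ ≤
        ‖T₀ - T₁‖ + ‖T₁ - T₂‖ + ‖T₃ - T₂‖ + ‖T₃ - R‖ := by
        refine (norm_add_le _ _).trans (add_le_add_left ?_ _)
        refine (norm_sub_le _ _).trans (add_le_add_left ?_ _)
        exact norm_add_le _ _
    _ ≤ _ := by linarith

end

end Pool.Agent.Lib.MP_bf61d2_nt.Artin
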