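import Pool.Agent.Lib.MP_bf61d2_nt.Artin.G38
import Pool.Agent.Lib.MP_bf61d2_nt.Artin.H19

set_option autoImplicit false

/-!
ARTIN EDGE (MP_bf61d2_nt), module H2: equidistribution for the separated classes.
-/

namespace Pool.Agent.Lib.MP_bf61d2_nt.Artin

open NumberField IsDedekindDomain Filter Topology Polynomial Module
open Pool.Agent.Lib.MP_bf61d2_nt.Perm
open scoped Classical nonZeroDivisors

section

variable {K L : Type*} [Field K] [NumberField K] [Field L] [NumberField L] [Algebra K L]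
  [IsGalois K L] [Fintype Gal(L/K)]

theorem ceq_class {Fr : HeightOneSpectrum (𝓞 K) → Gal(L/K)} (hFr : ∀ v, IsFr v (Fr v))
    {m : ℕ} [NeZero m] (hm : 2 < m) {ζ : L} (hζ : IsPrimitiveRoot ζ m) {g₀ : Gal(L/K)}
    (hg : Star (hζ.autToPow K) g₀) : CEq Fr (fun g => if IsConj g₀ g then 1 else 0) := by
  obtain ⟨κ, hκ0, hκ⟩ := class_indicator (hζ.autToPow K) hg
  set c : Gal(L/K) →* (ZMod m)ˣ := hζ.autToPow K with hc
  set a : (ZMod m)ˣ := c g₀ with ha
  have hκ0' : (κ : ℂ) ≠ 0 := Nat.cast_ne_zero.mpr hκ0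
  have hφ0 : (m.totient : ℂ) ≠ 0 := Nat.cast_ne_zero.mpr (Nat.totient_pos.2 (by omega)).ne'
  have hne : a ≠ -a := by
    intro h
    have : Fact (2 < m) := ⟨hm⟩
    have h1 : (a : ZMod m) = -(a : ZMod m) := by
      conv_lhs => rw [h]
      push_cast
      rfl
    have h2 : (-1 : ZMod m) = 1 := by
      have h3 : (a : ZMod m) * ((a⁻¹ : (ZMod m)ˣ) : ZMod m) = 1 := Units.mul_inv a
      calc (-1 : ZMod m) = -((a : ZMod m) * ((a⁻¹ : (ZMod m)ˣ) : ZMod m)) := by rw [h3]
        _ = (-(a : ZMod m)) * ((a⁻¹ : (ZMod m)ˣ) : ZMod m) := by ring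
        _ = (a : ZMod m) * ((a⁻¹ : (ZMod m)ˣ) : ZMod m) := by rw [← h1]
        _ = 1 := h3
    exact ZMod.neg_one_ne_one h2
  have e : (fun g : Gal(L/K) => if IsConj g₀ g then (1 : ℂ) else 0) =
      ∑ χ : DirichletCharacter ℂ m, (2 / (m.totient * κ) * ((1 + χ (-1)) / 2 *
        χ ((a⁻¹ : (ZMod m)ˣ) : ZMod m))) •
        (fun g : Gal(L/K) => (fp (Gal(L/K) ⧸ Subgroup.zpowers g₀) g : ℂ) * χ ((c g : (ZMod m)ˣ) : ZMod m)) := by
    funext x
    rw [Finset.sum_apply]
    have h1 : ∀ χ : DirichletCharacter ℂ m, ((2 / (m.totient * κ) * ((1 + χ (-1)) / 2 *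
        χ ((a⁻¹ : (ZMod m)ˣ) : ZMod m))) •
        (fun g : Gal(L/K) => (fp (Gal(L/K) ⧸ Subgroup.zpowers g₀) g : ℂ) *
          χ ((c g : (ZMod m)ˣ) : ZMod m))) x =
        (2 / (m.totient * κ) * (fp (Gal(L/K) ⧸ Subgroup.zpowers g₀) x : ℂ)) *
        (((1 + χ (-1)) / 2 * χ ((a⁻¹ : (ZMod m)ˣ) : ZMod m)) * χ ((c x : (ZMod m)ˣ) : ZMod m)) := by
      intro χ
      rw [Pi.smul_apply, smul_eq_mul]
      ring
    rw [Finset.sum_congr rfl fun χ _ => h1 χ, ← Finset.mul_sum, X38.sum_even]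
    have h2 := hκ x
    have h3 : (c x = a ∨ c x = -a) ↔ (a = c x ∨ a = -c x) := by
      constructor
      · rintro (h | h)
        · exact Or.inl h.symm
        · right; rw [h, neg_neg]
      · rintro (h | h)
        · exact Or.inl h.symm
        · right; rw [h, neg_neg]
    have h4 : ((if a = c x then (1 : ℂ) else 0) + (if a = -c x then 1 else 0)) =
        if (c x = a ∨ c x = -a) then 1 else 0 := by
      by_cases h5 : a = c x
      · have h6 : a ≠ -c x := by rw [← h5]; exact hne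
        rw [if_pos h5, if_neg h6, if_pos (h3.2 (Or.inl h5)), add_zero]
      · by_cases h6 : a = -c x
        · rw [if_neg h5, if_pos h6, if_pos (h3.2 (Or.inr h6)), zero_add]
        · rw [if_neg h5, if_neg h6, if_neg (fun h => (h3.1 h).elim h5 h6), add_zero]
    rw [h4]
    by_cases hcx : c x = a ∨ c x = -a
    · rw [if_pos hcx] at h2 ⊢
      rw [h2]
      by_cases hj : IsConj g₀ x
      · rw [if_pos hj, if_pos hj]
        field_simp
      · rw [if_neg hj, if_neg hj]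
        simp
    · rw [if_neg hcx] at h2 ⊢
      have hj : ¬ IsConj g₀ x := by
        intro hj
        rw [if_pos hj] at h2
        exact hκ0 h2.symm
      rw [if_neg hj]
      simp
  rw [e]
  refine CEq.sum _ _ fun χ _ => ?_
  rcases DirichletCharacter.even_or_odd χ with hχ | hχ
  · exact (ceq_fp_char hFr hm hζ _ χ hχ).smul _
  · have h1 : χ (-1) = -1 := hχ
    have h2 : (2 / (m.totient * κ) * ((1 + χ (-1)) / 2 *
        χ ((a⁻¹ : (ZMod m)ˣ) : ZMod m)) : ℂ) = 0 := by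
      rw [h1]; ring
    rw [h2, zero_smul]
    exact CEq.zero Fr

end

end Pool.Agent.Lib.MP_bf61d2_nt.Artin
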