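import Mathlib

set_option autoImplicit false

/-!
K-curves: the sign of an automorphism on a square root.
-/

namespace Pool.Agent.Lib.MP_bf61d2_nt.Artin

/-- The sign of `g` on the square root `θ`. -/
noncomputable def sg {F M : Type*} [Field F] [Field M] [Algebra F M] (θ : M) (g : Gal(M/F)) : ℝ := by
  classical
  exact if g θ = θ then 1 else -1

end Pool.Agent.Lib.MP_bf61d2_nt.Artin
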