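import Pool.Agent.Lib.MP_bf61d2_nt.Artin.Conj63
import Pool.Agent.Lib.MP_bf61d2_nt.Artin.KDefs63

set_option autoImplicit false

/-!
K-curves: conjugate curves.
-/

namespace Pool.Agent.Lib.MP_bf61d2_nt.Artin

open NumberField IsDedekindDomain Filter Topology Polynomial Module WeierstrassCurve IsLocalRing
open Pool.Agent.Lib.MP_bf61d2_nt.Perm

section Good

variable {F : Type*} [Field F] [NumberField F]

/-- The local polynomial of a curve with a good integral model. -/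
theorem lp_of_good63 (v : HeightOneSpectrum (𝓞 F)) {W : WeierstrassCurve F}
    (W₀ : WeierstrassCurve (𝓞 F)) (C : VariableChange F)
    (hC : W = C • W₀.map (algebraMap (𝓞 F) F)) (hΔ : W₀.Δ ∉ v.asIdeal)
    (h2 : (2 : 𝓞 F) ∉ v.asIdeal) (h3 : (3 : 𝓞 F) ∉ v.asIdeal) :
    lp W v = quad ((nm v : ℤ) + 1 - Nat.card (W₀.map (red v)).toAffine.Point) (nm v) := by
  have hcard : Nat.card (IsLocalRing.ResidueField (v.adicCompletionIntegers F)) = nm v :=
    card_residue v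
  have h := localPolynomial_of_good (v.adicCompletionIntegers F) (F := v.adicCompletion F)
    (W := W.baseChange (v.adicCompletion F))
    (W₀.map (algebraMap (𝓞 F) (v.adicCompletionIntegers F)))
    (C.map (algebraMap F (v.adicCompletion F)))
    (by
      rw [hC, WeierstrassCurve.baseChange, ← map_variableChange, WeierstrassCurve.map_map, WeierstrassCurve.map_map]
      rfl)
    (by
      rw [map_Δ]
      exact isUnit_algebraMap v hΔ)
    (by
      have := isUnit_algebraMap v h2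
      rwa [map_ofNat] at this)
    (by
      have := isUnit_algebraMap v h3
      rwa [map_ofNat] at this)
  rw [WeierstrassCurve.map_map, hcard] at h
  rw [lp, h]
  rfl

/-- The local polynomial of an isomorphic curve. -/
theorem lp_change63 (E : WeierstrassCurve F) [E.IsElliptic] (C : VariableChange F) :
    ∃ S : Finset (HeightOneSpectrum (𝓞 F)), ∀ v, v ∉ S → lp (C • E) v = lp E v := by
  obtain ⟨W₀, C₀, hE, hΔ⟩ := exists_integral_model E
  have h6 : (6 : 𝓞 F) * W₀.Δ ≠ 0 := mul_ne_zero (by norm_num) hΔ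
  refine ⟨(finite_dvd h6).toFinset, fun v hv => ?_⟩
  rw [Set.Finite.mem_toFinset] at hv
  have hv6 : (6 : 𝓞 F) * W₀.Δ ∉ v.asIdeal := hv
  have h2 : (2 : 𝓞 F) ∉ v.asIdeal := fun h => hv6 (by
    have : (6 : 𝓞 F) * W₀.Δ = 3 * W₀.Δ * 2 := by ring
    rw [this]; exact Ideal.mul_mem_left _ _ h)
  have h3 : (3 : 𝓞 F) ∉ v.asIdeal := fun h => hv6 (by
    have : (6 : 𝓞 F) * W₀.Δ = 2 * W₀.Δ * 3 := by ring
    rw [this]; exact Ideal.mul_mem_left _ _ h)
  have h5 : W₀.Δ ∉ v.asIdeal := fun h => hv6 (Ideal.mul_mem_left _ _ h)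
  rw [lp_of_good63 v W₀ C₀ hE h5 h2 h3,
    lp_of_good63 v W₀ (C * C₀) (W := C • E) (by rw [mul_smul, ← hE]) h5 h2 h3]

/-- The permutation of the places. -/
noncomputable def eqv63 (τ : F ≃+* F) :
    HeightOneSpectrum (𝓞 F) ≃ HeightOneSpectrum (𝓞 F) :=
  HeightOneSpectrum.equivOfRingEquiv (RingOfIntegers.mapRingEquiv τ)

lemma mem_eqv63 (τ : F ≃+* F) (v : HeightOneSpectrum (𝓞 F)) (x : 𝓞 F) :
    RingOfIntegers.mapRingEquiv τ x ∈ (eqv63 τ v).asIdeal ↔ x ∈ v.asIdeal := by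
  have h : (eqv63 τ v).asIdeal =
      v.asIdeal.comap ((RingOfIntegers.mapRingEquiv τ).symm : 𝓞 F →+* 𝓞 F) := rfl
  rw [h, Ideal.mem_comap]
  have h2 : ((RingOfIntegers.mapRingEquiv τ).symm : 𝓞 F →+* 𝓞 F)
      (RingOfIntegers.mapRingEquiv τ x) = x := RingEquiv.symm_apply_apply _ x
  rw [h2]

lemma exists_residue_eqv63 (τ : F ≃+* F) (v : HeightOneSpectrum (𝓞 F)) :
    ∃ f : ResidueField (v.adicCompletionIntegers F) →+*
      ResidueField ((eqv63 τ v).adicCompletionIntegers F), Function.Bijective f ∧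
      f.comp (red v) = (red (eqv63 τ v)).comp (RingOfIntegers.mapRingEquiv τ : 𝓞 F →+* 𝓞 F) := by
  obtain ⟨f, hcomp⟩ : ∃ f : ResidueField (v.adicCompletionIntegers F) →+*
      ResidueField ((eqv63 τ v).adicCompletionIntegers F),
      f.comp (red v) =
        (red (eqv63 τ v)).comp (RingOfIntegers.mapRingEquiv τ : 𝓞 F →+* 𝓞 F) := by
    refine ⟨(red v).liftOfSurjective (red_surjective v)
      ⟨(red (eqv63 τ v)).comp (RingOfIntegers.mapRingEquiv τ : 𝓞 F →+* 𝓞 F), fun x hx => ?_⟩, ?_⟩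
    · rw [RingHom.mem_ker, red_eq_zero_iff] at hx
      rw [RingHom.mem_ker, RingHom.comp_apply, red_eq_zero_iff]
      exact (mem_eqv63 τ v x).mpr hx
    · exact RingHom.liftOfRightInverse_comp _ _ _ _
  refine ⟨f, ⟨f.injective, fun y => ?_⟩, hcomp⟩
  obtain ⟨x, rfl⟩ := red_surjective (eqv63 τ v) y
  refine ⟨red v ((RingOfIntegers.mapRingEquiv τ).symm x), ?_⟩
  rw [← RingHom.comp_apply, hcomp, RingHom.comp_apply]
  congr 1
  exact RingEquiv.apply_symm_apply _ x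

lemma nm_eqv63 (τ : F ≃+* F) (v : HeightOneSpectrum (𝓞 F)) : nm (eqv63 τ v) = nm v := by
  obtain ⟨f, hf, -⟩ := exists_residue_eqv63 τ v
  have h1 : Nat.card (ResidueField (v.adicCompletionIntegers F)) = nm v := card_residue v
  have h2 : Nat.card (ResidueField ((eqv63 τ v).adicCompletionIntegers F)) = nm (eqv63 τ v) :=
    card_residue _
  rw [← h1, ← h2]
  exact (Nat.card_eq_of_bijective f hf).symm

lemma pr_eqv63 (τ : F ≃+* F) (v : HeightOneSpectrum (𝓞 F)) : pr (eqv63 τ v) = pr v := by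
  obtain ⟨a, ha, h1⟩ := nm_eq (eqv63 τ v)
  obtain ⟨b, hb, h2⟩ := nm_eq v
  rw [nm_eqv63, h2] at h1
  have h3 : pr (eqv63 τ v) ∣ pr v ^ b := by
    rw [h1]
    exact dvd_pow_self _ (by omega)
  exact (Nat.prime_dvd_prime_iff_eq (pr_prime _) (pr_prime _)).mp
    ((pr_prime _).dvd_of_dvd_pow h3)

/-- The local polynomials of the conjugate curve. -/
theorem lp_conj63 (τ : F ≃+* F) (E : WeierstrassCurve F) [E.IsElliptic] :
    ∃ S : Finset (HeightOneSpectrum (𝓞 F)), ∀ v, v ∉ S →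
      lp (E.map (τ : F →+* F)) (eqv63 τ v) = lp E v := by
  obtain ⟨W₀, C₀, hE, hΔ⟩ := exists_integral_model E
  have h6 : (6 : 𝓞 F) * W₀.Δ ≠ 0 := mul_ne_zero (by norm_num) hΔ
  refine ⟨(finite_dvd h6).toFinset, fun v hv => ?_⟩
  rw [Set.Finite.mem_toFinset] at hv
  have hv6 : (6 : 𝓞 F) * W₀.Δ ∉ v.asIdeal := hv
  have h2 : (2 : 𝓞 F) ∉ v.asIdeal := fun h => hv6 (by
    have : (6 : 𝓞 F) * W₀.Δ = 3 * W₀.Δ * 2 := by ring
    rw [this]; exact Ideal.mul_mem_left _ _ h)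
  have h3 : (3 : 𝓞 F) ∉ v.asIdeal := fun h => hv6 (by
    have : (6 : 𝓞 F) * W₀.Δ = 2 * W₀.Δ * 3 := by ring
    rw [this]; exact Ideal.mul_mem_left _ _ h)
  have h5 : W₀.Δ ∉ v.asIdeal := fun h => hv6 (Ideal.mul_mem_left _ _ h)
  set σ : 𝓞 F →+* 𝓞 F := (RingOfIntegers.mapRingEquiv τ : 𝓞 F →+* 𝓞 F) with hσ
  have hσ2 : σ 2 = 2 := map_ofNat σ 2
  have hσ3 : σ 3 = 3 := map_ofNat σ 3
  have hmem : ∀ x : 𝓞 F, σ x ∈ (eqv63 τ v).asIdeal ↔ x ∈ v.asIdeal := mem_eqv63 τ v
  have hEτ : E.map (τ : F →+* F) =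
      C₀.map (τ : F →+* F) • (W₀.map σ).map (algebraMap (𝓞 F) F) := by
    rw [hE, ← map_variableChange, WeierstrassCurve.map_map, WeierstrassCurve.map_map]
    rfl
  rw [lp_of_good63 v W₀ C₀ hE h5 h2 h3,
    lp_of_good63 (eqv63 τ v) (W₀.map σ) (C₀.map (τ : F →+* F)) hEτ
      (by rw [map_Δ, hmem]; exact h5) (by rw [← hσ2, hmem]; exact h2)
      (by rw [← hσ3, hmem]; exact h3), nm_eqv63]
  obtain ⟨f, hf, hcomp⟩ := exists_residue_eqv63 τ v
  have hell : (W₀.map (red v)).IsElliptic := by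
    refine ⟨?_⟩
    rw [map_Δ]
    exact isUnit_iff_ne_zero.mpr fun h => h5 ((red_eq_zero_iff v _).mp h)
  have hcard := card_point_map (W₀.map (red v)) f hf
  rw [WeierstrassCurve.map_map, hcomp, ← WeierstrassCurve.map_map] at hcard
  rw [hcard]

/-- The normalised traces of the conjugate curve. -/
lemma cc_eqv63 {τ : F ≃+* F} {E E' : WeierstrassCurve F} {v : HeightOneSpectrum (𝓞 F)}
    (h : lp E' (eqv63 τ v) = lp E v) : cc E' (eqv63 τ v) = cc E v := by
  unfold cc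
  rw [tr, tr, h, nm_eqv63, pr_eqv63]

/-- The L-function of a conjugate curve. -/
theorem log_conj63 (E : WeierstrassCurve F) [E.IsElliptic] (τ : F ≃+* F) :
    ∃ C : ℝ, 0 ≤ C ∧ ∀ t δ : ℝ, 0 < δ →
      |Real.log ‖(E.map (τ : F →+* F)).LSeries ((3 / 2 + δ : ℝ) + t * Complex.I)‖ -
        Real.log ‖E.LSeries ((3 / 2 + δ : ℝ) + t * Complex.I)‖| ≤ C := by
  obtain ⟨S, hS⟩ := lp_conj63 τ E
  refine ⟨2 * RB F + 4 * S.card, add_nonneg (mul_nonneg (by norm_num) (RB_nonneg (K := F)))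
    (by positivity), fun t δ hδ => ?_⟩
  have h1 := log_norm_LSeries' (E.map (τ : F →+* F)) hδ t
  have h2 := log_norm_LSeries' E hδ t
  have hσ : 1 < 1 + δ := by linarith
  have hb : ∀ (V : WeierstrassCurve F) (v : HeightOneSpectrum (𝓞 F)),
      |cc V v * Real.cos (t * Real.log (nm v))| ≤ 2 := by
    intro V v
    rw [abs_mul]
    calc _ ≤ 2 * 1 := mul_le_mul (abs_cc_le _ v) (Real.abs_cos_le_one _) (abs_nonneg _)
          (by norm_num)
      _ = 2 := by norm_num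
  have h3 : ∑' v : HeightOneSpectrum (𝓞 F), wp (1 + δ) v *
      (cc (E.map (τ : F →+* F)) v * Real.cos (t * Real.log (nm v))) =
      ∑' v : HeightOneSpectrum (𝓞 F), wp (1 + δ) v *
      (cc (E.map (τ : F →+* F)) (eqv63 τ v) * Real.cos (t * Real.log (nm v))) := by
    rw [← Equiv.tsum_eq (eqv63 τ)]
    refine tsum_congr fun v => ?_
    rw [wp, wp, nm_eqv63]
  have hws := summable_wp (K := F) hσ
  have hs1 : Summable fun v : HeightOneSpectrum (𝓞 F) => wp (1 + δ) v *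
      (cc (E.map (τ : F →+* F)) (eqv63 τ v) * Real.cos (t * Real.log (nm v))) :=
    summable_mul_bdd hws (fun v => (wp_pos _ v).le) (B := 2) fun v => by
      have := hb (E.map (τ : F →+* F)) (eqv63 τ v)
      rwa [nm_eqv63] at this
  have hs2 : Summable fun v : HeightOneSpectrum (𝓞 F) => wp (1 + δ) v *
      (cc E v * Real.cos (t * Real.log (nm v))) :=
    summable_mul_bdd hws (fun v => (wp_pos _ v).le) (hb _)
  have h4 : |∑' v : HeightOneSpectrum (𝓞 F), wp (1 + δ) v *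
      (cc (E.map (τ : F →+* F)) (eqv63 τ v) * Real.cos (t * Real.log (nm v))) -
      ∑' v : HeightOneSpectrum (𝓞 F), wp (1 + δ) v *
      (cc E v * Real.cos (t * Real.log (nm v)))| ≤ 4 * S.card := by
    classical
    rw [← hs1.tsum_sub hs2, ← Real.norm_eq_abs]
    have hg : HasSum (fun v : HeightOneSpectrum (𝓞 F) => if v ∈ S then (4 : ℝ) else 0)
        (4 * S.card) := by
      have h8 : HasSum (fun v : HeightOneSpectrum (𝓞 F) => if v ∈ S then (4 : ℝ) else 0)
          (∑ v ∈ S, if v ∈ S then (4 : ℝ) else 0) :=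
        hasSum_sum_of_ne_finset_zero fun v hv => if_neg hv
      have h9 : ∑ v ∈ S, (if v ∈ S then (4 : ℝ) else 0) = 4 * S.card := by
        rw [Finset.sum_congr rfl fun v hv => if_pos hv, Finset.sum_const, nsmul_eq_mul, mul_comm]
      rwa [h9] at h8
    refine tsum_of_norm_bounded hg fun v => ?_
    rw [Real.norm_eq_abs, ← mul_sub, abs_mul, abs_of_pos (wp_pos _ v)]
    by_cases hv : v ∈ S
    · rw [if_pos hv]
      have h10 := wp_le_half hσ.le v
      have h11 := wp_pos (1 + δ) v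
      have h13 := hb (E.map (τ : F →+* F)) (eqv63 τ v)
      rw [nm_eqv63] at h13
      have h12 := (abs_sub _ _).trans (add_le_add h13 (hb E v))
      calc _ ≤ 1 / 2 * (2 + 2) := mul_le_mul h10 h12 (abs_nonneg _) (by norm_num)
        _ ≤ 4 := by norm_num
    · rw [if_neg hv, cc_eqv63 (hS v hv), sub_self, abs_zero, mul_zero]
  rw [h3] at h1
  have a1 := abs_le.mp h1
  have a2 := abs_le.mp h2
  have a3 := abs_le.mp h4
  rw [abs_le]
  constructor <;> linarith [a1.1, a1.2, a2.1, a2.2, a3.1, a3.2]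

end Good

/-- K1: the L-function of a conjugate curve. -/
theorem log_conj {K F : Type*} [Field K] [Field F] [NumberField F] [Algebra K F]
    (E : WeierstrassCurve F) [E.IsElliptic] (τ : Gal(F/K)) :
    ∃ C : ℝ, 0 ≤ C ∧ ∀ t δ : ℝ, 0 < δ →
      |Real.log ‖(E.map (τ : F →+* F)).LSeries ((3 / 2 + δ : ℝ) + t * Complex.I)‖ -
        Real.log ‖E.LSeries ((3 / 2 + δ : ℝ) + t * Complex.I)‖| ≤ C :=
  log_conj63 E (τ : F ≃+* F)

end Pool.Agent.Lib.MP_bf61d2_nt.Artin
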