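import Pool.Agent.Lib.MP_bf61d2_nt.Joint.Main
import Pool.Agent.Lib.MP_bf61d2_nt.Perm.Base

set_option autoImplicit false

/-!
The L-series of an elliptic curve over a quadratic extension is, up to a bounded factor in absolute
value, the product of the L-series of the curve and of its quadratic twist.
-/

namespace Pool.Agent.Lib.MP_bf61d2_nt.Artin

open NumberField IsDedekindDomain Filter Topology Polynomial Module WeierstrassCurve
open Pool.Agent.Lib.MP_bf61d2_nt.Perm

section

variable {K L : Type*} [Field K] [NumberField K] [Field L] [NumberField L] [Algebra K L]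

/-- The number of places of degree one above a place, for a quadratic extension. -/
lemma r1_quad [IsGalois K L] [FiniteDimensional K L]
    (hn : Module.finrank (𝓞 K) (𝓞 L) = 2)
    {e : 𝓞 K} {θ : 𝓞 L} (hθ : θ ^ 2 = algebraMap (𝓞 K) (𝓞 L) e)
    (hθK : (θ : L) ∉ (⊥ : IntermediateField K L))
    (v : HeightOneSpectrum (𝓞 K)) (h2 : (2 : 𝓞 K) ∉ v.asIdeal) (he : e ∉ v.asIdeal) :
    ((r1 L v : ℕ) : ℝ) = 1 + chi v e := by
  classical
  obtain ⟨T, hT, hcard⟩ := exists_fiber (L := L) hn v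
  rw [r1_eq_card v T hT]
  have hv1 := one_lt_nm v
  rcases chi_eq_one_or v he with hchi | hchi
  · obtain ⟨w₁, w₂, hne, hw₁, hw₂⟩ := exists_two_above hθ hθK v h2 he hchi
    have hTeq : T = {w₁, w₂} := by
      symm
      refine Finset.eq_of_subset_of_card_le ?_ ?_
      · intro w hw
        rw [Finset.mem_insert, Finset.mem_singleton] at hw
        rcases hw with rfl | rfl
        · exact (hT _).mpr hw₁
        · exact (hT _).mpr hw₂
      · rw [Finset.card_pair hne]; exact hcard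
    have hprod := prod_nm_dvd (K := K) v {w₁, w₂} (by
      intro w hw
      rw [Finset.mem_insert, Finset.mem_singleton] at hw
      rcases hw with rfl | rfl
      · exact hw₁
      · exact hw₂)
    rw [hn, Finset.prod_pair hne] at hprod
    have hle := Nat.le_of_dvd (pow_pos (by omega) _) hprod
    have h1 : nm v ≤ nm w₁ := by rw [← hw₁]; exact nm_dn_le w₁
    have h3 : nm v ≤ nm w₂ := by rw [← hw₂]; exact nm_dn_le w₂
    have h4 : nm w₁ = nm v := by nlinarith
    have h5 : nm w₂ = nm v := by nlinarith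
    have hf : (T.filter fun w => nm w = nm v) = {w₁, w₂} := by
      rw [hTeq]
      refine Finset.filter_true_of_mem fun w hw => ?_
      rw [Finset.mem_insert, Finset.mem_singleton] at hw
      rcases hw with rfl | rfl
      · exact h4
      · exact h5
    rw [hf, Finset.card_pair hne, hchi]
    norm_num
  · have hf : (T.filter fun w => nm w = nm v) = ∅ := by
      refine Finset.filter_false_of_mem fun w hw h => ?_
      have hwv : dn (K := K) w = v := (hT w).mp hw
      have h6 := chi_of_degree_one hθ w (by rw [hwv]; exact he) (by rw [hwv]; exact h)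
      rw [hwv, hchi] at h6
      norm_num at h6
    rw [hf, Finset.card_empty, hchi]
    norm_num

/-- The twist by one is a change of variables. -/
lemma qt_one (E : WeierstrassCurve K) :
    qt E 1 = (⟨1, 0, -E.a₁ / 2, -E.a₃ / 2⟩ : VariableChange K) • E := by
  rw [variableChange_def]
  ext
  · simp only [qt, Units.val_inv_eq_inv_val, Units.val_one]
    field_simp
    ring
  · simp only [qt, Units.val_inv_eq_inv_val, Units.val_one, b₂]
    field_simp
    ring
  · simp only [qt, Units.val_inv_eq_inv_val, Units.val_one]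
    field_simp
    ring
  · simp only [qt, Units.val_inv_eq_inv_val, Units.val_one, b₄]
    field_simp
    ring
  · simp only [qt, Units.val_inv_eq_inv_val, Units.val_one, b₆]
    field_simp
    ring

/-- The traces of the quadratic twist away from finitely many places. -/
lemma exists_cc_qt (E : WeierstrassCurve K) [E.IsElliptic] {d : K} {e m : 𝓞 K} (he0 : e ≠ 0)
    (hm0 : m ≠ 0) (hd : d * (m : K) ^ 2 = e) :
    ∃ S : Finset (HeightOneSpectrum (𝓞 K)), ∀ v, v ∉ S →
      (2 : 𝓞 K) ∉ v.asIdeal ∧ e ∉ v.asIdeal ∧ cc (qt E d) v = chi v e * cc E v := by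
  classical
  set a : K := -E.c₄ / 48 with ha0
  set b : K := -E.c₆ / 864 with hb0
  have hab : 4 * a ^ 3 + 27 * b ^ 2 ≠ 0 := by
    intro h
    have h1 : E.Δ ≠ 0 := E.isUnit_Δ.ne_zero
    have h2 := E.c_relation
    have h3 : 4 * a ^ 3 + 27 * b ^ 2 = -(1728 * E.Δ) / 27648 := by
      rw [h2, ha0, hb0]; ring
    rw [h3] at h
    apply h1
    have h5 : 1728 * E.Δ = 0 := by linear_combination (-27648) * h
    rcases mul_eq_zero.mp h5 with h6 | h6
    · norm_num at h6
    · exact h6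
  obtain ⟨A, B, n, hn0, ha, hb⟩ := exists_model a b
  have hn : (n : K) ≠ 0 := by simpa using hn0
  have hm : (m : K) ≠ 0 := by simpa using hm0
  set W : WeierstrassCurve K := tc a b 1 with hW
  set V₀ : WeierstrassCurve (𝓞 K) := ⟨0, 0, 0, A, B⟩ with hV₀
  have hWeq : W = (⟨Units.mk0 ((n : K) * (1 : 𝓞 K)) (mul_ne_zero hn (by simp)), 0, 0, 0⟩ :
      VariableChange K) • V₀.map (algebraMap (𝓞 K) K) := by
    have h := tc_eq (a := a) (b := b) (d := 1) (e := 1) (m := 1) hn (by simp) ha hb (by simp)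
    rw [hW, h]
    simp only [one_pow, mul_one]
    rfl
  obtain ⟨C, hE⟩ : ∃ C : VariableChange K, E = C • V₀.map (algebraMap (𝓞 K) K) := by
    refine ⟨(⟨1, 0, -E.a₁ / 2, -E.a₃ / 2⟩ : VariableChange K)⁻¹ *
      (⟨1, 1 * E.b₂ / 12, 0, 0⟩ : VariableChange K) *
      ⟨Units.mk0 ((n : K) * (1 : 𝓞 K)) (mul_ne_zero hn (by simp)), 0, 0, 0⟩, ?_⟩
    rw [mul_smul, mul_smul, ← hWeq, eq_inv_smul_iff, ← qt_one, qt_eq]
  have hΔ0 : V₀.Δ ≠ 0 := by
    intro h0
    apply hab
    have h1 : V₀.Δ = -16 * (4 * A ^ 3 + 27 * B ^ 2) := by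
      simp only [hV₀, Δ, b₂, b₄, b₆, b₈]
      ring
    rw [h1] at h0
    have h2 : (4 * A ^ 3 + 27 * B ^ 2 : 𝓞 K) = 0 := by
      rcases mul_eq_zero.mp h0 with h | h
      · norm_num at h
      · exact h
    have h3 := congrArg (algebraMap (𝓞 K) K) h2
    rw [map_add, map_mul, map_mul, map_pow, map_pow, map_ofNat, map_ofNat, map_zero] at h3
    have h4 : 4 * (a * (n : K) ^ 4) ^ 3 + 27 * (b * (n : K) ^ 6) ^ 2 = 0 := by
      rw [ha, hb]; exact h3
    have h5 : (4 * a ^ 3 + 27 * b ^ 2) * (n : K) ^ 12 = 0 := by linear_combination h4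
    rcases mul_eq_zero.mp h5 with h | h
    · exact h
    · exact absurd h (pow_ne_zero _ hn)
  have h60 : (6 : 𝓞 K) * e * V₀.Δ ≠ 0 := mul_ne_zero (mul_ne_zero (by norm_num) he0) hΔ0
  refine ⟨(finite_dvd h60).toFinset, fun v hvS => ?_⟩
  rw [Set.Finite.mem_toFinset] at hvS
  have hv : (6 : 𝓞 K) * e * V₀.Δ ∉ v.asIdeal := hvS
  have h2 : (2 : 𝓞 K) ∉ v.asIdeal := fun h => hv (by
    have : (6 : 𝓞 K) * e * V₀.Δ = 3 * e * V₀.Δ * 2 := by ring
    rw [this]; exact Ideal.mul_mem_left _ _ h)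
  have h3 : (3 : 𝓞 K) ∉ v.asIdeal := fun h => hv (by
    have : (6 : 𝓞 K) * e * V₀.Δ = 2 * e * V₀.Δ * 3 := by ring
    rw [this]; exact Ideal.mul_mem_left _ _ h)
  have h4 : e ∉ v.asIdeal := fun h => hv (by
    have : (6 : 𝓞 K) * e * V₀.Δ = 6 * V₀.Δ * e := by ring
    rw [this]; exact Ideal.mul_mem_left _ _ h)
  have h5 : V₀.Δ ∉ v.asIdeal := fun h => hv (Ideal.mul_mem_left _ _ h)
  have hmod : qt E d = ((⟨1, d * E.b₂ / 12, 0, 0⟩ : VariableChange K) *
      (⟨Units.mk0 ((n : K) * m) (mul_ne_zero hn hm), 0, 0, 0⟩ :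
        VariableChange K)) •
      (⟨0, 0, 0, A * e ^ 2, B * e ^ 3⟩ : WeierstrassCurve (𝓞 K)).map
        (algebraMap (𝓞 K) K) := by
    rw [mul_smul, ← tc_eq hn hm ha hb hd]
    exact qt_eq E d
  exact ⟨h2, h4, cc_eq_of_tr (tr_twist v _ _ hE hmod h5 h4 h2 h3)⟩

end

/-- The L-series over a quadratic extension. -/
theorem log_quadratic {F : Type*} [Field F] [NumberField F] (E : WeierstrassCurve F) [E.IsElliptic]
    {d : F} (hd : ¬ IsSquare d) (L : Type*) [Field L] [NumberField L] [Algebra F L]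
    (hL : finrank F L = 2) {θ : L} (hθ : θ ^ 2 = algebraMap F L d) (t : ℝ) :
    ∃ C : ℝ, 0 ≤ C ∧ ∀ δ : ℝ, 0 < δ →
      |Real.log ‖(qt E d).LSeries ((3 / 2 + δ : ℝ) + t * Complex.I)‖ -
        (Real.log ‖(E.baseChange L).LSeries ((3 / 2 + δ : ℝ) + t * Complex.I)‖ -
          Real.log ‖E.LSeries ((3 / 2 + δ : ℝ) + t * Complex.I)‖)| ≤ C := by
  classical
  have hd0 : d ≠ 0 := by
    rintro rfl
    exact hd ⟨0, by simp⟩
  obtain ⟨e, m, he0, hm0, hem⟩ := exists_sqrep hd0
  have hm : (m : F) ≠ 0 := by simpa using hm0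
  obtain ⟨S, hS⟩ := exists_cc_qt E he0 hm0 hem
  have hfd : FiniteDimensional F L := Module.Finite.of_restrictScalars_finite ℚ F L
  have hquad : Algebra.IsQuadraticExtension F L := ⟨hL⟩
  have hn : Module.finrank (𝓞 F) (𝓞 L) = 2 :=
    (IsFractionRing.finrank_eq (𝓞 F) F (𝓞 L) L).symm.trans hL
  have hθ₀sq : (θ * algebraMap F L (m : F)) ^ 2 = algebraMap F L (e : F) := by
    rw [mul_pow, hθ, ← map_pow, ← map_mul, hem]
  have hint : IsIntegral ℤ (θ * algebraMap F L (m : F)) := by
    refine IsIntegral.of_pow (n := 2) (by norm_num) ?_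
    rw [hθ₀sq]
    exact (RingOfIntegers.isIntegral_coe e).algebraMap
  set θ' : 𝓞 L := ⟨θ * algebraMap F L (m : F), hint⟩ with hθ'
  have hcoe : (θ' : L) = θ * algebraMap F L (m : F) := rfl
  have hθ'sq : θ' ^ 2 = algebraMap (𝓞 F) (𝓞 L) e := by
    apply RingOfIntegers.coe_injective
    rw [map_pow]
    exact hθ₀sq
  have hθK : (θ' : L) ∉ (⊥ : IntermediateField F L) := by
    rw [hcoe, IntermediateField.mem_bot]
    rintro ⟨y, hy⟩
    apply hd
    refine ⟨y / m, (algebraMap F L).injective ?_⟩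
    have hmL : algebraMap F L (m : F) ≠ 0 := by simpa using hm
    rw [← hθ, map_mul, map_div₀, hy]
    field_simp
  have hr1 : ∀ v, v ∉ S → ((r1 L v : ℕ) : ℝ) = 1 + chi v e := fun v hv =>
    r1_quad hn hθ'sq hθK v (hS v hv).1 (hS v hv).2.1
  obtain ⟨R, hR⟩ := log_baseChange E L t
  refine ⟨|R| + 2 * RB F + 4 * S.card, add_nonneg (add_nonneg (abs_nonneg _)
    (mul_nonneg (by norm_num) (RB_nonneg (K := F)))) (by positivity), fun δ hδ => ?_⟩
  have h1 := hR δ hδ
  have h2 := log_norm_LSeries' (qt E d) hδ t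
  have h3 := log_norm_LSeries' E hδ t
  have hσ1 : 1 < 1 + δ := by linarith
  have hws := summable_wp (K := F) hσ1
  have hb : ∀ (V : WeierstrassCurve F) (v : HeightOneSpectrum (𝓞 F)),
      |cc V v * Real.cos (t * Real.log (nm v))| ≤ 2 := by
    intro V v
    rw [abs_mul]
    calc _ ≤ 2 * 1 := mul_le_mul (abs_cc_le _ v) (Real.abs_cos_le_one _) (abs_nonneg _)
          (by norm_num)
      _ = 2 := by norm_num
  have hr2 : ∀ v : HeightOneSpectrum (𝓞 F), ((r1 L v : ℕ) : ℝ) ≤ 2 := by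
    intro v
    have := r1_le (L := L) v
    rw [hn] at this
    exact_mod_cast this
  have hb2 : ∀ v : HeightOneSpectrum (𝓞 F),
      |((r1 L v : ℕ) : ℝ) * (cc E v * Real.cos (t * Real.log (nm v)))| ≤ 4 := by
    intro v
    rw [abs_mul, Nat.abs_cast]
    calc _ ≤ 2 * 2 := mul_le_mul (hr2 v) (hb E v) (abs_nonneg _) (by norm_num)
      _ = 4 := by norm_num
  have hs1 : Summable fun v : HeightOneSpectrum (𝓞 F) => wp (1 + δ) v *
      (cc (qt E d) v * Real.cos (t * Real.log (nm v))) :=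
    summable_mul_bdd hws (fun v => (wp_pos _ v).le) (hb _)
  have hs2 : Summable fun v : HeightOneSpectrum (𝓞 F) => wp (1 + δ) v *
      (((r1 L v : ℕ) : ℝ) * (cc E v * Real.cos (t * Real.log (nm v)))) :=
    summable_mul_bdd hws (fun v => (wp_pos _ v).le) hb2
  have hs3 : Summable fun v : HeightOneSpectrum (𝓞 F) => wp (1 + δ) v *
      (cc E v * Real.cos (t * Real.log (nm v))) :=
    summable_mul_bdd hws (fun v => (wp_pos _ v).le) (hb _)
  have h7 : |∑' v : HeightOneSpectrum (𝓞 F), wp (1 + δ) v *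
      (cc (qt E d) v * Real.cos (t * Real.log (nm v))) -
      (∑' v : HeightOneSpectrum (𝓞 F), wp (1 + δ) v *
        (((r1 L v : ℕ) : ℝ) * (cc E v * Real.cos (t * Real.log (nm v)))) -
      ∑' v : HeightOneSpectrum (𝓞 F), wp (1 + δ) v *
        (cc E v * Real.cos (t * Real.log (nm v))))| ≤ 4 * S.card := by
    rw [← hs2.tsum_sub hs3, ← hs1.tsum_sub (hs2.sub hs3), ← Real.norm_eq_abs]
    have hg : HasSum (fun v : HeightOneSpectrum (𝓞 F) => if v ∈ S then (4 : ℝ) else 0)
        (4 * S.card) := by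
      have h8 : HasSum (fun v : HeightOneSpectrum (𝓞 F) => if v ∈ S then (4 : ℝ) else 0)
        (∑ v ∈ S, if v ∈ S then (4 : ℝ) else 0) :=
        hasSum_sum_of_ne_finset_zero fun v hv => if_neg hv
      have h9 : ∑ v ∈ S, (if v ∈ S then (4 : ℝ) else 0) = 4 * S.card := by
        rw [Finset.sum_congr rfl fun v hv => if_pos hv, Finset.sum_const, nsmul_eq_mul,
          mul_comm]
      rwa [h9] at h8
    refine tsum_of_norm_bounded hg fun v => ?_
    rw [Real.norm_eq_abs]
    by_cases hv : v ∈ S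
    · rw [if_pos hv]
      have h10 := wp_le_half hσ1.le v
      have h11 := wp_pos (1 + δ) v
      have h12 : |cc (qt E d) v * Real.cos (t * Real.log (nm v)) -
          (((r1 L v : ℕ) : ℝ) * (cc E v * Real.cos (t * Real.log (nm v))) -
            cc E v * Real.cos (t * Real.log (nm v)))| ≤ 8 := by
        refine (abs_sub _ _).trans ?_
        have h13 := (abs_sub (((r1 L v : ℕ) : ℝ) * (cc E v * Real.cos (t * Real.log (nm v))))
          (cc E v * Real.cos (t * Real.log (nm v))))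
        linarith [hb (qt E d) v, hb E v, hb2 v]
      rw [← mul_sub, ← mul_sub, abs_mul, abs_of_pos h11]
      calc _ ≤ 1 / 2 * 8 := mul_le_mul h10 h12 (abs_nonneg _) (by norm_num)
        _ = 4 := by norm_num
    · rw [if_neg hv, (hS v hv).2.2, hr1 v hv]
      have : wp (1 + δ) v * ((chi v e : ℝ) * cc E v * Real.cos (t * Real.log (nm v))) -
          (wp (1 + δ) v * ((1 + (chi v e : ℝ)) * (cc E v * Real.cos (t * Real.log (nm v)))) -
          wp (1 + δ) v * (cc E v * Real.cos (t * Real.log (nm v)))) = 0 := by ring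
      rw [this, abs_zero]
  have hRR := le_abs_self R
  have h1' := abs_le.mp h1
  have h2' := abs_le.mp h2
  have h3' := abs_le.mp h3
  have h7' := abs_le.mp h7
  rw [abs_le]
  constructor <;> linarith [h1'.1, h1'.2, h2'.1, h2'.2, h3'.1, h3'.2, h7'.1, h7'.2]

end Pool.Agent.Lib.MP_bf61d2_nt.Artin
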