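import Pool.Agent.Lib.MP_bf61d2_nt.Artin.ZA69

set_option autoImplicit false

/-!
Module ZB (EDGE REPULSION, MP_bf61d2_nt): the sum over the ideals `I` of `f (N I) (N I) ^ (-s)`,
`f` an even function on the residues mod `m`, continues to a half plane `Re s > 1 - η`, with at
most a simple pole at `s = 1`, and is of polynomial growth there.
-/

namespace Pool.Agent.Lib.MP_bf61d2_nt.Artin.ZB69

open NumberField NumberField.mixedEmbedding NumberField.Units NumberField.InfinitePlace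
open Module Filter Topology
open Pool.Agent.Lib.MP_bf61d2_nt.Zeta
open Pool.Agent.Lib.MP_bf61d2_nt.Artin.Z69
open scoped Classical nonZeroDivisors

/-- The factor `1 - (k + 1) ^ (n (1 - s))`. -/
noncomputable def qk (K : Type*) [Field K] [NumberField K] (k : ℕ) (s : ℂ) : ℂ :=
  1 - ((k + 1 : ℕ) : ℂ) ^ finrank ℚ K * Zeta.fac K (k + 1) s

/-- The factor with the zero at `1` removed. -/
noncomputable def Qk (K : Type*) [Field K] [NumberField K] (k : ℕ) : ℂ → ℂ := dslope (qk K k) 1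

section

variable (K : Type*) [Field K] [NumberField K]

lemma qk_eq (k : ℕ) (s : ℂ) : qk K k s =
    1 - Complex.exp (-((s - 1) * (finrank ℚ K * Real.log (k + 1 : ℕ) : ℝ))) := by
  rw [qk, den_eq K (k + 1) (Nat.succ_ne_zero k)]

lemma qk_one (k : ℕ) : qk K k 1 = 0 := by
  rw [qk_eq]; simp

lemma differentiable_qk (k : ℕ) : Differentiable ℂ (qk K k) := differentiable_den K (k + 1)

lemma differentiable_Qk (k : ℕ) : Differentiable ℂ (Qk K k) := by
  have h1 : DifferentiableOn ℂ (dslope (qk K k) 1) Set.univ :=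
    (Complex.differentiableOn_dslope Filter.univ_mem).mpr (differentiable_qk K k).differentiableOn
  exact differentiableOn_univ.mp h1

lemma mul_Qk (k : ℕ) (s : ℂ) : (s - 1) * Qk K k s = qk K k s := by
  have h3 : (s - 1) • dslope (qk K k) 1 s = qk K k s - qk K k 1 := sub_smul_dslope (qk K k) 1 s
  rw [qk_one, sub_zero, smul_eq_mul] at h3
  exact h3

/-- `n log 2`. -/
noncomputable def L2 : ℝ := finrank ℚ K * Real.log (1 + 1 : ℕ)

lemma L2_pos : 0 < L2 K := by
  have hn : (0 : ℝ) < finrank ℚ K := by exact_mod_cast finrank_pos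
  have h : 0 < Real.log ((1 + 1 : ℕ) : ℝ) := Real.log_pos (by norm_num)
  exact mul_pos hn h

lemma norm_w (s : ℂ) : ‖Complex.exp (-((s - 1) * (L2 K : ℝ)))‖ =
    Real.exp (-((s.re - 1) * L2 K)) := by
  rw [Complex.norm_exp]
  congr 1
  rw [Complex.neg_re, Complex.re_mul_ofReal, Complex.sub_re, Complex.one_re]

lemma q1_eq (s : ℂ) : qk K 1 s = 1 - Complex.exp (-((s - 1) * (L2 K : ℝ))) := qk_eq K 1 s

lemma exists_k (s : ℂ) : ∃ k, Qk K k s ≠ 0 := by
  by_cases h1 : s = 1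
  · refine ⟨1, ?_⟩
    rw [h1, Qk, dslope_same]
    have h2 : HasDerivAt (fun s : ℂ => 1 - Complex.exp (-((s - 1) * (L2 K : ℝ))))
      (-(Complex.exp (-(((1 : ℂ) - 1) * (L2 K : ℝ))) * (-(1 * (L2 K : ℝ))))) 1 :=
        (((((hasDerivAt_id (1 : ℂ)).sub_const 1).mul_const _).neg).cexp).const_sub 1
    have h3 : qk K 1 = fun s : ℂ => 1 - Complex.exp (-((s - 1) * (L2 K : ℝ))) :=
      funext (q1_eq K)
    rw [h3, h2.deriv]
    simp [(L2_pos K).ne']
  · suffices h : ∃ k, qk K k s ≠ 0 by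
      obtain ⟨k, hk⟩ := h
      refine ⟨k, fun h => hk ?_⟩
      rw [← mul_Qk, h, mul_zero]
    by_cases h2 : s.re = 1
    · have hu : s.im ≠ 0 := fun h => h1 (Complex.ext (by simpa using h2) (by simpa using h))
      obtain ⟨m, hm0, hm⟩ := exists_m K hu
      obtain ⟨k, rfl⟩ := Nat.exists_eq_succ_of_ne_zero hm0
      refine ⟨k, ?_⟩
      have hs : s = 1 + s.im * Complex.I := Complex.ext (by simp [h2]) (by simp)
      rw [hs, qk, sub_ne_zero]
      exact hm.symm
    · refine ⟨1, ?_⟩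
      rw [q1_eq, sub_ne_zero]
      intro h
      have h3 := norm_w K s
      rw [← h, norm_one] at h3
      have h4 := (Real.exp_eq_one_iff _).mp h3.symm
      rw [neg_eq_zero, mul_eq_zero] at h4
      rcases h4 with h4 | h4
      · exact h2 (by linarith)
      · exact (L2_pos K).ne' h4

/-- Lower bounds for the factor on the sides of a rectangle. -/
lemma norm_q_horizontal {s : ℂ} {j : ℤ} (h : s.im * L2 K = (2 * j + 1) * Real.pi) :
    1 ≤ ‖qk K 1 s‖ := by
  rw [q1_eq]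
  have e : -((s - 1) * (L2 K : ℂ)) = ((-((s.re - 1) * L2 K) : ℝ) : ℂ) +
      (-(Real.pi * Complex.I) + ((-j : ℤ) : ℂ) * (2 * Real.pi * Complex.I)) := by
    have h2 : (s.im : ℂ) * (L2 K : ℂ) = (2 * j + 1) * Real.pi := by exact_mod_cast h
    have h3 : s = s.re + s.im * Complex.I := (Complex.re_add_im s).symm
    have h4 : -((s - 1) * (L2 K : ℂ)) = -(((s.re : ℂ) - 1) * L2 K) -
        ((s.im : ℂ) * L2 K) * Complex.I := by
      conv_lhs => rw [h3]
      ring
    rw [h4, h2]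
    push_cast
    ring
  rw [e, Complex.exp_add, Complex.exp_add, Complex.exp_int_mul_two_pi_mul_I, mul_one,
    Complex.exp_neg, Complex.exp_pi_mul_I, ← Complex.ofReal_exp]
  set r : ℝ := Real.exp (-((s.re - 1) * L2 K)) with hr
  have hr0 : 0 < r := Real.exp_pos _
  have e2 : (1 : ℂ) - (r : ℂ) * (-1)⁻¹ = ((1 + r : ℝ) : ℂ) := by
    push_cast
    norm_num
  rw [e2, Complex.norm_real, Real.norm_eq_abs, abs_of_pos (by linarith)]
  linarith

lemma norm_q_left {s : ℂ} : Real.exp ((1 - s.re) * L2 K) - 1 ≤ ‖qk K 1 s‖ := by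
  rw [q1_eq]
  have h := norm_sub_norm_le (Complex.exp (-((s - 1) * (L2 K : ℝ)))) 1
  rw [norm_w, norm_one, norm_sub_rev] at h
  have e : -((s.re - 1) * L2 K) = (1 - s.re) * L2 K := by ring
  rwa [e] at h

lemma norm_q_right {s : ℂ} : 1 - Real.exp (-((s.re - 1) * L2 K)) ≤ ‖qk K 1 s‖ := by
  rw [q1_eq]
  have h := norm_sub_norm_le 1 (Complex.exp (-((s - 1) * (L2 K : ℝ))))
  rwa [norm_w, norm_one] at h

lemma isOpen_half (a : ℝ) : IsOpen {s : ℂ | a < s.re} :=
  isOpen_lt continuous_const Complex.continuous_re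

lemma isPreconnected_half (a : ℝ) : IsPreconnected {s : ℂ | a < s.re} :=
  (convex_halfSpace_re_gt a).isPreconnected

/-- The abstract continuation. -/
theorem exists_cont {a : ℝ} (ha : a < 1) (D : ℕ → ℂ → ℂ) (Z : ℂ → ℂ)
    (hD : ∀ k, DifferentiableOn ℂ (D k) {s | a < s.re})
    (hZ : ∀ k s, 1 < s.re → qk K k s * Z s = D k s) :
    ∃ H : ℂ → ℂ, DifferentiableOn ℂ H {s | a < s.re} ∧
      (∀ s, 1 < s.re → H s = (s - 1) * Z s) ∧
      ∀ k s, a < s.re → H s * Qk K k s = D k s := by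
  have hQ : ∀ k, DifferentiableOn ℂ (Qk K k) {s | a < s.re} := fun k =>
    (differentiable_Qk K k).differentiableOn
  have hid : ∀ k l, Set.EqOn (fun s => D k s * Qk K l s) (fun s => D l s * Qk K k s)
      {s | a < s.re} := by
    intro k l
    refine AnalyticOnNhd.eqOn_of_preconnected_of_eventuallyEq (z₀ := 2)
      (((hD k).mul (hQ l)).analyticOnNhd (isOpen_half a))
      (((hD l).mul (hQ k)).analyticOnNhd (isOpen_half a)) (isPreconnected_half a) ?_ ?_
    · show a < (2 : ℂ).re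
      simp
      linarith
    · filter_upwards [(isOpen_half 1).mem_nhds (show (2 : ℂ) ∈ {s : ℂ | 1 < s.re} by simp)] with s hs
      rw [← hZ k s hs, ← hZ l s hs, ← mul_Qk K k, ← mul_Qk K l]
      ring
  choose κ hκ using exists_k K
  have hH : ∀ k s, a < s.re → D (κ s) s / Qk K (κ s) s * Qk K k s = D k s := by
    intro k s hs
    have h := hid (κ s) k hs
    simp only at h
    rw [div_mul_eq_mul_div, h, mul_div_assoc, div_self (hκ s), mul_one]
  refine ⟨fun s => D (κ s) s / Qk K (κ s) s, ?_, ?_, hH⟩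
  · intro s₀ hs₀
    have h1 : ∀ᶠ s in 𝓝 s₀, Qk K (κ s₀) s ≠ 0 :=
      ((differentiable_Qk K (κ s₀)).continuous.continuousAt).eventually_ne (hκ s₀)
    have h2 : (fun s => D (κ s) s / Qk K (κ s) s) =ᶠ[𝓝 s₀]
        fun s => D (κ s₀) s / Qk K (κ s₀) s := by
      filter_upwards [h1, (isOpen_half a).mem_nhds hs₀] with s hs hs'
      rw [eq_div_iff hs]
      exact hH (κ s₀) s hs'
    have h3 : DifferentiableAt ℂ (fun s => D (κ s₀) s / Qk K (κ s₀) s) s₀ :=
      ((hD (κ s₀)).differentiableAt ((isOpen_half a).mem_nhds hs₀)).div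
        (differentiable_Qk K (κ s₀) s₀) (hκ s₀)
    exact (h3.congr_of_eventuallyEq h2).differentiableWithinAt
  · intro s hs
    simp only
    rw [div_eq_iff (hκ s), ← hZ (κ s) s hs, ← mul_Qk K (κ s)]
    ring

/-- The polynomial bound. -/
theorem exists_cont_bound {a b : ℝ} (ha : a < b) (hb : b < 1) (hb0 : 0 < b) {D H : ℂ → ℂ}
    (hH : DifferentiableOn ℂ H {s | a < s.re})
    (hQ : ∀ s, a < s.re → H s * Qk K 1 s = D s) {C : ℝ} (hC : 0 < C) {k : ℕ}
    (hD : ∀ s, a < s.re → ‖D s‖ ≤ C * (1 + ‖s‖) ^ k) :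
    ∃ A : ℝ, 0 < A ∧ ∀ s : ℂ, b ≤ s.re → s.re ≤ 2 → ‖H s‖ ≤ A * (1 + |s.im|) ^ (k + 1) := by
  have hL := L2_pos K
  set L := L2 K with hLdef
  have hc1 : 0 < Real.exp ((1 - b) * L) - 1 := by
    have : 0 < (1 - b) * L := mul_pos (by linarith) hL
    linarith [Real.add_one_lt_exp this.ne']
  have hc2 : 0 < 1 - Real.exp (-((2 - 1) * L)) := by
    have : Real.exp (-((2 - 1) * L)) < Real.exp 0 := Real.exp_lt_exp.mpr (by linarith)
    rw [Real.exp_zero] at this
    linarith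
  obtain ⟨c, hc0, hcl', hcr, hch⟩ : ∃ c : ℝ, 0 < c ∧ c ≤ Real.exp ((1 - b) * L) - 1 ∧
      c ≤ 1 - Real.exp (-((2 - 1) * L)) ∧ c ≤ 1 :=
    ⟨min (min (Real.exp ((1 - b) * L) - 1) (1 - Real.exp (-((2 - 1) * L)))) 1,
      lt_min (lt_min hc1 hc2) one_pos, (min_le_left _ _).trans (min_le_left _ _),
      (min_le_left _ _).trans (min_le_right _ _), min_le_right _ _⟩
  have hkey : ∀ s : ℂ, a < s.re → c ≤ ‖qk K 1 s‖ → ‖H s‖ ≤ C / c * (1 + ‖s‖) ^ (k + 1) := by
    intro s hs hcs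
    have h1 : H s * qk K 1 s = (s - 1) * D s := by
      rw [← hQ s hs, ← mul_Qk]
      ring
    have h2 : ‖H s‖ * ‖qk K 1 s‖ = ‖s - 1‖ * ‖D s‖ := by
      rw [← norm_mul, h1, norm_mul]
    have h3 : ‖s - 1‖ ≤ 1 + ‖s‖ := by
      have := norm_sub_le s 1
      rw [norm_one] at this
      linarith
    have h4 : ‖s - 1‖ * ‖D s‖ ≤ (1 + ‖s‖) * (C * (1 + ‖s‖) ^ k) :=
      mul_le_mul h3 (hD s hs) (norm_nonneg _) (by positivity)
    have h5 : ‖H s‖ * c ≤ C * (1 + ‖s‖) ^ (k + 1) := by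
      calc ‖H s‖ * c ≤ ‖H s‖ * ‖qk K 1 s‖ := mul_le_mul_of_nonneg_left hcs (norm_nonneg _)
        _ ≤ (1 + ‖s‖) * (C * (1 + ‖s‖) ^ k) := by rw [h2]; exact h4
        _ = _ := by ring
    rw [div_mul_eq_mul_div, le_div_iff₀ hc0]
    exact h5
  set W : ℝ := 3 + 2 * Real.pi / L with hW
  have hW0 : 3 ≤ W := by
    have : 0 ≤ 2 * Real.pi / L := by positivity
    linarith
  refine ⟨C / c * W ^ (k + 1), by positivity, fun s hs1 hs2 => ?_⟩
  set j : ℤ := round (s.im * L / (2 * Real.pi)) with hj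
  set τ : ℝ := 2 * Real.pi * j / L with hτ
  have hpi := Real.pi_pos
  have hsτ : |s.im - τ| ≤ Real.pi / L := by
    have h1 := abs_sub_round (s.im * L / (2 * Real.pi))
    rw [← hj] at h1
    have h2 : s.im - τ = (s.im * L / (2 * Real.pi) - j) * (2 * Real.pi / L) := by
      rw [hτ]; field_simp
    rw [h2, abs_mul, abs_of_pos (show 0 < 2 * Real.pi / L by positivity)]
    calc _ ≤ 1 / 2 * (2 * Real.pi / L) := mul_le_mul_of_nonneg_right h1 (by positivity)
      _ = Real.pi / L := by ring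
  have hb2 : b < 2 := by linarith
  have hττ : τ - Real.pi / L < τ + Real.pi / L := by
    have : 0 < Real.pi / L := by positivity
    linarith
  set U : Set ℂ := Set.Ioo b 2 ×ℂ Set.Ioo (τ - Real.pi / L) (τ + Real.pi / L) with hU
  have hcl : closure U = Set.Icc b 2 ×ℂ Set.Icc (τ - Real.pi / L) (τ + Real.pi / L) := by
    rw [hU, Complex.closure_reProdIm, closure_Ioo hb2.ne, closure_Ioo hττ.ne]
  have hsU : s ∈ closure U := by
    rw [hcl, Complex.mem_reProdIm]
    have := abs_le.mp hsτ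
    exact ⟨⟨hs1, hs2⟩, by linarith, by linarith⟩
  have hsub : closure U ⊆ {z : ℂ | a < z.re} := by
    rw [hcl]
    intro z hz
    rw [Complex.mem_reProdIm] at hz
    exact lt_of_lt_of_le ha hz.1.1
  have hbd : Bornology.IsBounded U :=
    (Metric.isBounded_Ioo _ _).reProdIm (Metric.isBounded_Ioo _ _)
  have hdc : DiffContOnCl ℂ H U :=
    ⟨hH.mono (subset_closure.trans hsub), hH.continuousOn.mono hsub⟩
  have hnorm : ∀ z ∈ closure U, 1 + ‖z‖ ≤ W * (1 + |s.im|) := by
    intro z hz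
    rw [hcl, Complex.mem_reProdIm] at hz
    have h1 := Complex.norm_le_abs_re_add_abs_im z
    have h2 : |z.re| ≤ 2 := abs_le.mpr ⟨by linarith [hz.1.1], hz.1.2⟩
    have h3 : |z.im - s.im| ≤ 2 * Real.pi / L := by
      have h4 := abs_le.mp hsτ
      have h5 : 2 * Real.pi / L = Real.pi / L + Real.pi / L := by ring
      rw [abs_le, h5]
      exact ⟨by linarith [hz.2.1], by linarith [hz.2.2]⟩
    have h4 : |z.im| ≤ |s.im| + 2 * Real.pi / L := by
      have h5 : z.im = s.im + (z.im - s.im) := by ring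
      rw [h5]
      exact (abs_add_le _ _).trans (by linarith)
    have h6 : 0 ≤ |s.im| := abs_nonneg _
    have h7 : 0 ≤ (W - 1) * |s.im| := mul_nonneg (by linarith) h6
    calc 1 + ‖z‖ ≤ W + |s.im| := by rw [hW]; linarith
      _ ≤ W * (1 + |s.im|) := by linarith
  have hfr : ∀ z ∈ frontier U, ‖H z‖ ≤ C / c * W ^ (k + 1) * (1 + |s.im|) ^ (k + 1) := by
    intro z hz
    have hzc : z ∈ closure U := frontier_subset_closure hz
    have h1 : c ≤ ‖qk K 1 z‖ := by
      rw [hU, Complex.frontier_reProdIm, closure_Ioo hb2.ne, closure_Ioo hττ.ne,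
        frontier_Ioo hb2, frontier_Ioo hττ] at hz
      rcases hz with hz | hz
      · rw [Complex.mem_reProdIm] at hz
        rcases hz.2 with h | h
        · refine hch.trans (norm_q_horizontal K (j := j - 1) ?_)
          rw [h, hτ, ← hLdef]
          push_cast
          field_simp
          ring
        · refine hch.trans (norm_q_horizontal K (j := j) ?_)
          rw [Set.mem_singleton_iff] at h
          rw [h, hτ, ← hLdef]
          field_simp
      · rw [Complex.mem_reProdIm] at hz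
        rcases hz.1 with h | h
        · refine hcl'.trans ?_
          have := norm_q_left K (s := z)
          rwa [h] at this
        · rw [Set.mem_singleton_iff] at h
          refine hcr.trans ?_
          have := norm_q_right K (s := z)
          rwa [h] at this
    refine (hkey z (hsub hzc) h1).trans ?_
    have h2 := pow_le_pow_left₀ (by positivity) (hnorm z hzc) (k + 1)
    rw [mul_pow] at h2
    calc C / c * (1 + ‖z‖) ^ (k + 1) ≤ C / c * (W ^ (k + 1) * (1 + |s.im|) ^ (k + 1)) :=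
          mul_le_mul_of_nonneg_left h2 (by positivity)
      _ = _ := by ring
  exact Complex.norm_le_of_forall_mem_frontier_norm_le hbd hdc hfr hsU

end

/-- The lattice sum of one class: continuation and polynomial bound. -/
theorem exists_lattice {K : Type*} [Field K] [NumberField K] {ι : Type*} [Fintype ι]
    (b : Basis ι ℝ (mixedSpace K)) (hcard : Fintype.card ι = finrank ℚ K)
    (hN : ∀ a : ι → ℤ, a ≠ 0 → 1 ≤ mixedEmbedding.norm (pt b a)) :
    ∃ (A : ℝ) (H : ℂ → ℂ), 0 < A ∧ DifferentiableOn ℂ H {s | sg K < s.re} ∧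
      (∀ s : ℂ, 1 < s.re → H s = (s - 1) * ∑' a : ι → ℤ, hh s (pt b a)) ∧
      ∀ s : ℂ, (1 + sg K) / 2 ≤ s.re → s.re ≤ 2 →
        ‖H s‖ ≤ A * (1 + |s.im|) ^ (finrank ℚ K + 2) := by
  obtain ⟨h0, h1, -⟩ := sg_bounds K
  have hDs : ∀ k : ℕ, Ds b (k + 1) = Dsw b (k + 1) (fun _ => 1) := by
    intro k
    funext s
    rw [Ds, Dsw]
    simp only [one_mul]
  obtain ⟨H, hH1, hH2, hH3⟩ := exists_cont K h1 (fun k => Ds b (k + 1))
    (fun s => ∑' a : ι → ℤ, hh s (pt b a))
    (fun k => by rw [hDs]; exact (Dsw_props b hN (k + 1) _).1)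
    (fun k s hs => by
      have := dilation b hN (k + 1) hs
      rw [hcard] at this
      exact this)
  obtain ⟨C, hC0, hC⟩ := (Dsw_props b hN (1 + 1) (fun _ => 1)).2
  obtain ⟨A, hA0, hA⟩ := exists_cont_bound K (a := sg K) (b := (1 + sg K) / 2) (by linarith)
    (by linarith) (by linarith) hH1 (hH3 1) hC0 (k := finrank ℚ K + 1) (fun s hs => by
      rw [hDs]
      exact hC s hs)
  exact ⟨A, H, hA0, hH1, hH2, hA⟩

/-- **Module ZB.** -/
theorem exists_H (K : Type*) [Field K] [NumberField K] {m : ℕ} [NeZero m]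
    (f : ZMod m → ℂ) (hf : ∀ x, f (-x) = f x) :
    ∃ (A : ℝ) (H : ℂ → ℂ), 0 < A ∧ DifferentiableOn ℂ H {s | sg K < s.re} ∧
      (∀ s : ℂ, 1 < s.re → H s = (s - 1) * LF K (fun n => f n) s) ∧
      ∀ s : ℂ, (1 + sg K) / 2 ≤ s.re → s.re ≤ 2 →
        ‖H s‖ ≤ A * (1 + |s.im|) ^ (finrank ℚ K + 2) := by
  obtain ⟨hsg0, hsg1, -⟩ := sg_bounds K
  have hw : (torsionOrder K : ℂ) ≠ 0 := Nat.cast_ne_zero.mpr (torsionOrder_ne_zero K)
  choose J hJ using fun C : ClassGroup (𝓞 K) => ClassGroup.mk0_surjective C⁻¹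
  have hJ0 : ∀ C, Ideal.absNorm (J C : Ideal (𝓞 K)) ≠ 0 := fun C =>
    Ideal.absNorm_ne_zero_of_nonZeroDivisors _
  have hM0 : ∀ C, NeZero (m * Ideal.absNorm (J C : Ideal (𝓞 K))) := fun C =>
    ⟨mul_ne_zero (NeZero.ne m) (hJ0 C)⟩
  obtain ⟨B, hB⟩ := exists_bound_zmod f
  set bs := fun C => fractionalIdealLatticeBasis K (FractionalIdeal.mk0 K (J C)) with hbs
  have hb : ∀ C, IsBasisOf (J C) (bs C) := fun C => isBasisOf_fractionalIdealLatticeBasis (J C)
  have hN : ∀ C, ∀ a : Free.ChooseBasisIndex ℤ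
      (FractionalIdeal.mk0 K (J C) : FractionalIdeal (𝓞 K)⁰ K) → ℤ, a ≠ 0 →
      1 ≤ mixedEmbedding.norm (pt (bs C) a) := fun C a ha => one_le_norm_pt (hb C) ha
  have hcard : ∀ C, Fintype.card (Free.ChooseBasisIndex ℤ
      (FractionalIdeal.mk0 K (J C) : FractionalIdeal (𝓞 K)⁰ K)) = finrank ℚ K := by
    intro C
    rw [← finrank_eq_card_chooseBasisIndex, fractionalIdeal_rank, RingOfIntegers.rank]
  set p := fun C => fun c : Free.ChooseBasisIndex ℤ
      (FractionalIdeal.mk0 K (J C) : FractionalIdeal (𝓞 K)⁰ K) →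
      Fin (m * Ideal.absNorm (J C : Ideal (𝓞 K))) =>
    Z69.wt (gJ f (J C)) (pt (bs C) (fun i => ((c i : ℕ) : ℤ))) with hp
  have hen : ∀ n : ℕ, Differentiable ℂ fun s => en s n := by
    intro n
    unfold en
    fun_prop
  have hfac : ∀ n, Differentiable ℂ fun s => Zeta.fac K n s := by
    intro n
    unfold Zeta.fac
    fun_prop
  choose A₁ H hA₁ hH1 hH2 hH3 using fun C => exists_lattice (bs C) (hcard C) (hN C)
  have hDd := fun C => (Dsw_props (bs C) (hN C) (m * Ideal.absNorm (J C : Ideal (𝓞 K))) (p C)).1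
  choose C₂ hC₂ hC₂' using fun C =>
    (Dsw_props (bs C) (hN C) (m * Ideal.absNorm (J C : Ideal (𝓞 K))) (p C)).2
  set T := fun C s => (torsionOrder K * en s (Ideal.absNorm (J C : Ideal (𝓞 K))))⁻¹ *
    ((s - 1) * Dsw (bs C) (m * Ideal.absNorm (J C : Ideal (𝓞 K))) (p C) s + (∑ c, p C c) *
      (Zeta.fac K (m * Ideal.absNorm (J C : Ideal (𝓞 K))) s * H C s)) with hT
  have hbound : ∀ C, ∃ A : ℝ, 0 < A ∧ ∀ s : ℂ, (1 + sg K) / 2 ≤ s.re → s.re ≤ 2 →
      ‖T C s‖ ≤ A * (1 + |s.im|) ^ (finrank ℚ K + 2) := by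
    intro C
    set E : ℝ := Real.exp (2 * Real.log (Ideal.absNorm (J C : Ideal (𝓞 K)))) with hE
    refine ⟨E * (C₂ C * 3 ^ (finrank ℚ K + 2) + (‖∑ c, p C c‖ * A₁ C)), ?_, ?_⟩
    · have := hA₁ C
      have := hC₂ C
      positivity
    · intro s hs1 hs2
      have hs0 : 0 ≤ s.re := by linarith
      have hsK : sg K < s.re := by linarith
      have hl0 : ∀ n : ℕ, 0 ≤ Real.log n := fun n => Real.log_natCast_nonneg n
      have e1 : ‖(torsionOrder K * en s (Ideal.absNorm (J C : Ideal (𝓞 K))))⁻¹‖ ≤ E := by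
        rw [norm_inv, norm_mul, en, Complex.norm_exp, Complex.neg_re, Complex.re_mul_ofReal,
          mul_inv, ← Real.exp_neg, neg_neg]
        have h1 : ‖(torsionOrder K : ℂ)‖⁻¹ ≤ 1 := by
          rw [Complex.norm_natCast]
          exact inv_le_one_of_one_le₀ (by
            exact_mod_cast Nat.one_le_iff_ne_zero.mpr (torsionOrder_ne_zero K))
        have h2 : Real.exp (s.re * Real.log (Ideal.absNorm (J C : Ideal (𝓞 K)))) ≤ E :=
          Real.exp_le_exp.mpr (mul_le_mul_of_nonneg_right hs2 (hl0 _))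
        calc _ ≤ 1 * E := mul_le_mul h1 h2 (Real.exp_pos _).le zero_le_one
          _ = E := one_mul _
      have e2 : ‖Zeta.fac K (m * Ideal.absNorm (J C : Ideal (𝓞 K))) s‖ ≤ 1 := by
        rw [Zeta.fac, Complex.norm_exp, Complex.neg_re, Complex.re_mul_ofReal]
        have h3 : 0 ≤ s.re * (finrank ℚ K *
            Real.log ((m * Ideal.absNorm (J C : Ideal (𝓞 K)) : ℕ) : ℝ)) :=
          mul_nonneg hs0 (mul_nonneg (Nat.cast_nonneg _) (hl0 _))
        exact Real.exp_le_one_iff.mpr (by linarith)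
      have e3 : 1 + ‖s‖ ≤ 3 * (1 + |s.im|) := by
        have h1 := Complex.norm_le_abs_re_add_abs_im s
        have h2 : |s.re| ≤ 2 := abs_le.mpr ⟨by linarith, hs2⟩
        have h3 := abs_nonneg s.im
        linarith
      have e4 : ‖s - 1‖ ≤ 1 + ‖s‖ := by
        have := norm_sub_le s 1
        rw [norm_one] at this
        linarith
      have e5 : ‖(s - 1) * Dsw (bs C) (m * Ideal.absNorm (J C : Ideal (𝓞 K))) (p C) s‖ ≤
          C₂ C * 3 ^ (finrank ℚ K + 2) * (1 + |s.im|) ^ (finrank ℚ K + 2) := by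
        rw [norm_mul]
        have h1 := mul_le_mul e4 (hC₂' C s hsK) (norm_nonneg _) (by positivity)
        have h2 := pow_le_pow_left₀ (by positivity) e3 (finrank ℚ K + 2)
        have h3 := mul_le_mul_of_nonneg_left h2 (hC₂ C).le
        calc _ ≤ (1 + ‖s‖) * (C₂ C * (1 + ‖s‖) ^ (finrank ℚ K + 1)) := h1
          _ = C₂ C * (1 + ‖s‖) ^ (finrank ℚ K + 2) := by ring
          _ ≤ C₂ C * (3 * (1 + |s.im|)) ^ (finrank ℚ K + 2) := h3
          _ = _ := by rw [mul_pow]; ring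
      have e6 : ‖(∑ c, p C c) * (Zeta.fac K (m * Ideal.absNorm (J C : Ideal (𝓞 K))) s * H C s)‖ ≤
          ‖∑ c, p C c‖ * A₁ C * (1 + |s.im|) ^ (finrank ℚ K + 2) := by
        rw [norm_mul, norm_mul, mul_assoc]
        refine mul_le_mul_of_nonneg_left ?_ (norm_nonneg _)
        calc _ ≤ 1 * ‖H C s‖ := mul_le_mul_of_nonneg_right e2 (norm_nonneg _)
          _ = ‖H C s‖ := one_mul _
          _ ≤ _ := hH3 C s hs1 hs2
      rw [hT]
      simp only
      rw [norm_mul]
      calc _ ≤ E * (C₂ C * 3 ^ (finrank ℚ K + 2) * (1 + |s.im|) ^ (finrank ℚ K + 2) +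
            ‖∑ c, p C c‖ * A₁ C * (1 + |s.im|) ^ (finrank ℚ K + 2)) :=
            mul_le_mul e1 ((norm_add_le _ _).trans (add_le_add e5 e6)) (norm_nonneg _)
              (Real.exp_pos _).le
        _ = _ := by ring
  choose A₃ hA₃ hA₃' using hbound
  refine ⟨∑ C, A₃ C + 1, fun s => ∑ C, T C s, ?_, ?_, ?_, ?_⟩
  · have : 0 ≤ ∑ C, A₃ C := Finset.sum_nonneg fun C _ => (hA₃ C).le
    linarith
  · refine DifferentiableOn.fun_sum fun C _ => ?_
    refine DifferentiableOn.mul ?_ (DifferentiableOn.add ?_ ?_)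
    · exact DifferentiableOn.inv (((hen _).const_mul _).differentiableOn)
        (fun s _ => mul_ne_zero hw (en_ne_zero _ _))
    · exact ((differentiable_id.sub_const 1).differentiableOn).mul (hDd C)
    · exact (((hfac _).differentiableOn).mul (hH1 C)).const_mul _
  · intro s hre
    have hg : ∀ C n, ‖gJ f (J C) n‖ ≤ B := fun C n => hB _
    have h2 := fun C => unfold_w (hb C) (hg C) hre
    rw [LF_eq_tsum (f := fun n : ℕ => f (n : ZMod m)) (fun n => hB _) hre,
      tsum_ideals_w (f := fun n : ℕ => f (n : ZMod m)) (fun n => hB _) hre J hJ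
      (fun C => gJ f (J C)) (fun C n => by
        simp only [gJ]
        rw [Nat.mul_div_cancel_left _ (Nat.pos_of_ne_zero (hJ0 C))]) (fun C => (h2 C).1),
      Finset.mul_sum]
    refine Finset.sum_congr rfl fun C _ => ?_
    have h4 := split (bs C) (hN C) (m * Ideal.absNorm (J C : Ideal (𝓞 K))) (p C)
      (P := fun a => Z69.wt (gJ f (J C)) (pt (bs C) a))
      (fun y c => periodic f hf (hb C) rfl y c) hre (summable_wt (hb C) (hg C) hre)
    rw [← (h2 C).2, h4, hT]
    simp only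
    rw [hH2 C s hre]
    ring
  · intro s hs1 hs2
    refine (norm_sum_le _ _).trans ?_
    have h1 : ∑ C, ‖T C s‖ ≤ ∑ C, A₃ C * (1 + |s.im|) ^ (finrank ℚ K + 2) :=
      Finset.sum_le_sum fun C _ => hA₃' C s hs1 hs2
    rw [← Finset.sum_mul] at h1
    have h2 : (0 : ℝ) ≤ (1 + |s.im|) ^ (finrank ℚ K + 2) := by positivity
    linarith

/-- **Module ZB**, with a free abscissa. -/
theorem exists_H_half (K : Type*) [Field K] [NumberField K] :
    ∃ (η : ℝ) (k : ℕ), 0 < η ∧ η < 1 ∧ ∀ (m : ℕ) [NeZero m] (f : ZMod m → ℂ),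
      (∀ x, f (-x) = f x) → ∃ (A : ℝ) (H : ℂ → ℂ), 0 < A ∧
        DifferentiableOn ℂ H {s | 1 - η < s.re} ∧
        (∀ s : ℂ, 1 < s.re → H s = (s - 1) * LF K (fun n => f n) s) ∧
        ∀ s : ℂ, 1 - η < s.re → s.re ≤ 2 → ‖H s‖ ≤ A * (1 + |s.im|) ^ k := by
  obtain ⟨hsg0, hsg1, -⟩ := sg_bounds K
  refine ⟨(1 - sg K) / 2, finrank ℚ K + 2, by linarith, by linarith, fun m _ f hf => ?_⟩
  obtain ⟨A, H, hA, hH1, hH2, hH3⟩ := exists_H K f hf
  refine ⟨A, H, hA, hH1.mono fun s hs => ?_, hH2, fun s hs1 hs2 => hH3 s (by linarith) hs2⟩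
  have hs' : 1 - (1 - sg K) / 2 < s.re := hs
  show sg K < s.re
  linarith

end Pool.Agent.Lib.MP_bf61d2_nt.Artin.ZB69
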