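import Pool.Agent.Lib.MP_bf61d2_nt.Artin.Defs63

set_option autoImplicit false

/-!
ARTIN EDGE (MP_bf61d2_nt), module S2: the mean of the absolute value of the character induced from a
quadratic character all whose conjugates are different.
-/

namespace Pool.Agent.Lib.MP_bf61d2_nt.Artin

open NumberField IsDedekindDomain Filter Topology Polynomial Module
open Pool.Agent.Lib.MP_bf61d2_nt.Perm

namespace S40

open scoped Classical

lemma fp_mul_card {G : Type*} [Group G] [Fintype G] (H : Subgroup G) (g : G) :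
    (fp (G ⧸ H) g : ℝ) * Nat.card H = ∑ x : G, if x⁻¹ * g * x ∈ H then (1 : ℝ) else 0 := by
  have h1 : Nat.card (QuotientGroup.mk ⁻¹' {y : G ⧸ H | g • y = y} : Set G) =
      Nat.card H * fp (G ⧸ H) g := by
    rw [Nat.card_congr (QuotientGroup.preimageMkEquivSubgroupProdSet H {y : G ⧸ H | g • y = y}),
      Nat.card_prod]
    rfl
  have h2 : ∀ x : G, (x ∈ (QuotientGroup.mk ⁻¹' {y : G ⧸ H | g • y = y} : Set G)) ↔
      x⁻¹ * g * x ∈ H := by
    intro x
    rw [Set.mem_preimage, Set.mem_ofPred_eq]
    have : g • (QuotientGroup.mk x : G ⧸ H) = QuotientGroup.mk (g * x) := rfl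
    rw [this, eq_comm, QuotientGroup.eq, mul_assoc]
  rw [Finset.sum_boole, mul_comm]
  rw [← Nat.cast_mul, ← h1]
  congr 1
  rw [Nat.card_eq_fintype_card, Fintype.card_subtype]
  congr 1
  ext x
  simp only [Finset.mem_filter, Finset.mem_univ, true_and]
  exact h2 x

theorem group_bound {G : Type*} [Group G] [Fintype G] (N H : Subgroup G) [hN : N.Normal]
    (hHN : H ≤ N) (χ : G → ℝ) (hχH : ∀ g ∈ H, χ g = 1) (hχN : ∀ g ∈ N, g ∉ H → χ g = -1)
    (hχ0 : ∀ g, g ∉ N → χ g = 0) (hmul : ∀ a ∈ N, ∀ b ∈ N, χ (a * b) = χ a * χ b)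
    (h0 : ∃ a ∈ N, a ∉ H) (hz : ∀ z, z ∉ N → ∃ h ∈ N, χ (z⁻¹ * h * z) ≠ χ h) :
    ∑ g : G, |(fp (G ⧸ H) g : ℝ) - fp (G ⧸ N) g| ≤
      Real.sqrt (Nat.card N * Fintype.card G) := by
  have hNpos : (0 : ℝ) < Nat.card N := by exact_mod_cast Nat.card_pos
  have hHpos : (0 : ℝ) < Nat.card H := by exact_mod_cast Nat.card_pos
  have hmul' : ∀ a ∈ N, ∀ b, χ (a * b) = χ a * χ b := by
    intro a ha b
    by_cases hb : b ∈ N
    · exact hmul a ha b hb
    · rw [hχ0 b hb, mul_zero, hχ0]
      rwa [N.mul_mem_cancel_left ha]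
  have hsq : ∀ a ∈ N, χ a * χ a = 1 := by
    intro a ha
    by_cases h : a ∈ H
    · rw [hχH a h, one_mul]
    · rw [hχN a ha h]; norm_num
  have hval : ∀ g, χ g = 2 * (if g ∈ H then 1 else 0) - (if g ∈ N then 1 else 0) := by
    intro g
    by_cases hgN : g ∈ N
    · by_cases hgH : g ∈ H
      · rw [if_pos hgH, if_pos hgN, hχH g hgH]; norm_num
      · rw [if_neg hgH, if_pos hgN, hχN g hgN hgH]; norm_num
    · rw [if_neg hgN, if_neg (fun h => hgN (hHN h)), hχ0 g hgN]; norm_num
  -- the sum of the character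
  have hsum0 : ∑ g, χ g = 0 := by
    obtain ⟨a, haN, haH⟩ := h0
    have h1 : ∑ g, χ g = ∑ g, χ (a * g) := by
      rw [← Equiv.sum_comp (Equiv.mulLeft a)]
      rfl
    have h2 : ∑ g, χ (a * g) = -∑ g, χ g := by
      rw [← Finset.sum_neg_distrib]
      refine Finset.sum_congr rfl fun g _ => ?_
      rw [hmul' a haN, hχN a haN haH]
      ring
    linarith
  have hcard : ∀ P : Subgroup G, ∑ g : G, (if g ∈ P then (1 : ℝ) else 0) = Nat.card P := by
    intro P
    rw [Finset.sum_boole, Nat.card_eq_fintype_card, Fintype.card_subtype]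
  have hNH : (Nat.card N : ℝ) = 2 * Nat.card H := by
    have h1 : ∑ g, χ g = 2 * Nat.card H - Nat.card N := by
      simp_rw [hval]
      rw [Finset.sum_sub_distrib, ← Finset.mul_sum, hcard, hcard]
    linarith
  -- the difference of the permutation characters
  set c : G → ℝ := fun g => (fp (G ⧸ H) g : ℝ) - fp (G ⧸ N) g with hc
  have hcχ : ∀ g, c g * Nat.card N = ∑ x : G, χ (x⁻¹ * g * x) := by
    intro g
    have h1 := fp_mul_card H g
    have h2 := fp_mul_card N g
    simp_rw [hval]
    rw [Finset.sum_sub_distrib, ← Finset.mul_sum, ← h1, ← h2, hc]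
    simp only
    rw [sub_mul, hNH]
    ring
  have hconj : ∀ x g : G, x⁻¹ * g * x ∈ N ↔ g ∈ N := by
    intro x g
    constructor
    · intro h
      have := hN.conj_mem _ h x
      convert this using 1
      group
    · intro h
      have := hN.conj_mem _ h x⁻¹
      rwa [inv_inv] at this
  have hc0 : ∀ g, g ∉ N → c g = 0 := by
    intro g hg
    have h1 := hcχ g
    rw [Finset.sum_eq_zero (fun x _ => hχ0 _ (fun h => hg ((hconj x g).mp h)))] at h1
    exact (mul_eq_zero.mp h1).resolve_right hNpos.ne'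
  -- inner products of conjugates
  have hS : ∀ z : G, ∑ h : G, χ h * χ (z⁻¹ * h * z) = if z ∈ N then (Nat.card N : ℝ) else 0 := by
    intro z
    split_ifs with h
    · rw [← hcard N]
      refine Finset.sum_congr rfl fun g _ => ?_
      split_ifs with hg
      · have h1 : χ (z⁻¹ * g * z) = χ z⁻¹ * χ g * χ z := by
          rw [hmul _ (N.mul_mem (N.inv_mem h) hg) _ h, hmul _ (N.inv_mem h) _ hg]
        have h2 : χ z⁻¹ * χ z = 1 := by
          rw [← hmul _ (N.inv_mem h) _ h, inv_mul_cancel]
          exact hχH 1 H.one_mem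
        rw [h1]
        calc χ g * (χ z⁻¹ * χ g * χ z) = (χ g * χ g) * (χ z⁻¹ * χ z) := by ring
          _ = 1 := by rw [hsq g hg, h2, one_mul]
      · rw [hχ0 g hg, zero_mul]
    · obtain ⟨a, haN, ha⟩ := hz z h
      have haz : z⁻¹ * a * z ∈ N := (hconj z a).mpr haN
      have hval2 : ∀ b ∈ N, χ b = 1 ∨ χ b = -1 := by
        intro b hb
        by_cases hbH : b ∈ H
        · exact Or.inl (hχH b hbH)
        · exact Or.inr (hχN b hb hbH)
      have hprod : χ a * χ (z⁻¹ * a * z) = -1 := by
        rcases hval2 a haN with h1 | h1 <;> rcases hval2 _ haz with h2 | h2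
        · exact absurd (h2.trans h1.symm) ha
        · rw [h1, h2]; norm_num
        · rw [h1, h2]; norm_num
        · exact absurd (h2.trans h1.symm) ha
      have h1 : ∑ h : G, χ h * χ (z⁻¹ * h * z) =
          ∑ h : G, χ (a * h) * χ (z⁻¹ * (a * h) * z) := by
        rw [← Equiv.sum_comp (Equiv.mulLeft a)]
        rfl
      have h2 : ∑ h : G, χ (a * h) * χ (z⁻¹ * (a * h) * z) =
          -∑ h : G, χ h * χ (z⁻¹ * h * z) := by
        rw [← Finset.sum_neg_distrib]
        refine Finset.sum_congr rfl fun g _ => ?_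
        have e : z⁻¹ * (a * g) * z = (z⁻¹ * a * z) * (z⁻¹ * g * z) := by group
        rw [e, hmul' a haN, hmul' _ haz]
        calc χ a * χ g * (χ (z⁻¹ * a * z) * χ (z⁻¹ * g * z)) =
              (χ a * χ (z⁻¹ * a * z)) * (χ g * χ (z⁻¹ * g * z)) := by ring
          _ = _ := by rw [hprod]; ring
      linarith
  have hsqsum : ∑ g, c g ^ 2 = Fintype.card G := by
    have h1 : (∑ g, c g ^ 2) * (Nat.card N : ℝ) ^ 2 =
        ∑ g : G, ∑ x : G, ∑ y : G, χ (x⁻¹ * g * x) * χ (y⁻¹ * g * y) := by
      rw [Finset.sum_mul]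
      refine Finset.sum_congr rfl fun g _ => ?_
      rw [← mul_pow, hcχ g, sq, Finset.sum_mul_sum]
    have h2 : ∑ g : G, ∑ x : G, ∑ y : G, χ (x⁻¹ * g * x) * χ (y⁻¹ * g * y) =
        ∑ x : G, ∑ y : G, ∑ g : G, χ (x⁻¹ * g * x) * χ (y⁻¹ * g * y) := by
      rw [Finset.sum_comm]
      refine Finset.sum_congr rfl fun x _ => ?_
      rw [Finset.sum_comm]
    have h3 : ∀ x y : G, ∑ g : G, χ (x⁻¹ * g * x) * χ (y⁻¹ * g * y) =
        if x⁻¹ * y ∈ N then (Nat.card N : ℝ) else 0 := by
      intro x y
      rw [← hS (x⁻¹ * y), ← Equiv.sum_comp (MulAut.conj x).toEquiv]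
      refine Finset.sum_congr rfl fun g _ => ?_
      have e1 : (MulAut.conj x).toEquiv g = x * g * x⁻¹ := rfl
      rw [e1]
      congr 2
      · group
      · group
    have h4 : ∑ x : G, ∑ y : G, (if x⁻¹ * y ∈ N then (Nat.card N : ℝ) else 0) =
        Fintype.card G * (Nat.card N : ℝ) ^ 2 := by
      have h5 : ∀ x : G, ∑ y : G, (if x⁻¹ * y ∈ N then (Nat.card N : ℝ) else 0) =
          (Nat.card N : ℝ) ^ 2 := by
        intro x
        rw [← Equiv.sum_comp (Equiv.mulLeft x)]
        have h6 : ∀ y : G, (if x⁻¹ * (Equiv.mulLeft x) y ∈ N then (Nat.card N : ℝ) else 0) =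
            Nat.card N * (if y ∈ N then 1 else 0) := by
          intro y
          have : x⁻¹ * (Equiv.mulLeft x) y = y := by
            show x⁻¹ * (x * y) = y
            group
          rw [this]
          split_ifs <;> simp
        rw [Finset.sum_congr rfl fun y _ => h6 y, ← Finset.mul_sum, hcard, sq]
      rw [Finset.sum_congr rfl fun x _ => h5 x, Finset.sum_const, nsmul_eq_mul, Finset.card_univ]
    rw [h2, Finset.sum_congr rfl fun x _ => Finset.sum_congr rfl fun y _ => h3 x y, h4] at h1
    exact mul_right_cancel₀ (pow_ne_zero 2 hNpos.ne') h1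
  -- Cauchy-Schwarz
  have hfin : (∑ g, |c g|) ^ 2 ≤ Nat.card N * Fintype.card G := by
    have h1 : ∑ g, |c g| = ∑ g, (if g ∈ N then (1 : ℝ) else 0) * |c g| := by
      refine Finset.sum_congr rfl fun g _ => ?_
      split_ifs with hg
      · rw [one_mul]
      · rw [hc0 g hg, abs_zero, mul_zero]
    rw [h1]
    refine (Finset.sum_mul_sq_le_sq_mul_sq _ _ _).trans (le_of_eq ?_)
    have h2 : ∑ g : G, (if g ∈ N then (1 : ℝ) else 0) ^ 2 = Nat.card N := by
      rw [← hcard N]
      refine Finset.sum_congr rfl fun g _ => ?_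
      split_ifs <;> norm_num
    have h3 : ∑ g : G, |c g| ^ 2 = Fintype.card G := by
      rw [← hsqsum]
      exact Finset.sum_congr rfl fun g _ => sq_abs _
    rw [h2, h3]
  exact Real.le_sqrt_of_sq_le hfin

section Gal

variable {K M : Type*} [Field K] [Field M] [Algebra K M]

lemma mem_H_iff (F : IntermediateField K M) (θ : M) (g : Gal(M/K)) :
    g ∈ ((IntermediateField.adjoin F {θ}).restrictScalars K).fixingSubgroup ↔
      g ∈ F.fixingSubgroup ∧ g θ = θ := by
  rw [IntermediateField.mem_fixingSubgroup_iff, IntermediateField.mem_fixingSubgroup_iff]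
  constructor
  · intro h
    refine ⟨fun x hx => h x ?_, h θ ?_⟩
    · rw [IntermediateField.mem_restrictScalars]
      exact (IntermediateField.adjoin F {θ}).algebraMap_mem ⟨x, hx⟩
    · rw [IntermediateField.mem_restrictScalars]
      exact IntermediateField.mem_adjoin_simple_self F θ
  · rintro ⟨h1, h2⟩ x hx
    rw [IntermediateField.mem_restrictScalars] at hx
    induction hx using IntermediateField.adjoin_induction with
    | mem x hx =>
      rw [Set.mem_singleton_iff] at hx
      rw [hx]
      exact h2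
    | algebraMap x => exact h1 x x.2
    | add x y _ _ hx hy => rw [map_add, hx, hy]
    | inv x _ hx => rw [map_inv₀, hx]
    | mul x y _ _ hx hy => rw [map_mul, hx, hy]

end Gal

end S40

open scoped Classical in
/-- S2: the mean of the absolute value of the character induced from a quadratic character. -/
theorem sum_abs_conj {K M : Type*} [Field K] [NumberField K] [Field M] [NumberField M] [Algebra K M]
    [IsGalois K M] [Fintype Gal(M/K)] (F : IntermediateField K M) [IsGalois K F] {d : F} {θ : M}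
    (hθ : θ ^ 2 = d) (hd : ¬ IsSquare d) (hsq : ∀ σ : Gal(F/K), σ ≠ 1 → ¬ IsSquare (d * σ d)) :
    (∑ g : Gal(M/K), |(fx ((IntermediateField.adjoin F {θ}).restrictScalars K) g : ℝ) - fx F g|) /
      Fintype.card Gal(M/K) ≤ 1 / Real.sqrt (finrank K F) := by
  have hfd : FiniteDimensional K M := Module.Finite.of_restrictScalars_finite ℚ K M
  have hfdF : FiniteDimensional F M := Module.Finite.of_restrictScalars_finite K F M
  have hfdK : FiniteDimensional K F := FiniteDimensional.left K F M
  set N := F.fixingSubgroup with hNdef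
  set H := ((IntermediateField.adjoin F {θ}).restrictScalars K).fixingSubgroup with hHdef
  have hNmem : ∀ g : Gal(M/K), g ∈ N ↔ ∀ x ∈ F, g x = x := fun g =>
    IntermediateField.mem_fixingSubgroup_iff F g
  have hHmem : ∀ g : Gal(M/K), g ∈ H ↔ g ∈ N ∧ g θ = θ := fun g => S40.mem_H_iff F θ g
  have hθ0 : θ ≠ 0 := by
    rintro rfl
    apply hd
    refine ⟨0, ?_⟩
    apply Subtype.ext
    rw [← hθ]
    simp
  have hθn : θ ≠ -θ := by
    intro h
    apply hθ0
    have h1 : (2 : M) * θ = 0 := by linear_combination h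
    exact (mul_eq_zero.mp h1).resolve_left two_ne_zero
  have hpm : ∀ g ∈ N, g θ = θ ∨ g θ = -θ := by
    intro g hg
    apply sq_eq_sq_iff_eq_or_eq_neg.mp
    rw [← map_pow, hθ]
    exact (hNmem g).mp hg d d.2
  have hfix : ∀ x : M, (∀ g ∈ N, g x = x) → x ∈ F := by
    intro x hx
    rw [← IsGalois.fixedField_fixingSubgroup F, IntermediateField.mem_fixedField_iff]
    exact hx
  set χ : Gal(M/K) → ℝ := fun g => if g ∈ N then (if g θ = θ then 1 else -1) else 0 with hχ
  have hB := S40.group_bound N H (fun g hg => ((hHmem g).mp hg).1) χ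
    (fun g hg => by
      obtain ⟨h1, h2⟩ := (hHmem g).mp hg
      simp only [hχ]
      rw [if_pos h1, if_pos h2])
    (fun g hgN hgH => by
      simp only [hχ]
      rw [if_pos hgN, if_neg (fun h => hgH ((hHmem g).mpr ⟨hgN, h⟩))])
    (fun g hg => by
      simp only [hχ]
      rw [if_neg hg])
    (fun a ha b hb => by
      simp only [hχ]
      rw [if_pos ha, if_pos hb, if_pos (N.mul_mem ha hb)]
      have e : (a * b) θ = a (b θ) := rfl
      rw [e]
      rcases hpm a ha with h1 | h1 <;> rcases hpm b hb with h2 | h2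
      · rw [h2, h1]; simp
      · rw [h2, map_neg, h1]; simp [hθn.symm]
      · rw [h2, h1]; simp [hθn.symm]
      · rw [h2, map_neg, h1]; simp [hθn.symm])
    (by
      by_contra hcon
      push Not at hcon
      apply hd
      have h1 : θ ∈ F := hfix θ fun g hg => ((hHmem g).mp (hcon g hg)).2
      refine ⟨⟨θ, h1⟩, ?_⟩
      apply Subtype.ext
      rw [← hθ, sq]
      rfl)
    (fun z hz => by
      by_contra hcon
      push Not at hcon
      have hNn : N.Normal := inferInstance
      have h1 : ∀ g ∈ N, g (θ * z θ) = θ * z θ := by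
        intro g hg
        have h2 := hcon g hg
        have h3 : z⁻¹ * g * z ∈ N := by
          have := hNn.conj_mem _ hg z⁻¹
          rwa [inv_inv] at this
        simp only [hχ] at h2
        rw [if_pos hg, if_pos h3] at h2
        have h4 : ∀ y : M, (z⁻¹ * g * z) θ = y → g (z θ) = z y := by
          intro y hy
          rw [← hy]
          have e : (z⁻¹ * g * z) θ = z⁻¹ (g (z θ)) := rfl
          rw [e]
          exact (AlgEquiv.apply_symm_apply z (g (z θ))).symm
        rcases hpm g hg with h5 | h5 <;> rcases hpm _ h3 with h6 | h6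
        · rw [map_mul, h5, h4 _ h6]
        · rw [h5, h6] at h2
          simp [hθn.symm] at h2
          norm_num at h2
        · rw [h5, h6] at h2
          simp [hθn.symm] at h2
          norm_num at h2
        · rw [map_mul, h5, h4 _ h6, map_neg]
          ring
      have h2 := hfix _ h1
      refine hsq (AlgEquiv.restrictNormal z F) ?_ ?_
      · intro h3
        apply hz
        rw [hNmem]
        intro x hx
        have h4 := AlgEquiv.restrictNormal_commutes z F ⟨x, hx⟩
        rw [h3] at h4
        exact h4.symm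
      · refine ⟨⟨θ * z θ, h2⟩, ?_⟩
        apply Subtype.ext
        have h4 := AlgEquiv.restrictNormal_commutes z F d
        have h5 : ((AlgEquiv.restrictNormal z F d : F) : M) = z (d : M) := h4
        show (d : M) * ((AlgEquiv.restrictNormal z F d : F) : M) = (θ * z θ) * (θ * z θ)
        rw [h5, ← hθ, map_pow]
        ring)
  have hfx1 : ∀ g, fx ((IntermediateField.adjoin F {θ}).restrictScalars K) g =
      fp (Gal(M/K) ⧸ H) g := fun g => FixField.fx_eq _ g
  have hfx2 : ∀ g, fx F g = fp (Gal(M/K) ⧸ N) g := fun g => FixField.fx_eq _ g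
  simp_rw [hfx1, hfx2]
  have hcN : Nat.card N = finrank F M := IsGalois.card_fixingSubgroup_eq_finrank F
  have hcG : Fintype.card Gal(M/K) = finrank K F * finrank F M := by
    rw [finrank_mul_finrank, ← IsGalois.card_aut_eq_finrank, Nat.card_eq_fintype_card]
  have hn : (0 : ℝ) < finrank K F := by exact_mod_cast finrank_pos
  have hm : (0 : ℝ) < finrank F M := by exact_mod_cast finrank_pos
  rw [hcN, hcG] at hB
  rw [hcG, div_le_iff₀ (by push_cast; positivity)]
  refine hB.trans (le_of_eq ?_)
  push_cast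
  have e : (finrank F M : ℝ) * ((finrank K F : ℝ) * finrank F M) =
      (finrank F M : ℝ) ^ 2 * finrank K F := by ring
  rw [e, Real.sqrt_mul (by positivity), Real.sqrt_sq hm.le]
  have h1 : Real.sqrt (finrank K F) ≠ 0 := (Real.sqrt_pos.mpr hn).ne'
  have h2 : Real.sqrt (finrank K F) * Real.sqrt (finrank K F) = finrank K F :=
    Real.mul_self_sqrt hn.le
  field_simp
  rw [sq, h2]

end Pool.Agent.Lib.MP_bf61d2_nt.Artin
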