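import Pool.Agent.Lib.MP_bf61d2_nt.Artin.V90
import Pool.Agent.Lib.MP_bf61d2_nt.Artin.D1x63
import Pool.Agent.Lib.MP_bf61d2_nt.Artin.D2x90

set_option autoImplicit false

/-!
Artin twists at the edge: inequalities which use the distribution of the normalised traces.
-/

namespace Pool.Agent.Lib.MP_bf61d2_nt.Artin

open NumberField IsDedekindDomain Filter Topology Polynomial Module
open Pool.Agent.Lib.MP_bf61d2_nt.Perm

namespace T1x63

open V90

/-- uniform approximation of a continuous function of the real part -/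
lemma approx_cont {G : Type*} [Group G] [Fintype G] {ψ : ℝ → ℝ} (hψ : Continuous ψ) {n : ℕ} (f : Fin n → G → ℂ)
    (hf : ∀ j, IsClassFn (f j)) (t : Fin n → ℝ) {ε : ℝ} (hε : 0 < ε) :
    ∃ (N : ℕ) (F : Fin N → G → ℂ) (τ : Fin N → ℝ), (∀ k, IsClassFn (F k)) ∧
      ∀ (g : G) (u : ℝ), ‖((ψ (∑ j, f j g *
        Complex.exp (((-(t j * u) : ℝ) : ℂ) * Complex.I)).re : ℝ) : ℂ) -
        ∑ k, F k g * Complex.exp (((-(τ k * u) : ℝ) : ℂ) * Complex.I)‖ ≤ ε := by
  set S : G → ℝ → ℝ := fun g u =>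
    (∑ j, f j g * Complex.exp (((-(t j * u) : ℝ) : ℂ) * Complex.I)).re with hS
  set SC' : G → ℝ → ℂ := fun g u => ((S g u : ℝ) : ℂ) with hSC
  have hSW : SC' ∈ A G := by
    show SC' ∈ W G
    exact re_mem f hf t
  set R : ℝ := ∑ g : G, ∑ j, ‖f j g‖ with hR
  obtain ⟨p, hp⟩ := exists_polynomial_near_of_continuousOn (-R) R
    ψ hψ.continuousOn ε hε
  have hb : ∀ g u, S g u ∈ Set.Icc (-R) R := by
    intro g u
    rw [Set.mem_Icc, ← abs_le]
    refine (Complex.abs_re_le_norm _).trans ((norm_sum_le _ _).trans ?_)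
    refine le_trans ?_ (Finset.single_le_sum (f := fun g : G => ∑ j, ‖f j g‖)
      (fun g _ => Finset.sum_nonneg fun j _ => norm_nonneg _) (Finset.mem_univ g))
    refine Finset.sum_le_sum fun j _ => ?_
    rw [norm_mul, Complex.norm_exp_ofReal_mul_I, mul_one]
  have hmem : Polynomial.aeval SC' (p.map (algebraMap ℝ ℂ)) ∈ W G := by
    have h1 : Polynomial.aeval SC' (p.map (algebraMap ℝ ℂ)) ∈ Algebra.adjoin ℂ {SC'} :=
      Polynomial.aeval_mem_adjoin_singleton ℂ SC'
    have h2 : Algebra.adjoin ℂ {SC'} ≤ A G := Algebra.adjoin_le (by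
      rintro x rfl
      exact hSW)
    exact h2 h1
  unfold W at hmem
  rw [Submodule.mem_span_set'] at hmem
  obtain ⟨N, β, g, hg⟩ := hmem
  choose F τ hF hFτ using fun k => (g k).2
  refine ⟨N, fun k => β k • F k, τ, fun k a b => ?_, fun x u => ?_⟩
  · show β k * F k (b * a * b⁻¹) = β k * F k a
    rw [hF k a b]
  · have h1 : ∑ k, (β k • F k) x * Complex.exp (((-(τ k * u) : ℝ) : ℂ) * Complex.I) =
        ((p.eval (S x u) : ℝ) : ℂ) := by
      have h2 := congrFun (congrFun hg x) u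
      have e1 : (Polynomial.aeval SC' (p.map (algebraMap ℝ ℂ))) x =
          Polynomial.aeval (SC' x) (p.map (algebraMap ℝ ℂ)) :=
        (Polynomial.aeval_algHom_apply (Pi.evalAlgHom ℂ (fun _ : G => ℝ → ℂ) x) SC'
          (p.map (algebraMap ℝ ℂ))).symm
      rw [e1, Polynomial.aeval_fn_apply, Polynomial.coe_aeval_eq_eval] at h2
      have h3 : Polynomial.eval (SC' x u) (p.map (algebraMap ℝ ℂ)) = ((p.eval (S x u) : ℝ) : ℂ) := by
        rw [Polynomial.eval_map]
        exact Polynomial.eval₂_at_apply (algebraMap ℝ ℂ) (S x u)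
      rw [← h3, ← h2, Finset.sum_apply, Finset.sum_apply]
      refine Finset.sum_congr rfl fun k _ => ?_
      rw [Pi.smul_apply, Pi.smul_apply, hFτ k]
      simp only [ex, Pi.smul_apply, smul_eq_mul]
      ring
    rw [h1, ← Complex.ofReal_sub, Complex.norm_real, Real.norm_eq_abs, abs_sub_comm]
    exact (hp _ (hb x u)).le

end T1x63

section Mean

variable {G : Type*} [Group G] [Fintype G]

open V90 T1x63 in
/-- V1: mean values, and approximation of `|Re S|` by `Re` of exponential polynomials with class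
functions as coefficients. -/
theorem exists_mean_cont {ψ : ℝ → ℝ} (hψ : Continuous ψ) {n : ℕ} (f : Fin n → G → ℂ) (hf : ∀ j, IsClassFn (f j)) (t : Fin n → ℝ) :
    ∃ B : ℝ, Tendsto (fun X : ℝ => X⁻¹ * ∫ u in (0 : ℝ)..X,
        (∑ g : G, ψ (∑ j, f j g * Complex.exp (((-(t j * u) : ℝ) : ℂ) * Complex.I)).re) /
          Fintype.card G) atTop (𝓝 B) ∧
      ∀ ε : ℝ, 0 < ε → ∃ (N : ℕ) (F : Fin N → G → ℂ) (τ : Fin N → ℝ), (∀ k, IsClassFn (F k)) ∧
        (∀ (g : G) (u : ℝ), ψ (∑ j, f j g * Complex.exp (((-(t j * u) : ℝ) : ℂ) * Complex.I)).re ≤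
          (∑ k, F k g * Complex.exp (((-(τ k * u) : ℝ) : ℂ) * Complex.I)).re) ∧
        (∑ k, if τ k = 0 then (∑ g, F k g) / Fintype.card G else 0).re ≤ B + ε := by
  have hG : (0 : ℝ) < Fintype.card G := by exact_mod_cast Fintype.card_pos
  -- the averages of approximants
  have hP : ∀ (N : ℕ) (F : Fin N → G → ℂ) (τ : Fin N → ℝ) (u : ℝ),
      (∑ k, ((∑ g, F k g) / Fintype.card G) *
        Complex.exp (((-(τ k * u) : ℝ) : ℂ) * Complex.I)).re =
      (∑ g : G, (∑ k, F k g * Complex.exp (((-(τ k * u) : ℝ) : ℂ) * Complex.I)).re) /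
        Fintype.card G := by
    intro N F τ u
    rw [← Complex.re_sum, Finset.sum_comm, ← Complex.ofReal_natCast, ← Complex.div_ofReal_re,
      Finset.sum_div]
    congr 1
    refine Finset.sum_congr rfl fun k _ => ?_
    rw [← Finset.sum_mul]
    ring
  have hclose : ∀ (ε : ℝ) (N : ℕ) (F : Fin N → G → ℂ) (τ : Fin N → ℝ),
      (∀ (g : G) (u : ℝ), ‖((ψ (∑ j, f j g *
        Complex.exp (((-(t j * u) : ℝ) : ℂ) * Complex.I)).re : ℝ) : ℂ) -
        ∑ k, F k g * Complex.exp (((-(τ k * u) : ℝ) : ℂ) * Complex.I)‖ ≤ ε) → ∀ u : ℝ,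
      |(∑ g : G, ψ (∑ j, f j g * Complex.exp (((-(t j * u) : ℝ) : ℂ) * Complex.I)).re) /
          Fintype.card G - (∑ k, ((∑ g, F k g) / Fintype.card G) *
        Complex.exp (((-(τ k * u) : ℝ) : ℂ) * Complex.I)).re| ≤ ε := by
    intro ε N F τ h u
    rw [hP N F τ u, ← sub_div, ← Finset.sum_sub_distrib, abs_div, abs_of_pos hG,
      div_le_iff₀ hG]
    refine (Finset.abs_sum_le_sum_abs _ _).trans ?_
    have h1 : ∀ g ∈ (Finset.univ : Finset G),
        |ψ (∑ j, f j g * Complex.exp (((-(t j * u) : ℝ) : ℂ) * Complex.I)).re -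
        (∑ k, F k g * Complex.exp (((-(τ k * u) : ℝ) : ℂ) * Complex.I)).re| ≤ ε := by
      intro g _
      have h2 := (Complex.abs_re_le_norm _).trans (h g u)
      rwa [Complex.sub_re, Complex.ofReal_re] at h2
    refine (Finset.sum_le_sum h1).trans (le_of_eq ?_)
    rw [Finset.sum_const, Finset.card_univ, nsmul_eq_mul, mul_comm]
  obtain ⟨B, hB, hB'⟩ := exists_mean' (h := fun u : ℝ =>
      (∑ g : G, ψ (∑ j, f j g * Complex.exp (((-(t j * u) : ℝ) : ℂ) * Complex.I)).re) /
          Fintype.card G) (by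
        refine Continuous.div_const (continuous_finsetSum _ fun g _ => ?_) _
        refine hψ.comp (Complex.continuous_re.comp ?_)
        exact continuous_finsetSum _ fun j _ => by fun_prop)
    (by
      intro ε hε
      obtain ⟨N, F, τ, hF, hap⟩ := approx_cont hψ f hf t hε
      refine ⟨_, _, ?_, mean_exp (fun k => (∑ g, F k g) / Fintype.card G) τ,
        hclose ε N F τ hap⟩
      refine Complex.continuous_re.comp ?_
      exact continuous_finsetSum _ fun j _ => by fun_prop)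
  refine ⟨B, hB, fun ε hε => ?_⟩
  obtain ⟨N, F, τ, hF, hap⟩ := approx_cont hψ f hf t (half_pos hε)
  have hm := hB' (ε / 2) _ _ (by
    refine Complex.continuous_re.comp ?_
    exact continuous_finsetSum _ fun j _ => by fun_prop)
    (mean_exp (fun k => (∑ g, F k g) / Fintype.card G) τ) (hclose (ε / 2) N F τ hap)
  refine ⟨N + 1, Fin.cons (fun _ => ((ε / 2 : ℝ) : ℂ)) F, Fin.cons 0 τ, ?_, ?_, ?_⟩
  · intro k
    refine Fin.cases ?_ (fun k => ?_) k
    · intro a b
      rfl
    · rw [Fin.cons_succ]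
      exact hF k
  · intro g u
    rw [Fin.sum_univ_succ]
    simp only [Fin.cons_zero, Fin.cons_succ]
    rw [zero_mul, neg_zero, Complex.ofReal_zero, zero_mul, Complex.exp_zero, mul_one,
      Complex.add_re, Complex.ofReal_re]
    have h2 := (Complex.abs_re_le_norm _).trans (hap g u)
    rw [Complex.sub_re, Complex.ofReal_re] at h2
    have h3 := (abs_le.1 h2).2
    linarith
  · rw [Fin.sum_univ_succ]
    simp only [Fin.cons_zero, Fin.cons_succ]
    rw [if_true, Complex.add_re]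
    have h1 : ((∑ _g : G, ((ε / 2 : ℝ) : ℂ)) / Fintype.card G).re = ε / 2 := by
      rw [Finset.sum_const, Finset.card_univ, nsmul_eq_mul, mul_div_cancel_left₀]
      · exact Complex.ofReal_re _
      · exact_mod_cast hG.ne'
    rw [h1]
    have h2 := (abs_le.1 hm).1
    linarith

end Mean

end Pool.Agent.Lib.MP_bf61d2_nt.Artin
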