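import Pool.Agent.Lib.MP_bf61d2_nt.Artin.Defs63
import Pool.Agent.Lib.MP_bf61d2_nt.Perm.MeanVal

set_option autoImplicit false

/-!
ARTIN EDGE (MP_bf61d2_nt), module V: mean values of the absolute values of real parts of
exponential polynomials whose coefficients are class functions.
-/

namespace Pool.Agent.Lib.MP_bf61d2_nt.Artin

open Filter Topology
open Pool.Agent.Lib.MP_bf61d2_nt.Perm

namespace V90

/-- the exponential with a class function as coefficient -/
noncomputable def ex {G : Type*} (F : G → ℂ) (τ : ℝ) : G → ℝ → ℂ := fun g u =>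
  F g * Complex.exp (((-(τ * u) : ℝ) : ℂ) * Complex.I)

/-- exponential polynomials with class functions as coefficients -/
noncomputable def W (G : Type*) [Group G] : Submodule ℂ (G → ℝ → ℂ) :=
  Submodule.span ℂ {φ | ∃ (F : G → ℂ) (τ : ℝ), IsClassFn F ∧ φ = ex F τ}

lemma ex_mem {G : Type*} [Group G] {F : G → ℂ} (hF : IsClassFn F) (τ : ℝ) : ex F τ ∈ W G :=
  Submodule.subset_span ⟨F, τ, hF, rfl⟩

lemma one_mem (G : Type*) [Group G] : (1 : G → ℝ → ℂ) ∈ W G := by
  have h : (1 : G → ℝ → ℂ) = ex (fun _ => 1) 0 := by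
    funext g u
    simp [ex]
  rw [h]
  exact ex_mem (fun _ _ => rfl) 0

lemma ex_mul {G : Type*} (F F' : G → ℂ) (τ τ' : ℝ) :
    ex F τ * ex F' τ' = ex (F * F') (τ + τ') := by
  funext g u
  simp only [ex, Pi.mul_apply]
  rw [mul_mul_mul_comm, ← Complex.exp_add]
  congr 2
  push_cast
  ring

lemma mul_mem (G : Type*) [Group G] (f g : G → ℝ → ℂ) (hf : f ∈ W G) (hg : g ∈ W G) :
    f * g ∈ W G := by
  have h : W G * W G ≤ W G := by
    unfold W
    rw [Submodule.span_mul_span, Submodule.span_le]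
    rintro _ ⟨_, ⟨F, τ, hF, rfl⟩, _, ⟨F', τ', hF', rfl⟩, rfl⟩
    show ex F τ * ex F' τ' ∈ W G
    rw [ex_mul]
    refine ex_mem (fun a b => ?_) _
    rw [Pi.mul_apply, Pi.mul_apply, hF, hF']
  exact h (Submodule.mul_mem_mul hf hg)

/-- exponential polynomials as a subalgebra -/
noncomputable def A (G : Type*) [Group G] : Subalgebra ℂ (G → ℝ → ℂ) :=
  (W G).toSubalgebra (one_mem G) (mul_mem G)

/-- the real part as an exponential polynomial -/
lemma re_mem {G : Type*} [Group G] {n : ℕ} (f : Fin n → G → ℂ) (hf : ∀ j, IsClassFn (f j))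
    (t : Fin n → ℝ) : (fun (g : G) (u : ℝ) =>
      (((∑ j, f j g * Complex.exp (((-(t j * u) : ℝ) : ℂ) * Complex.I)).re : ℝ) : ℂ)) ∈ W G := by
  have h : (fun (g : G) (u : ℝ) =>
      (((∑ j, f j g * Complex.exp (((-(t j * u) : ℝ) : ℂ) * Complex.I)).re : ℝ) : ℂ)) =
      ∑ j, ((1 / 2 : ℂ) • ex (f j) (t j) +
        (1 / 2 : ℂ) • ex (fun g => (starRingEnd ℂ) (f j g)) (-(t j))) := by
    funext g u
    rw [Finset.sum_apply, Finset.sum_apply, Complex.re_sum, Complex.ofReal_sum]
    refine Finset.sum_congr rfl fun j _ => ?_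
    simp only [Pi.add_apply, Pi.smul_apply, ex, smul_eq_mul]
    rw [Complex.re_eq_add_conj, map_mul, ← Complex.exp_conj, map_mul, Complex.conj_ofReal,
      Complex.conj_I]
    have h2 : ((-(t j * u) : ℝ) : ℂ) * -Complex.I = ((-(-(t j) * u) : ℝ) : ℂ) * Complex.I := by
      push_cast
      ring
    rw [h2]
    ring
  rw [h]
  refine Submodule.sum_mem _ fun j _ => Submodule.add_mem _
    (Submodule.smul_mem _ _ (ex_mem (hf j) _)) (Submodule.smul_mem _ _ (ex_mem (fun a b => ?_) _))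
  rw [hf j a b]

/-- uniform approximation of the absolute value -/
lemma approx {G : Type*} [Group G] [Fintype G] {n : ℕ} (f : Fin n → G → ℂ)
    (hf : ∀ j, IsClassFn (f j)) (t : Fin n → ℝ) {ε : ℝ} (hε : 0 < ε) :
    ∃ (N : ℕ) (F : Fin N → G → ℂ) (τ : Fin N → ℝ), (∀ k, IsClassFn (F k)) ∧
      ∀ (g : G) (u : ℝ), ‖((|(∑ j, f j g *
        Complex.exp (((-(t j * u) : ℝ) : ℂ) * Complex.I)).re| : ℝ) : ℂ) -
        ∑ k, F k g * Complex.exp (((-(τ k * u) : ℝ) : ℂ) * Complex.I)‖ ≤ ε := by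
  set S : G → ℝ → ℝ := fun g u =>
    (∑ j, f j g * Complex.exp (((-(t j * u) : ℝ) : ℂ) * Complex.I)).re with hS
  set SC' : G → ℝ → ℂ := fun g u => ((S g u : ℝ) : ℂ) with hSC
  have hSW : SC' ∈ A G := by
    show SC' ∈ W G
    exact re_mem f hf t
  set R : ℝ := ∑ g : G, ∑ j, ‖f j g‖ with hR
  obtain ⟨p, hp⟩ := exists_polynomial_near_of_continuousOn (-R) R
    (fun x => |x|) (continuous_abs.continuousOn) ε hε
  have hb : ∀ g u, S g u ∈ Set.Icc (-R) R := by
    intro g u
    rw [Set.mem_Icc, ← abs_le]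
    refine (Complex.abs_re_le_norm _).trans ((norm_sum_le _ _).trans ?_)
    refine le_trans ?_ (Finset.single_le_sum (f := fun g : G => ∑ j, ‖f j g‖)
      (fun g _ => Finset.sum_nonneg fun j _ => norm_nonneg _) (Finset.mem_univ g))
    refine Finset.sum_le_sum fun j _ => ?_
    rw [norm_mul, Complex.norm_exp_ofReal_mul_I, mul_one]
  have hmem : Polynomial.aeval SC' (p.map (algebraMap ℝ ℂ)) ∈ W G := by
    have h1 : Polynomial.aeval SC' (p.map (algebraMap ℝ ℂ)) ∈ Algebra.adjoin ℂ {SC'} :=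
      Polynomial.aeval_mem_adjoin_singleton ℂ SC'
    have h2 : Algebra.adjoin ℂ {SC'} ≤ A G := Algebra.adjoin_le (by
      rintro x rfl
      exact hSW)
    exact h2 h1
  unfold W at hmem
  rw [Submodule.mem_span_set'] at hmem
  obtain ⟨N, β, g, hg⟩ := hmem
  choose F τ hF hFτ using fun k => (g k).2
  refine ⟨N, fun k => β k • F k, τ, fun k a b => ?_, fun x u => ?_⟩
  · show β k * F k (b * a * b⁻¹) = β k * F k a
    rw [hF k a b]
  · have h1 : ∑ k, (β k • F k) x * Complex.exp (((-(τ k * u) : ℝ) : ℂ) * Complex.I) =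
        ((p.eval (S x u) : ℝ) : ℂ) := by
      have h2 := congrFun (congrFun hg x) u
      have e1 : (Polynomial.aeval SC' (p.map (algebraMap ℝ ℂ))) x =
          Polynomial.aeval (SC' x) (p.map (algebraMap ℝ ℂ)) :=
        (Polynomial.aeval_algHom_apply (Pi.evalAlgHom ℂ (fun _ : G => ℝ → ℂ) x) SC'
          (p.map (algebraMap ℝ ℂ))).symm
      rw [e1, Polynomial.aeval_fn_apply, Polynomial.coe_aeval_eq_eval] at h2
      have h3 : Polynomial.eval (SC' x u) (p.map (algebraMap ℝ ℂ)) = ((p.eval (S x u) : ℝ) : ℂ) := by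
        rw [Polynomial.eval_map]
        exact Polynomial.eval₂_at_apply (algebraMap ℝ ℂ) (S x u)
      rw [← h3, ← h2, Finset.sum_apply, Finset.sum_apply]
      refine Finset.sum_congr rfl fun k _ => ?_
      rw [Pi.smul_apply, Pi.smul_apply, hFτ k]
      simp only [ex, Pi.smul_apply, smul_eq_mul]
      ring
    rw [h1, ← Complex.ofReal_sub, Complex.norm_real, Real.norm_eq_abs, abs_sub_comm]
    exact (hp _ (hb x u)).le

lemma tendsto_sin (τ β : ℝ) :
    Tendsto (fun X : ℝ => X⁻¹ * ∫ u in (0 : ℝ)..X, β * Real.sin (τ * u)) atTop (𝓝 0) := by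
  by_cases h : τ = 0
  · subst h
    simp
  · have h1 : ∀ X : ℝ, ∫ u in (0 : ℝ)..X, β * Real.sin (τ * u) =
        β * (τ⁻¹ * (1 - Real.cos (τ * X))) := by
      intro X
      rw [intervalIntegral.integral_const_mul,
        intervalIntegral.integral_comp_mul_left (fun x => Real.sin x) h, integral_sin]
      simp
    have h2 : Tendsto (fun X : ℝ => X⁻¹ * (β * (τ⁻¹ * (1 - Real.cos (τ * X))))) atTop (𝓝 0) := by
      refine Tendsto.zero_mul_isBoundedUnder_le tendsto_inv_atTop_zero ?_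
      refine ⟨|β| * |τ⁻¹| * 2, ?_⟩
      rw [eventually_map]
      filter_upwards with X
      simp only [Function.comp, Real.norm_eq_abs, abs_mul]
      rw [← mul_assoc]
      refine mul_le_mul_of_nonneg_left ?_ (by positivity)
      have h3 := Real.cos_le_one (τ * X)
      have h4 := Real.neg_one_le_cos (τ * X)
      rw [abs_le]
      constructor <;> linarith
    exact h2.congr fun X => by rw [h1]

lemma re_exp (z : ℂ) (x : ℝ) : (z * Complex.exp (((-x : ℝ) : ℂ) * Complex.I)).re =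
    z.re * Real.cos x + z.im * Real.sin x := by
  rw [Complex.mul_re, Complex.exp_ofReal_mul_I_re, Complex.exp_ofReal_mul_I_im, Real.cos_neg,
    Real.sin_neg]
  ring

/-- mean values of exponential polynomials -/
lemma mean_exp {N : ℕ} (z : Fin N → ℂ) (τ : Fin N → ℝ) :
    Tendsto (avg fun u : ℝ => (∑ k, z k *
      Complex.exp (((-(τ k * u) : ℝ) : ℂ) * Complex.I)).re) atTop
      (𝓝 (∑ k, if τ k = 0 then z k else 0).re) := by
  have h1 := tendsto_mean_trig τ (fun k => (z k).re)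
  have h2 : Tendsto (fun X : ℝ => ∑ k, X⁻¹ * ∫ u in (0 : ℝ)..X, (z k).im * Real.sin (τ k * u))
      atTop (𝓝 0) := by
    have h3 := tendsto_finsetSum Finset.univ fun k _ => tendsto_sin (τ k) ((z k).im)
    rwa [Finset.sum_const_zero] at h3
  have h4 := h1.add h2
  rw [add_zero] at h4
  have h5 : (∑ k, if τ k = 0 then z k else 0).re = ∑ k, if τ k = 0 then (z k).re else 0 := by
    rw [Complex.re_sum]
    refine Finset.sum_congr rfl fun k _ => ?_
    split_ifs
    · rfl
    · rfl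
  rw [h5]
  refine h4.congr fun X => ?_
  rw [avg, ← Finset.mul_sum, ← mul_add, ← intervalIntegral.integral_finsetSum,
    ← intervalIntegral.integral_add]
  · congr 1
    refine intervalIntegral.integral_congr fun u _ => ?_
    rw [Complex.re_sum, ← Finset.sum_add_distrib]
    refine Finset.sum_congr rfl fun k _ => ?_
    rw [re_exp]
  · exact Continuous.intervalIntegrable (by fun_prop) _ _
  · exact Continuous.intervalIntegrable (by fun_prop) _ _
  · intro k _
    exact Continuous.intervalIntegrable (by fun_prop) _ _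

/-- uniform limits of functions with a mean value -/
lemma exists_mean' {h : ℝ → ℝ} (hc : Continuous h)
    (happ : ∀ ε : ℝ, 0 < ε → ∃ (p : ℝ → ℝ) (m : ℝ), Continuous p ∧ Tendsto (avg p) atTop (𝓝 m) ∧
      ∀ u : ℝ, |h u - p u| ≤ ε) :
    ∃ m : ℝ, Tendsto (avg h) atTop (𝓝 m) ∧
      ∀ (ε : ℝ) (p : ℝ → ℝ) (m' : ℝ), Continuous p → Tendsto (avg p) atTop (𝓝 m') →
        (∀ u : ℝ, |h u - p u| ≤ ε) → |m - m'| ≤ ε := by
  have hcau : CauchySeq (avg h) := by
    rw [Metric.cauchySeq_iff']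
    intro ε hε
    obtain ⟨p, m, hpc, hpm, hp⟩ := happ (ε / 4) (by linarith)
    have h1 := hpm.eventually (Metric.ball_mem_nhds _ (show 0 < ε / 8 by linarith))
    obtain ⟨X₀, hX₀⟩ := eventually_atTop.mp (h1.and (eventually_gt_atTop 0))
    refine ⟨X₀, fun X hX => ?_⟩
    obtain ⟨h2, h3⟩ := hX₀ X hX
    obtain ⟨h4, h5⟩ := hX₀ X₀ le_rfl
    rw [Real.dist_eq] at h2 h4
    have h6 := abs_avg_sub_le hc hpc hp h3
    have h7 := abs_avg_sub_le hc hpc hp h5
    rw [Real.dist_eq]
    have h8 := abs_lt.mp h2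
    have h9 := abs_lt.mp h4
    have h10 := abs_le.mp h6
    have h11 := abs_le.mp h7
    rw [abs_lt]
    constructor <;> linarith [h8.1, h8.2, h9.1, h9.2, h10.1, h10.2, h11.1, h11.2]
  obtain ⟨m, hm⟩ := cauchySeq_tendsto_of_complete hcau
  refine ⟨m, hm, fun ε p m' hpc hpm hp => ?_⟩
  refine le_of_tendsto (hm.sub hpm).abs ?_
  filter_upwards [eventually_gt_atTop 0] with X hX
  exact abs_avg_sub_le hc hpc hp hX

end V90

section Mean

variable {G : Type*} [Group G] [Fintype G]

open V90 in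
/-- V1: mean values, and approximation of `|Re S|` by `Re` of exponential polynomials with class
functions as coefficients. -/
theorem exists_mean_abs {n : ℕ} (f : Fin n → G → ℂ) (hf : ∀ j, IsClassFn (f j)) (t : Fin n → ℝ) :
    ∃ B : ℝ, Tendsto (fun X : ℝ => X⁻¹ * ∫ u in (0 : ℝ)..X,
        (∑ g : G, |(∑ j, f j g * Complex.exp (((-(t j * u) : ℝ) : ℂ) * Complex.I)).re|) /
          Fintype.card G) atTop (𝓝 B) ∧
      ∀ ε : ℝ, 0 < ε → ∃ (N : ℕ) (F : Fin N → G → ℂ) (τ : Fin N → ℝ), (∀ k, IsClassFn (F k)) ∧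
        (∀ (g : G) (u : ℝ), |(∑ j, f j g * Complex.exp (((-(t j * u) : ℝ) : ℂ) * Complex.I)).re| ≤
          (∑ k, F k g * Complex.exp (((-(τ k * u) : ℝ) : ℂ) * Complex.I)).re) ∧
        (∑ k, if τ k = 0 then (∑ g, F k g) / Fintype.card G else 0).re ≤ B + ε := by
  have hG : (0 : ℝ) < Fintype.card G := by exact_mod_cast Fintype.card_pos
  -- the averages of approximants
  have hP : ∀ (N : ℕ) (F : Fin N → G → ℂ) (τ : Fin N → ℝ) (u : ℝ),
      (∑ k, ((∑ g, F k g) / Fintype.card G) *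
        Complex.exp (((-(τ k * u) : ℝ) : ℂ) * Complex.I)).re =
      (∑ g : G, (∑ k, F k g * Complex.exp (((-(τ k * u) : ℝ) : ℂ) * Complex.I)).re) /
        Fintype.card G := by
    intro N F τ u
    rw [← Complex.re_sum, Finset.sum_comm, ← Complex.ofReal_natCast, ← Complex.div_ofReal_re,
      Finset.sum_div]
    congr 1
    refine Finset.sum_congr rfl fun k _ => ?_
    rw [← Finset.sum_mul]
    ring
  have hclose : ∀ (ε : ℝ) (N : ℕ) (F : Fin N → G → ℂ) (τ : Fin N → ℝ),
      (∀ (g : G) (u : ℝ), ‖((|(∑ j, f j g *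
        Complex.exp (((-(t j * u) : ℝ) : ℂ) * Complex.I)).re| : ℝ) : ℂ) -
        ∑ k, F k g * Complex.exp (((-(τ k * u) : ℝ) : ℂ) * Complex.I)‖ ≤ ε) → ∀ u : ℝ,
      |(∑ g : G, |(∑ j, f j g * Complex.exp (((-(t j * u) : ℝ) : ℂ) * Complex.I)).re|) /
          Fintype.card G - (∑ k, ((∑ g, F k g) / Fintype.card G) *
        Complex.exp (((-(τ k * u) : ℝ) : ℂ) * Complex.I)).re| ≤ ε := by
    intro ε N F τ h u
    rw [hP N F τ u, ← sub_div, ← Finset.sum_sub_distrib, abs_div, abs_of_pos hG,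
      div_le_iff₀ hG]
    refine (Finset.abs_sum_le_sum_abs _ _).trans ?_
    have h1 : ∀ g ∈ (Finset.univ : Finset G),
        |(|(∑ j, f j g * Complex.exp (((-(t j * u) : ℝ) : ℂ) * Complex.I)).re|) -
        (∑ k, F k g * Complex.exp (((-(τ k * u) : ℝ) : ℂ) * Complex.I)).re| ≤ ε := by
      intro g _
      have h2 := (Complex.abs_re_le_norm _).trans (h g u)
      rwa [Complex.sub_re, Complex.ofReal_re] at h2
    refine (Finset.sum_le_sum h1).trans (le_of_eq ?_)
    rw [Finset.sum_const, Finset.card_univ, nsmul_eq_mul, mul_comm]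
  obtain ⟨B, hB, hB'⟩ := exists_mean' (h := fun u : ℝ =>
      (∑ g : G, |(∑ j, f j g * Complex.exp (((-(t j * u) : ℝ) : ℂ) * Complex.I)).re|) /
          Fintype.card G) (by
        refine Continuous.div_const (continuous_finsetSum _ fun g _ => ?_) _
        refine continuous_abs.comp (Complex.continuous_re.comp ?_)
        exact continuous_finsetSum _ fun j _ => by fun_prop)
    (by
      intro ε hε
      obtain ⟨N, F, τ, hF, hap⟩ := approx f hf t hε
      refine ⟨_, _, ?_, mean_exp (fun k => (∑ g, F k g) / Fintype.card G) τ,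
        hclose ε N F τ hap⟩
      refine Complex.continuous_re.comp ?_
      exact continuous_finsetSum _ fun j _ => by fun_prop)
  refine ⟨B, hB, fun ε hε => ?_⟩
  obtain ⟨N, F, τ, hF, hap⟩ := approx f hf t (half_pos hε)
  have hm := hB' (ε / 2) _ _ (by
    refine Complex.continuous_re.comp ?_
    exact continuous_finsetSum _ fun j _ => by fun_prop)
    (mean_exp (fun k => (∑ g, F k g) / Fintype.card G) τ) (hclose (ε / 2) N F τ hap)
  refine ⟨N + 1, Fin.cons (fun _ => ((ε / 2 : ℝ) : ℂ)) F, Fin.cons 0 τ, ?_, ?_, ?_⟩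
  · intro k
    refine Fin.cases ?_ (fun k => ?_) k
    · intro a b
      rfl
    · rw [Fin.cons_succ]
      exact hF k
  · intro g u
    rw [Fin.sum_univ_succ]
    simp only [Fin.cons_zero, Fin.cons_succ]
    rw [zero_mul, neg_zero, Complex.ofReal_zero, zero_mul, Complex.exp_zero, mul_one,
      Complex.add_re, Complex.ofReal_re]
    have h2 := (Complex.abs_re_le_norm _).trans (hap g u)
    rw [Complex.sub_re, Complex.ofReal_re] at h2
    have h3 := (abs_le.1 h2).2
    linarith
  · rw [Fin.sum_univ_succ]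
    simp only [Fin.cons_zero, Fin.cons_succ]
    rw [if_true, Complex.add_re]
    have h1 : ((∑ _g : G, ((ε / 2 : ℝ) : ℂ)) / Fintype.card G).re = ε / 2 := by
      rw [Finset.sum_const, Finset.card_univ, nsmul_eq_mul, mul_div_cancel_left₀]
      · exact Complex.ofReal_re _
      · exact_mod_cast hG.ne'
    rw [h1]
    have h2 := (abs_le.1 hm).1
    linarith

end Mean

end Pool.Agent.Lib.MP_bf61d2_nt.Artin
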