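import Pool.Agent.Lib.MP_bf61d2_nt.Artin.Z69

set_option autoImplicit false

/-!
Module ZB, first part (EDGE REPULSION, MP_bf61d2_nt): the difference sums of `Z69` are analytic on
a half plane `Re s > 1 - 1 / (2 n)` and of polynomial growth there.
-/

namespace Pool.Agent.Lib.MP_bf61d2_nt.Artin.ZB69

open NumberField NumberField.mixedEmbedding NumberField.Units NumberField.InfinitePlace
open NumberField.mixedEmbedding.fundamentalCone NumberField.Units.dirichletUnitTheorem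
open Module Filter Topology
open Pool.Agent.Lib.MP_bf61d2_nt.Zeta
open Pool.Agent.Lib.MP_bf61d2_nt.Artin.Z69
open scoped Classical nonZeroDivisors

variable {K : Type*} [Field K] [NumberField K]

/-- The Lipschitz estimate, with explicit dependence on the size of `s`. -/
theorem lipschitz_u (K : Type*) [Field K] [NumberField K] {c σ₀ : ℝ} (hc : 0 < c)
    (hσ : 0 < σ₀) : ∃ C₁ C₂ : ℝ, 0 < C₁ ∧ 0 < C₂ ∧ ∀ R : ℝ, 1 ≤ R → ∀ x y : mixedSpace K,
      mixedEmbedding.norm x ≠ 0 → mixedEmbedding.norm y ≠ 0 → ‖x - y‖ ≤ c → C₂ * R ≤ ‖x‖ →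
      ∀ s : ℂ, σ₀ ≤ s.re → ‖s‖ ≤ R →
        ‖hh s y - hh s x‖ ≤ C₁ * R * ‖x‖ ^ (-(finrank ℚ K * σ₀ + 1)) := by
  obtain ⟨κ, hκ0, hκ1, hκ⟩ := exists_kappa K
  obtain ⟨A, hA0, hA⟩ := exists_crd_bound K
  set n : ℝ := (finrank ℚ K : ℝ) with hn
  have hn0 : 0 < n := by rw [hn]; exact_mod_cast finrank_pos
  set r : ℝ := (rank K : ℝ) with hr
  have hr0 : 0 ≤ r := Nat.cast_nonneg _
  refine ⟨(κ / 4) ^ (-(n * σ₀)) * (4 * r * A + 2 * n) * (4 * c / κ),
    4 / κ + 8 * c / κ + n * (4 * c / κ), by positivity, by positivity, ?_⟩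
  intro R hR1 x y hx hy hxy hX s hs1 hs2
  have hR : 0 < R := by linarith
  have p1 : 0 < 4 / κ := by positivity
  have p2 : 0 < 8 * c / κ := by positivity
  have p3 : 0 < n * (4 * c / κ) := by positivity
  have hX1 : 4 / κ ≤ ‖x‖ := by nlinarith
  have hX2 : 8 * c / κ ≤ ‖x‖ := by nlinarith
  have hX3 : R * n * (4 * c / κ) ≤ ‖x‖ := by nlinarith
  have hXpos : 0 < ‖x‖ := lt_of_lt_of_le (by positivity) hX1
  by_cases hP : Phi x ≠ 0 ∨ Phi y ≠ 0
  swap
  · push Not at hP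
    rw [hh, hh, if_neg hx, if_neg hy, hP.1, hP.2]
    simp only [Complex.ofReal_zero, zero_mul, sub_self, norm_zero]
    positivity
  have hcmp := comparable hκ0 hκ1 hκ (x := x) (y := y) rfl hx hy hxy
    (by rw [div_le_iff₀ hκ0] at hX2; linarith) hP
  set m : ℝ := κ / 4 * ‖x‖ with hm
  have hm0 : 0 < m := by positivity
  have hm1 : 1 ≤ m := by
    rw [hm]
    rw [div_le_iff₀ hκ0] at hX1
    linarith
  set ε : ℝ := c / m with hε
  have hε0 : 0 < ε := by positivity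
  have hεeq : ε = 4 * c / κ * ‖x‖⁻¹ := by
    rw [hε, hm]; field_simp
  -- logarithms at places
  have h1 : ∀ w, |Real.log (normAtPlace w x) - Real.log (normAtPlace w y)| ≤ ε := by
    intro w
    refine (abs_log_sub_le hm0 (hcmp w).1 (hcmp w).2).trans ?_
    exact div_le_div_of_nonneg_right ((abs_normAtPlace_sub_le w x y).trans hxy) hm0.le
  have h2 : |Real.log (mixedEmbedding.norm x) - Real.log (mixedEmbedding.norm y)| ≤ n * ε := by
    rw [log_norm_eq hx, log_norm_eq hy, ← Finset.sum_sub_distrib]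
    refine (Finset.abs_sum_le_sum_abs _ _).trans ?_
    have e : n = ∑ w : InfinitePlace K, (w.mult : ℝ) := by
      rw [hn]; exact_mod_cast (sum_mult_eq (K := K)).symm
    rw [e, Finset.sum_mul]
    refine Finset.sum_le_sum fun w _ => ?_
    rw [← mul_sub, abs_mul, abs_of_nonneg (Nat.cast_nonneg _)]
    exact mul_le_mul_of_nonneg_left (h1 w) (Nat.cast_nonneg _)
  have h3 : ‖logMap x - logMap y‖ ≤ 4 * ε := by
    refine (pi_norm_le_iff_of_nonneg (by positivity)).mpr fun w => ?_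
    rw [Pi.sub_apply, logMap_apply, logMap_apply, ← mul_sub, Real.norm_eq_abs, abs_mul,
      abs_of_nonneg (Nat.cast_nonneg _)]
    have e : Real.log (normAtPlace w.1 x) - Real.log (mixedEmbedding.norm x) * n⁻¹ -
        (Real.log (normAtPlace w.1 y) - Real.log (mixedEmbedding.norm y) * n⁻¹) =
        (Real.log (normAtPlace w.1 x) - Real.log (normAtPlace w.1 y)) -
          (Real.log (mixedEmbedding.norm x) - Real.log (mixedEmbedding.norm y)) * n⁻¹ := by ring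
    have h4 : |Real.log (normAtPlace w.1 x) - Real.log (mixedEmbedding.norm x) * n⁻¹ -
        (Real.log (normAtPlace w.1 y) - Real.log (mixedEmbedding.norm y) * n⁻¹)| ≤ 2 * ε := by
      rw [e]
      refine (abs_sub _ _).trans ?_
      rw [abs_mul, abs_of_pos (inv_pos.mpr hn0)]
      have h5 := mul_le_mul_of_nonneg_right h2 (inv_pos.mpr hn0).le
      have h6 : n * ε * n⁻¹ = ε := by field_simp
      linarith [h1 w.1]
    calc (w.1.mult : ℝ) * _ ≤ 2 * (2 * ε) :=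
          mul_le_mul (mult_le_two _) h4 (abs_nonneg _) (by norm_num)
      _ = 4 * ε := by ring
  have h4 : |Phi y - Phi x| ≤ 4 * r * A * ε := by
    refine (prod_sub_le Finset.univ (fun i => hat (crd y i)) (fun i => hat (crd x i))
      (fun _ => hat_nonneg _) (fun _ => hat_le_one _) (fun _ => hat_nonneg _)
      (fun _ => hat_le_one _)).trans ?_
    calc ∑ i, |hat (crd y i) - hat (crd x i)| ≤ ∑ _i : Fin (rank K), A * (4 * ε) := by
          refine Finset.sum_le_sum fun i _ => (hat_sub_le _ _).trans ?_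
          rw [abs_sub_comm]
          exact (hA x y i).trans (mul_le_mul_of_nonneg_left h3 hA0.le)
      _ = 4 * r * A * ε := by
          rw [Finset.sum_const, nsmul_eq_mul, Finset.card_univ, Fintype.card_fin]; ring
  -- the exponentials
  have hN : ∀ z : mixedSpace K, (∀ w, m ≤ normAtPlace w z) →
      ‖Complex.exp (-(s * (Real.log (mixedEmbedding.norm z) : ℂ)))‖ ≤ m ^ (-(n * σ₀)) := by
    intro z hz
    have h5 := pow_le_norm hm0.le hz
    have h6 : (1 : ℝ) ≤ m ^ finrank ℚ K := one_le_pow₀ hm1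
    have h7 : 0 < mixedEmbedding.norm z := by linarith
    have h8 : (-(s * (Real.log (mixedEmbedding.norm z) : ℂ))).re =
        -(s.re * Real.log (mixedEmbedding.norm z)) := by
      rw [Complex.neg_re, Complex.re_mul_ofReal]
    rw [Complex.norm_exp, h8, Real.rpow_def_of_pos hm0]
    apply Real.exp_le_exp.mpr
    have h9 : n * Real.log m ≤ Real.log (mixedEmbedding.norm z) := by
      have := Real.log_le_log (by positivity) h5
      rwa [Real.log_pow] at this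
    have h10 : 0 ≤ Real.log m := Real.log_nonneg hm1
    have h11 : σ₀ * (n * Real.log m) ≤ s.re * Real.log (mixedEmbedding.norm z) :=
      mul_le_mul hs1 h9 (by positivity) (by linarith)
    linarith
  set ex := Complex.exp (-(s * (Real.log (mixedEmbedding.norm x) : ℂ))) with hex
  set ey := Complex.exp (-(s * (Real.log (mixedEmbedding.norm y) : ℂ))) with hey
  have hNx := hN x fun w => (hcmp w).1
  have hNy := hN y fun w => (hcmp w).2
  rw [← hex] at hNx
  rw [← hey] at hNy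
  have hdiff : ‖ey - ex‖ ≤ m ^ (-(n * σ₀)) * (2 * R * n * ε) := by
    have e1 : ey = ex * Complex.exp (-(s * ((Real.log (mixedEmbedding.norm y) -
        Real.log (mixedEmbedding.norm x) : ℝ) : ℂ))) := by
      rw [hex, hey, ← Complex.exp_add]
      congr 1
      push_cast
      ring
    have e2 : ‖-(s * ((Real.log (mixedEmbedding.norm y) -
        Real.log (mixedEmbedding.norm x) : ℝ) : ℂ))‖ ≤ R * (n * ε) := by
      rw [norm_neg, norm_mul, Complex.norm_real, Real.norm_eq_abs, abs_sub_comm]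
      exact mul_le_mul hs2 h2 (abs_nonneg _) hR.le
    have e3 : R * (n * ε) ≤ 1 := by
      rw [hεeq]
      calc R * (n * (4 * c / κ * ‖x‖⁻¹)) = R * n * (4 * c / κ) * ‖x‖⁻¹ := by ring
        _ ≤ ‖x‖ * ‖x‖⁻¹ := mul_le_mul_of_nonneg_right hX3 (inv_nonneg.mpr hXpos.le)
        _ = 1 := mul_inv_cancel₀ hXpos.ne'
    have e4 := Complex.norm_exp_sub_one_le (e2.trans e3)
    have e5 : ey - ex = ex * (Complex.exp (-(s * ((Real.log (mixedEmbedding.norm y) -
        Real.log (mixedEmbedding.norm x) : ℝ) : ℂ))) - 1) := by rw [mul_sub, ← e1, mul_one]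
    rw [e5, norm_mul]
    refine mul_le_mul hNx (e4.trans ?_) (norm_nonneg _) (by positivity)
    calc 2 * _ ≤ 2 * (R * (n * ε)) := mul_le_mul_of_nonneg_left e2 (by norm_num)
      _ = 2 * R * n * ε := by ring
  have hfin : hh s y - hh s x = ((Phi y - Phi x : ℝ) : ℂ) * ey + (Phi x : ℂ) * (ey - ex) := by
    rw [hh, hh, if_neg hx, if_neg hy, ← hex, ← hey]
    push_cast
    ring
  rw [hfin]
  refine (norm_add_le _ _).trans ?_
  rw [norm_mul, norm_mul, Complex.norm_real, Complex.norm_real, Real.norm_eq_abs, Real.norm_eq_abs,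
    abs_of_nonneg (Phi_nonneg x)]
  have hmp : 0 < m ^ (-(n * σ₀)) := Real.rpow_pos_of_pos hm0 _
  have t1 : |Phi y - Phi x| * ‖ey‖ ≤ 4 * r * A * ε * m ^ (-(n * σ₀)) :=
    mul_le_mul h4 hNy (norm_nonneg _) (by positivity)
  have t2 : Phi x * ‖ey - ex‖ ≤ m ^ (-(n * σ₀)) * (2 * R * n * ε) :=
    (mul_le_of_le_one_left (norm_nonneg _) (Phi_le_one x)).trans hdiff
  have t3 : m ^ (-(n * σ₀)) * ε = (κ / 4) ^ (-(n * σ₀)) * (4 * c / κ) *
      ‖x‖ ^ (-(n * σ₀ + 1)) := by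
    rw [hm, Real.mul_rpow (by positivity) hXpos.le, hεeq, neg_add, Real.rpow_add hXpos,
      Real.rpow_neg_one]
    ring
  have t4 : 0 ≤ m ^ (-(n * σ₀)) * ε := by positivity
  have t5 : 4 * r * A + 2 * R * n ≤ (4 * r * A + 2 * n) * R := by
    have : 0 ≤ 4 * r * A := by positivity
    nlinarith
  calc _ ≤ 4 * r * A * ε * m ^ (-(n * σ₀)) + m ^ (-(n * σ₀)) * (2 * R * n * ε) := add_le_add t1 t2
    _ = (4 * r * A + 2 * R * n) * (m ^ (-(n * σ₀)) * ε) := by ring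
    _ ≤ (4 * r * A + 2 * n) * R * (m ^ (-(n * σ₀)) * ε) := mul_le_mul_of_nonneg_right t5 t4
    _ = _ := by rw [t3]; ring


section Sum

variable {ι : Type*} [Fintype ι] (b : Basis ι ℝ (mixedSpace K))

lemma diff_bound_u (hN : ∀ a : ι → ℤ, a ≠ 0 → 1 ≤ mixedEmbedding.norm (pt b a)) (m : ℕ)
    [NeZero m] {σ₀ : ℝ} (hσ : 0 < σ₀) : ∃ C : ℝ, 0 < C ∧ ∀ R : ℝ, 1 ≤ R →
      ∀ (y : ι → ℤ), y ≠ 0 → ∀ c : ι → Fin m, ∀ s : ℂ, σ₀ ≤ s.re → ‖s‖ ≤ R →
      ‖hh s (pt b (dv ι m (y, c))) - hh s (pt b (fun i => y i * m))‖ ≤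
        C * R ^ (finrank ℚ K * σ₀ + 1) * ‖pt b y‖ ^ (-(finrank ℚ K * σ₀ + 1)) := by
  have hm0 : m ≠ 0 := NeZero.ne m
  have hm1 : (1 : ℝ) ≤ m := by exact_mod_cast Nat.one_le_iff_ne_zero.mpr hm0
  set c₀ : ℝ := ∑ i, m * ‖b i‖ + 1 with hc₀
  have hc₀0 : 0 < c₀ := by
    have : 0 ≤ ∑ i, m * ‖b i‖ := Finset.sum_nonneg fun i _ => by positivity
    linarith
  obtain ⟨C₁, C₂, hC₁, hC₂, hlip⟩ := lipschitz_u K hc₀0 hσ
  set e : ℝ := finrank ℚ K * σ₀ + 1 with he
  have he1 : 1 ≤ e := by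
    have : (0 : ℝ) ≤ finrank ℚ K * σ₀ := by positivity
    linarith
  have he0 : 0 < e := by linarith
  refine ⟨C₁ + 2 * C₂ ^ e, by positivity, fun R hR y hy c s hs1 hs2 => ?_⟩
  have hR0 : 0 < R := by linarith
  have hRe : R ≤ R ^ e := by
    calc R = R ^ (1 : ℝ) := (Real.rpow_one R).symm
      _ ≤ R ^ e := Real.rpow_le_rpow_of_exponent_le hR he1
  set x := pt b (fun i => y i * m) with hx
  set x' := pt b (dv ι m (y, c)) with hx'
  have hxm : x = (m : ℝ) • pt b y := pt_mul b m y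
  have hxn : ‖x‖ = m * ‖pt b y‖ := by
    rw [hxm, _root_.norm_smul, Real.norm_eq_abs, abs_of_nonneg (Nat.cast_nonneg _)]
  have hy0 : 0 < ‖pt b y‖ := norm_pos_iff.mpr (pt_ne_zero b hy)
  have hyx : ‖pt b y‖ ≤ ‖x‖ := by
    rw [hxn]; exact le_mul_of_one_le_left hy0.le hm1
  have h0 : (fun i => y i * (m : ℤ)) ≠ 0 := by
    intro h
    apply hy
    funext i
    have := congrFun h i
    simpa [hm0] using this
  have h0' : dv ι m (y, c) ≠ 0 := by
    intro h
    have h1 : dv ι m (0, 0) = 0 := by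
      rw [dv_apply]; funext i; simp
    rw [← h1] at h
    exact hy (congrArg Prod.fst ((dv ι m).injective h))
  have hNx := hN _ h0
  have hNx' := hN _ h0'
  rw [← hx] at hNx
  rw [← hx'] at hNx'
  have hdist : ‖x - x'‖ ≤ c₀ := by
    rw [hx, hx', dv_apply, pt_add, sub_add_cancel_left, norm_neg, pt]
    refine (norm_sum_le _ _).trans ?_
    have : ∑ i, ‖((((c i : ℕ) : ℤ) : ℝ)) • b i‖ ≤ ∑ i, m * ‖b i‖ := by
      refine Finset.sum_le_sum fun i _ => ?_
      rw [_root_.norm_smul, Real.norm_eq_abs]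
      refine mul_le_mul_of_nonneg_right ?_ (norm_nonneg _)
      rw [Int.cast_natCast, abs_of_nonneg (Nat.cast_nonneg _)]
      exact_mod_cast (c i).2.le
    linarith
  have hpow : (0 : ℝ) < ‖pt b y‖ ^ (-e) := Real.rpow_pos_of_pos hy0 _
  have hRp : 0 < R ^ e := Real.rpow_pos_of_pos hR0 _
  rcases le_or_gt (C₂ * R) ‖x‖ with h | h
  · refine (hlip R hR x x' (by linarith) (by linarith) hdist h s hs1 hs2).trans ?_
    have h2 : ‖x‖ ^ (-e) ≤ ‖pt b y‖ ^ (-e) :=
      Real.rpow_le_rpow_of_nonpos hy0 hyx (by linarith)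
    have h3 : 0 ≤ 2 * C₂ ^ e * R ^ e * ‖pt b y‖ ^ (-e) := by positivity
    have h4 : C₁ * R ≤ C₁ * R ^ e := mul_le_mul_of_nonneg_left hRe hC₁.le
    have hxe : 0 ≤ ‖x‖ ^ (-e) := Real.rpow_nonneg (norm_nonneg _) _
    calc C₁ * R * ‖x‖ ^ (-e) ≤ C₁ * R ^ e * ‖x‖ ^ (-e) := mul_le_mul_of_nonneg_right h4 hxe
      _ ≤ C₁ * R ^ e * ‖pt b y‖ ^ (-e) := mul_le_mul_of_nonneg_left h2 (by positivity)
      _ ≤ C₁ * R ^ e * ‖pt b y‖ ^ (-e) + 2 * C₂ ^ e * R ^ e * ‖pt b y‖ ^ (-e) := by linarith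
      _ = (C₁ + 2 * C₂ ^ e) * R ^ e * ‖pt b y‖ ^ (-e) := by ring
  · have h2 : ‖hh s x' - hh s x‖ ≤ 2 := by
      refine (norm_sub_le _ _).trans ?_
      linarith [norm_hh_le_one (s := s) (by linarith) hNx, norm_hh_le_one (s := s) (by linarith) hNx']
    have h3 : 1 ≤ C₂ ^ e * R ^ e * ‖pt b y‖ ^ (-e) := by
      have h4 : ‖pt b y‖ ^ e ≤ (C₂ * R) ^ e := Real.rpow_le_rpow hy0.le (hyx.trans h.le) he0.le
      rw [Real.mul_rpow hC₂.le hR0.le] at h4
      calc (1 : ℝ) = ‖pt b y‖ ^ e * ‖pt b y‖ ^ (-e) := by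
            rw [← Real.rpow_add hy0, add_neg_cancel, Real.rpow_zero]
        _ ≤ _ := mul_le_mul_of_nonneg_right h4 hpow.le
    have h5 : 0 ≤ C₁ * R ^ e * ‖pt b y‖ ^ (-e) := by positivity
    calc ‖hh s x' - hh s x‖ ≤ 2 * (C₂ ^ e * R ^ e * ‖pt b y‖ ^ (-e)) := by linarith
      _ ≤ C₁ * R ^ e * ‖pt b y‖ ^ (-e) + 2 * (C₂ ^ e * R ^ e * ‖pt b y‖ ^ (-e)) := by linarith
      _ = (C₁ + 2 * C₂ ^ e) * R ^ e * ‖pt b y‖ ^ (-e) := by ring

/-- The abscissa. -/
noncomputable def sg (K : Type*) [Field K] [NumberField K] : ℝ := 1 - 1 / (2 * (finrank ℚ K : ℝ))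

lemma sg_bounds (K : Type*) [Field K] [NumberField K] : 0 < sg K ∧ sg K < 1 ∧
    (finrank ℚ K : ℝ) < finrank ℚ K * sg K + 1 := by
  have hn : (1 : ℝ) ≤ finrank ℚ K := by exact_mod_cast finrank_pos
  have h2n : 1 / (2 * (finrank ℚ K : ℝ)) ≤ 1 / 2 := by
    apply div_le_div_of_nonneg_left (by norm_num) (by norm_num) (by linarith)
  have h3 : 0 < 1 / (2 * (finrank ℚ K : ℝ)) := by positivity
  have h4 : (finrank ℚ K : ℝ) * (1 / (2 * (finrank ℚ K : ℝ))) = 1 / 2 := by field_simp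
  refine ⟨by rw [sg]; linarith, by rw [sg]; linarith, ?_⟩
  rw [sg]
  nlinarith

theorem Dsw_props (hN : ∀ a : ι → ℤ, a ≠ 0 → 1 ≤ mixedEmbedding.norm (pt b a)) (m : ℕ)
    [NeZero m] (p : (ι → Fin m) → ℂ) :
    DifferentiableOn ℂ (Dsw b m p) {s | sg K < s.re} ∧
    ∃ C : ℝ, 0 < C ∧ ∀ s : ℂ, sg K < s.re →
      ‖Dsw b m p s‖ ≤ C * (1 + ‖s‖) ^ (finrank ℚ K + 1) := by
  obtain ⟨hσ0, hσ1, hσn⟩ := sg_bounds K
  obtain ⟨C, hC0, hC⟩ := diff_bound_u b hN m hσ0
  set e : ℝ := finrank ℚ K * sg K + 1 with he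
  have hn : (1 : ℝ) ≤ finrank ℚ K := by exact_mod_cast finrank_pos
  have he2 : e ≤ (finrank ℚ K + 1 : ℕ) := by
    push_cast
    nlinarith
  have he0 : 0 ≤ e := by linarith
  have hs1 := summable_pt b (ρ := e) (by rw [mixedEmbedding.finrank]; exact hσn)
  have hs2 : Summable fun y : ι → ℤ => if y = 0 then (1 : ℝ) else 0 :=
    summable_of_ne_finset_zero (s := {0}) fun y hy => by
      rw [if_neg (by simpa using hy)]
  set P : ℝ := ∑ c, ‖p c‖ with hP
  have hP0 : 0 ≤ P := Finset.sum_nonneg fun _ _ => norm_nonneg _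
  have hterm : ∀ R : ℝ, 1 ≤ R → ∀ y : ι → ℤ, ∀ s : ℂ, sg K < s.re → ‖s‖ ≤ R →
      ‖∑ c : ι → Fin m, p c * (hh s (pt b (dv ι m (y, c))) - hh s (pt b (fun i => y i * m)))‖ ≤
        P * (C * R ^ e * ‖pt b y‖ ^ (-e) + if y = 0 then (1 : ℝ) else 0) := by
    intro R hR y s hs hsR
    have hR0 : 0 ≤ R := by linarith
    refine (norm_sum_le _ _).trans ?_
    rw [hP, Finset.sum_mul]
    refine Finset.sum_le_sum fun c _ => ?_
    rw [norm_mul]
    refine mul_le_mul_of_nonneg_left ?_ (norm_nonneg _)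
    by_cases hy : y = 0
    · rw [if_pos hy, hy]
      have e1 : (fun i => (0 : ι → ℤ) i * (m : ℤ)) = 0 := by funext i; simp
      rw [e1, pt_zero, hh_zero, sub_zero]
      have h4 : ‖hh s (pt b (dv ι m (0, c)))‖ ≤ 1 := by
        by_cases h5 : dv ι m (0, c) = 0
        · rw [h5, pt_zero, hh_zero, norm_zero]; norm_num
        · exact norm_hh_le_one (hσ0.trans hs).le (hN _ h5)
      have h6 : 0 ≤ C * R ^ e * ‖(0 : mixedSpace K)‖ ^ (-e) := by positivity
      linarith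
    · rw [if_neg hy, add_zero]
      exact hC R hR y hy c s hs.le hsR
  have hdiffR : ∀ R : ℝ, 1 ≤ R →
      DifferentiableOn ℂ (Dsw b m p) ({s | sg K < s.re} ∩ {s | ‖s‖ < R}) := by
    intro R hR
    have hUo : IsOpen ({s : ℂ | sg K < s.re} ∩ {s : ℂ | ‖s‖ < R}) :=
      (isOpen_lt continuous_const Complex.continuous_re).inter
        (isOpen_lt continuous_norm continuous_const)
    have hs3 := ((hs1.mul_left (C * R ^ e)).add hs2).mul_left P
    refine Complex.differentiableOn_tsum_of_summable_norm hs3 (fun y => ?_) hUo fun y s hs => ?_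
    · exact (Differentiable.fun_sum fun c _ =>
        (((differentiable_hh _).sub (differentiable_hh _)).const_mul _)).differentiableOn
    · exact hterm R hR y s hs.1 hs.2.le
  refine ⟨?_, P * (C * (∑' y : ι → ℤ, ‖pt b y‖ ^ (-e)) + 1) + 1, ?_, ?_⟩
  · intro s hs
    have h1 := hdiffR (‖s‖ + 1) (by linarith [norm_nonneg s]) s ⟨hs, by
      show ‖s‖ < ‖s‖ + 1
      linarith⟩
    have hUo : IsOpen ({s : ℂ | sg K < s.re} ∩ {z : ℂ | ‖z‖ < ‖s‖ + 1}) :=
      (isOpen_lt continuous_const Complex.continuous_re).inter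
        (isOpen_lt continuous_norm continuous_const)
    exact (h1.differentiableAt (hUo.mem_nhds ⟨hs, by
      show ‖s‖ < ‖s‖ + 1
      linarith⟩)).differentiableWithinAt
  · have : 0 ≤ ∑' y : ι → ℤ, ‖pt b y‖ ^ (-e) := tsum_nonneg fun y => by positivity
    positivity
  · intro s hs
    set R : ℝ := 1 + ‖s‖ with hR
    have hR1 : 1 ≤ R := by rw [hR]; linarith [norm_nonneg s]
    have hR0 : 0 < R := by linarith
    have hs3 := ((hs1.mul_left (C * R ^ e)).add hs2).mul_left P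
    have h1 := tsum_of_norm_bounded hs3.hasSum fun y =>
      hterm R hR1 y s hs (by rw [hR]; linarith)
    have h2 : ∑' y : ι → ℤ, P * (C * R ^ e * ‖pt b y‖ ^ (-e) + if y = 0 then (1 : ℝ) else 0) =
        P * (C * R ^ e * (∑' y : ι → ℤ, ‖pt b y‖ ^ (-e)) + 1) := by
      rw [tsum_mul_left, (hs1.mul_left (C * R ^ e)).tsum_add hs2, tsum_mul_left, tsum_ite_eq]
    rw [h2] at h1
    refine h1.trans ?_
    have h3 : R ^ e ≤ R ^ (finrank ℚ K + 1) := by
      rw [← Real.rpow_natCast]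
      exact Real.rpow_le_rpow_of_exponent_le hR1 he2
    have h4 : (1 : ℝ) ≤ R ^ (finrank ℚ K + 1) := one_le_pow₀ hR1
    have h5 : 0 ≤ ∑' y : ι → ℤ, ‖pt b y‖ ^ (-e) := tsum_nonneg fun y => by positivity
    have h6 : C * R ^ e * (∑' y : ι → ℤ, ‖pt b y‖ ^ (-e)) ≤
        C * (∑' y : ι → ℤ, ‖pt b y‖ ^ (-e)) * R ^ (finrank ℚ K + 1) := by
      have := mul_le_mul_of_nonneg_left h3 (mul_nonneg hC0.le h5)
      linarith
    have h7 : C * R ^ e * (∑' y : ι → ℤ, ‖pt b y‖ ^ (-e)) + 1 ≤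
        (C * (∑' y : ι → ℤ, ‖pt b y‖ ^ (-e)) + 1) * R ^ (finrank ℚ K + 1) := by linarith
    have h8 := mul_le_mul_of_nonneg_left h7 hP0
    linarith

end Sum

end Pool.Agent.Lib.MP_bf61d2_nt.Artin.ZB69
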